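import Pool.Agent.Lib.MP_42de19_nt.CAD

set_option autoImplicit false
set_option linter.unusedSectionVars false

namespace Pool.Agent.Lib.MP42

open Set Topology

/-- Evaluation of rational polynomials on real points. -/
noncomputable def evR (n : ℕ) : MvPolynomial (Fin n) ℚ →+* ((Fin n → ℝ) → ℝ) :=
  RingHom.pi (fun x => (MvPolynomial.aeval x : MvPolynomial (Fin n) ℚ →ₐ[ℚ] ℝ).toRingHom)

theorem evR_apply {n : ℕ} (p : MvPolynomial (Fin n) ℚ) (x : Fin n → ℝ) :
    evR n p x = MvPolynomial.aeval x p := rfl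

theorem continuous_evR {n : ℕ} (p : MvPolynomial (Fin n) ℚ) : Continuous (evR n p) := by
  induction p using MvPolynomial.induction_on with
  | C a =>
    have : evR n (MvPolynomial.C a) = fun _ => (a : ℝ) := by
      funext x; rw [evR_apply]; simp
    rw [this]; exact continuous_const
  | add p q hp hq => rw [map_add]; exact hp.add hq
  | mul_X p i hp =>
    rw [map_mul]
    refine hp.mul ?_
    have : evR n (MvPolynomial.X i) = fun x => x i := by
      funext x; rw [evR_apply]; simp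
    rw [this]
    exact continuous_apply i

/-- Constants on a point. -/
noncomputable def evPt : ℚ →+* (Unit → ℝ) := RingHom.pi (fun _ => algebraMap ℚ ℝ)

theorem cad_evPt : CAD evPt := by
  intro B
  refine ⟨{Set.univ}, Set.finite_singleton _, by simp, ?_⟩
  intro C hC
  rw [Set.mem_singleton_iff] at hC
  subst hC
  refine ⟨?_, SA.univ, ?_⟩
  · exact isPreconnected_univ
  · intro b _ x _ y _ h
    exact h

theorem evMv_evPt {n : ℕ} (p : MvPolynomial (Fin n) ℚ) (u : Unit) (x : Fin n → ℝ) :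
    evMv n evPt p (u, x) = evR n p x := by
  rw [evMv_apply, evR_apply]
  rfl

theorem cad_evR (n : ℕ) : CAD (evR n) := by
  have h := cad_evPt.mv (fun a => continuous_of_discreteTopology) n
  let φ : (Fin n → ℝ) ≃ₜ Unit × (Fin n → ℝ) :=
    { toFun := fun x => ((), x)
      invFun := Prod.snd
      left_inv := fun x => rfl
      right_inv := fun x => rfl
      continuous_toFun := by fun_prop
      continuous_invFun := continuous_snd }
  exact h.transfer φ id id (fun b y => (evMv_evPt b () y).symm) (fun b y => (evMv_evPt b () y).symm)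

/-- The closure of a semialgebraic set over `ℚ` is semialgebraic over `ℚ`. -/
theorem SA.closure {n : ℕ} {S : Set (Fin n → ℝ)} (hS : SA (evR n) S) :
    SA (evR n) (closure S) := by
  classical
  have hc1 : ∀ a, Continuous (evR n a) := continuous_evR
  have hc2 : ∀ a, Continuous (evP (evR n) a) := continuous_evP hc1
  have hcad1 := cad_evR n
  have hcad2 := hcad1.poly hc1
  -- the big set
  let q : MvPolynomial (Fin n) (Polynomial (MvPolynomial (Fin n) ℚ)) :=
    MvPolynomial.C Polynomial.X -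
      ∑ i : Fin n, (MvPolynomial.C (Polynomial.C (MvPolynomial.X i)) - MvPolynomial.X i) ^ 2
  have hq : ∀ (x : Fin n → ℝ) (ε : ℝ) (y : Fin n → ℝ),
      evMv n (evP (evR n)) q ((x, ε), y) = ε - ∑ i, (x i - y i) ^ 2 := by
    intro x ε y
    rw [evMv_apply]
    simp only [q, MvPolynomial.eval₂_sub, MvPolynomial.eval₂_C, MvPolynomial.eval₂_sum,
      MvPolynomial.eval₂_pow, MvPolynomial.eval₂_X, evAt_apply, evP_X, evP_C, evR_apply,
      MvPolynomial.aeval_X]
  have hT : SA (evMv n (evP (evR n))) {p : ((Fin n → ℝ) × ℝ) × (Fin n → ℝ) |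
      p.2 ∈ S ∧ ∑ i, (p.1.1 i - p.2 i) ^ 2 < p.1.2} := by
    have h1 : SA (evMv n (evP (evR n))) (Prod.snd ⁻¹' S :
        Set (((Fin n → ℝ) × ℝ) × (Fin n → ℝ))) := by
      refine hS.comap (fun p => MvPolynomial.map (algebraMap ℚ _) p) Prod.snd ?_
      intro a y
      rw [evMv_apply, MvPolynomial.eval₂_map, evR_apply, MvPolynomial.aeval_def]
      congr 1
      exact Subsingleton.elim _ _
    have h2 := SA.pos (ev := evMv n (evP (evR n))) q
    have h3 : {p : ((Fin n → ℝ) × ℝ) × (Fin n → ℝ) |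
      p.2 ∈ S ∧ ∑ i, (p.1.1 i - p.2 i) ^ 2 < p.1.2} = Prod.snd ⁻¹' S ∩
        {p | 0 < evMv n (evP (evR n)) q p} := by
      ext ⟨⟨x, ε⟩, y⟩
      simp only [mem_ofPred_eq, mem_inter_iff, mem_preimage, hq, sub_pos]
    rw [h3]; exact h1.inter h2
  have hT' := hcad2.projMv hc2 n _ hT
  have hV : SA (evP (evR n)) ({p : (Fin n → ℝ) × ℝ | 0 < p.2} \
      (Prod.fst '' {p : ((Fin n → ℝ) × ℝ) × (Fin n → ℝ) |
      p.2 ∈ S ∧ ∑ i, (p.1.1 i - p.2 i) ^ 2 < p.1.2})) := by
    refine SA.diff ?_ hT'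
    have := SA.pos (ev := evP (evR n)) Polynomial.X
    simpa using this
  have hW := (hcad1.proj hc1 hV).compl
  convert hW using 1
  ext x
  rw [Metric.mem_closure_iff]
  have hmem : x ∈ (Prod.fst '' ({p : (Fin n → ℝ) × ℝ | 0 < p.2} \
      (Prod.fst '' {p : ((Fin n → ℝ) × ℝ) × (Fin n → ℝ) |
      p.2 ∈ S ∧ ∑ i, (p.1.1 i - p.2 i) ^ 2 < p.1.2})))ᶜ ↔
      ∀ ε : ℝ, 0 < ε → ∃ y ∈ S, ∑ i, (x i - y i) ^ 2 < ε := by
    constructor
    · intro h ε hε
      by_contra hcon
      apply h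
      refine ⟨(x, ε), ⟨hε, ?_⟩, rfl⟩
      rintro ⟨⟨⟨x', ε'⟩, y⟩, ⟨hy, hlt⟩, heq⟩
      simp only [Prod.mk.injEq] at heq
      obtain ⟨rfl, rfl⟩ := heq
      exact hcon ⟨y, hy, hlt⟩
    · rintro h ⟨⟨x', ε⟩, ⟨hε, hne⟩, rfl⟩
      obtain ⟨y, hy, hlt⟩ := h ε hε
      exact hne ⟨((x', ε), y), ⟨hy, hlt⟩, rfl⟩
  rw [hmem]
  constructor
  · intro h ε hε
    set δ := Real.sqrt (ε / (n + 1)) with hδ
    have hn : (0 : ℝ) < n + 1 := by positivity
    have hδ0 : 0 < δ := Real.sqrt_pos.mpr (div_pos hε hn)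
    obtain ⟨y, hy, hxy⟩ := h δ hδ0
    refine ⟨y, hy, ?_⟩
    rw [dist_pi_lt_iff hδ0] at hxy
    have h1 : ∀ i, (x i - y i) ^ 2 ≤ ε / (n + 1) := by
      intro i
      have h2 := hxy i
      rw [Real.dist_eq] at h2
      have h3 : (x i - y i) ^ 2 = |x i - y i| ^ 2 := (sq_abs _).symm
      have h4 : δ ^ 2 = ε / (n + 1) := Real.sq_sqrt (div_pos hε hn).le
      rw [h3, ← h4]
      exact pow_le_pow_left₀ (abs_nonneg _) h2.le 2
    calc ∑ i, (x i - y i) ^ 2 ≤ ∑ _i : Fin n, ε / (n + 1) := Finset.sum_le_sum fun i _ => h1 i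
      _ = n * (ε / (n + 1)) := by simp
      _ < ε := by
        rw [← mul_div_assoc, div_lt_iff₀ hn]
        nlinarith
  · intro h δ hδ
    obtain ⟨y, hy, hxy⟩ := h (δ ^ 2) (by positivity)
    refine ⟨y, hy, ?_⟩
    rw [dist_pi_lt_iff hδ]
    intro i
    have h1 : (x i - y i) ^ 2 ≤ ∑ i, (x i - y i) ^ 2 :=
      Finset.single_le_sum (f := fun i => (x i - y i) ^ 2) (fun i _ => sq_nonneg _)
        (Finset.mem_univ i)
    rw [Real.dist_eq]
    exact abs_lt_of_sq_lt_sq (lt_of_le_of_lt h1 hxy) hδ.le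

/-- Relatively clopen subsets of semialgebraic sets over `ℚ` are semialgebraic over `ℚ`. -/
theorem SA.of_clopen {n : ℕ} {S W U Z : Set (Fin n → ℝ)}
    (hS : SA (evR n) S) (hU : IsOpen U) (hZ : IsClosed Z) (hWU : W = S ∩ U) (hWZ : W = S ∩ Z) :
    SA (evR n) W :=
  (cad_evR n).sa_of_clopen continuous_evR hS hU hZ hWU hWZ

/-- Finite unions of sets `{p = 0, q₁ > 0, …, q_k > 0}`. -/
def IsSemialg {n : ℕ} (S : Set (Fin n → ℝ)) : Prop :=
  ∃ (m : ℕ) (P : Fin m → MvPolynomial (Fin n) ℚ) (G : Fin m → Finset (MvPolynomial (Fin n) ℚ)),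
    S = {x : Fin n → ℝ | ∃ j : Fin m, (MvPolynomial.aeval x (P j) : ℝ) = 0 ∧
      ∀ g ∈ G j, (0 : ℝ) < MvPolynomial.aeval x g}

namespace IsSemialg

variable {n : ℕ}

/-- index by arbitrary finite type -/
theorem of_finite {κ : Type} [Finite κ] (P : κ → MvPolynomial (Fin n) ℚ)
    (G : κ → Finset (MvPolynomial (Fin n) ℚ)) {S : Set (Fin n → ℝ)}
    (h : S = {x : Fin n → ℝ | ∃ j : κ, (MvPolynomial.aeval x (P j) : ℝ) = 0 ∧
      ∀ g ∈ G j, (0 : ℝ) < MvPolynomial.aeval x g}) : IsSemialg S := by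
  have := Fintype.ofFinite κ
  let e := (Fintype.equivFin κ).symm
  refine ⟨Fintype.card κ, fun j => P (e j), fun j => G (e j), ?_⟩
  rw [h]
  ext x
  constructor
  · rintro ⟨j, hj⟩
    exact ⟨e.symm j, by simpa using hj⟩
  · rintro ⟨j, hj⟩
    exact ⟨e j, hj⟩

theorem union {S T : Set (Fin n → ℝ)} (hS : IsSemialg S) (hT : IsSemialg T) :
    IsSemialg (S ∪ T) := by
  obtain ⟨m, P, G, rfl⟩ := hS
  obtain ⟨m', P', G', rfl⟩ := hT
  refine of_finite (κ := Fin m ⊕ Fin m') (Sum.elim P P') (Sum.elim G G') ?_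
  ext x
  simp only [mem_union, mem_ofPred_eq, Sum.exists, Sum.elim_inl, Sum.elim_inr]

theorem inter {S T : Set (Fin n → ℝ)} (hS : IsSemialg S) (hT : IsSemialg T) :
    IsSemialg (S ∩ T) := by
  classical
  obtain ⟨m, P, G, rfl⟩ := hS
  obtain ⟨m', P', G', rfl⟩ := hT
  refine of_finite (κ := Fin m × Fin m') (fun j => P j.1 ^ 2 + P' j.2 ^ 2)
    (fun j => G j.1 ∪ G' j.2) ?_
  ext x
  simp only [mem_inter_iff, mem_ofPred_eq, Prod.exists, map_add, map_pow]
  constructor
  · rintro ⟨⟨i, hi, hi'⟩, ⟨j, hj, hj'⟩⟩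
    refine ⟨i, j, by rw [hi, hj]; simp, ?_⟩
    intro g hg
    rw [Finset.mem_union] at hg
    rcases hg with hg | hg
    · exact hi' g hg
    · exact hj' g hg
  · rintro ⟨i, j, h, h'⟩
    have h1 : (MvPolynomial.aeval x (P i) : ℝ) = 0 := by nlinarith [sq_nonneg (MvPolynomial.aeval x (P i) : ℝ), sq_nonneg (MvPolynomial.aeval x (P' j) : ℝ)]
    have h2 : (MvPolynomial.aeval x (P' j) : ℝ) = 0 := by nlinarith [sq_nonneg (MvPolynomial.aeval x (P i) : ℝ), sq_nonneg (MvPolynomial.aeval x (P' j) : ℝ)]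
    exact ⟨⟨i, h1, fun g hg => h' g (Finset.mem_union_left _ hg)⟩,
      ⟨j, h2, fun g hg => h' g (Finset.mem_union_right _ hg)⟩⟩

theorem pos (a : MvPolynomial (Fin n) ℚ) :
    IsSemialg {x : Fin n → ℝ | (0 : ℝ) < MvPolynomial.aeval x a} := by
  refine of_finite (κ := Unit) (fun _ => 0) (fun _ => {a}) ?_
  ext x; simp

theorem eq_zero (a : MvPolynomial (Fin n) ℚ) :
    IsSemialg {x : Fin n → ℝ | (MvPolynomial.aeval x a : ℝ) = 0} := by
  refine of_finite (κ := Unit) (fun _ => a) (fun _ => ∅) ?_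
  ext x; simp

theorem univ : IsSemialg (Set.univ : Set (Fin n → ℝ)) := by
  refine of_finite (κ := Unit) (fun _ => 0) (fun _ => ∅) ?_
  ext x; simp

theorem empty : IsSemialg (∅ : Set (Fin n → ℝ)) := by
  refine of_finite (κ := Empty) (fun _ => 0) (fun _ => ∅) ?_
  ext x; simp

theorem nonpos (a : MvPolynomial (Fin n) ℚ) :
    IsSemialg {x : Fin n → ℝ | (MvPolynomial.aeval x a : ℝ) ≤ 0} := by
  have h := (eq_zero a).union (pos (-a))
  convert h using 1
  ext x
  simp only [mem_ofPred_eq, mem_union, map_neg, Left.neg_pos_iff]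
  rw [le_iff_eq_or_lt]

theorem ne_zero (a : MvPolynomial (Fin n) ℚ) :
    IsSemialg {x : Fin n → ℝ | (MvPolynomial.aeval x a : ℝ) ≠ 0} := by
  have h := (pos a).union (pos (-a))
  convert h using 1
  ext x
  simp only [mem_ofPred_eq, mem_union, map_neg, Left.neg_pos_iff]
  rw [ne_iff_lt_or_gt, or_comm]

theorem biInter_finset {κ : Type*} (s : Finset κ) (f : κ → Set (Fin n → ℝ))
    (h : ∀ i ∈ s, IsSemialg (f i)) : IsSemialg (⋂ i ∈ s, f i) := by
  classical
  induction s using Finset.induction_on with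
  | empty => simpa using IsSemialg.univ
  | insert a s ha ih =>
    rw [Finset.set_biInter_insert]
    exact (h a (by simp)).inter (ih fun i hi => h i (by simp [hi]))

theorem biUnion_finset {κ : Type*} (s : Finset κ) (f : κ → Set (Fin n → ℝ))
    (h : ∀ i ∈ s, IsSemialg (f i)) : IsSemialg (⋃ i ∈ s, f i) := by
  classical
  induction s using Finset.induction_on with
  | empty => simpa using IsSemialg.empty
  | insert a s ha ih =>
    rw [Finset.set_biUnion_insert]
    exact (h a (by simp)).union (ih fun i hi => h i (by simp [hi]))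

theorem compl {S : Set (Fin n → ℝ)} (hS : IsSemialg S) : IsSemialg Sᶜ := by
  classical
  obtain ⟨m, P, G, rfl⟩ := hS
  have h : ∀ j ∈ (Finset.univ : Finset (Fin m)),
      IsSemialg ({x : Fin n → ℝ | (MvPolynomial.aeval x (P j) : ℝ) ≠ 0} ∪
      ⋃ g ∈ G j, {x : Fin n → ℝ | (MvPolynomial.aeval x g : ℝ) ≤ 0}) := by
    intro j _
    exact (ne_zero _).union (biUnion_finset _ _ fun g _ => nonpos g)
  have h2 := biInter_finset _ _ h
  convert h2 using 1
  ext x
  simp only [mem_compl_iff, mem_ofPred_eq, not_exists, not_and, Finset.mem_univ, iInter_true,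
    mem_iInter, mem_union, mem_iUnion, exists_prop]
  refine forall_congr' fun j => ?_
  constructor
  · intro h3
    by_cases h4 : (MvPolynomial.aeval x (P j) : ℝ) = 0
    · right
      have h5 := h3 h4
      push Not at h5
      exact h5
    · left; exact h4
  · intro h3 h4 h5
    rcases h3 with h3 | ⟨g, hg, h6⟩
    · exact h3 h4
    · exact absurd (h5 g hg) (not_lt.mpr h6)

end IsSemialg

theorem SA.isSemialg {n : ℕ} {S : Set (Fin n → ℝ)} (hS : SA (evR n) S) : IsSemialg S := by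
  induction hS with
  | pos a => exact IsSemialg.pos a
  | compl _ ih => exact ih.compl
  | inter _ _ ih1 ih2 => exact ih1.inter ih2

theorem IsSemialg.sa {n : ℕ} {S : Set (Fin n → ℝ)} (hS : IsSemialg S) : SA (evR n) S := by
  obtain ⟨m, P, G, rfl⟩ := hS
  have : {x : Fin n → ℝ | ∃ j : Fin m, (MvPolynomial.aeval x (P j) : ℝ) = 0 ∧
      ∀ g ∈ G j, (0 : ℝ) < MvPolynomial.aeval x g} =
      ⋃ j : Fin m, ({x | evR n (P j) x = 0} ∩ ⋂ g ∈ G j, {x | 0 < evR n g x}) := by
    ext x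
    simp only [mem_ofPred_eq, mem_iUnion, mem_inter_iff, mem_iInter, evR_apply]
  rw [this]
  refine SA.iUnion_finite _ fun j => (SA.eq_zero _).inter ?_
  exact SA.biInter_finset _ _ fun g _ => SA.pos g

end Pool.Agent.Lib.MP42
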