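import Pool.Agent.Lib.MP_42de19_nt.Table

set_option autoImplicit false
set_option linter.unusedSectionVars false

namespace Pool.Agent.Lib.MP42

open Set Topology Polynomial

variable {X : Type*} [TopologicalSpace X] {A : Type*} [CommRing A] {ev : A →+* (X → ℝ)}

variable {ι : Type*} [Finite ι] {C : Set X} {ξ : ι → X → ℝ}

theorem evP_comp_neg (f : A[X]) (x : X) (t : ℝ) :
    evP ev (f.comp (-Polynomial.X)) (x, t) = evP ev f (x, -t) := by
  rw [evP_apply, evP_apply, Polynomial.map_comp]
  simp

theorem code_neg (ξ : ι → X → ℝ) (x : X) (t : ℝ) (i : ι) :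
    code (fun i x => - ξ i x) (x, t) i = - code ξ (x, -t) i := by
  simp only [code]
  rw [← Left.sign_neg]
  congr 1
  ring

theorem exists_lower (hev : ∀ a, Continuous (ev a)) (hR : Roots C ξ) (hC : IsPreconnected C)
    {f : A[X]} (hdeg : ∀ x ∈ C, 0 < (f.map (evAt ev x)).degree)
    (hroots : ∀ i, ∀ x ∈ C, ∀ y ∈ C, evP ev f (x, ξ i x) = 0 → evP ev f (y, ξ i y) = 0)
    (hder : ∀ p : X × ℝ, p.1 ∈ C → (∀ i, code ξ p i ≠ 0) → evP ev (derivative f) p ≠ 0)
    {p₀ : X × ℝ} (hp₀ : p₀.1 ∈ C) (hcode : ∀ i, code ξ p₀ i ≠ 0) (hf0 : evP ev f p₀ = 0)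
    {x : X} (hx : x ∈ C) :
    ∃ t, code ξ (x, t) = code ξ p₀ ∧ evP ev f (x, t) * evP ev (derivative f) (x, t) < 0 := by
  have hR' : Roots C (fun i x => - ξ i x) := by
    refine ⟨fun i => (hR.cont i).neg, fun x hx i j h => hR.inj x hx i j ?_⟩
    simpa using h
  have hd : ∀ p : X × ℝ, evP ev (derivative (f.comp (-Polynomial.X))) p =
      - evP ev (derivative f) (p.1, -p.2) := by
    intro p
    rw [Polynomial.derivative_comp]
    have h1 : derivative (-Polynomial.X : A[X]) = -1 := by simp
    rw [h1]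
    have h2 : (-1 : A[X]) * (derivative f).comp (-Polynomial.X) =
        -((derivative f).comp (-Polynomial.X)) := by ring
    rw [h2, map_neg]
    show - evP ev ((derivative f).comp (-Polynomial.X)) (p.1, p.2) = _
    rw [evP_comp_neg]
  have hdeg' : ∀ x ∈ C, 0 < ((f.comp (-Polynomial.X)).map (evAt ev x)).degree := by
    intro y hy
    have h1 := hdeg y hy
    rw [← Polynomial.natDegree_pos_iff_degree_pos] at h1 ⊢
    rw [Polynomial.map_comp]
    have h2 : ((-Polynomial.X : A[X]).map (evAt ev y)) = (-Polynomial.X : ℝ[X]) := by simp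
    rw [h2, Polynomial.natDegree_comp]
    simpa using h1
  have hroots' : ∀ i, ∀ x ∈ C, ∀ y ∈ C, evP ev (f.comp (-Polynomial.X)) (x, -ξ i x) = 0 →
      evP ev (f.comp (-Polynomial.X)) (y, -ξ i y) = 0 := by
    intro i y hy z hz h
    rw [evP_comp_neg, neg_neg] at h ⊢
    exact hroots i y hy z hz h
  have hder' : ∀ p : X × ℝ, p.1 ∈ C → (∀ i, code (fun i x => - ξ i x) p i ≠ 0) →
      evP ev (derivative (f.comp (-Polynomial.X))) p ≠ 0 := by
    intro p hp hc
    rw [hd, neg_ne_zero]
    refine hder _ hp fun i hi => hc i ?_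
    have : code (fun i x => -ξ i x) (p.1, p.2) i = - code ξ (p.1, -p.2) i := code_neg ξ p.1 p.2 i
    rw [hi, neg_zero] at this
    exact this
  have hcode' : ∀ i, code (fun i x => - ξ i x) (p₀.1, -p₀.2) i ≠ 0 := by
    intro i hi
    rw [code_neg, neg_neg] at hi
    have : code ξ p₀ i = 0 := by
      have h2 := congrArg Neg.neg hi
      rw [neg_neg] at h2
      exact h2
    exact hcode i this
  have hf0' : evP ev (f.comp (-Polynomial.X)) (p₀.1, -p₀.2) = 0 := by
    rw [evP_comp_neg, neg_neg]; exact hf0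
  obtain ⟨t, ht1, ht2⟩ := exists_upper (p₀ := (p₀.1, -p₀.2)) hev hR' hC hdeg' hroots' hder' hp₀ hcode' hf0' hx
  refine ⟨-t, ?_, ?_⟩
  · funext i
    have h1 := congrFun ht1 i
    rw [code_neg, code_neg, neg_neg] at h1
    exact neg_injective h1
  · rw [evP_comp_neg, hd] at ht2
    simp only at ht2
    linarith

/-- Data of a polynomial that can be added to a table. -/
structure Addable (ev : A →+* (X → ℝ)) (C : Set X) (ξ : ι → X → ℝ) (f : A[X]) : Prop where
  deg : ∀ x ∈ C, 0 < (f.map (evAt ev x)).degree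
  roots : ∀ i, ∀ x ∈ C, ∀ y ∈ C, evP ev f (x, ξ i x) = 0 → evP ev f (y, ξ i y) = 0
  der : ∀ p : X × ℝ, p.1 ∈ C → (∀ i, code ξ p i ≠ 0) → evP ev (derivative f) p ≠ 0

/-- Codes of the bands that contain a zero of `f`. -/
def NewBand (ev : A →+* (X → ℝ)) (C : Set X) (ξ : ι → X → ℝ) (f : A[X]) : Type _ :=
  {c : ι → SignType // (∀ i, c i ≠ 0) ∧ ∃ p : X × ℝ, p.1 ∈ C ∧ code ξ p = c ∧ evP ev f p = 0}

instance (ev : A →+* (X → ℝ)) (C : Set X) (ξ : ι → X → ℝ) (f : A[X]) :
    Finite (NewBand ev C ξ f) := by
  unfold NewBand; infer_instance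

/-- sign of the derivative is constant on a band fibre, so `f` is injective there -/
theorem band_unique {f : A[X]} (hf : Addable ev C ξ f) {x : X} (hx : x ∈ C) {c : ι → SignType}
    (hc : ∀ i, c i ≠ 0) {a b : ℝ} (ha : code ξ (x, a) = c) (hb : code ξ (x, b) = c)
    (hab : a < b) (h : evP ev f (x, a) = evP ev f (x, b)) : False := by
  obtain ⟨t, ht, ht0⟩ := exists_hasDerivAt_eq_zero hab (continuous_evP_snd f x).continuousOn h
    (fun t _ => hasDerivAt_evP f x t)
  have h1 : code ξ (x, t) = c :=
    (Roots.ordConnected_fiber ξ x c).out ha hb ⟨ht.1.le, ht.2.le⟩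
  exact hf.der (x, t) hx (by rw [h1]; exact hc) ht0

theorem band_exists (hev : ∀ a, Continuous (ev a)) (hR : Roots C ξ) (hC : IsPreconnected C)
    {f : A[X]} (hf : Addable ev C ξ f) (n : NewBand ev C ξ f) {x : X} (hx : x ∈ C) :
    ∃ t, code ξ (x, t) = n.1 ∧ evP ev f (x, t) = 0 := by
  obtain ⟨c, hc, p₀, hp₀, rfl, hf0⟩ := n
  obtain ⟨t₁, ht₁, h1⟩ := exists_lower hev hR hC hf.deg hf.roots hf.der hp₀ hc hf0 hx
  obtain ⟨t₂, ht₂, h2⟩ := exists_upper hev hR hC hf.deg hf.roots hf.der hp₀ hc hf0 hx
  have hsd : SignType.sign (evP ev (derivative f) (x, t₁)) =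
      SignType.sign (evP ev (derivative f) (x, t₂)) := by
    refine sign_const_of_ne (hR.cell_preconnected hC (code ξ p₀))
      (continuous_evP hev _).continuousOn ?_ ⟨hx, ht₁⟩ ⟨hx, ht₂⟩
    rintro r ⟨hr, hrc⟩
    exact hf.der r hr (by rw [hrc]; exact hc)
  have h0 : (0 : ℝ) ∈ uIcc (evP ev f (x, t₁)) (evP ev f (x, t₂)) := by
    rcases lt_or_gt_of_ne (hf.der (x, t₁) hx (by rw [ht₁]; exact hc)) with h3 | h3
    · rw [sign_neg h3] at hsd
      have h4 := sign_eq_neg_one_iff.mp hsd.symm
      rw [mem_uIcc]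
      right
      constructor
      · by_contra hcon
        push Not at hcon
        have := mul_neg_of_pos_of_neg hcon h4
        linarith
      · by_contra hcon
        push Not at hcon
        have := mul_pos_of_neg_of_neg hcon h3
        linarith
    · rw [sign_pos h3] at hsd
      have h4 := sign_eq_one_iff.mp hsd.symm
      rw [mem_uIcc]
      left
      constructor
      · by_contra hcon
        push Not at hcon
        have := mul_pos hcon h3
        linarith
      · by_contra hcon
        push Not at hcon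
        have := mul_neg_of_neg_of_pos hcon h4
        linarith
  obtain ⟨t, ht, ht0⟩ := intermediate_value_uIcc (continuous_evP_snd f x).continuousOn h0
  refine ⟨t, ?_, ht0⟩
  exact (Roots.ordConnected_fiber ξ x (code ξ p₀)).uIcc_subset ht₁ ht₂ ht

/-- The new root function. -/
noncomputable def newRoot (hev : ∀ a, Continuous (ev a)) (hR : Roots C ξ) (hC : IsPreconnected C)
    {f : A[X]} (hf : Addable ev C ξ f) (n : NewBand ev C ξ f) (x : X) : ℝ :=
  open Classical in
  if hx : x ∈ C then (band_exists hev hR hC hf n hx).choose else 0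

section
variable (hev : ∀ a, Continuous (ev a)) (hR : Roots C ξ) (hC : IsPreconnected C)
    {f : A[X]} (hf : Addable ev C ξ f)

theorem newRoot_spec (n : NewBand ev C ξ f) {x : X} (hx : x ∈ C) :
    code ξ (x, newRoot hev hR hC hf n x) = n.1 ∧ evP ev f (x, newRoot hev hR hC hf n x) = 0 := by
  unfold newRoot
  rw [dif_pos hx]
  exact (band_exists hev hR hC hf n hx).choose_spec

theorem newRoot_unique (n : NewBand ev C ξ f) {x : X} (hx : x ∈ C) {t : ℝ}
    (ht : code ξ (x, t) = n.1) (ht0 : evP ev f (x, t) = 0) : t = newRoot hev hR hC hf n x := by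
  have h := newRoot_spec hev hR hC hf n hx
  rcases lt_trichotomy t (newRoot hev hR hC hf n x) with h1 | h1 | h1
  · exact (band_unique hf hx n.2.1 ht h.1 h1 (by rw [ht0, h.2])).elim
  · exact h1
  · exact (band_unique hf hx n.2.1 h.1 ht h1 (by rw [ht0, h.2])).elim

/-- position relative to the new root in terms of the sign of `f * f'`. -/
theorem newRoot_sign (n : NewBand ev C ξ f) {x : X} (hx : x ∈ C) {t : ℝ}
    (ht : code ξ (x, t) = n.1) :
    SignType.sign (t - newRoot hev hR hC hf n x) =
      SignType.sign (evP ev (f * derivative f) (x, t)) := by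
  have hspec := newRoot_spec hev hR hC hf n hx
  have hmul : evP ev (f * derivative f) (x, t) =
      evP ev f (x, t) * evP ev (derivative f) (x, t) := by rw [map_mul]; rfl
  rw [hmul]
  have hoc := Roots.ordConnected_fiber ξ x n.1
  have hsub := hoc.uIcc_subset hspec.1 ht
  set η := newRoot hev hR hC hf n x with hη
  have hd0 : evP ev (derivative f) (x, t) ≠ 0 := hf.der (x, t) hx (by rw [ht]; exact n.2.1)
  have hsd : ∀ u ∈ uIcc η t, SignType.sign (evP ev (derivative f) (x, u)) =
      SignType.sign (evP ev (derivative f) (x, t)) := by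
    intro u hu
    refine sign_const_of_ne (hR.cell_preconnected hC n.1)
      (continuous_evP hev _).continuousOn ?_ ⟨hx, hsub hu⟩ ⟨hx, ht⟩
    rintro r ⟨hr, hrc⟩
    exact hf.der r hr (by rw [hrc]; exact n.2.1)
  have hmv : ∀ a b : ℝ, a < b → ∃ u ∈ Ioo a b,
      evP ev f (x, b) - evP ev f (x, a) = evP ev (derivative f) (x, u) * (b - a) := by
    intro a b hab
    obtain ⟨u, hu, hu0⟩ := exists_hasDerivAt_eq_slope (fun t => evP ev f (x, t))
      (fun t => evP ev (derivative f) (x, t)) hab (continuous_evP_snd f x).continuousOn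
      (fun t _ => hasDerivAt_evP f x t)
    refine ⟨u, hu, ?_⟩
    rw [hu0, div_mul_cancel₀ _ (by linarith : b - a ≠ 0)]
  rcases lt_trichotomy t η with h1 | h1 | h1
  · obtain ⟨u, hu, hu0⟩ := hmv t η h1
    have h2 := hsd u (by rw [uIcc_of_ge h1.le]; exact ⟨hu.1.le, hu.2.le⟩)
    rw [hspec.2] at hu0
    have h3 : evP ev f (x, t) = -(evP ev (derivative f) (x, u) * (η - t)) := by linarith
    rw [sign_neg (by linarith : t - η < 0)]
    symm
    rw [sign_eq_neg_one_iff, h3]
    have h4 : 0 < evP ev (derivative f) (x, u) * evP ev (derivative f) (x, t) := by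
      have : SignType.sign (evP ev (derivative f) (x, u) * evP ev (derivative f) (x, t)) = 1 := by
        rw [sign_mul, h2, ← sign_mul, sign_eq_one_iff]
        exact mul_self_pos.mpr hd0
      exact sign_eq_one_iff.mp this
    have h5 : 0 < (η - t) * (evP ev (derivative f) (x, u) * evP ev (derivative f) (x, t)) :=
      mul_pos (by linarith) h4
    nlinarith
  · rw [h1, hspec.2]; simp
  · obtain ⟨u, hu, hu0⟩ := hmv η t h1
    have h2 := hsd u (by rw [uIcc_of_le h1.le]; exact ⟨hu.1.le, hu.2.le⟩)
    rw [hspec.2] at hu0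
    have h3 : evP ev f (x, t) = (evP ev (derivative f) (x, u) * (t - η)) := by linarith
    rw [sign_pos (by linarith : 0 < t - η)]
    symm
    rw [sign_eq_one_iff, h3]
    have h4 : 0 < evP ev (derivative f) (x, u) * evP ev (derivative f) (x, t) := by
      have : SignType.sign (evP ev (derivative f) (x, u) * evP ev (derivative f) (x, t)) = 1 := by
        rw [sign_mul, h2, ← sign_mul, sign_eq_one_iff]
        exact mul_self_pos.mpr hd0
      exact sign_eq_one_iff.mp this
    have h5 : 0 < (t - η) * (evP ev (derivative f) (x, u) * evP ev (derivative f) (x, t)) :=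
      mul_pos (by linarith) h4
    nlinarith

theorem newRoot_continuousOn (n : NewBand ev C ξ f) :
    ContinuousOn (newRoot hev hR hC hf n) C := by
  intro x₀ hx₀
  have hspec := newRoot_spec hev hR hC hf n hx₀
  set η := newRoot hev hR hC hf n with hη
  have hcz : ∀ i, code ξ (x₀, η x₀) i ≠ 0 := by rw [hspec.1]; exact n.2.1
  -- general facts: a point of the band fibre over x₀ keeps its position nearby
  have hloc : ∀ t, code ξ (x₀, t) = n.1 →
      ∀ᶠ x in 𝓝[C] x₀, x ∈ C ∧ code ξ (x, t) = n.1 ∧
        (0 < t - η x₀ → 0 < t - η x) ∧ (t - η x₀ < 0 → t - η x < 0) := by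
    intro t ht
    have h1 : ∀ᶠ x in 𝓝[C] x₀, ∀ i, code ξ (x, t) i = n.1 i := by
      rw [Filter.eventually_all]
      intro i
      have hi : code ξ (x₀, t) i = n.1 i := congrFun ht i
      have hc : ContinuousWithinAt (fun x => t - ξ i x) C x₀ :=
        continuousWithinAt_const.sub (hR.cont i x₀ hx₀)
      have hne : n.1 i ≠ 0 := n.2.1 i
      rcases hci : n.1 i with _ | _ | _
      · exact absurd hci hne
      · rw [hci] at hi
        have h2 : t - ξ i x₀ < 0 := sign_eq_neg_one_iff.mp hi
        filter_upwards [hc.eventually_lt continuousWithinAt_const h2] with x hx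
        exact sign_neg hx
      · rw [hci] at hi
        have h2 : 0 < t - ξ i x₀ := sign_eq_one_iff.mp hi
        filter_upwards [continuousWithinAt_const.eventually_lt hc h2] with x hx
        exact sign_pos hx
    have hcont : Continuous (fun x => evP ev (f * derivative f) (x, t)) :=
      (continuous_evP hev _).comp (by fun_prop)
    have h2 : ∀ᶠ x in 𝓝[C] x₀, (0 < evP ev (f * derivative f) (x₀, t) →
        0 < evP ev (f * derivative f) (x, t)) := by
      by_cases h3 : 0 < evP ev (f * derivative f) (x₀, t)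
      · have := (continuousAt_const.eventually_lt hcont.continuousAt h3)
        filter_upwards [this.filter_mono nhdsWithin_le_nhds] with x hx _ using hx
      · exact Filter.Eventually.of_forall fun x h => absurd h h3
    have h2' : ∀ᶠ x in 𝓝[C] x₀, (evP ev (f * derivative f) (x₀, t) < 0 →
        evP ev (f * derivative f) (x, t) < 0) := by
      by_cases h3 : evP ev (f * derivative f) (x₀, t) < 0
      · have := (hcont.continuousAt.eventually_lt continuousAt_const h3)
        filter_upwards [this.filter_mono nhdsWithin_le_nhds] with x hx _ using hx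
      · exact Filter.Eventually.of_forall fun x h => absurd h h3
    filter_upwards [h1, h2, h2', self_mem_nhdsWithin] with x hx1 hx2 hx3 hx4
    have hx1' : code ξ (x, t) = n.1 := funext hx1
    have e0 := newRoot_sign hev hR hC hf n hx₀ ht
    have e1 := newRoot_sign hev hR hC hf n hx4 hx1'
    refine ⟨hx4, hx1', fun h => ?_, fun h => ?_⟩
    · rw [← sign_eq_one_iff] at h ⊢
      rw [e1, sign_eq_one_iff]
      exact hx2 (sign_eq_one_iff.mp (e0 ▸ h))
    · rw [← sign_eq_neg_one_iff] at h ⊢
      rw [e1, sign_eq_neg_one_iff]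
      exact hx3 (sign_eq_neg_one_iff.mp (e0 ▸ h))
  have hnb := code_eventually ξ x₀ (η x₀) hcz
  rw [hspec.1] at hnb
  rw [Metric.eventually_nhds_iff] at hnb
  obtain ⟨δ, hδ, hδ'⟩ := hnb
  rw [Metric.continuousWithinAt_iff']
  intro ε hε
  set r := min (δ / 2) (ε / 2) with hr
  have hr0 : 0 < r := lt_min (by linarith) (by linarith)
  have hr1 : r ≤ δ / 2 := min_le_left _ _
  have hr2 : r ≤ ε / 2 := min_le_right _ _
  have hA := hloc (η x₀ - r) (hδ' (by rw [Real.dist_eq]; simp [abs_of_pos hr0]; linarith))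
  have hB := hloc (η x₀ + r) (hδ' (by rw [Real.dist_eq]; simp [abs_of_pos hr0]; linarith))
  filter_upwards [hA, hB] with x hxA hxB
  have h1 := hxA.2.2.2 (by linarith)
  have h2 := hxB.2.2.1 (by linarith)
  rw [Real.dist_eq, abs_lt]
  constructor <;> linarith

theorem isTable_add {G : Finset A[X]} (hT : IsTable ev C ξ G) :
    ∀ g, (g ∈ G ∨ g = f) → ZC ev C (Sum.elim ξ (newRoot hev hR hC hf)) g := by
  intro g hg p q hp hq hcode hg0
  have hl : code ξ p = code ξ q := by
    funext i; exact congrFun hcode (Sum.inl i)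
  rcases hg with hg | rfl
  · exact hT.zc g hg p q hp hq hl hg0
  · by_cases h : ∃ i, code ξ p i = 0
    · obtain ⟨i, hi⟩ := h
      have h1 : p.2 = ξ i p.1 := sub_eq_zero.mp (sign_eq_zero_iff.mp hi)
      have h2 : q.2 = ξ i q.1 := by
        rw [hl] at hi
        exact sub_eq_zero.mp (sign_eq_zero_iff.mp hi)
      have h3 : evP ev g (p.1, ξ i p.1) = 0 := by rw [← h1]; exact hg0
      have h4 := hf.roots i p.1 hp q.1 hq h3
      rw [← h2] at h4
      exact h4
    · push Not at h
      let n : NewBand ev C ξ g := ⟨code ξ p, h, p, hp, rfl, hg0⟩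
      have h1 : p.2 = newRoot hev hR hC hf n p.1 :=
        newRoot_unique hev hR hC hf n hp rfl hg0
      have h2 := congrFun hcode (Sum.inr n)
      have h3 : SignType.sign (p.2 - newRoot hev hR hC hf n p.1) = 0 := by
        rw [← h1]; simp
      have h4 : SignType.sign (q.2 - newRoot hev hR hC hf n q.1) = 0 := by
        rw [← h3]; exact h2.symm
      have h5 : q.2 = newRoot hev hR hC hf n q.1 := sub_eq_zero.mp (sign_eq_zero_iff.mp h4)
      have h6 := (newRoot_spec hev hR hC hf n hq).2
      rw [← h5] at h6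
      exact h6

theorem newRoots_roots : Roots C (Sum.elim ξ (newRoot hev hR hC hf)) := by
  refine ⟨?_, ?_⟩
  · rintro (i | n)
    · exact hR.cont i
    · exact newRoot_continuousOn hev hR hC hf n
  · intro x hx i j h
    rcases i with i | n <;> rcases j with j | k
    · exact congrArg Sum.inl (hR.inj x hx i j h)
    · exfalso
      have h1 := (newRoot_spec hev hR hC hf k hx).1
      have h2 : ξ i x = newRoot hev hR hC hf k x := h
      have h3 := congrFun h1 i
      rw [← h2] at h3
      have h4 : code ξ (x, ξ i x) i = 0 := by simp [code]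
      rw [h4] at h3
      exact k.2.1 i h3.symm
    · exfalso
      have h1 := (newRoot_spec hev hR hC hf n hx).1
      have h2 : newRoot hev hR hC hf n x = ξ j x := h
      have h3 := congrFun h1 j
      rw [h2] at h3
      have h4 : code ξ (x, ξ j x) j = 0 := by simp [code]
      rw [h4] at h3
      exact n.2.1 j h3.symm
    · have h1 := (newRoot_spec hev hR hC hf n hx).1
      have h2 := (newRoot_spec hev hR hC hf k hx).1
      have h3 : newRoot hev hR hC hf n x = newRoot hev hR hC hf k x := h
      rw [h3, h2] at h1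
      exact congrArg Sum.inr (Subtype.ext h1.symm)

theorem newRoots_sa {G : Finset A[X]} (hT : IsTable ev C ξ G)
    (d : ι ⊕ NewBand ev C ξ f → SignType) :
    SA (evP ev) {p | p.1 ∈ C ∧ code (Sum.elim ξ (newRoot hev hR hC hf)) p = d} := by
  classical
  set c : ι → SignType := fun i => d (Sum.inl i) with hc
  have hS : ∀ n : NewBand ev C ξ f, SA (evP ev) {p : X × ℝ | (p.1 ∈ C ∧ code ξ p = c) ∧
      SignType.sign (p.2 - newRoot hev hR hC hf n p.1) = d (Sum.inr n)} := by
    intro n
    by_cases hn : n.1 = c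
    · have : {p : X × ℝ | (p.1 ∈ C ∧ code ξ p = c) ∧
          SignType.sign (p.2 - newRoot hev hR hC hf n p.1) = d (Sum.inr n)} =
          {p | p.1 ∈ C ∧ code ξ p = c} ∩
            {p | SignType.sign (evP ev (f * derivative f) p) = d (Sum.inr n)} := by
        ext p
        constructor
        · rintro ⟨⟨h1, h2⟩, h3⟩
          refine ⟨⟨h1, h2⟩, ?_⟩
          have := newRoot_sign hev hR hC hf n h1 (t := p.2) (by rw [hn]; exact h2)
          show SignType.sign (evP ev (f * derivative f) (p.1, p.2)) = _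
          rw [← this]; exact h3
        · rintro ⟨⟨h1, h2⟩, h3⟩
          refine ⟨⟨h1, h2⟩, ?_⟩
          have := newRoot_sign hev hR hC hf n h1 (t := p.2) (by rw [hn]; exact h2)
          rw [this]; exact h3
      rw [this]
      exact (hT.sa c).inter (SA.sign _ _)
    · have : ∃ s : SignType, ∀ p : X × ℝ, p.1 ∈ C → code ξ p = c →
          SignType.sign (p.2 - newRoot hev hR hC hf n p.1) = s := by
        have hex : ∃ i, n.1 i ≠ c i := by
          by_contra hcon
          push Not at hcon
          exact hn (funext hcon)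
        obtain ⟨i, hi⟩ := hex
        rcases hni : n.1 i with _ | _ | _
        · exact absurd hni (n.2.1 i)
        · -- root is below ξ i, point is at or above
          refine ⟨1, fun p hp hpc => ?_⟩
          have h1 := congrFun (newRoot_spec hev hR hC hf n hp).1 i
          rw [hni] at h1
          have h2 : newRoot hev hR hC hf n p.1 - ξ i p.1 < 0 := sign_eq_neg_one_iff.mp h1
          have h3 : ¬ (p.2 - ξ i p.1 < 0) := by
            intro h4
            have h5 : code ξ p i = -1 := sign_neg h4
            rw [hpc] at h5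
            exact hi (by rw [hni, h5]; rfl)
          rw [sign_eq_one_iff]
          linarith
        · refine ⟨-1, fun p hp hpc => ?_⟩
          have h1 := congrFun (newRoot_spec hev hR hC hf n hp).1 i
          rw [hni] at h1
          have h2 : 0 < newRoot hev hR hC hf n p.1 - ξ i p.1 := sign_eq_one_iff.mp h1
          have h3 : ¬ (0 < p.2 - ξ i p.1) := by
            intro h4
            have h5 : code ξ p i = 1 := sign_pos h4
            rw [hpc] at h5
            exact hi (by rw [hni, h5]; rfl)
          rw [sign_eq_neg_one_iff]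
          linarith
      obtain ⟨s, hs⟩ := this
      have : {p : X × ℝ | (p.1 ∈ C ∧ code ξ p = c) ∧
          SignType.sign (p.2 - newRoot hev hR hC hf n p.1) = d (Sum.inr n)} =
          {p | p.1 ∈ C ∧ code ξ p = c} ∩ {_p | s = d (Sum.inr n)} := by
        ext p
        constructor
        · rintro ⟨⟨h1, h2⟩, h3⟩
          refine ⟨⟨h1, h2⟩, ?_⟩
          show s = _
          rw [← hs p h1 h2]; exact h3
        · rintro ⟨⟨h1, h2⟩, h3⟩
          refine ⟨⟨h1, h2⟩, ?_⟩
          rw [hs p h1 h2]; exact h3
      rw [this]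
      exact (hT.sa c).inter (SA.const _)
  have heq : {p : X × ℝ | p.1 ∈ C ∧ code (Sum.elim ξ (newRoot hev hR hC hf)) p = d} =
      {p | p.1 ∈ C ∧ code ξ p = c} ∩ ⋂ n : NewBand ev C ξ f,
        {p : X × ℝ | (p.1 ∈ C ∧ code ξ p = c) ∧
          SignType.sign (p.2 - newRoot hev hR hC hf n p.1) = d (Sum.inr n)} := by
    ext p
    simp only [mem_inter_iff, mem_iInter]
    constructor
    · rintro ⟨h1, h2⟩
      have h3 : code ξ p = c := by
        funext i; exact congrFun h2 (Sum.inl i)
      exact ⟨⟨h1, h3⟩, fun n => ⟨⟨h1, h3⟩, congrFun h2 (Sum.inr n)⟩⟩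
    · rintro ⟨⟨h1, h2⟩, h3⟩
      refine ⟨h1, ?_⟩
      funext i
      rcases i with i | n
      · exact congrFun h2 i
      · exact (h3 n).2
  rw [heq]
  exact (hT.sa c).inter (SA.iInter_finite _ hS)

end

/-- Adding one polynomial to a table. -/
theorem HasTable.add {ι : Type} [Finite ι] {ξ : ι → X → ℝ} (hev : ∀ a, Continuous (ev a))
    (hC : IsPreconnected C) {G : Finset A[X]}
    (hT : IsTable ev C ξ G) {f : A[X]} (hf : Addable ev C ξ f) [DecidableEq A[X]] :
    HasTable ev C (insert f G) := by
  refine ⟨ι ⊕ NewBand ev C ξ f, inferInstance, Sum.elim ξ (newRoot hev hT.roots hC hf),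
    newRoots_roots hev hT.roots hC hf, newRoots_sa hev hT.roots hC hf hT, ?_⟩
  intro g hg
  rw [Finset.mem_insert] at hg
  exact isTable_add hev hT.roots hC hf hT g hg.symm

end Pool.Agent.Lib.MP42
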