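import Pool.Agent.Lib.MP_42de19_nt.Add

set_option autoImplicit false
set_option linter.unusedSectionVars false

namespace Pool.Agent.Lib.MP42

open Set Topology Polynomial

section algebra

variable {A : Type*} [CommRing A]

/-- Pseudo-division. -/
theorem exists_pseudo_div (g : A[X]) (hg : g ≠ 0) : ∀ (n : ℕ) (f : A[X]), f.natDegree < n →
    ∃ (N : ℕ) (q r : A[X]), C g.leadingCoeff ^ N * f = q * g + r ∧
      (r = 0 ∨ r.natDegree < g.natDegree) := by
  intro n
  induction n with
  | zero => intro f hf; exact absurd hf (by omega)
  | succ n ih =>
    intro f hf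
    by_cases h1 : f.natDegree < g.natDegree
    · exact ⟨0, 0, f, by simp, Or.inr h1⟩
    · push Not at h1
      by_cases hf0 : f = 0
      · exact ⟨0, 0, 0, by simp [hf0], Or.inl rfl⟩
      set h : A[X] := C g.leadingCoeff * f - C f.leadingCoeff * X ^ (f.natDegree - g.natDegree) * g
        with hh
      by_cases hd : f.natDegree = 0
      · -- both constants
        have hg0 : g.natDegree = 0 := by omega
        refine ⟨1, f, 0, ?_, Or.inl rfl⟩
        have h2 : g = C g.leadingCoeff := by
          conv_lhs => rw [Polynomial.eq_C_of_natDegree_eq_zero hg0]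
          rw [Polynomial.leadingCoeff, hg0]
        rw [pow_one, add_zero]
        conv_rhs => rw [h2]
        ring
      · have hhd : h.natDegree < n := by
          have hle : h.natDegree ≤ f.natDegree := by
            rw [hh]
            refine (Polynomial.natDegree_sub_le _ _).trans (max_le ?_ ?_)
            · exact Polynomial.natDegree_C_mul_le _ _
            · refine (Polynomial.natDegree_mul_le).trans ?_
              have : (C f.leadingCoeff * X ^ (f.natDegree - g.natDegree) : A[X]).natDegree ≤
                  f.natDegree - g.natDegree := Polynomial.natDegree_C_mul_X_pow_le _ _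
              omega
          have hcoef : h.coeff f.natDegree = 0 := by
            rw [hh, Polynomial.coeff_sub, Polynomial.coeff_C_mul, mul_assoc,
              Polynomial.coeff_C_mul]
            have h3 : f.natDegree = g.natDegree + (f.natDegree - g.natDegree) := by omega
            have h4 : (X ^ (f.natDegree - g.natDegree) * g : A[X]).coeff f.natDegree =
                g.coeff g.natDegree := by
              have h5 := Polynomial.coeff_X_pow_mul g (f.natDegree - g.natDegree) g.natDegree
              rw [← h3] at h5
              exact h5
            rw [h4]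
            simp only [Polynomial.coeff_natDegree]
            ring
          have hlt : h.natDegree < f.natDegree := by
            rcases Nat.lt_or_ge h.natDegree f.natDegree with h5 | h5
            · exact h5
            · exfalso
              have h6 : h.natDegree = f.natDegree := le_antisymm hle h5
              have h7 : h.leadingCoeff = 0 := by
                rw [Polynomial.leadingCoeff, h6, hcoef]
              rw [Polynomial.leadingCoeff_eq_zero] at h7
              rw [h7] at h6
              simp at h6
              omega
          omega
        obtain ⟨N, q, r, hq, hr⟩ := ih h hhd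
        refine ⟨N + 1, q + C g.leadingCoeff ^ N * (C f.leadingCoeff *
          X ^ (f.natDegree - g.natDegree)), r, ?_, hr⟩
        have : C g.leadingCoeff ^ (N + 1) * f = C g.leadingCoeff ^ N * h +
            C g.leadingCoeff ^ N * (C f.leadingCoeff * X ^ (f.natDegree - g.natDegree)) * g := by
          rw [hh]; ring
        rw [this, hq]; ring

/-- A chosen pseudo-remainder. -/
noncomputable def prem (f g : A[X]) : A[X] :=
  open Classical in
  if hg : g ≠ 0 then (exists_pseudo_div g hg (f.natDegree + 1) f (Nat.lt_succ_self _)).choose_spec.choose_spec.choose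
  else 0

theorem prem_spec (f g : A[X]) (hg : g ≠ 0) : ∃ (N : ℕ) (q : A[X]),
    C g.leadingCoeff ^ N * f = q * g + prem f g := by
  have h := (exists_pseudo_div g hg (f.natDegree + 1) f
    (Nat.lt_succ_self _)).choose_spec.choose_spec.choose_spec
  unfold prem
  rw [dif_pos hg]
  exact ⟨_, _, h.1⟩

theorem prem_natDegree (f g : A[X]) (m : ℕ) (hg : g.natDegree ≤ m + 1) :
    (prem f g).natDegree ≤ m := by
  unfold prem
  split_ifs with h
  · have h1 := (exists_pseudo_div g h (f.natDegree + 1) f
      (Nat.lt_succ_self _)).choose_spec.choose_spec.choose_spec.2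
    rcases h1 with h1 | h1
    · rw [h1]; simp
    · omega
  · simp

theorem natDegree_iterate_eraseLead_le (g : A[X]) (k : ℕ) :
    (eraseLead^[k] g).natDegree ≤ g.natDegree := by
  induction k with
  | zero => simp
  | succ k ih =>
    rw [Function.iterate_succ_apply']
    exact (Polynomial.eraseLead_natDegree_le_aux).trans ih

end algebra

variable {X : Type*} [TopologicalSpace X] {A : Type*} [CommRing A] {ev : A →+* (X → ℝ)}

theorem pow_eq_zero_iff_of_pos' {a : ℝ} {N : ℕ} (h : a ^ N = 0) : a = 0 := by
  exact eq_zero_of_pow_eq_zero h

theorem evP_eraseLead (f : A[X]) (p : X × ℝ) :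
    evP ev f p = evP ev f.eraseLead p + ev f.leadingCoeff p.1 * p.2 ^ f.natDegree := by
  conv_lhs => rw [← Polynomial.eraseLead_add_monomial_natDegree_leadingCoeff f]
  rw [map_add, Pi.add_apply]
  congr 1
  rw [evP_apply, Polynomial.map_monomial, Polynomial.eval_monomial]
  rfl

/-- Over a set on which the coefficients are either zero or nowhere zero, a polynomial agrees with
a truncation whose leading coefficient is nowhere zero. -/
theorem exists_trunc {C : Set X} : ∀ (n : ℕ) (g : A[X]), g.support.card ≤ n →
    (∀ i, (∀ x ∈ C, ev (g.coeff i) x = 0) ∨ (∀ x ∈ C, ev (g.coeff i) x ≠ 0)) →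
    ∃ k, k ≤ n ∧ (∀ p : X × ℝ, p.1 ∈ C → evP ev g p = evP ev (eraseLead^[k] g) p) ∧
      (eraseLead^[k] g = 0 ∨ ∀ x ∈ C, ev (eraseLead^[k] g).leadingCoeff x ≠ 0) := by
  intro n
  induction n with
  | zero =>
    intro g hg _
    have : g = 0 := by
      rw [← Polynomial.support_eq_empty, ← Finset.card_eq_zero]; omega
    exact ⟨0, le_rfl, fun p _ => rfl, Or.inl (by simpa using this)⟩
  | succ n ih =>
    intro g hg hz
    by_cases hg0 : g = 0
    · exact ⟨0, by omega, fun p _ => rfl, Or.inl (by simpa using hg0)⟩
    rcases hz g.natDegree with h | h
    · have hcard : g.eraseLead.support.card ≤ n := by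
        have := Polynomial.card_support_eraseLead_add_one hg0
        omega
      have hz' : ∀ i, (∀ x ∈ C, ev (g.eraseLead.coeff i) x = 0) ∨
          (∀ x ∈ C, ev (g.eraseLead.coeff i) x ≠ 0) := by
        intro i
        by_cases hi : i = g.natDegree
        · left; intro x _
          rw [hi, Polynomial.eraseLead_coeff_natDegree]; simp
        · rw [Polynomial.eraseLead_coeff_of_ne _ hi]; exact hz i
      obtain ⟨k, hk, hk1, hk2⟩ := ih g.eraseLead hcard hz'
      refine ⟨k + 1, by omega, fun p hp => ?_, ?_⟩
      · rw [Function.iterate_succ_apply, ← hk1 p hp, evP_eraseLead g p]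
        have : ev g.leadingCoeff p.1 = 0 := h p.1 hp
        rw [this]; ring
      · rw [Function.iterate_succ_apply]; exact hk2
    · refine ⟨0, by omega, fun p _ => rfl, Or.inr ?_⟩
      exact h

/-- The set of zero-constancy. -/
def BaseConst (ev : A →+* (X → ℝ)) (B : Finset A) (C : Set X) : Prop :=
  ∀ b ∈ B, ∀ x ∈ C, ∀ y ∈ C, ev b x = 0 → ev b y = 0

theorem BaseConst.dich {B : Finset A} {C : Set X} (h : BaseConst ev B C) {b : A} (hb : b ∈ B) :
    (∀ x ∈ C, ev b x = 0) ∨ (∀ x ∈ C, ev b x ≠ 0) := by
  by_cases h1 : ∃ x ∈ C, ev b x = 0
  · obtain ⟨x, hx, hx0⟩ := h1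
    left; intro y hy; exact h b hb x hx y hy hx0
  · push Not at h1; right; exact h1

def Concl (ev : A →+* (X → ℝ)) (F : Finset A[X]) : Prop :=
  ∃ B : Finset A, ∀ C : Set X, IsPreconnected C → SA ev C → BaseConst ev B C → HasTable ev C F

theorem concl_zero (F : Finset A[X]) (hF : ∀ f ∈ F, f.natDegree ≤ 0) : Concl ev F := by
  classical
  refine ⟨F.image (fun f => f.coeff 0), fun C hC hSA hB => ?_⟩
  refine ⟨Empty, inferInstance, fun i => i.elim, ⟨fun i => i.elim, fun _ _ i => i.elim⟩, ?_, ?_⟩
  · intro c
    have : {p : X × ℝ | p.1 ∈ C ∧ code (fun i : Empty => (i.elim : X → ℝ)) p = c} =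
        Prod.fst ⁻¹' C := by
      ext p
      constructor
      · rintro ⟨h, _⟩; exact h
      · intro h; exact ⟨h, funext fun i => i.elim⟩
    rw [this]
    exact hSA.comap (ev' := evP ev) Polynomial.C Prod.fst (fun a y => evP_C ev a y)
  · intro f hf p q hp hq _ h0
    have h1 : f = Polynomial.C (f.coeff 0) :=
      Polynomial.eq_C_of_natDegree_eq_zero (by have := hF f hf; omega)
    rw [h1, evP_C] at h0 ⊢
    exact hB (f.coeff 0) (Finset.mem_image.mpr ⟨f, hf, rfl⟩) p.1 hp q.1 hq h0

theorem concl_step [DecidableEq A[X]] (hev : ∀ a, Continuous (ev a)) (m : ℕ) (F₀ : Finset A[X])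
    (f : A[X]) (hf : f.natDegree = m + 1)
    (h1 : Concl ev (insert f.eraseLead F₀))
    (h2 : Concl ev ((insert (derivative f) F₀) ∪ (insert (derivative f) F₀).biUnion
      (fun g => (Finset.range (g.support.card + 1)).image (fun k => prem f (eraseLead^[k] g))))) :
    Concl ev (insert f F₀) := by
  classical
  obtain ⟨B₁, hB₁⟩ := h1
  obtain ⟨B₂, hB₂⟩ := h2
  set G : Finset A[X] := insert (derivative f) F₀ with hG
  refine ⟨{f.leadingCoeff} ∪ B₁ ∪ B₂ ∪ G.biUnion (fun g => g.support.image g.coeff),
    fun C hC hSA hB => ?_⟩
  have hBmono : ∀ B' : Finset A, B' ⊆ {f.leadingCoeff} ∪ B₁ ∪ B₂ ∪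
      G.biUnion (fun g => g.support.image g.coeff) → BaseConst ev B' C :=
    fun B' hB' b hb => hB b (hB' hb)
  have hT1 := hB₁ C hC hSA (hBmono B₁ (by intro b hb; simp [hb]))
  have hT2 := hB₂ C hC hSA (hBmono B₂ (by intro b hb; simp [hb]))
  rcases hB.dich (b := f.leadingCoeff) (by simp) with hlc | hlc
  · -- leading coefficient vanishes on C
    obtain ⟨ι, hι, ξ, hT⟩ := hT1
    refine ⟨ι, hι, ξ, hT.roots, hT.sa, fun g hg => ?_⟩
    rw [Finset.mem_insert] at hg
    rcases hg with rfl | hg
    · intro p q hp hq hcode h0
      have e1 : evP ev g p = evP ev g.eraseLead p := by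
        rw [evP_eraseLead g p, hlc p.1 hp]; ring
      have e2 : evP ev g q = evP ev g.eraseLead q := by
        rw [evP_eraseLead g q, hlc q.1 hq]; ring
      rw [e2]; rw [e1] at h0
      exact hT.zc _ (by simp) p q hp hq hcode h0
    · exact hT.zc g (by simp [hg])
  · obtain ⟨ι, hι, ξ, hT⟩ := hT2
    have hR := hT.roots
    obtain ⟨hTr, hroot⟩ := hT.restrict hC (G := G) (by intro g hg; simp [hg])
    -- degree of f in fibres
    have hdeg : ∀ x ∈ C, (f.map (evAt ev x)).natDegree = m + 1 := by
      intro x hx
      rw [Polynomial.natDegree_map_of_leadingCoeff_ne_zero, hf]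
      exact hlc x hx
    have hadd : Addable ev C (fun i : {i : ι // ∃ g ∈ G,
        (∃ p : X × ℝ, p.1 ∈ C ∧ evP ev g p ≠ 0) ∧ ∃ x ∈ C, evP ev g (x, ξ i x) = 0} => ξ i.1)
        f := by
      refine ⟨?_, ?_, ?_⟩
      · intro x hx
        rw [← Polynomial.natDegree_pos_iff_degree_pos, hdeg x hx]; omega
      · rintro ⟨i, g, hg, hg0, x', hx', hgx'⟩ x hx y hy h0
        simp only at h0 ⊢
        -- the truncation of g
        have hz : ∀ j, (∀ x ∈ C, ev (g.coeff j) x = 0) ∨ (∀ x ∈ C, ev (g.coeff j) x ≠ 0) := by
          intro j
          by_cases hj : j ∈ g.support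
          · refine hB.dich (b := g.coeff j) ?_
            rw [Finset.mem_union]; right
            exact Finset.mem_biUnion.mpr ⟨g, hg, Finset.mem_image.mpr ⟨j, hj, rfl⟩⟩
          · left; intro x _
            rw [Polynomial.notMem_support_iff] at hj
            rw [hj]; simp
        obtain ⟨k, hk, hk1, hk2⟩ := exists_trunc (C := C) (g.support.card) g le_rfl hz
        have hne : eraseLead^[k] g ≠ 0 := by
          intro h
          obtain ⟨p, hp, hp0⟩ := hg0
          rw [hk1 p hp, h] at hp0
          simp at hp0
        have hk3 : ∀ x ∈ C, ev (eraseLead^[k] g).leadingCoeff x ≠ 0 :=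
          hk2.resolve_left hne
        obtain ⟨N, q, hNq⟩ := prem_spec f (eraseLead^[k] g) hne
        have hmem : prem f (eraseLead^[k] g) ∈ G ∪ G.biUnion
            (fun g => (Finset.range (g.support.card + 1)).image
              (fun k => prem f (eraseLead^[k] g))) := by
          rw [Finset.mem_union]; right
          refine Finset.mem_biUnion.mpr ⟨g, hg, Finset.mem_image.mpr ⟨k, ?_, rfl⟩⟩
          rw [Finset.mem_range]; omega
        have hgz : ∀ z ∈ C, evP ev g (z, ξ i z) = 0 := by
          intro z hz'
          refine hT.zc g ?_ (x', ξ i x') (z, ξ i z) hx' hz' (code_root_eq hR hC hx' hz' i) hgx'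
          rw [Finset.mem_union]; left; exact hg
        have hrel : ∀ z ∈ C, ev (eraseLead^[k] g).leadingCoeff z ^ N * evP ev f (z, ξ i z) =
            evP ev (prem f (eraseLead^[k] g)) (z, ξ i z) := by
          intro z hz'
          have h3 := congrFun (congrArg (evP ev) hNq) (z, ξ i z)
          rw [map_mul, map_add, map_mul, map_pow] at h3
          simp only [Pi.mul_apply, Pi.add_apply, Pi.pow_apply, evP_C] at h3
          rw [h3, ← hk1 (z, ξ i z) hz', hgz z hz']
          ring
        have h4 : evP ev (prem f (eraseLead^[k] g)) (x, ξ i x) = 0 := by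
          rw [← hrel x hx, h0, mul_zero]
        have h5 : evP ev (prem f (eraseLead^[k] g)) (y, ξ i y) = 0 :=
          hT.zc _ hmem (x, ξ i x) (y, ξ i y) hx hy (code_root_eq hR hC hx hy i) h4
        rw [← hrel y hy] at h5
        rcases mul_eq_zero.mp h5 with h6 | h6
        · exact absurd (pow_eq_zero_iff_of_pos' h6) (hk3 y hy)
        · exact h6
      · intro p hp hc h0
        have hne : ∃ q : X × ℝ, q.1 ∈ C ∧ evP ev (derivative f) q ≠ 0 := by
          by_contra hcon
          push Not at hcon
          have hd0 : (derivative f).map (evAt ev p.1) = 0 := by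
            refine Polynomial.funext fun t => ?_
            rw [Polynomial.eval_zero]
            exact hcon (p.1, t) hp
          rw [← Polynomial.derivative_map] at hd0
          have := Polynomial.derivative_eq_zero.mp hd0
          rw [hdeg p.1 hp] at this
          omega
        obtain ⟨i, hi⟩ := hroot (derivative f) (by simp [hG]) hne p hp h0
        have := hc i
        apply this
        show SignType.sign (p.2 - ξ i.1 p.1) = 0
        rw [hi]; simp
    have hfin := HasTable.add hev hC hTr hadd
    refine hfin.mono ?_
    intro g hg
    rw [Finset.mem_insert] at hg ⊢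
    rcases hg with rfl | hg
    · exact Or.inl rfl
    · right; simp [hG, hg]

theorem exists_base (hev : ∀ a, Continuous (ev a)) : ∀ F : Finset A[X], Concl ev F := by
  classical
  have main : ∀ m : ℕ, ∀ F : Finset A[X], (∀ f ∈ F, f.natDegree ≤ m) → Concl ev F := by
    intro m
    induction m with
    | zero => exact fun F hF => concl_zero F hF
    | succ m ihm =>
      have inner : ∀ N : ℕ, ∀ F : Finset A[X], (∀ f ∈ F, f.natDegree ≤ m + 1) →
          (F.filter (fun f => f.natDegree = m + 1)).card ≤ N → Concl ev F := by
        intro N
        induction N with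
        | zero =>
          intro F hF hN
          refine ihm F fun f hf => ?_
          have h1 := hF f hf
          have h2 : f.natDegree ≠ m + 1 := by
            intro h
            have : f ∈ F.filter (fun f => f.natDegree = m + 1) := by simp [hf, h]
            rw [Nat.le_zero, Finset.card_eq_zero] at hN
            rw [hN] at this
            simp at this
          omega
        | succ N ihN =>
          intro F hF hN
          by_cases hex : ∃ f ∈ F, f.natDegree = m + 1
          · obtain ⟨f, hfF, hf⟩ := hex
            have hFe : insert f (F.erase f) = F := Finset.insert_erase hfF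
            have hcard : ((F.erase f).filter (fun f => f.natDegree = m + 1)).card ≤ N := by
              have h1 : ((F.erase f).filter (fun f => f.natDegree = m + 1)) =
                  (F.filter (fun f => f.natDegree = m + 1)).erase f := by
                rw [Finset.filter_erase]
              rw [h1, Finset.card_erase_of_mem (by simp [hfF, hf])]
              omega
            have hF₀ : ∀ g ∈ F.erase f, g.natDegree ≤ m + 1 := fun g hg =>
              hF g (Finset.mem_of_mem_erase hg)
            rw [← hFe]
            refine concl_step hev m (F.erase f) f hf ?_ ?_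
            · refine ihN _ ?_ ?_
              · intro g hg
                rw [Finset.mem_insert] at hg
                rcases hg with rfl | hg
                · have := Polynomial.eraseLead_natDegree_le f; omega
                · exact hF₀ g hg
              · rw [Finset.filter_insert, if_neg]
                · exact hcard
                · have := Polynomial.eraseLead_natDegree_le f; omega
            · have hder : (derivative f).natDegree ≤ m := by
                have := Polynomial.natDegree_derivative_le f; omega
              have hGd : ∀ g ∈ insert (derivative f) (F.erase f), g.natDegree ≤ m + 1 := by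
                intro g hg
                rw [Finset.mem_insert] at hg
                rcases hg with rfl | hg
                · omega
                · exact hF₀ g hg
              have hprem : ∀ g ∈ (insert (derivative f) (F.erase f)).biUnion
                  (fun g => (Finset.range (g.support.card + 1)).image
                  (fun k => prem f (eraseLead^[k] g))), g.natDegree ≤ m := by
                intro g hg
                rw [Finset.mem_biUnion] at hg
                obtain ⟨g', hg', hg⟩ := hg
                rw [Finset.mem_image] at hg
                obtain ⟨k, _, rfl⟩ := hg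
                exact prem_natDegree _ _ m
                  ((natDegree_iterate_eraseLead_le g' k).trans (hGd g' hg'))
              refine ihN _ ?_ ?_
              · intro g hg
                rw [Finset.mem_union] at hg
                rcases hg with hg | hg
                · exact hGd g hg
                · have := hprem g hg; omega
              · refine le_trans (Finset.card_le_card ?_) hcard
                intro g hg
                rw [Finset.mem_filter, Finset.mem_union, Finset.mem_insert] at hg
                rw [Finset.mem_filter]
                obtain ⟨(rfl | hg) | hg, hgm⟩ := hg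
                · omega
                · exact ⟨hg, hgm⟩
                · have := hprem g hg; omega
          · push Not at hex
            refine ihm F fun f hf => ?_
            have h1 := hF f hf
            have h2 := hex f hf
            omega
      intro F hF
      exact inner _ F hF le_rfl
  intro F
  refine main (F.sup fun f => f.natDegree) F fun f hf => ?_
  exact Finset.le_sup (f := fun f : A[X] => f.natDegree) hf

end Pool.Agent.Lib.MP42
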