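import Pool.Agent.Lib.MP_42de19_nt.OneVar
import Pool.Agent.Lib.MP_42de19_nt.Semialg

set_option autoImplicit false

namespace Pool.Agent.Lib.MP42

open Set Topology Filter

theorem Eqv.refl (f : Polynomial ℚ) (z : ℚ) : Eqv f z z := ⟨1, one_ne_zero, by ring⟩

/-- The one variable moves, landing outside the exceptional set. -/
theorem key_one' (f : Polynomial ℚ) (h4 : f.natDegree ≤ 4) : ∃ T : Set ℚ, T.Finite ∧
    ∀ z ∉ T, (f ≠ 0 → f.eval z ≠ 0) ∧ ∀ t : ℝ,
      (f ≠ 0 → ∀ u ∈ Set.uIcc (z : ℝ) t, (Polynomial.aeval u f : ℝ) ≠ 0) → ∀ ε > 0, ∃ s : ℚ,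
        s ∉ T ∧ |(s : ℝ) - t| < ε ∧ Eqv f z s := by
  obtain ⟨T, hT, hkey⟩ := key_one f h4
  refine ⟨T, hT, fun z hz => ⟨(hkey z hz).1, fun t ht ε hε => ?_⟩⟩
  by_cases hzt : t = z
  · exact ⟨z, hz, by rw [hzt]; simpa using hε, Eqv.refl f z⟩
  have hTR : ((fun q : ℚ => (q : ℝ)) '' T).Finite := hT.image _
  -- a target outside T
  obtain ⟨t', ht'T, ht'1, ht'2⟩ : ∃ t' : ℝ, t' ∉ ((fun q : ℚ => (q : ℝ)) '' T) ∧
      |t' - t| < ε / 2 ∧ t' ∈ Set.uIcc (z : ℝ) t := by
    rcases lt_or_gt_of_ne hzt with h | h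
    · have hinf : (Set.Ioo t (min (z : ℝ) (t + ε / 2))).Infinite :=
        Set.Ioo_infinite (lt_min h (by linarith))
      obtain ⟨t', h1, h2⟩ := hinf.exists_notMem_finite hTR
      have h3 := lt_of_lt_of_le h1.2 (min_le_left _ _)
      have h4 := lt_of_lt_of_le h1.2 (min_le_right _ _)
      refine ⟨t', h2, by rw [abs_lt]; constructor <;> linarith [h1.1], ?_⟩
      rw [Set.mem_uIcc]; right; exact ⟨h1.1.le, h3.le⟩
    · have hinf : (Set.Ioo (max (z : ℝ) (t - ε / 2)) t).Infinite :=
        Set.Ioo_infinite (max_lt h (by linarith))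
      obtain ⟨t', h1, h2⟩ := hinf.exists_notMem_finite hTR
      have h3 := lt_of_le_of_lt (le_max_left _ _) h1.1
      have h4 := lt_of_le_of_lt (le_max_right _ _) h1.1
      refine ⟨t', h2, by rw [abs_lt]; constructor <;> linarith [h1.2], ?_⟩
      rw [Set.mem_uIcc]; left; exact ⟨h3.le, h1.2.le⟩
  obtain ⟨ρ, hρ, hball⟩ := Metric.isOpen_iff.mp hTR.isClosed.isOpen_compl t' ht'T
  obtain ⟨s, hs1, hs2⟩ := (hkey z hz).2 t' (fun hf u hu => ht hf u
    (Set.uIcc_subset_uIcc_left ht'2 hu)) (min ρ (ε / 2)) (lt_min hρ (by linarith))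
  refine ⟨s, ?_, ?_, hs2⟩
  · intro hsT
    have : (s : ℝ) ∈ Metric.ball t' ρ := by
      rw [Metric.mem_ball, Real.dist_eq]; exact lt_of_lt_of_le hs1 (min_le_left _ _)
    exact hball this ⟨s, hsT, rfl⟩
  · have := lt_of_lt_of_le hs1 (min_le_right _ _)
    calc |(s : ℝ) - t| = |((s : ℝ) - t') + (t' - t)| := by ring_nf
      _ ≤ |(s : ℝ) - t'| + |t' - t| := abs_add_le _ _
      _ < ε := by linarith

/-- the real points given by a set of rational points -/
def castSet {n : ℕ} (A : Set (Fin n → ℚ)) : Set (Fin n → ℝ) :=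
  {x | ∃ z ∈ A, ∀ i, x i = (z i : ℝ)}

theorem abs_lt_of_uIcc {a b c η u : ℝ} (ha : |a - c| < η) (hb : |b - c| < η)
    (hu : u ∈ Set.uIcc a b) : |u - c| < η := by
  rw [abs_lt] at *
  rw [Set.mem_uIcc] at hu
  rcases hu with h | h <;> constructor <;> linarith [h.1, h.2, ha.1, ha.2, hb.1, hb.2]

/-- The closure of a set of rational points saturated under the one variable moves is
semialgebraic over `ℚ`. -/
theorem sa_closure_saturated {n : ℕ} (f : Fin n → Polynomial ℚ) (h4 : ∀ i, (f i).natDegree ≤ 4)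
    (A : Set (Fin n → ℚ))
    (hA : ∀ z ∈ A, ∀ i s, Eqv (f i) (z i) s → Function.update z i s ∈ A) :
    SA (evR n) (closure (castSet A)) := by
  classical
  choose T hT hkey using fun i => key_one' (f i) (h4 i)
  -- types
  let At : (Fin n → Option ℚ) → Set (Fin n → ℚ) := fun τ =>
    {z | z ∈ A ∧ ∀ i, (∀ q, τ i = some q → z i = q) ∧ (τ i = none → z i ∉ T i)}
  let Y : (Fin n → Option ℚ) → Set (Fin n → ℝ) := fun τ =>
    {x | ∀ i, (∀ q, τ i = some q → x i = (q : ℝ)) ∧
      (τ i = none → f i ≠ 0 → (Polynomial.aeval (x i) (f i) : ℝ) ≠ 0)}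
  let Θ : Set (Fin n → Option ℚ) := Set.pi Set.univ (fun i => insert none (some '' T i))
  have hΘ : Θ.Finite := Set.Finite.pi fun i => ((hT i).image _).insert _
  have hdecomp : castSet A = ⋃ τ ∈ Θ, castSet (At τ) := by
    ext x
    simp only [mem_iUnion, castSet, mem_ofPred_eq]
    constructor
    · rintro ⟨z, hz, hx⟩
      refine ⟨fun i => if z i ∈ T i then some (z i) else none, ?_, z, ⟨hz, fun i => ?_⟩, hx⟩
      · intro i _
        by_cases h : z i ∈ T i
        · simp [h]
        · simp [h]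
      · by_cases h : z i ∈ T i
        · simp [h]
        · simp [h]
    · rintro ⟨τ, -, z, hz, hx⟩
      exact ⟨z, hz.1, hx⟩
  rw [hdecomp, hΘ.closure_biUnion]
  refine SA.biUnion_finite hΘ _ fun τ _ => ?_
  -- the stratum Y is semialgebraic
  have hYSA : SA (evR n) (Y τ) := by
    have : Y τ = ⋂ i, {x : Fin n → ℝ | (∀ q, τ i = some q → x i = (q : ℝ)) ∧
        (τ i = none → f i ≠ 0 → (Polynomial.aeval (x i) (f i) : ℝ) ≠ 0)} := by
      ext x; simp [Y]
    rw [this]
    refine SA.iInter_finite _ fun i => ?_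
    cases hτ : τ i with
    | none =>
      by_cases hf : f i = 0
      · have : {x : Fin n → ℝ | (∀ q, (none : Option ℚ) = some q → x i = (q : ℝ)) ∧
            ((none : Option ℚ) = none → f i ≠ 0 → (Polynomial.aeval (x i) (f i) : ℝ) ≠ 0)} =
            Set.univ := by
          ext x; simp [hf]
        rw [this]; exact SA.univ
      · have : {x : Fin n → ℝ | (∀ q, (none : Option ℚ) = some q → x i = (q : ℝ)) ∧
            ((none : Option ℚ) = none → f i ≠ 0 → (Polynomial.aeval (x i) (f i) : ℝ) ≠ 0)} =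
            {x | evR n (Polynomial.aeval (MvPolynomial.X i) (f i)) x ≠ 0} := by
          ext x
          have e : evR n (Polynomial.aeval (MvPolynomial.X i) (f i)) x =
              (Polynomial.aeval (x i) (f i) : ℝ) := by
            rw [evR_apply, ← Polynomial.aeval_algHom_apply, MvPolynomial.aeval_X]
          rw [mem_ofPred_eq, mem_ofPred_eq, e]
          simp [hf]
        rw [this]; exact SA.ne_zero _
    | some q =>
      have : {x : Fin n → ℝ | (∀ q', (some q : Option ℚ) = some q' → x i = (q' : ℝ)) ∧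
          ((some q : Option ℚ) = none → f i ≠ 0 → (Polynomial.aeval (x i) (f i) : ℝ) ≠ 0)} =
          {x | evR n (MvPolynomial.X i - MvPolynomial.C q) x = 0} := by
        ext x
        have e : evR n (MvPolynomial.X i - MvPolynomial.C q) x = x i - (q : ℝ) := by
          rw [evR_apply, map_sub, MvPolynomial.aeval_X, MvPolynomial.aeval_C]; rfl
        rw [mem_ofPred_eq, mem_ofPred_eq, e, sub_eq_zero]
        constructor
        · intro h; exact h.1 q rfl
        · intro h
          refine ⟨fun q' hq' => ?_, fun h' => by simp at h'⟩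
          rw [Option.some.injEq] at hq'
          rw [← hq']; exact h
      rw [this]; exact SA.eq_zero _
  -- local openness
  have hloc : ∀ x ∈ closure (castSet (At τ)) ∩ Y τ, ∃ η > 0, ∀ x' ∈ Y τ,
      (∀ i, |x' i - x i| < η) → x' ∈ closure (castSet (At τ)) := by
    rintro x ⟨hxc, hxY⟩
    -- radius
    obtain ⟨η, hη, hηf⟩ : ∃ η > 0, ∀ i, τ i = none → f i ≠ 0 → ∀ u : ℝ, |u - x i| < η →
        (Polynomial.aeval u (f i) : ℝ) ≠ 0 := by
      have h1 : ∀ i, ∃ η > 0, τ i = none → f i ≠ 0 → ∀ u : ℝ, |u - x i| < η →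
          (Polynomial.aeval u (f i) : ℝ) ≠ 0 := by
        intro i
        by_cases h : τ i = none ∧ f i ≠ 0
        · have h2 : ∀ᶠ u in 𝓝 (x i), (Polynomial.aeval u (f i) : ℝ) ≠ 0 :=
            (Polynomial.continuous_aeval (f i)).continuousAt.eventually_ne
              ((hxY i).2 h.1 h.2)
          rw [Metric.eventually_nhds_iff] at h2
          obtain ⟨η, hη, h2⟩ := h2
          exact ⟨η, hη, fun _ _ u hu => h2 (by rw [Real.dist_eq]; exact hu)⟩
        · refine ⟨1, one_pos, fun h1 h2 => absurd ⟨h1, h2⟩ h⟩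
      choose η hη h1 using h1
      rcases isEmpty_or_nonempty (Fin n) with he | hne
      · exact ⟨1, one_pos, fun i => he.elim i⟩
      · obtain ⟨i₀, hi₀⟩ := Finite.exists_min η
        exact ⟨η i₀, hη i₀, fun i a b u hu => h1 i a b u (lt_of_lt_of_le hu (hi₀ i))⟩
    refine ⟨η, hη, fun x' hx'Y hx' => ?_⟩
    obtain ⟨w, ⟨z, hz, hwz⟩, hd⟩ := Metric.mem_closure_iff.mp hxc η hη
    have hzx : ∀ i, |(z i : ℝ) - x i| < η := by
      intro i
      rw [dist_comm, dist_pi_lt_iff hη] at hd
      have := hd i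
      rwa [hwz i, Real.dist_eq] at this
    rw [Metric.mem_closure_iff]
    intro ε hε
    have key : ∀ s : Finset (Fin n), ∃ z ∈ At τ, (∀ i, |(z i : ℝ) - x i| < η) ∧
        ∀ i ∈ s, |(z i : ℝ) - x' i| < ε := by
      intro s
      induction s using Finset.induction_on with
      | empty => exact ⟨z, hz, hzx, by simp⟩
      | insert i s hi ih =>
        obtain ⟨z, hz, hz1, hz2⟩ := ih
        cases hτ : τ i with
        | some q =>
          refine ⟨z, hz, hz1, fun j hj => ?_⟩
          rcases Finset.mem_insert.mp hj with h | h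
          · subst h
            rw [(hz.2 j).1 q hτ, (hx'Y j).1 q hτ]
            simpa using hε
          · exact hz2 j h
        | none =>
          have hziT := (hz.2 i).2 hτ
          obtain ⟨s', hs'T, hs'1, hs'2⟩ := (hkey i (z i) hziT).2 (x' i)
            (fun hf u hu => hηf i hτ hf u (abs_lt_of_uIcc (hz1 i) (hx' i) hu))
            (min ε (η - |x' i - x i|)) (lt_min hε (by linarith [hx' i]))
          refine ⟨Function.update z i s', ⟨hA z hz.1 i s' hs'2, fun j => ?_⟩, fun j => ?_,
            fun j hj => ?_⟩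
          · by_cases hj : j = i
            · subst hj
              rw [Function.update_self]
              exact ⟨fun q hq => by rw [hτ] at hq; simp at hq, fun _ => hs'T⟩
            · rw [Function.update_of_ne hj]; exact hz.2 j
          · by_cases hj : j = i
            · subst hj
              rw [Function.update_self]
              have h5 := lt_of_lt_of_le hs'1 (min_le_right _ _)
              calc |(s' : ℝ) - x j| = |((s' : ℝ) - x' j) + (x' j - x j)| := by ring_nf
                _ ≤ |(s' : ℝ) - x' j| + |x' j - x j| := abs_add_le _ _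
                _ < η := by linarith
            · rw [Function.update_of_ne hj]; exact hz1 j
          · by_cases hj' : j = i
            · subst hj'
              rw [Function.update_self]
              exact lt_of_lt_of_le hs'1 (min_le_left _ _)
            · rw [Function.update_of_ne hj']
              exact hz2 j ((Finset.mem_insert.mp hj).resolve_left hj')
    obtain ⟨z', hz', -, hz'2⟩ := key Finset.univ
    refine ⟨fun i => (z' i : ℝ), ⟨z', hz', fun i => rfl⟩, ?_⟩
    rw [dist_comm, dist_pi_lt_iff hε]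
    intro i
    rw [Real.dist_eq]
    exact hz'2 i (Finset.mem_univ i)
  choose! η hη hloc using hloc
  let O : Set (Fin n → ℝ) := ⋃ x ∈ closure (castSet (At τ)) ∩ Y τ, Metric.ball x (η x)
  have hO : IsOpen O := isOpen_biUnion fun x _ => Metric.isOpen_ball
  have hUO : closure (castSet (At τ)) ∩ Y τ = Y τ ∩ O := by
    apply Set.Subset.antisymm
    · rintro x hx
      exact ⟨hx.2, mem_biUnion hx (Metric.mem_ball_self (hη x hx))⟩
    · rintro x' ⟨hx'Y, hx'O⟩
      simp only [O, mem_iUnion] at hx'O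
      obtain ⟨x, hx, hx'⟩ := hx'O
      refine ⟨hloc x hx x' hx'Y ?_, hx'Y⟩
      intro i
      rw [Metric.mem_ball, dist_pi_lt_iff (hη x hx)] at hx'
      have := hx' i
      rwa [Real.dist_eq] at this
  have hSU : SA (evR n) (closure (castSet (At τ)) ∩ Y τ) :=
    SA.of_clopen hYSA hO isClosed_closure hUO (Set.inter_comm _ _)
  have hsub : castSet (At τ) ⊆ closure (castSet (At τ)) ∩ Y τ := by
    intro x hx
    refine ⟨subset_closure hx, ?_⟩
    obtain ⟨z, hz, hxz⟩ := hx
    intro i
    refine ⟨fun q hq => by rw [hxz i, (hz.2 i).1 q hq], fun hτ hf => ?_⟩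
    rw [hxz i, aeval_ratCast']
    have := (hkey i (z i) ((hz.2 i).2 hτ)).1 hf
    exact_mod_cast this
  have heq : closure (castSet (At τ)) = closure (closure (castSet (At τ)) ∩ Y τ) := by
    apply Set.Subset.antisymm
    · exact closure_mono hsub
    · exact closure_minimal Set.inter_subset_left isClosed_closure
  rw [heq]
  exact hSU.closure

end Pool.Agent.Lib.MP42
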