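import Pool.Agent.Lib.MP_42de19_nt.Base

set_option autoImplicit false
set_option linter.unusedSectionVars false

namespace Pool.Agent.Lib.MP42

open Set Topology Polynomial

/-- Cell decomposition property of a ring of functions. -/
def CAD {A X : Type*} [TopologicalSpace X] [CommRing A] (ev : A →+* (X → ℝ)) : Prop :=
  ∀ B : Finset A, ∃ 𝒞 : Set (Set X), 𝒞.Finite ∧ ⋃₀ 𝒞 = Set.univ ∧
    ∀ C ∈ 𝒞, IsPreconnected C ∧ SA ev C ∧ BaseConst ev B C

section

variable {X : Type*} [TopologicalSpace X] {A : Type*} [CommRing A] {ev : A →+* (X → ℝ)}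

theorem BaseConst.sign_eq (hev : ∀ a, Continuous (ev a)) {B : Finset A} {C : Set X}
    (h : BaseConst ev B C) (hC : IsPreconnected C) {b : A} (hb : b ∈ B) {x y : X} (hx : x ∈ C)
    (hy : y ∈ C) : SignType.sign (ev b x) = SignType.sign (ev b y) :=
  sign_const_of_zc hC (hev b).continuousOn (h b hb) hx hy

/-- cylindrical version -/
theorem CAD.table (hcad : CAD ev) (hev : ∀ a, Continuous (ev a)) (F : Finset A[X]) :
    ∃ 𝒞 : Set (Set X), 𝒞.Finite ∧ ⋃₀ 𝒞 = Set.univ ∧
      ∀ C ∈ 𝒞, IsPreconnected C ∧ SA ev C ∧ HasTable ev C F := by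
  obtain ⟨B, hB⟩ := exists_base hev F
  obtain ⟨𝒞, hfin, hun, h𝒞⟩ := hcad B
  exact ⟨𝒞, hfin, hun, fun C hC => ⟨(h𝒞 C hC).1, (h𝒞 C hC).2.1,
    hB C (h𝒞 C hC).1 (h𝒞 C hC).2.1 (h𝒞 C hC).2.2⟩⟩

theorem CAD.poly (hcad : CAD ev) (hev : ∀ a, Continuous (ev a)) : CAD (evP ev) := by
  intro F
  obtain ⟨𝒞, hfin, hun, h𝒞⟩ := hcad.table hev F
  choose! hpre hsa htab using h𝒞
  choose! ι hι ξ hT using htab
  refine ⟨⋃ C ∈ 𝒞, {D | ∃ c : ι C → SignType, D = {p : X × ℝ | p.1 ∈ C ∧ code (ξ C) p = c}},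
    ?_, ?_, ?_⟩
  · refine hfin.biUnion fun C hC => ?_
    have := hι C hC
    have : {D | ∃ c : ι C → SignType, D = {p : X × ℝ | p.1 ∈ C ∧ code (ξ C) p = c}} =
        Set.range (fun c : ι C → SignType => {p : X × ℝ | p.1 ∈ C ∧ code (ξ C) p = c}) := by
      ext D; constructor
      · rintro ⟨c, rfl⟩; exact ⟨c, rfl⟩
      · rintro ⟨c, rfl⟩; exact ⟨c, rfl⟩
    rw [this]
    exact Set.finite_range _
  · rw [Set.eq_univ_iff_forall]
    intro p
    have hp : p.1 ∈ ⋃₀ 𝒞 := by rw [hun]; trivial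
    obtain ⟨C, hC, hpC⟩ := hp
    refine ⟨{q | q.1 ∈ C ∧ code (ξ C) q = code (ξ C) p}, ?_, hpC, rfl⟩
    simp only [mem_iUnion]
    exact ⟨C, hC, code (ξ C) p, rfl⟩
  · intro D hD
    simp only [mem_iUnion] at hD
    obtain ⟨C, hC, c, rfl⟩ := hD
    have := hι C hC
    refine ⟨(hT C hC).roots.cell_preconnected (hpre C hC) c, (hT C hC).sa c, ?_⟩
    rintro f hf p ⟨hp, hpc⟩ q ⟨hq, hqc⟩ h0
    exact (hT C hC).zc f hf p q hp hq (hpc.trans hqc.symm) h0

/-- Projection theorem. -/
theorem CAD.proj (hcad : CAD ev) (hev : ∀ a, Continuous (ev a)) {S : Set (X × ℝ)}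
    (hS : SA (evP ev) S) : SA ev (Prod.fst '' S) := by
  obtain ⟨F, hF⟩ := hS.exists_finset
  obtain ⟨𝒞, hfin, hun, h𝒞⟩ := hcad.table hev F
  have key : ∀ C ∈ 𝒞, C ⊆ Prod.fst '' S ∨ Disjoint C (Prod.fst '' S) := by
    intro C hC
    obtain ⟨hpre, hsa, ι, hι, ξ, hT⟩ := h𝒞 C hC
    by_cases h : ∃ p ∈ S, p.1 ∈ C
    · left
      obtain ⟨p, hpS, hpC⟩ := h
      obtain ⟨m, -, hm⟩ := hT.roots.exists_section hpre hpC p.2
      intro x hx
      refine ⟨(x, m x), ?_, rfl⟩
      refine hF p (x, m x) (fun f hf => ?_) hpS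
      exact sign_const_of_zc (hT.roots.cell_preconnected hpre (code ξ p))
        (continuous_evP hev f).continuousOn
        (fun a ha b hb => hT.zc f hf a b ha.1 hb.1 (ha.2.trans hb.2.symm)) ⟨hpC, rfl⟩
        ⟨hx, hm x hx⟩
    · right
      rw [Set.disjoint_left]
      rintro x hx ⟨p, hpS, rfl⟩
      exact h ⟨p, hpS, hx⟩
  have heq : Prod.fst '' S = ⋃₀ {C ∈ 𝒞 | C ⊆ Prod.fst '' S} := by
    apply Set.Subset.antisymm
    · intro x hx
      have hx' : x ∈ ⋃₀ 𝒞 := by rw [hun]; trivial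
      obtain ⟨C, hC, hxC⟩ := hx'
      rcases key C hC with h | h
      · exact ⟨C, ⟨hC, h⟩, hxC⟩
      · exact absurd hx (Set.disjoint_left.mp h hxC)
    · exact Set.sUnion_subset fun C hC => hC.2
  rw [heq]
  exact SA.sUnion_finite (hfin.subset fun C hC => hC.1) fun C hC => (h𝒞 C hC.1).2.1

theorem CAD.transfer {Y : Type*} [TopologicalSpace Y] {B : Type*} [CommRing B]
    {ev' : B →+* (Y → ℝ)} (hcad : CAD ev) (φ : Y ≃ₜ X) (ψ : B → A) (ψ' : A → B)
    (h : ∀ b y, ev' b y = ev (ψ b) (φ y)) (h' : ∀ a y, ev' (ψ' a) y = ev a (φ y)) :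
    CAD ev' := by
  classical
  intro F
  obtain ⟨𝒞, hfin, hun, h𝒞⟩ := hcad (F.image ψ)
  refine ⟨(fun C => φ ⁻¹' C) '' 𝒞, hfin.image _, ?_, ?_⟩
  · rw [Set.eq_univ_iff_forall]
    intro y
    have : φ y ∈ ⋃₀ 𝒞 := by rw [hun]; trivial
    obtain ⟨C, hC, hyC⟩ := this
    exact ⟨φ ⁻¹' C, ⟨C, hC, rfl⟩, hyC⟩
  · rintro _ ⟨C, hC, rfl⟩
    obtain ⟨h1, h2, h3⟩ := h𝒞 C hC
    refine ⟨?_, h2.comap ψ' φ h', ?_⟩
    · exact φ.isPreconnected_preimage.mpr h1
    · intro b hb x hx y hy h0
      rw [h] at h0 ⊢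
      exact h3 (ψ b) (Finset.mem_image_of_mem _ hb) _ hx _ hy h0

/-- Relatively clopen subsets of `SA` sets are `SA`. -/
theorem CAD.sa_of_clopen (hcad : CAD ev) (hev : ∀ a, Continuous (ev a)) {S W U Z : Set X}
    (hS : SA ev S) (hU : IsOpen U) (hZ : IsClosed Z) (hWU : W = S ∩ U) (hWZ : W = S ∩ Z) :
    SA ev W := by
  obtain ⟨F, hF⟩ := hS.exists_finset
  obtain ⟨𝒞, hfin, hun, h𝒞⟩ := hcad F
  have heq : W = ⋃₀ {C ∈ 𝒞 | C ⊆ W} := by
    apply Set.Subset.antisymm
    · intro x hx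
      have hx' : x ∈ ⋃₀ 𝒞 := by rw [hun]; trivial
      obtain ⟨C, hC, hxC⟩ := hx'
      refine ⟨C, ⟨hC, ?_⟩, hxC⟩
      have hxS : x ∈ S := by rw [hWU] at hx; exact hx.1
      have hCS : C ⊆ S := by
        intro y hy
        exact hF x y (fun f hf => (h𝒞 C hC).2.2.sign_eq hev (h𝒞 C hC).1 hf hxC hy) hxS
      by_contra hcon
      rw [Set.not_subset] at hcon
      obtain ⟨y, hyC, hyW⟩ := hcon
      have hyZ : y ∈ Zᶜ := by
        intro hyZ
        apply hyW
        rw [hWZ]; exact ⟨hCS hyC, hyZ⟩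
      have hpre := (h𝒞 C hC).1
      have hcov : C ⊆ U ∪ Zᶜ := by
        intro z hz
        by_cases hzZ : z ∈ Z
        · left
          have : z ∈ W := by rw [hWZ]; exact ⟨hCS hz, hzZ⟩
          rw [hWU] at this; exact this.2
        · right; exact hzZ
      obtain ⟨z, hzC, hzU, hzZ⟩ := hpre U Zᶜ hU hZ.isOpen_compl hcov
        ⟨x, hxC, by rw [hWU] at hx; exact hx.2⟩ ⟨y, hyC, hyZ⟩
      have : z ∈ W := by rw [hWU]; exact ⟨hCS hzC, hzU⟩
      rw [hWZ] at this
      exact hzZ this.2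
    · exact Set.sUnion_subset fun C hC => hC.2
  rw [heq]
  exact SA.sUnion_finite (hfin.subset fun C hC => hC.1) fun C hC => (h𝒞 C hC.1).2.1

end

section mv

variable {X : Type*} [TopologicalSpace X] {A : Type*} [CommRing A]

/-- Evaluation of multivariate polynomials over `A` on `X × (Fin k → ℝ)`. -/
noncomputable def evMv (k : ℕ) {Y : Type*} (ev : A →+* (Y → ℝ)) :
    MvPolynomial (Fin k) A →+* (Y × (Fin k → ℝ) → ℝ) :=
  RingHom.pi (fun p => MvPolynomial.eval₂Hom (evAt ev p.1) p.2)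

theorem evMv_apply (k : ℕ) {Y : Type*} (ev : A →+* (Y → ℝ)) (f : MvPolynomial (Fin k) A)
    (p : Y × (Fin k → ℝ)) : evMv k ev f p = MvPolynomial.eval₂ (evAt ev p.1) p.2 f := rfl

theorem continuous_evMv (k : ℕ) {ev : A →+* (X → ℝ)} (hev : ∀ a, Continuous (ev a))
    (f : MvPolynomial (Fin k) A) : Continuous (evMv k ev f) := by
  induction f using MvPolynomial.induction_on with
  | C a =>
    have : evMv k ev (MvPolynomial.C a) = fun p => ev a p.1 := by
      funext p; rw [evMv_apply, MvPolynomial.eval₂_C]; rfl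
    rw [this]; exact (hev a).comp continuous_fst
  | add p q hp hq => rw [map_add]; exact hp.add hq
  | mul_X p i hp =>
    rw [map_mul]
    refine hp.mul ?_
    have : evMv k ev (MvPolynomial.X i) = fun p => p.2 i := by
      funext p; rw [evMv_apply, MvPolynomial.eval₂_X]
    rw [this]
    exact (continuous_apply i).comp continuous_snd

/-- The homeomorphism splitting off the first coordinate. -/
def splitHomeo (k : ℕ) (X : Type*) [TopologicalSpace X] :
    X × (Fin (k + 1) → ℝ) ≃ₜ (X × (Fin k → ℝ)) × ℝ where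
  toFun p := ((p.1, Fin.tail p.2), p.2 0)
  invFun q := (q.1.1, Fin.cons q.2 q.1.2)
  left_inv p := by simp
  right_inv q := by simp
  continuous_toFun := by
    refine Continuous.prodMk (Continuous.prodMk continuous_fst ?_) ?_
    · refine continuous_pi fun i => ?_
      exact (continuous_apply (Fin.succ i)).comp continuous_snd
    · exact (continuous_apply 0).comp continuous_snd
  continuous_invFun := by
    refine Continuous.prodMk (continuous_fst.comp continuous_fst) ?_
    refine continuous_pi fun i => ?_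
    refine Fin.cases ?_ (fun j => ?_) i
    · simpa using continuous_snd
    · simp only [Fin.cons_succ]
      exact (continuous_apply j).comp (continuous_snd.comp continuous_fst)

theorem evMv_split (k : ℕ) {Y : Type*} (ev : A →+* (Y → ℝ)) (f : MvPolynomial (Fin (k + 1)) A)
    (y : Y) (t : ℝ) (z : Fin k → ℝ) :
    evMv (k + 1) ev f (y, Fin.cons t z) =
      evP (evMv k ev) (MvPolynomial.finSuccEquiv A k f) ((y, z), t) := by
  have h : (evMv (k + 1) ev) = (RingHom.pi (fun p : Y × (Fin (k + 1) → ℝ) =>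
      ((Pi.evalRingHom (fun _ => ℝ) (((p.1, Fin.tail p.2), p.2 0) : (Y × (Fin k → ℝ)) × ℝ)).comp
        ((evP (evMv k ev)).comp (MvPolynomial.finSuccEquiv A k).toRingEquiv.toRingHom)))) := by
    apply MvPolynomial.ringHom_ext
    · intro a
      funext p
      simp only [RingHom.pi_apply, RingHom.comp_apply, Pi.evalRingHom_apply]
      rw [evMv_apply, MvPolynomial.eval₂_C]
      show _ = evP (evMv k ev) (MvPolynomial.finSuccEquiv A k (MvPolynomial.C a)) _
      rw [MvPolynomial.finSuccEquiv_apply]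
      simp only [MvPolynomial.eval₂Hom_C, RingHom.comp_apply, evP_C]
      rw [evMv_apply, MvPolynomial.eval₂_C]
    · intro i
      funext p
      simp only [RingHom.pi_apply, RingHom.comp_apply, Pi.evalRingHom_apply]
      rw [evMv_apply, MvPolynomial.eval₂_X]
      show _ = evP (evMv k ev) (MvPolynomial.finSuccEquiv A k (MvPolynomial.X i)) _
      refine Fin.cases ?_ (fun j => ?_) i
      · rw [MvPolynomial.finSuccEquiv_X_zero, evP_X]
      · rw [MvPolynomial.finSuccEquiv_X_succ, evP_C, evMv_apply, MvPolynomial.eval₂_X]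
        rfl
  rw [h]
  simp only [RingHom.pi_apply, RingHom.comp_apply, Pi.evalRingHom_apply]
  simp

theorem CAD.mv {ev : A →+* (X → ℝ)} (hcad : CAD ev) (hev : ∀ a, Continuous (ev a)) :
    ∀ k, CAD (evMv k ev) := by
  intro k
  induction k with
  | zero =>
    let φ : X × (Fin 0 → ℝ) ≃ₜ X :=
      { toFun := Prod.fst
        invFun := fun x => (x, fun i => i.elim0)
        left_inv := fun p => by
          ext
          · rfl
          · rename_i i; exact i.elim0
        right_inv := fun x => rfl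
        continuous_toFun := continuous_fst
        continuous_invFun := by fun_prop }
    refine hcad.transfer φ (fun f => MvPolynomial.isEmptyRingEquiv A (Fin 0) f)
      (fun a => MvPolynomial.C a) ?_ ?_
    · intro b y
      rw [evMv_apply]
      have : b = MvPolynomial.C (MvPolynomial.isEmptyRingEquiv A (Fin 0) b) := by
        rw [MvPolynomial.isEmptyRingEquiv_eq_coeff_zero]
        exact MvPolynomial.eq_C_of_isEmpty b
      conv_lhs => rw [this]
      rw [MvPolynomial.eval₂_C]; rfl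
    · intro a y
      rw [evMv_apply, MvPolynomial.eval₂_C]; rfl
  | succ k ih =>
    have h1 := ih.poly (continuous_evMv k hev)
    refine h1.transfer (splitHomeo k X) (fun f => MvPolynomial.finSuccEquiv A k f)
      (fun g => (MvPolynomial.finSuccEquiv A k).symm g) ?_ ?_
    · intro b y
      have := evMv_split k ev b y.1 (y.2 0) (Fin.tail y.2)
      rw [Fin.cons_self_tail] at this
      exact this
    · intro a y
      have := evMv_split k ev ((MvPolynomial.finSuccEquiv A k).symm a) y.1 (y.2 0) (Fin.tail y.2)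
      rw [Fin.cons_self_tail, AlgEquiv.apply_symm_apply] at this
      exact this

/-- Projection theorem for several variables. -/
theorem CAD.projMv {ev : A →+* (X → ℝ)} (hcad : CAD ev) (hev : ∀ a, Continuous (ev a)) :
    ∀ k, ∀ S : Set (X × (Fin k → ℝ)), SA (evMv k ev) S → SA ev (Prod.fst '' S) := by
  intro k
  induction k with
  | zero =>
    intro S hS
    have : Prod.fst '' S = (fun x => ((x, fun i => i.elim0) : X × (Fin 0 → ℝ))) ⁻¹' S := by
      ext x
      constructor
      · rintro ⟨⟨x, y⟩, hp, rfl⟩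
        have : y = fun i => i.elim0 := by funext i; exact i.elim0
        rw [this] at hp
        exact hp
      · intro h; exact ⟨_, h, rfl⟩
    rw [this]
    refine hS.comap (fun f => MvPolynomial.isEmptyRingEquiv A (Fin 0) f) _ ?_
    intro b y
    rw [evMv_apply]
    have : b = MvPolynomial.C (MvPolynomial.isEmptyRingEquiv A (Fin 0) b) := by
      rw [MvPolynomial.isEmptyRingEquiv_eq_coeff_zero]
      exact MvPolynomial.eq_C_of_isEmpty b
    conv_rhs => rw [this]
    rw [MvPolynomial.eval₂_C]; rfl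
  | succ k ih =>
    intro S hS
    have h1 : SA (evP (evMv k ev)) ((splitHomeo k X).symm ⁻¹' S) := by
      refine hS.comap (fun f => MvPolynomial.finSuccEquiv A k f) _ ?_
      intro b y
      exact (evMv_split k ev b y.1.1 y.2 y.1.2).symm
    have h2 := (hcad.mv hev k).proj (continuous_evMv k hev) h1
    have h3 := ih _ h2
    have : Prod.fst '' (Prod.fst '' ((splitHomeo k X).symm ⁻¹' S)) = Prod.fst '' S := by
      ext x
      constructor
      · rintro ⟨_, ⟨p, hp, rfl⟩, rfl⟩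
        exact ⟨_, hp, rfl⟩
      · rintro ⟨p, hp, rfl⟩
        refine ⟨_, ⟨splitHomeo k X p, ?_, rfl⟩, rfl⟩
        show (splitHomeo k X).symm (splitHomeo k X p) ∈ S
        rw [Homeomorph.symm_apply_apply]; exact hp
    rwa [this] at h3

end mv

end Pool.Agent.Lib.MP42
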