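import Pool.Agent.Lib.MP_42de19_nt.SA

set_option autoImplicit false

namespace Pool.Agent.Lib.MP42

open Set Topology

section signs

variable {X : Type*} [TopologicalSpace X]

/-- A continuous nonvanishing function on a preconnected set has constant sign. -/
theorem sign_const_of_ne {C : Set X} (hC : IsPreconnected C) {f : X → ℝ} (hf : ContinuousOn f C)
    (h0 : ∀ x ∈ C, f x ≠ 0) {x y : X} (hx : x ∈ C) (hy : y ∈ C) :
    SignType.sign (f x) = SignType.sign (f y) := by
  rcases lt_or_gt_of_ne (h0 x hx) with h1 | h1 <;> rcases lt_or_gt_of_ne (h0 y hy) with h2 | h2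
  · rw [sign_neg h1, sign_neg h2]
  · exfalso
    obtain ⟨z, hz, hz0⟩ := hC.intermediate_value hx hy hf ⟨h1.le, h2.le⟩
    exact h0 z hz hz0
  · exfalso
    obtain ⟨z, hz, hz0⟩ := hC.intermediate_value hy hx hf ⟨h2.le, h1.le⟩
    exact h0 z hz hz0
  · rw [sign_pos h1, sign_pos h2]

theorem sign_const_of_zc {C : Set X} (hC : IsPreconnected C) {f : X → ℝ} (hf : ContinuousOn f C)
    (h0 : ∀ x ∈ C, ∀ y ∈ C, f x = 0 → f y = 0) {x y : X} (hx : x ∈ C) (hy : y ∈ C) :
    SignType.sign (f x) = SignType.sign (f y) := by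
  by_cases h : f x = 0
  · rw [h, h0 x hx y hy h]
  · exact sign_const_of_ne hC hf (fun z hz hz0 => h (h0 z hz x hx hz0)) hx hy

end signs

variable {X : Type*} [TopologicalSpace X] {ι : Type*}

/-- The position of a point with respect to a family of functions. -/
noncomputable def code (ξ : ι → X → ℝ) (p : X × ℝ) : ι → SignType :=
  fun i => SignType.sign (p.2 - ξ i p.1)

/-- A family of continuous, nowhere equal functions on `C`. -/
structure Roots (C : Set X) (ξ : ι → X → ℝ) : Prop where
  cont : ∀ i, ContinuousOn (ξ i) C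
  inj : ∀ x ∈ C, ∀ i j, ξ i x = ξ j x → i = j

namespace Roots

variable {C : Set X} {ξ : ι → X → ℝ}

theorem order_const (hR : Roots C ξ) (hC : IsPreconnected C) {x y : X} (hx : x ∈ C) (hy : y ∈ C)
    (i j : ι) : SignType.sign (ξ i x - ξ j x) = SignType.sign (ξ i y - ξ j y) := by
  by_cases hij : i = j
  · subst hij; simp
  · refine sign_const_of_ne hC (f := fun x => ξ i x - ξ j x) ((hR.cont i).sub (hR.cont j)) ?_ hx hy
    intro z hz h
    exact hij (hR.inj z hz i j (sub_eq_zero.mp h))

/-- A continuous section of a cell. -/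
theorem exists_section [Finite ι] (hR : Roots C ξ) (hC : IsPreconnected C) {x₀ : X} (hx₀ : x₀ ∈ C)
    (t₀ : ℝ) : ∃ m : X → ℝ, ContinuousOn m C ∧ ∀ x ∈ C, code ξ (x, m x) = code ξ (x₀, t₀) := by
  classical
  have := Fintype.ofFinite ι
  by_cases h0 : ∃ i, code ξ (x₀, t₀) i = 0
  · obtain ⟨i, hi⟩ := h0
    have hi' : t₀ = ξ i x₀ := by
      have := sign_eq_zero_iff.mp hi
      simpa [sub_eq_zero] using this
    refine ⟨ξ i, hR.cont i, fun x hx => ?_⟩
    funext j
    simp only [code]
    rw [hi']
    exact hR.order_const hC hx hx₀ i j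
  · push Not at h0
    set L : Finset ι := Finset.univ.filter (fun i => code ξ (x₀, t₀) i = 1) with hL
    set U : Finset ι := Finset.univ.filter (fun i => code ξ (x₀, t₀) i = -1) with hU
    have hLU : ∀ i, i ∈ L ∨ i ∈ U := by
      intro i
      simp only [hL, hU, Finset.mem_filter, Finset.mem_univ, true_and]
      have := h0 i
      rcases hs : code ξ (x₀, t₀) i with _ | _ | _
      · exact absurd hs this
      · right; rfl
      · left; rfl
    have hL1 : ∀ i ∈ L, ξ i x₀ < t₀ := by
      intro i hi
      simp only [hL, Finset.mem_filter, Finset.mem_univ, true_and, code, sign_eq_one_iff] at hi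
      linarith
    have hU1 : ∀ i ∈ U, t₀ < ξ i x₀ := by
      intro i hi
      simp only [hU, Finset.mem_filter, Finset.mem_univ, true_and, code,
        sign_eq_neg_one_iff] at hi
      linarith
    have hord : ∀ x ∈ C, ∀ i ∈ L, ∀ j ∈ U, ξ i x < ξ j x := by
      intro x hx i hi j hj
      have h1 : SignType.sign (ξ i x₀ - ξ j x₀) = -1 := by
        rw [sign_eq_neg_one_iff]
        have := hL1 i hi; have := hU1 j hj; linarith
      have h2 := hR.order_const hC hx hx₀ i j
      rw [h1, sign_eq_neg_one_iff] at h2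
      linarith
    -- reduce to strict inequalities
    have key : ∀ m : X → ℝ, ContinuousOn m C → (∀ x ∈ C, ∀ i ∈ L, ξ i x < m x) →
        (∀ x ∈ C, ∀ i ∈ U, m x < ξ i x) →
        ∃ m : X → ℝ, ContinuousOn m C ∧ ∀ x ∈ C, code ξ (x, m x) = code ξ (x₀, t₀) := by
      intro m hm hm1 hm2
      refine ⟨m, hm, fun x hx => ?_⟩
      funext i
      rcases hLU i with hi | hi
      · have h1 := hm1 x hx i hi
        have h2 : code ξ (x₀, t₀) i = 1 := by simpa [hL] using hi
        rw [h2]
        simp only [code, sign_eq_one_iff]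
        linarith
      · have h1 := hm2 x hx i hi
        have h2 : code ξ (x₀, t₀) i = -1 := by simpa [hU] using hi
        rw [h2]
        simp only [code, sign_eq_neg_one_iff]
        linarith
    by_cases hLe : L.Nonempty
    · by_cases hUe : U.Nonempty
      · have hc1 : ContinuousOn (fun x => L.sup' hLe (fun i => ξ i x)) C :=
          ContinuousOn.finset_sup'_apply hLe (fun i _ => hR.cont i)
        have hc2 : ContinuousOn (fun x => U.inf' hUe (fun i => ξ i x)) C :=
          ContinuousOn.finset_inf'_apply hUe (fun i _ => hR.cont i)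
        have hlt : ∀ x ∈ C, L.sup' hLe (fun i => ξ i x) < U.inf' hUe (fun i => ξ i x) := by
          intro x hx
          rw [Finset.sup'_lt_iff]
          intro i hi
          rw [Finset.lt_inf'_iff]
          intro j hj
          exact hord x hx i hi j hj
        refine key (fun x => (L.sup' hLe (fun i => ξ i x) + U.inf' hUe (fun i => ξ i x)) / 2)
          ((hc1.add hc2).div_const 2) ?_ ?_
        · intro x hx i hi
          have h1 := hlt x hx
          have h2 : ξ i x ≤ L.sup' hLe (fun i => ξ i x) :=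
            Finset.le_sup' (fun i => ξ i x) hi
          linarith
        · intro x hx i hi
          have h1 := hlt x hx
          have h2 : U.inf' hUe (fun i => ξ i x) ≤ ξ i x :=
            Finset.inf'_le (fun i => ξ i x) hi
          linarith
      · have hc1 : ContinuousOn (fun x => L.sup' hLe (fun i => ξ i x)) C :=
          ContinuousOn.finset_sup'_apply hLe (fun i _ => hR.cont i)
        refine key (fun x => L.sup' hLe (fun i => ξ i x) + 1) (hc1.add continuousOn_const) ?_ ?_
        · intro x hx i hi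
          have h2 : ξ i x ≤ L.sup' hLe (fun i => ξ i x) :=
            Finset.le_sup' (fun i => ξ i x) hi
          linarith
        · intro x hx i hi
          exact absurd ⟨i, hi⟩ hUe
    · by_cases hUe : U.Nonempty
      · have hc2 : ContinuousOn (fun x => U.inf' hUe (fun i => ξ i x)) C :=
          ContinuousOn.finset_inf'_apply hUe (fun i _ => hR.cont i)
        refine key (fun x => U.inf' hUe (fun i => ξ i x) - 1) (hc2.sub continuousOn_const) ?_ ?_
        · intro x hx i hi
          exact absurd ⟨i, hi⟩ hLe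
        · intro x hx i hi
          have h2 : U.inf' hUe (fun i => ξ i x) ≤ ξ i x :=
            Finset.inf'_le (fun i => ξ i x) hi
          linarith
      · refine key (fun _ => 0) continuousOn_const ?_ ?_
        · intro x hx i hi
          exact absurd ⟨i, hi⟩ hLe
        · intro x hx i hi
          exact absurd ⟨i, hi⟩ hUe

omit [TopologicalSpace X] in
theorem ordConnected_fiber (ξ : ι → X → ℝ) (x : X) (c : ι → SignType) :
    OrdConnected {t : ℝ | code ξ (x, t) = c} := by
  have : {t : ℝ | code ξ (x, t) = c} = ⋂ i, {t : ℝ | SignType.sign (t - ξ i x) = c i} := by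
    ext t
    simp only [Set.mem_iInter]
    exact funext_iff
  rw [this]
  refine Set.ordConnected_iInter fun i => ?_
  have hm : Monotone (fun t : ℝ => SignType.sign (t - ξ i x)) := by
    intro a b hab
    exact SignType.sign.monotone (by linarith : a - ξ i x ≤ b - ξ i x)
  exact (Set.ordConnected_singleton (a := c i)).preimage_mono hm

/-- Cells are preconnected. -/
theorem cell_preconnected [Finite ι] (hR : Roots C ξ) (hC : IsPreconnected C)
    (c : ι → SignType) : IsPreconnected {p : X × ℝ | p.1 ∈ C ∧ code ξ p = c} := by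
  by_cases hne : ∃ p : X × ℝ, p.1 ∈ C ∧ code ξ p = c
  · obtain ⟨⟨x₀, t₀⟩, hx₀, hc⟩ := hne
    obtain ⟨m, hm, hmc⟩ := hR.exists_section hC hx₀ t₀
    rw [hc] at hmc
    have hgraph : IsPreconnected ((fun x => (x, m x)) '' C) :=
      hC.image _ (continuousOn_id.prodMk hm)
    refine isPreconnected_of_forall (x₀, m x₀) ?_
    rintro ⟨x, t⟩ ⟨hx, hxt⟩
    simp only at hx
    refine ⟨((fun x => (x, m x)) '' C) ∪ ((fun t => (x, t)) '' {t : ℝ | code ξ (x, t) = c}),
      ?_, ?_, ?_, ?_⟩
    · rintro p (⟨y, hy, rfl⟩ | ⟨s, hs, rfl⟩)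
      · exact ⟨hy, hmc y hy⟩
      · exact ⟨hx, hs⟩
    · exact Or.inl ⟨x₀, hx₀, rfl⟩
    · exact Or.inr ⟨t, hxt, rfl⟩
    · refine IsPreconnected.union (x, m x) ⟨x, hx, rfl⟩ ⟨m x, hmc x hx, rfl⟩ hgraph ?_
      exact (ordConnected_fiber ξ x c).isPreconnected.image _
        (Continuous.continuousOn (by fun_prop))
  · have : {p : X × ℝ | p.1 ∈ C ∧ code ξ p = c} = ∅ := by
      ext p
      simp only [mem_empty_iff_false, iff_false]
      intro hp
      exact hne ⟨p, hp⟩
    rw [this]; exact isPreconnected_empty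

end Roots

section ev

variable {A : Type*} [CommRing A]

/-- Evaluation at a point. -/
noncomputable def evAt {Y : Type*} (ev : A →+* (Y → ℝ)) (x : Y) : A →+* ℝ :=
  (Pi.evalRingHom (fun _ => ℝ) x).comp ev

theorem evAt_apply {Y : Type*} (ev : A →+* (Y → ℝ)) (x : Y) (a : A) : evAt ev x a = ev a x := rfl

/-- Evaluation of polynomials over `A` on `X × ℝ`. -/
noncomputable def evP {Y : Type*} (ev : A →+* (Y → ℝ)) : Polynomial A →+* (Y × ℝ → ℝ) :=
  RingHom.pi (fun p => (Polynomial.evalRingHom p.2).comp (Polynomial.mapRingHom (evAt ev p.1)))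

theorem evP_apply {Y : Type*} (ev : A →+* (Y → ℝ)) (f : Polynomial A) (p : Y × ℝ) :
    evP ev f p = (f.map (evAt ev p.1)).eval p.2 := rfl

theorem evP_eq_sum {Y : Type*} (ev : A →+* (Y → ℝ)) (f : Polynomial A) (p : Y × ℝ) :
    evP ev f p = ∑ i ∈ Finset.range (f.natDegree + 1), ev (f.coeff i) p.1 * p.2 ^ i := by
  rw [evP_apply, Polynomial.eval_map, Polynomial.eval₂_eq_sum_range]
  rfl

theorem continuous_evP {ev : A →+* (X → ℝ)} (hev : ∀ a, Continuous (ev a)) (f : Polynomial A) :
    Continuous (evP ev f) := by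
  have : evP ev f = fun p => ∑ i ∈ Finset.range (f.natDegree + 1),
      ev (f.coeff i) p.1 * p.2 ^ i := by
    funext p; exact evP_eq_sum ev f p
  rw [this]
  refine continuous_finsetSum _ fun i _ => ?_
  exact ((hev _).comp continuous_fst).mul (continuous_snd.pow i)

@[simp] theorem evP_C {Y : Type*} (ev : A →+* (Y → ℝ)) (a : A) (p : Y × ℝ) :
    evP ev (Polynomial.C a) p = ev a p.1 := by
  rw [evP_apply]; simp [evAt_apply]

@[simp] theorem evP_X {Y : Type*} (ev : A →+* (Y → ℝ)) (p : Y × ℝ) :
    evP ev (Polynomial.X) p = p.2 := by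
  rw [evP_apply]; simp

end ev

end Pool.Agent.Lib.MP42
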