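import Pool.Agent.Lib.MP_42de19_nt.Semialg

set_option autoImplicit false
set_option linter.unusedSectionVars false

namespace Pool.Agent.Lib.MP42

open Set Topology

/-- Rational points are dense on a real conic `y² = a s² + b s + c` with a smooth rational point. -/
theorem conic_dense (a b c s₀ y₀ : ℚ) (h : y₀ ^ 2 = a * s₀ ^ 2 + b * s₀ + c)
    (hsm : y₀ ≠ 0 ∨ 2 * a * s₀ + b ≠ 0) (s₁ : ℝ) (hs₁ : 0 ≤ (a : ℝ) * s₁ ^ 2 + b * s₁ + c)
    (ε : ℝ) (hε : 0 < ε) :
    ∃ s : ℚ, |(s : ℝ) - s₁| < ε ∧ ∃ y : ℚ, y ^ 2 = a * s ^ 2 + b * s + c := by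
  by_cases hs : s₁ = s₀
  · exact ⟨s₀, by rw [hs]; simpa using hε, y₀, h⟩
  set y₁ : ℝ := Real.sqrt ((a : ℝ) * s₁ ^ 2 + b * s₁ + c) with hy₁
  have hy₁2 : y₁ ^ 2 = (a : ℝ) * s₁ ^ 2 + b * s₁ + c := Real.sq_sqrt hs₁
  have hd : s₁ - s₀ ≠ 0 := sub_ne_zero.mpr hs
  have hR : (y₀ : ℝ) ^ 2 = a * s₀ ^ 2 + b * s₀ + c := by exact_mod_cast h
  set m₁ : ℝ := (y₁ - y₀) / (s₁ - s₀) with hm₁
  have hm : m₁ * (s₁ - s₀) = y₁ - y₀ := div_mul_cancel₀ _ hd
  -- fundamental relation
  have hrel : (m₁ ^ 2 - a) * (s₁ - s₀) = 2 * a * s₀ + b - 2 * m₁ * y₀ := by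
    have h1 : (s₁ - s₀) * ((m₁ ^ 2 - a) * (s₁ - s₀)) =
        (s₁ - s₀) * (2 * a * s₀ + b - 2 * m₁ * y₀) := by
      linear_combination (m₁ * (s₁ - s₀) + (y₁ - y₀) + 2 * y₀) * hm + hy₁2 - hR
    exact mul_left_cancel₀ hd h1
  by_cases hma : m₁ ^ 2 - a = 0
  · -- degenerate case
    rw [hma, zero_mul] at hrel
    have hy₀ : y₀ ≠ 0 := by
      rcases hsm with h1 | h1
      · exact h1
      · intro h2
        apply h1
        have h3 : (2 : ℝ) * a * s₀ + b = 0 := by
          rw [h2] at hrel; push_cast at hrel; linarith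
        exact_mod_cast h3
    set m : ℚ := (2 * a * s₀ + b) / (2 * y₀) with hmq
    have hy₀R : (y₀ : ℝ) ≠ 0 := by exact_mod_cast hy₀
    have hmm : (m : ℝ) = m₁ := by
      rw [hmq]; push_cast
      rw [div_eq_iff (by positivity)]
      linarith
    have hma' : m ^ 2 = a := by
      have : (m : ℝ) ^ 2 = a := by rw [hmm]; linarith
      exact_mod_cast this
    have hmb : 2 * a * s₀ + b = 2 * m * y₀ := by
      rw [hmq]; field_simp
    obtain ⟨s, hs1, hs2⟩ := exists_rat_btwn (show s₁ - ε < s₁ + ε by linarith)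
    refine ⟨s, by rw [abs_lt]; constructor <;> linarith, y₀ + m * (s - s₀), ?_⟩
    have : (y₀ + m * (s - s₀)) ^ 2 = y₀ ^ 2 + 2 * m * y₀ * (s - s₀) + m ^ 2 * (s - s₀) ^ 2 := by
      ring
    rw [this, h, ← hmb, hma']; ring
  · -- generic case
    have hcont : ContinuousAt (fun m : ℝ => (s₀ : ℝ) + (2 * a * s₀ + b - 2 * m * y₀) /
        (m ^ 2 - a)) m₁ := by
      refine continuousAt_const.add (ContinuousAt.div (by fun_prop) (by fun_prop) hma)
    have hval : (s₀ : ℝ) + (2 * a * s₀ + b - 2 * m₁ * y₀) / (m₁ ^ 2 - a) = s₁ := by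
      rw [← hrel, mul_div_cancel_left₀ _ hma]; ring
    have h1 : ∀ᶠ m in 𝓝 m₁, |(s₀ : ℝ) + (2 * a * s₀ + b - 2 * m * y₀) / (m ^ 2 - a) - s₁| < ε := by
      have h2 := Metric.tendsto_nhds.mp hcont.tendsto ε hε
      simpa only [hval, Real.dist_eq] using h2
    have h2 : ∀ᶠ m in 𝓝 m₁, m ^ 2 - (a : ℝ) ≠ 0 :=
      (ContinuousAt.sub (by fun_prop) continuousAt_const : ContinuousAt
        (fun m : ℝ => m ^ 2 - (a : ℝ)) m₁).eventually_ne hma
    have h3 := h1.and h2
    rw [Metric.eventually_nhds_iff] at h3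
    obtain ⟨δ, hδ, hδ'⟩ := h3
    obtain ⟨m, hm1, hm2⟩ := exists_rat_btwn (show m₁ - δ < m₁ + δ by linarith)
    obtain ⟨h4, h5⟩ := hδ' (y := (m : ℝ)) (by
      rw [Real.dist_eq, abs_lt]; constructor <;> linarith)
    have h5' : m ^ 2 - a ≠ 0 := by exact_mod_cast h5
    refine ⟨s₀ + (2 * a * s₀ + b - 2 * m * y₀) / (m ^ 2 - a), by push_cast; exact h4,
      y₀ + m * ((2 * a * s₀ + b - 2 * m * y₀) / (m ^ 2 - a)), ?_⟩
    set u := (2 * a * s₀ + b - 2 * m * y₀) / (m ^ 2 - a) with hu
    have h6 : (m ^ 2 - a) * u = 2 * a * s₀ + b - 2 * m * y₀ := by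
      rw [hu, mul_div_cancel₀]
      exact h5'
    have h7 : (y₀ + m * u) ^ 2 = y₀ ^ 2 + u * ((m ^ 2 - a) * u) + 2 * m * y₀ * u + a * u ^ 2 := by
      ring
    rw [h7, h6, h]; ring

section slice

variable {m : ℕ}

/-- The slice of `D` in the direction `j` through `z`. -/
noncomputable def slice (D : MvPolynomial (Fin m) ℚ) (z : Fin m → ℚ) (j : Fin m) :
    Polynomial ℚ :=
  MvPolynomial.aeval (fun i => if i = j then Polynomial.X else Polynomial.C (z i)) D

theorem slice_natDegree (D : MvPolynomial (Fin m) ℚ) (z : Fin m → ℚ) (j : Fin m) (d : ℕ)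
    (hd : D.degreeOf j ≤ d) : (slice D z j).natDegree ≤ d := by
  unfold slice
  rw [MvPolynomial.aeval_def, MvPolynomial.eval₂_eq']
  refine Polynomial.natDegree_sum_le_of_forall_le _ _ fun e he => ?_
  refine (Polynomial.natDegree_C_mul_le _ _).trans ?_
  refine (Polynomial.natDegree_prod_le _ _).trans ?_
  have h1 : ∀ i ∈ (Finset.univ : Finset (Fin m)),
      (((if i = j then Polynomial.X else Polynomial.C (z i)) : Polynomial ℚ) ^ e i).natDegree ≤
      if i = j then e j else 0 := by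
    intro i _
    by_cases hij : i = j
    · subst hij; simp
    · simp only [hij, if_false]
      rw [← Polynomial.C_pow]; simp
  refine (Finset.sum_le_sum h1).trans ?_
  rw [Finset.sum_ite_eq' Finset.univ j (fun _ => e j)]
  simp only [Finset.mem_univ, if_true]
  exact (MvPolynomial.degreeOf_le_iff.mp hd) e he

theorem slice_eval (D : MvPolynomial (Fin m) ℚ) (z : Fin m → ℚ) (j : Fin m) (t : ℚ) :
    (slice D z j).eval t = MvPolynomial.eval (Function.update z j t) D := by
  unfold slice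
  rw [← Polynomial.coe_evalRingHom, MvPolynomial.aeval_def, MvPolynomial.hom_eval₂,
    MvPolynomial.eval₂_eq_eval_map]
  have h1 : (Polynomial.evalRingHom t).comp (algebraMap ℚ (Polynomial ℚ)) = RingHom.id ℚ :=
    Subsingleton.elim _ _
  rw [h1, MvPolynomial.map_id]
  congr 2
  funext i
  by_cases hij : i = j
  · subst hij; simp
  · simp [hij]

theorem slice_aeval (D : MvPolynomial (Fin m) ℚ) (z : Fin m → ℚ) (j : Fin m) (t : ℝ) :
    Polynomial.aeval t (slice D z j) =
      MvPolynomial.aeval (Function.update (fun i => (z i : ℝ)) j t) D := by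
  unfold slice
  rw [MvPolynomial.comp_aeval_apply]
  congr 2
  funext i
  by_cases hij : i = j
  · subst hij; simp
  · simp [hij]

/-- Coefficients of a quadratic slice. -/
theorem slice_quadratic (D : MvPolynomial (Fin m) ℚ) (z : Fin m → ℚ) (j : Fin m)
    (hd : D.degreeOf j ≤ 2) : ∃ a b c : ℚ,
      (∀ t : ℚ, MvPolynomial.eval (Function.update z j t) D = a * t ^ 2 + b * t + c) ∧
      (∀ t : ℝ, (MvPolynomial.aeval (Function.update (fun i => (z i : ℝ)) j t) D : ℝ) =
        a * t ^ 2 + b * t + c) := by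
  have h := slice_natDegree D z j 2 hd
  have h1 : slice D z j = Polynomial.C ((slice D z j).coeff 2) * Polynomial.X ^ 2 +
      Polynomial.C ((slice D z j).coeff 1) * Polynomial.X +
      Polynomial.C ((slice D z j).coeff 0) := by
    exact Polynomial.eq_quadratic_of_degree_le_two (Polynomial.degree_le_of_natDegree_le h)
  refine ⟨(slice D z j).coeff 2, (slice D z j).coeff 1, (slice D z j).coeff 0, ?_, ?_⟩
  · intro t
    rw [← slice_eval]
    conv_lhs => rw [h1]
    simp
  · intro t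
    rw [← slice_aeval]
    conv_lhs => rw [h1]
    simp

theorem aeval_ratCast (D : MvPolynomial (Fin m) ℚ) (z : Fin m → ℚ) :
    (MvPolynomial.aeval (fun i => (z i : ℝ)) D : ℝ) = (MvPolynomial.eval z D : ℚ) := by
  have h := MvPolynomial.aeval_algebraMap_apply ℝ z D
  have h2 : (fun i => (z i : ℝ)) = algebraMap ℚ ℝ ∘ z := rfl
  rw [h2, h, MvPolynomial.aeval_eq_eval]; rfl

theorem hasDerivAt_update (D : MvPolynomial (Fin m) ℚ) (x : Fin m → ℝ) (j : Fin m) (t : ℝ) :
    HasDerivAt (fun t : ℝ => (MvPolynomial.aeval (Function.update x j t) D : ℝ))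
      (MvPolynomial.aeval (Function.update x j t) (MvPolynomial.pderiv j D)) t := by
  induction D using MvPolynomial.induction_on with
  | C a =>
    simp only [MvPolynomial.aeval_C, MvPolynomial.pderiv_C, map_zero]
    exact hasDerivAt_const _ _
  | add p q hp hq =>
    simp only [map_add]
    exact hp.add hq
  | mul_X p i hp =>
    simp only [map_mul, MvPolynomial.aeval_X, MvPolynomial.pderiv_mul, map_add,
      MvPolynomial.pderiv_X]
    have hi : HasDerivAt (fun t : ℝ => Function.update x j t i)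
        (MvPolynomial.aeval (Function.update x j t)
          ((Pi.single j 1 : Fin m → MvPolynomial (Fin m) ℚ) i) : ℝ)
        t := by
      by_cases hij : i = j
      · subst hij
        simp only [Function.update_self, Pi.single_eq_same, map_one]
        exact hasDerivAt_id t
      · simp only [Function.update_of_ne hij, Pi.single_eq_of_ne hij, map_zero]
        exact hasDerivAt_const _ _
    exact hp.mul hi

end slice

end Pool.Agent.Lib.MP42
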