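import Pool.Agent.Lib.MP_42de19_nt.Conic

set_option autoImplicit false
set_option linter.unusedSectionVars false

namespace Pool.Agent.Lib.MP42

open Set Topology

variable {m : ℕ}

/-- `x` is a limit of rational points at which `D` is a rational square. -/
def SqLim (D : MvPolynomial (Fin m) ℚ) (x : Fin m → ℝ) : Prop :=
  ∀ ε > 0, ∃ z : Fin m → ℚ, (∀ j, |(z j : ℝ) - x j| < ε) ∧ ∃ y : ℚ, y ^ 2 = MvPolynomial.eval z D

theorem continuous_aeval (D : MvPolynomial (Fin m) ℚ) :
    Continuous (fun x : Fin m → ℝ => (MvPolynomial.aeval x D : ℝ)) := continuous_evR D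

theorem SqLim.nonneg {D : MvPolynomial (Fin m) ℚ} {x : Fin m → ℝ} (h : SqLim D x) :
    0 ≤ (MvPolynomial.aeval x D : ℝ) := by
  by_contra hcon
  push Not at hcon
  have h1 : ∀ᶠ z in 𝓝 x, (MvPolynomial.aeval z D : ℝ) < 0 :=
    (continuous_aeval D).continuousAt.eventually_lt continuousAt_const hcon
  rw [Metric.eventually_nhds_iff] at h1
  obtain ⟨δ, hδ, h2⟩ := h1
  obtain ⟨z, hz, y, hy⟩ := h δ hδ
  have h3 := h2 (y := fun i => (z i : ℝ)) (by
    rw [dist_pi_lt_iff hδ]; intro j; rw [Real.dist_eq]; exact hz j)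
  rw [aeval_ratCast, ← hy] at h3
  push_cast at h3
  nlinarith [sq_nonneg (y : ℝ)]

theorem SqLim.of_near {D : MvPolynomial (Fin m) ℚ} {x : Fin m → ℝ}
    (h : ∀ ε > 0, ∃ x', (∀ j, |x' j - x j| < ε) ∧ SqLim D x') : SqLim D x := by
  intro ε hε
  obtain ⟨x', hx', h'⟩ := h (ε / 2) (by linarith)
  obtain ⟨z, hz, hy⟩ := h' (ε / 2) (by linarith)
  refine ⟨z, fun j => ?_, hy⟩
  calc |(z j : ℝ) - x j| = |((z j : ℝ) - x' j) + (x' j - x j)| := by ring_nf
    _ ≤ |(z j : ℝ) - x' j| + |x' j - x j| := abs_add_le _ _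
    _ < ε := by linarith [hz j, hx' j]

/-- Moving one coordinate. -/
theorem move_one {D : MvPolynomial (Fin m) ℚ} (j : Fin m) (hD : D.degreeOf j ≤ 2)
    (z : Fin m → ℚ) (hz : ∃ y : ℚ, y ^ 2 = MvPolynomial.eval z D)
    (hnd : MvPolynomial.eval z D ≠ 0 ∨
      ∃ t₂ t₃ : ℝ, (MvPolynomial.aeval (Function.update (fun i => (z i : ℝ)) j t₂) D : ℝ) < 0 ∧
        0 < (MvPolynomial.aeval (Function.update (fun i => (z i : ℝ)) j t₃) D : ℝ))
    (t₁ : ℝ) (ht₁ : 0 ≤ (MvPolynomial.aeval (Function.update (fun i => (z i : ℝ)) j t₁) D : ℝ))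
    (ε : ℝ) (hε : 0 < ε) :
    ∃ s : ℚ, |(s : ℝ) - t₁| < ε ∧
      ∃ y : ℚ, y ^ 2 = MvPolynomial.eval (Function.update z j s) D := by
  obtain ⟨a, b, c, hq, hr⟩ := slice_quadratic D z j hD
  obtain ⟨y₀, hy₀⟩ := hz
  have h0 : MvPolynomial.eval z D = a * (z j) ^ 2 + b * (z j) + c := by
    rw [← hq (z j), Function.update_eq_self]
  rw [hr] at ht₁
  have hsm : y₀ ≠ 0 ∨ 2 * a * (z j) + b ≠ 0 := by
    rcases hnd with h1 | ⟨t₂, t₃, h2, h3⟩
    · left
      intro h; apply h1; rw [← hy₀, h]; ring
    · by_cases hy : y₀ = 0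
      · right
        intro h
        rw [hr] at h2 h3
        have h4 : a * (z j) ^ 2 + b * (z j) + c = 0 := by rw [← h0, ← hy₀, hy]; ring
        have h4' : (a : ℝ) * (z j : ℝ) ^ 2 + b * (z j : ℝ) + c = 0 := by exact_mod_cast h4
        have h' : 2 * (a : ℝ) * (z j : ℝ) + b = 0 := by exact_mod_cast h
        have e2 : (a : ℝ) * t₂ ^ 2 + b * t₂ + c = a * (t₂ - z j) ^ 2 := by
          linear_combination h4' + (t₂ - z j) * h'
        have e3 : (a : ℝ) * t₃ ^ 2 + b * t₃ + c = a * (t₃ - z j) ^ 2 := by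
          linear_combination h4' + (t₃ - z j) * h'
        rw [e2] at h2
        rw [e3] at h3
        have ha : (a : ℝ) < 0 := by
          by_contra hcon
          push Not at hcon
          have := mul_nonneg hcon (sq_nonneg (t₂ - z j))
          linarith
        have := mul_nonneg (neg_nonneg.mpr ha.le) (sq_nonneg (t₃ - z j))
        linarith
      · left; exact hy
  obtain ⟨s, hs, y, hy⟩ := conic_dense a b c (z j) y₀ (by rw [hy₀, h0]) hsm t₁ ht₁ ε hε
  exact ⟨s, hs, y, by rw [hq]; exact hy⟩

/-- Moving inside a box on which `D` is positive. -/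
theorem box_move {D : MvPolynomial (Fin m) ℚ} (hD : ∀ j, D.degreeOf j ≤ 2)
    (I : Fin m → Set ℝ) (hI : ∀ j, IsOpen (I j))
    (hpos : ∀ z : Fin m → ℝ, (∀ j, z j ∈ I j) → 0 < (MvPolynomial.aeval z D : ℝ))
    (x : Fin m → ℚ) (hxI : ∀ j, (x j : ℝ) ∈ I j) (hx : ∃ y : ℚ, y ^ 2 = MvPolynomial.eval x D)
    (x' : Fin m → ℝ) (hx' : ∀ j, x' j ∈ I j) (ε : ℝ) (hε : 0 < ε) :
    ∃ z : Fin m → ℚ, (∀ j, (z j : ℝ) ∈ I j) ∧ (∀ j, |(z j : ℝ) - x' j| < ε) ∧
      ∃ y : ℚ, y ^ 2 = MvPolynomial.eval z D := by
  classical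
  have key : ∀ s : Finset (Fin m), ∃ z : Fin m → ℚ, (∀ j, (z j : ℝ) ∈ I j) ∧
      (∀ j ∈ s, |(z j : ℝ) - x' j| < ε) ∧ ∃ y : ℚ, y ^ 2 = MvPolynomial.eval z D := by
    intro s
    induction s using Finset.induction_on with
    | empty => exact ⟨x, hxI, by simp, hx⟩
    | insert j s hj ih =>
      obtain ⟨z, hz1, hz2, hz3⟩ := ih
      obtain ⟨δ, hδ, hδ'⟩ := Metric.isOpen_iff.mp (hI j) (x' j) (hx' j)
      have hp0 : 0 < (MvPolynomial.aeval (fun i => (z i : ℝ)) D : ℝ) := hpos _ hz1
      have hne : MvPolynomial.eval z D ≠ 0 := by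
        intro h
        rw [aeval_ratCast, h] at hp0
        simp at hp0
      have hp1 : 0 < (MvPolynomial.aeval (Function.update (fun i => (z i : ℝ)) j (x' j)) D : ℝ) := by
        apply hpos
        intro i
        by_cases hij : i = j
        · subst hij; simpa using hx' i
        · simpa [hij] using hz1 i
      obtain ⟨t, ht, hty⟩ := move_one j (hD j) z hz3 (Or.inl hne) (x' j) hp1.le (min ε δ)
        (lt_min hε hδ)
      refine ⟨Function.update z j t, ?_, ?_, hty⟩
      · intro i
        by_cases hij : i = j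
        · subst hij
          simp only [Function.update_self]
          apply hδ'
          rw [Metric.mem_ball, Real.dist_eq]
          exact lt_of_lt_of_le ht (min_le_right _ _)
        · simp only [ne_eq, hij, not_false_eq_true, Function.update_of_ne]
          exact hz1 i
      · intro i hi
        by_cases hij : i = j
        · subst hij
          simp only [Function.update_self]
          exact lt_of_lt_of_le ht (min_le_left _ _)
        · simp only [ne_eq, hij, not_false_eq_true, Function.update_of_ne]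
          rw [Finset.mem_insert] at hi
          exact hz2 i (hi.resolve_left hij)
  obtain ⟨z, h1, h2, h3⟩ := key Finset.univ
  exact ⟨z, h1, fun j => h2 j (Finset.mem_univ j), h3⟩

/-- Local openness at points where `D ≠ 0`. -/
theorem local_open_pos {D : MvPolynomial (Fin m) ℚ} (hD : ∀ j, D.degreeOf j ≤ 2) {x : Fin m → ℝ}
    (hx : SqLim D x) (h0 : (MvPolynomial.aeval x D : ℝ) ≠ 0) :
    ∃ δ > 0, ∀ x' : Fin m → ℝ, (∀ j, |x' j - x j| < δ) → SqLim D x' := by
  have hpos : 0 < (MvPolynomial.aeval x D : ℝ) := lt_of_le_of_ne hx.nonneg (Ne.symm h0)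
  have h1 : ∀ᶠ z in 𝓝 x, 0 < (MvPolynomial.aeval z D : ℝ) :=
    continuousAt_const.eventually_lt (continuous_aeval D).continuousAt hpos
  rw [Metric.eventually_nhds_iff] at h1
  obtain ⟨δ, hδ, h2⟩ := h1
  have hbox : ∀ z : Fin m → ℝ, (∀ j, z j ∈ Metric.ball (x j) δ) →
      0 < (MvPolynomial.aeval z D : ℝ) := by
    intro z hz
    apply h2
    rw [dist_pi_lt_iff hδ]; exact hz
  refine ⟨δ, hδ, fun x' hx' ε hε => ?_⟩
  obtain ⟨z, hz, hy⟩ := hx δ hδ
  obtain ⟨z', -, h3, h4⟩ := box_move hD (fun j => Metric.ball (x j) δ)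
    (fun j => Metric.isOpen_ball) hbox z (fun j => by
      rw [Metric.mem_ball, Real.dist_eq]; exact hz j) hy x' (fun j => by
      rw [Metric.mem_ball, Real.dist_eq]; exact hx' j) ε hε
  exact ⟨z', h3, h4⟩

/-- points on both sides of a simple zero -/
theorem exists_sides {f : ℝ → ℝ} {f' a : ℝ} (hf : HasDerivAt f f' a) (h0 : f a = 0)
    (hf' : f' ≠ 0) (ε : ℝ) (hε : 0 < ε) :
    ∃ s t, |s - a| < ε ∧ |t - a| < ε ∧ f s < 0 ∧ 0 < f t := by
  -- reduce to positive derivative
  have key : ∀ (f : ℝ → ℝ) (f' : ℝ), HasDerivAt f f' a → f a = 0 → 0 < f' →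
      ∃ s t, |s - a| < ε ∧ |t - a| < ε ∧ f s < 0 ∧ 0 < f t := by
    intro f f' hf h0 hpos
    have h1 : ∀ᶠ x in 𝓝[≠] a, 0 < slope f a x :=
      (hasDerivAt_iff_tendsto_slope.mp hf).eventually (lt_mem_nhds hpos)
    rw [eventually_nhdsWithin_iff, Metric.eventually_nhds_iff] at h1
    obtain ⟨δ, hδ, h2⟩ := h1
    set r := min (δ / 2) (ε / 2) with hr
    have hr0 : 0 < r := lt_min (by linarith) (by linarith)
    have hr1 : r < δ := lt_of_le_of_lt (min_le_left _ _) (by linarith)
    have hr2 : r < ε := lt_of_le_of_lt (min_le_right _ _) (by linarith)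
    refine ⟨a - r, a + r, ?_, ?_, ?_, ?_⟩
    · rw [show a - r - a = -r by ring, abs_neg, abs_of_pos hr0]; exact hr2
    · rw [show a + r - a = r by ring, abs_of_pos hr0]; exact hr2
    · have hd : dist (a - r) a < δ := by
        rw [Real.dist_eq, show a - r - a = -r by ring, abs_neg, abs_of_pos hr0]; exact hr1
      have hne : a - r ∈ ({a}ᶜ : Set ℝ) := by
        simp only [mem_compl_iff, mem_singleton_iff]; linarith
      have h3 := h2 hd hne
      rw [slope_def_field, h0, sub_zero, show a - r - a = -r by ring] at h3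
      by_contra hcon
      push Not at hcon
      have := div_nonpos_of_nonneg_of_nonpos hcon (show -r ≤ 0 by linarith)
      linarith
    · have hd : dist (a + r) a < δ := by
        rw [Real.dist_eq, show a + r - a = r by ring, abs_of_pos hr0]; exact hr1
      have hne : a + r ∈ ({a}ᶜ : Set ℝ) := by
        simp only [mem_compl_iff, mem_singleton_iff]; linarith
      have h3 := h2 hd hne
      rw [slope_def_field, h0, sub_zero, show a + r - a = r by ring] at h3
      by_contra hcon
      push Not at hcon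
      have := div_nonpos_of_nonpos_of_nonneg hcon (show 0 ≤ r by linarith)
      linarith
  rcases lt_or_gt_of_ne hf' with h | h
  · obtain ⟨s, t, hs, ht, h1, h2⟩ := key (fun x => - f x) (-f') hf.neg (by simp [h0])
      (by linarith)
    exact ⟨t, s, ht, hs, by linarith, by linarith⟩
  · exact key f f' hf h0 h

/-- Local openness at simple zeros of `D`. -/
theorem local_open_zero {D : MvPolynomial (Fin m) ℚ} (hD : ∀ j, D.degreeOf j ≤ 2)
    {x : Fin m → ℝ} (hx : SqLim D x) (h0 : (MvPolynomial.aeval x D : ℝ) = 0) (i : Fin m)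
    (hi : (MvPolynomial.aeval x (MvPolynomial.pderiv i D) : ℝ) ≠ 0) :
    ∃ δ > 0, ∀ x' : Fin m → ℝ, (∀ j, |x' j - x j| < δ) → 0 ≤ (MvPolynomial.aeval x' D : ℝ) →
      SqLim D x' := by
  classical
  -- the two sides
  have hder := hasDerivAt_update D x i (x i)
  rw [Function.update_eq_self] at hder
  obtain ⟨s, t, -, -, hs, ht⟩ := exists_sides hder (by
    rw [Function.update_eq_self]; exact h0) hi 1 one_pos
  -- neighbourhoods
  have e1 : ∀ᶠ z in 𝓝 (Function.update x i s), (MvPolynomial.aeval z D : ℝ) < 0 :=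
    (continuous_aeval D).continuousAt.eventually_lt continuousAt_const hs
  have e2 : ∀ᶠ z in 𝓝 (Function.update x i t), 0 < (MvPolynomial.aeval z D : ℝ) :=
    continuousAt_const.eventually_lt (continuous_aeval D).continuousAt ht
  have e3 : ∀ᶠ z in 𝓝 x, (MvPolynomial.aeval z (MvPolynomial.pderiv i D) : ℝ) ≠ 0 :=
    (continuous_aeval (MvPolynomial.pderiv i D)).continuousAt.eventually_ne hi
  rw [Metric.eventually_nhds_iff] at e1 e2 e3
  obtain ⟨δ₁, hδ₁, e1⟩ := e1
  obtain ⟨δ₂, hδ₂, e2⟩ := e2
  obtain ⟨δ₃, hδ₃, e3⟩ := e3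
  set δ := min δ₁ (min δ₂ δ₃) with hδdef
  have hδ : 0 < δ := lt_min hδ₁ (lt_min hδ₂ hδ₃)
  have hd1 : δ ≤ δ₁ := min_le_left _ _
  have hd2 : δ ≤ δ₂ := (min_le_right _ _).trans (min_le_left _ _)
  have hd3 : δ ≤ δ₃ := (min_le_right _ _).trans (min_le_right _ _)
  have f1 : ∀ z : Fin m → ℝ, (∀ j, j ≠ i → |z j - x j| < δ) → |z i - s| < δ →
      (MvPolynomial.aeval z D : ℝ) < 0 := by
    intro z hz hzi
    apply e1
    rw [dist_pi_lt_iff hδ₁]
    intro j
    by_cases hji : j = i
    · subst hji; simp only [Function.update_self]; rw [Real.dist_eq]; linarith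
    · simp only [ne_eq, hji, not_false_eq_true, Function.update_of_ne]; rw [Real.dist_eq]
      linarith [hz j hji]
  have f2 : ∀ z : Fin m → ℝ, (∀ j, j ≠ i → |z j - x j| < δ) → |z i - t| < δ →
      0 < (MvPolynomial.aeval z D : ℝ) := by
    intro z hz hzi
    apply e2
    rw [dist_pi_lt_iff hδ₂]
    intro j
    by_cases hji : j = i
    · subst hji; simp only [Function.update_self]; rw [Real.dist_eq]; linarith
    · simp only [ne_eq, hji, not_false_eq_true, Function.update_of_ne]; rw [Real.dist_eq]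
      linarith [hz j hji]
  have f3 : ∀ z : Fin m → ℝ, (∀ j, |z j - x j| < δ) →
      (MvPolynomial.aeval z (MvPolynomial.pderiv i D) : ℝ) ≠ 0 := by
    intro z hz
    apply e3
    rw [dist_pi_lt_iff hδ₃]
    intro j; rw [Real.dist_eq]; linarith [hz j]
  -- points with positive value
  have main : ∀ x' : Fin m → ℝ, (∀ j, |x' j - x j| < δ) → 0 < (MvPolynomial.aeval x' D : ℝ) →
      SqLim D x' := by
    intro x' hx' hpos ε hε
    -- continuity at x'
    have e4 : ∀ᶠ z in 𝓝 x', 0 < (MvPolynomial.aeval z D : ℝ) :=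
      continuousAt_const.eventually_lt (continuous_aeval D).continuousAt hpos
    rw [Metric.eventually_nhds_iff] at e4
    obtain ⟨η, hη, e4⟩ := e4
    obtain ⟨z, hz, hy⟩ := hx δ hδ
    -- first move: coordinate i to t
    have g1 : (MvPolynomial.aeval (Function.update (fun j => (z j : ℝ)) i s) D : ℝ) < 0 := by
      apply f1
      · intro j hj; simpa [hj] using hz j
      · simpa using hδ
    have g2 : 0 < (MvPolynomial.aeval (Function.update (fun j => (z j : ℝ)) i t) D : ℝ) := by
      apply f2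
      · intro j hj; simpa [hj] using hz j
      · simpa using hδ
    obtain ⟨t', ht', hy'⟩ := move_one i (hD i) z hy (Or.inr ⟨s, t, g1, g2⟩) t g2.le δ hδ
    -- box move
    let I : Fin m → Set ℝ := fun j => if j = i then Metric.ball t δ else Metric.ball (x j) δ
    have hI : ∀ j, IsOpen (I j) := by
      intro j; simp only [I]; split_ifs <;> exact Metric.isOpen_ball
    have hIpos : ∀ z : Fin m → ℝ, (∀ j, z j ∈ I j) → 0 < (MvPolynomial.aeval z D : ℝ) := by
      intro z hz
      apply f2
      · intro j hj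
        have := hz j
        simp only [I, hj, if_false, Metric.mem_ball, Real.dist_eq] at this
        exact this
      · have := hz i
        simp only [I, if_true, Metric.mem_ball, Real.dist_eq] at this
        exact this
    have hstart : ∀ j, ((Function.update z i t' j : ℚ) : ℝ) ∈ I j := by
      intro j
      by_cases hj : j = i
      · subst hj
        simp only [I, if_true, Metric.mem_ball, Real.dist_eq, Function.update_self]
        exact ht'
      · simp only [I, hj, if_false, Metric.mem_ball, Real.dist_eq, ne_eq, not_false_eq_true,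
          Function.update_of_ne]
        exact hz j
    obtain ⟨z₂, h1, h2, h3⟩ := box_move hD I hI hIpos (Function.update z i t') hstart hy'
      (Function.update x' i t) (by
        intro j
        by_cases hj : j = i
        · subst hj
          simp only [I, if_true, Function.update_self]
          exact Metric.mem_ball_self hδ
        · simp only [I, hj, if_false, Metric.mem_ball, Real.dist_eq, ne_eq, not_false_eq_true,
            Function.update_of_ne]
          exact hx' j) (min ε η) (lt_min hε hη)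
    -- last move
    have hne : MvPolynomial.eval z₂ D ≠ 0 := by
      intro h
      have := hIpos _ h1
      rw [aeval_ratCast, h] at this
      simp at this
    have g3 : 0 < (MvPolynomial.aeval (Function.update (fun j => (z₂ j : ℝ)) i (x' i)) D : ℝ) := by
      apply e4
      rw [dist_pi_lt_iff hη]
      intro j
      by_cases hj : j = i
      · subst hj; simpa using hη
      · have := h2 j
        simp only [ne_eq, hj, not_false_eq_true, Function.update_of_ne] at this ⊢
        rw [Real.dist_eq]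
        exact lt_of_lt_of_le this (min_le_right _ _)
    obtain ⟨t'', ht'', hy''⟩ := move_one i (hD i) z₂ h3 (Or.inl hne) (x' i) g3.le ε hε
    refine ⟨Function.update z₂ i t'', ?_, hy''⟩
    intro j
    by_cases hj : j = i
    · subst hj; simpa using ht''
    · have := h2 j
      simp only [ne_eq, hj, not_false_eq_true, Function.update_of_ne] at this ⊢
      exact lt_of_lt_of_le this (min_le_left _ _)
  refine ⟨δ, hδ, fun x' hx' hnn => ?_⟩
  rcases hnn.lt_or_eq with hpos | hzero
  · exact main x' hx' hpos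
  · apply SqLim.of_near
    intro ε hε
    have hder' := hasDerivAt_update D x' i (x' i)
    rw [Function.update_eq_self] at hder'
    have hr : 0 < min ε (δ - |x' i - x i|) := lt_min hε (by linarith [hx' i])
    obtain ⟨s', t', hs', ht', hs'', ht''⟩ := exists_sides hder' (by
      rw [Function.update_eq_self]; exact hzero.symm) (f3 x' hx') _ hr
    refine ⟨Function.update x' i t', ?_, ?_⟩
    · intro j
      by_cases hj : j = i
      · subst hj
        simp only [Function.update_self]
        exact lt_of_lt_of_le ht' (min_le_left _ _)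
      · simpa [hj] using hε
    · apply main _ _ ht''
      intro j
      by_cases hj : j = i
      · subst hj
        simp only [Function.update_self]
        have h5 : |t' - x' j| < δ - |x' j - x j| := lt_of_lt_of_le ht' (min_le_right _ _)
        calc |t' - x j| = |(t' - x' j) + (x' j - x j)| := by ring_nf
          _ ≤ |t' - x' j| + |x' j - x j| := abs_add_le _ _
          _ < δ := by linarith
      · simpa [hj] using hx' j

/-- Local openness at all points where the double cover is smooth. -/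
theorem local_open {D : MvPolynomial (Fin m) ℚ} (hD : ∀ j, D.degreeOf j ≤ 2) {x : Fin m → ℝ}
    (hx : SqLim D x) (hsm : (MvPolynomial.aeval x D : ℝ) ≠ 0 ∨
      ∃ i, (MvPolynomial.aeval x (MvPolynomial.pderiv i D) : ℝ) ≠ 0) :
    ∃ δ > 0, ∀ x' : Fin m → ℝ, (∀ j, |x' j - x j| < δ) → 0 ≤ (MvPolynomial.aeval x' D : ℝ) →
      SqLim D x' := by
  by_cases h0 : (MvPolynomial.aeval x D : ℝ) = 0
  · obtain ⟨i, hi⟩ := hsm.resolve_left (by simpa using h0)
    exact local_open_zero hD hx h0 i hi
  · obtain ⟨δ, hδ, h⟩ := local_open_pos hD hx h0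
    exact ⟨δ, hδ, fun x' hx' _ => h x' hx'⟩

end Pool.Agent.Lib.MP42
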