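import Pool.Agent.Lib.MP_42de19_nt.Defs
import Pool.Agent.Lib.MP_42de19_nt.Moves

set_option autoImplicit false

namespace Pool.Agent.Lib.MP42

open Set Topology

theorem aeval_doubleCover {m : ℕ} (D : MvPolynomial (Fin m) ℚ) (z : Fin (m + 1) → ℝ) :
    (MvPolynomial.aeval z (doubleCover D) : ℝ) =
      z 0 ^ 2 - MvPolynomial.aeval (Fin.tail z) D := by
  unfold doubleCover
  rw [map_sub, map_pow, MvPolynomial.aeval_X, MvPolynomial.aeval_rename]
  rfl

theorem eval_doubleCover {m : ℕ} (D : MvPolynomial (Fin m) ℚ) (z : Fin (m + 1) → ℚ) :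
    MvPolynomial.eval z (doubleCover D) = z 0 ^ 2 - MvPolynomial.eval (Fin.tail z) D := by
  unfold doubleCover
  rw [map_sub, map_pow, MvPolynomial.eval_X, MvPolynomial.eval_rename]
  rfl

theorem aeval_pderiv_zero {m : ℕ} (D : MvPolynomial (Fin m) ℚ) (z : Fin (m + 1) → ℝ) :
    (MvPolynomial.aeval z (MvPolynomial.pderiv 0 (doubleCover D)) : ℝ) = 2 * z 0 := by
  unfold doubleCover
  have h : MvPolynomial.pderiv (0 : Fin (m + 1)) (MvPolynomial.rename Fin.succ D) = 0 := by
    induction D using MvPolynomial.induction_on with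
    | C a => simp
    | add p q hp hq => rw [map_add, map_add, hp, hq, add_zero]
    | mul_X p i hp =>
      rw [map_mul, MvPolynomial.rename_X, MvPolynomial.pderiv_mul, hp, MvPolynomial.pderiv_X]
      simp
  rw [map_sub, h, sub_zero]
  rw [pow_two, MvPolynomial.pderiv_mul]
  simp
  ring

theorem aeval_pderiv_succ {m : ℕ} (D : MvPolynomial (Fin m) ℚ) (z : Fin (m + 1) → ℝ) (i : Fin m) :
    (MvPolynomial.aeval z (MvPolynomial.pderiv i.succ (doubleCover D)) : ℝ) =
      - MvPolynomial.aeval (Fin.tail z) (MvPolynomial.pderiv i D) := by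
  unfold doubleCover
  have h : MvPolynomial.pderiv (Fin.succ i) (MvPolynomial.rename Fin.succ D) =
      MvPolynomial.rename Fin.succ (MvPolynomial.pderiv i D) := by
    induction D using MvPolynomial.induction_on with
    | C a => simp
    | add p q hp hq => rw [map_add, map_add, hp, hq, map_add, map_add]
    | mul_X p j hp =>
      rw [map_mul, MvPolynomial.rename_X, MvPolynomial.pderiv_mul, hp, MvPolynomial.pderiv_X,
        MvPolynomial.pderiv_mul, MvPolynomial.pderiv_X, map_add, map_mul, map_mul,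
        MvPolynomial.rename_X]
      congr 2
      by_cases hij : j = i
      · subst hij; simp
      · have : Fin.succ j ≠ Fin.succ i := fun h => hij (Fin.succ_injective _ h)
        simp [Pi.single_eq_of_ne hij, Pi.single_eq_of_ne this]
  rw [map_sub, h, map_sub]
  rw [pow_two, MvPolynomial.pderiv_mul, MvPolynomial.pderiv_X, MvPolynomial.aeval_rename]
  have h2 : (Pi.single (Fin.succ i) 1 : Fin (m + 1) → MvPolynomial (Fin (m + 1)) ℚ) 0 = 0 := by
    rw [Pi.single_eq_of_ne]
    exact (Fin.succ_ne_zero i).symm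
  rw [h2]
  simp
  rfl

/-- Membership in the closure of the rational points in terms of the base point. -/
theorem mem_ratClosure {m : ℕ} (D : MvPolynomial (Fin m) ℚ) (w : Fin (m + 1) → ℝ) :
    w ∈ ratClosure {doubleCover D} ↔
      (MvPolynomial.aeval w (doubleCover D) : ℝ) = 0 ∧ SqLim D (Fin.tail w) := by
  constructor
  · intro hw
    constructor
    · have hcl : IsClosed {w : Fin (m + 1) → ℝ | (MvPolynomial.aeval w (doubleCover D) : ℝ) = 0} :=
        isClosed_singleton.preimage (continuous_aeval (doubleCover D))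
      refine hcl.closure_subset_iff.mpr ?_ hw
      rintro x ⟨q, hq, hx⟩
      have : x = fun i => (q i : ℝ) := funext hx
      rw [this, mem_ofPred_eq, aeval_ratCast, hq _ rfl]
      simp
    · intro ε hε
      obtain ⟨x, ⟨q, hq, hx⟩, hd⟩ := Metric.mem_closure_iff.mp hw ε hε
      rw [dist_pi_lt_iff hε] at hd
      refine ⟨Fin.tail q, fun j => ?_, q 0, ?_⟩
      · have := hd j.succ
        rw [hx, Real.dist_eq, abs_sub_comm] at this
        exact this
      · have := hq _ rfl
        rw [eval_doubleCover] at this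
        linarith
  · rintro ⟨h0, hlim⟩
    rw [aeval_doubleCover] at h0
    have hw0 : w 0 ^ 2 = MvPolynomial.aeval (Fin.tail w) D := by linarith
    refine Metric.mem_closure_iff.mpr fun ε hε => ?_
    have hc : ContinuousAt (fun z : Fin m → ℝ =>
        Real.sqrt (MvPolynomial.aeval z D : ℝ)) (Fin.tail w) :=
      (Real.continuous_sqrt.comp (continuous_aeval D)).continuousAt
    have h1 := Metric.tendsto_nhds.mp hc.tendsto ε hε
    rw [Metric.eventually_nhds_iff] at h1
    obtain ⟨δ, hδ, h2⟩ := h1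
    obtain ⟨z, hz, y, hy⟩ := hlim (min ε δ) (lt_min hε hδ)
    have h3 := h2 (y := fun j => (z j : ℝ)) (by
      rw [dist_pi_lt_iff hδ]
      intro j
      rw [Real.dist_eq]
      exact lt_of_lt_of_le (hz j) (min_le_right _ _))
    rw [aeval_ratCast, ← hy, ← hw0] at h3
    push_cast at h3
    rw [Real.sqrt_sq_eq_abs, Real.sqrt_sq_eq_abs, Real.dist_eq] at h3
    -- choose the sign
    obtain ⟨r, hr, hrw⟩ : ∃ r : ℚ, r ^ 2 = y ^ 2 ∧ |(r : ℝ) - w 0| < ε := by
      rcases le_total 0 (w 0) with h4 | h4
      · refine ⟨|y|, sq_abs y, ?_⟩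
        push_cast
        rw [abs_of_nonneg h4] at h3
        exact h3
      · refine ⟨-|y|, by rw [neg_sq, sq_abs], ?_⟩
        push_cast
        rw [abs_of_nonpos h4] at h3
        rw [show -|(y : ℝ)| - w 0 = -(|(y : ℝ)| - -w 0) by ring, abs_neg]
        exact h3
    refine ⟨fun i => ((Fin.cons r z : Fin (m + 1) → ℚ) i : ℝ), ⟨Fin.cons r z, ?_, fun i => rfl⟩, ?_⟩
    · intro f hf
      rw [mem_singleton_iff] at hf
      rw [hf, eval_doubleCover, Fin.cons_zero, Fin.tail_cons, hr, hy]
      ring
    · rw [dist_pi_lt_iff hε]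
      intro i
      refine Fin.cases ?_ (fun j => ?_) i
      · rw [Fin.cons_zero, Real.dist_eq, abs_sub_comm]; exact hrw
      · rw [Fin.cons_succ, Real.dist_eq, abs_sub_comm]
        exact lt_of_lt_of_le (hz j) (min_le_left _ _)

/-- The smooth real points of the cover over the base. -/
theorem mem_smoothRealPoints {m : ℕ} (D : MvPolynomial (Fin m) ℚ) (w : Fin (m + 1) → ℝ) :
    w ∈ smoothRealPoints (doubleCover D) ↔ w 0 ^ 2 = MvPolynomial.aeval (Fin.tail w) D ∧
      ((MvPolynomial.aeval (Fin.tail w) D : ℝ) ≠ 0 ∨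
        ∃ i, (MvPolynomial.aeval (Fin.tail w) (MvPolynomial.pderiv i D) : ℝ) ≠ 0) := by
  unfold smoothRealPoints
  rw [mem_ofPred_eq, aeval_doubleCover]
  constructor
  · rintro ⟨h0, i, hi⟩
    refine ⟨by linarith, ?_⟩
    revert hi
    refine Fin.cases ?_ (fun j => ?_) i
    · intro hi
      rw [aeval_pderiv_zero] at hi
      left
      intro h
      rw [h, sub_zero] at h0
      have : w 0 = 0 := by simpa using h0
      exact hi (by rw [this]; ring)
    · intro hi
      rw [aeval_pderiv_succ] at hi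
      right
      exact ⟨j, fun h => hi (by rw [h]; ring)⟩
  · rintro ⟨h0, h | ⟨i, hi⟩⟩
    · refine ⟨by linarith, 0, ?_⟩
      rw [aeval_pderiv_zero]
      intro h1
      apply h
      rw [← h0, show w 0 = 0 by linarith]; ring
    · refine ⟨by linarith, i.succ, ?_⟩
      rw [aeval_pderiv_succ]
      exact neg_ne_zero.mpr hi

theorem sa_smoothRealPoints {n : ℕ} (P : MvPolynomial (Fin n) ℚ) :
    SA (evR n) (smoothRealPoints P) := by
  have : smoothRealPoints P = {x | evR n P x = 0} ∩
      ⋃ i, {x | evR n (MvPolynomial.pderiv i P) x ≠ 0} := by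
    ext x
    simp only [smoothRealPoints, mem_ofPred_eq, mem_inter_iff, mem_iUnion, evR_apply]
  rw [this]
  exact (SA.eq_zero _).inter (SA.iUnion_finite _ fun i => SA.ne_zero _)

end Pool.Agent.Lib.MP42
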