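import Mathlib

set_option autoImplicit false

namespace Pool.Agent.Lib.MP42

open Set Topology Filter

/-- The monic cubic with coefficients `p`. -/
def cub (p : ℝ × ℝ × ℝ) (x : ℝ) : ℝ := x ^ 3 + p.1 * x ^ 2 + p.2.1 * x + p.2.2

def cubD (p : ℝ × ℝ × ℝ) (x : ℝ) : ℝ := 3 * x ^ 2 + 2 * p.1 * x + p.2.1

/-- the two abscissae of `P + Q` and `P - Q` -/
noncomputable def rp (p : ℝ × ℝ × ℝ) (h h' : ℝ) : ℝ :=
  ((Real.sqrt (cub p h) + Real.sqrt (cub p h')) / (h - h')) ^ 2 - p.1 - h - h'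

noncomputable def rm (p : ℝ × ℝ × ℝ) (h h' : ℝ) : ℝ :=
  ((Real.sqrt (cub p h) - Real.sqrt (cub p h')) / (h - h')) ^ 2 - p.1 - h - h'

/-- the abscissa of `2 P` -/
noncomputable def dbl (p : ℝ × ℝ × ℝ) (h : ℝ) : ℝ :=
  cubD p h ^ 2 / (4 * cub p h) - p.1 - 2 * h

/-- `K` is closed under the operations on abscissae. -/
structure Sub (p : ℝ × ℝ × ℝ) (K : Set ℝ) : Prop where
  nonneg : ∀ h ∈ K, 0 ≤ cub p h
  add : ∀ h ∈ K, ∀ h' ∈ K, h ≠ h' → rp p h h' ∈ K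
  sub : ∀ h ∈ K, ∀ h' ∈ K, h ≠ h' → rm p h h' ∈ K
  dbl : ∀ h ∈ K, cub p h ≠ 0 → dbl p h ∈ K

theorem continuous_cub : Continuous (fun q : (ℝ × ℝ × ℝ) × ℝ => cub q.1 q.2) := by
  unfold cub; fun_prop

theorem continuous_cubD : Continuous (fun q : (ℝ × ℝ × ℝ) × ℝ => cubD q.1 q.2) := by
  unfold cubD; fun_prop

theorem continuous_cub' (p : ℝ × ℝ × ℝ) : Continuous (cub p) := by
  unfold cub; fun_prop

/-- Bound on the coefficients. -/
def bd (p : ℝ × ℝ × ℝ) (L : ℝ) : Prop := |p.1| ≤ L ∧ |p.2.1| ≤ L ∧ |p.2.2| ≤ L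

theorem eventually_bd (p₀ : ℝ × ℝ × ℝ) : ∃ L : ℝ, 1 ≤ L ∧ ∀ᶠ p in 𝓝 p₀, bd p L := by
  refine ⟨|p₀.1| + |p₀.2.1| + |p₀.2.2| + 1, ?_, ?_⟩
  · have h1 := abs_nonneg p₀.1
    have h2 := abs_nonneg p₀.2.1
    have h3 := abs_nonneg p₀.2.2
    linarith
  · have h1 := abs_nonneg p₀.1
    have h2 := abs_nonneg p₀.2.1
    have h3 := abs_nonneg p₀.2.2
    have e1 : ∀ᶠ p in 𝓝 p₀, |p.1| < |p₀.1| + |p₀.2.1| + |p₀.2.2| + 1 := by
      have hc : ContinuousAt (fun p : ℝ × ℝ × ℝ => |p.1|) p₀ := by fun_prop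
      exact hc.eventually_lt continuousAt_const (by linarith)
    have e2 : ∀ᶠ p in 𝓝 p₀, |p.2.1| < |p₀.1| + |p₀.2.1| + |p₀.2.2| + 1 := by
      have hc : ContinuousAt (fun p : ℝ × ℝ × ℝ => |p.2.1|) p₀ := by fun_prop
      exact hc.eventually_lt continuousAt_const (by linarith)
    have e3 : ∀ᶠ p in 𝓝 p₀, |p.2.2| < |p₀.1| + |p₀.2.1| + |p₀.2.2| + 1 := by
      have hc : ContinuousAt (fun p : ℝ × ℝ × ℝ => |p.2.2|) p₀ := by fun_prop
      exact hc.eventually_lt continuousAt_const (by linarith)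
    filter_upwards [e1, e2, e3] with p h1 h2 h3
    exact ⟨h1.le, h2.le, h3.le⟩

/-- points with nonnegative value are bounded below -/
theorem lower_bound {p : ℝ × ℝ × ℝ} {L : ℝ} (hL : 1 ≤ L) (hp : bd p L) {h : ℝ}
    (hh : 0 ≤ cub p h) : -(4 * L) ≤ h := by
  by_contra hcon
  push Not at hcon
  obtain ⟨h1, h2, h3⟩ := hp
  rw [abs_le] at h1 h2 h3
  unfold cub at hh
  have hneg : h < -4 := by nlinarith
  have hsq : 1 ≤ h ^ 2 := by nlinarith
  have e1 : p.1 * h ^ 2 ≤ L * h ^ 2 := mul_le_mul_of_nonneg_right h1.2 (sq_nonneg h)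
  have e2 : p.2.1 * h ≤ L * h ^ 2 := by
    have : p.2.1 * h ≤ L * (-h) := by nlinarith
    have : L * (-h) ≤ L * h ^ 2 := mul_le_mul_of_nonneg_left (by nlinarith) (by linarith)
    linarith
  have e3 : p.2.2 ≤ L * h ^ 2 := by nlinarith
  have e4 : h ^ 3 = h * h ^ 2 := by ring
  have e5 : h * h ^ 2 < -(4 * L) * h ^ 2 := mul_lt_mul_of_pos_right hcon (by linarith)
  nlinarith

theorem pigeonhole {F : Finset ℝ} {a b c : ℝ} (hc : 0 < c) (hF : ∀ h ∈ F, a ≤ h ∧ h ≤ b)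
    (hcard : ⌊(b - a) / c⌋₊ + 1 < F.card) :
    ∃ h ∈ F, ∃ h' ∈ F, h ≠ h' ∧ |h - h'| < c := by
  obtain ⟨x, hx, y, hy, hne, hxy⟩ := Finset.exists_ne_map_eq_of_card_lt_of_maps_to
    (s := F) (t := Finset.range (⌊(b - a) / c⌋₊ + 1)) (f := fun h => ⌊(h - a) / c⌋₊)
    (by rw [Finset.card_range]; exact hcard) (by
      intro h hh
      simp only [Finset.coe_range, mem_Iio]
      refine Nat.lt_succ_of_le (Nat.floor_le_floor ?_)
      have := (hF h hh).2
      gcongr)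
  refine ⟨x, hx, y, hy, hne, ?_⟩
  have hx0 : 0 ≤ (x - a) / c := div_nonneg (by linarith [(hF x hx).1]) hc.le
  have hy0 : 0 ≤ (y - a) / c := div_nonneg (by linarith [(hF y hy).1]) hc.le
  have h1 := Nat.floor_le hx0
  have h2 := Nat.lt_floor_add_one ((x - a) / c)
  have h3 := Nat.floor_le hy0
  have h4 := Nat.lt_floor_add_one ((y - a) / c)
  rw [hxy] at h1 h2
  have h5 : |(x - a) / c - (y - a) / c| < 1 := by rw [abs_lt]; constructor <;> linarith
  have h6 : (x - a) / c - (y - a) / c = (x - y) / c := by ring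
  rw [h6, abs_div, abs_of_pos hc, div_lt_one hc] at h5
  exact h5

/-- uniform lower bound near `p₀` on a compact interval -/
theorem tube {p₀ : ℝ × ℝ × ℝ} {g : (ℝ × ℝ × ℝ) × ℝ → ℝ} (hg : Continuous g) {a b : ℝ}
    (hpos : ∀ x ∈ Icc a b, 0 < g (p₀, x)) :
    ∃ ρ > 0, ∀ᶠ p in 𝓝 p₀, ∀ x ∈ Icc a b, ρ ≤ g (p, x) := by
  rcases (Icc a b).eq_empty_or_nonempty with he | hne
  · exact ⟨1, one_pos, by simp [he]⟩
  · obtain ⟨x₀, hx₀, hmin⟩ := isCompact_Icc.exists_isMinOn hne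
      (f := fun x => g (p₀, x)) (by fun_prop)
    refine ⟨g (p₀, x₀) / 2, by linarith [hpos x₀ hx₀], ?_⟩
    apply isCompact_Icc.eventually_forall_of_forall_eventually
    intro x hx
    have h1 : g (p₀, x₀) ≤ g (p₀, x) := hmin hx
    have h2 : g (p₀, x₀) / 2 < g (p₀, x) := by linarith [hpos x₀ hx₀]
    have h3 : ∀ᶠ z in 𝓝 (p₀, x), g (p₀, x₀) / 2 < g z :=
      continuousAt_const.eventually_lt hg.continuousAt h2
    filter_upwards [h3] with z hz
    exact hz.le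

theorem small_both {p : ℝ × ℝ × ℝ} {h h' C₁ C₂ c : ℝ} (hne : h ≠ h') (hclose : |h - h'| < c)
    (hc1 : c ≤ 1) (hh : 0 ≤ cub p h) (hh' : 0 ≤ cub p h') (hC₁ : 0 ≤ C₁)
    (h1 : ((Real.sqrt (cub p h) + Real.sqrt (cub p h')) / (h - h')) ^ 2 ≤ C₁)
    (h2 : |h' + 2 * h + p.1| ≤ C₂) :
    |cub p h| + |cubD p h| ≤ (2 * C₁ + C₂) * c := by
  set s := Real.sqrt (cub p h) with hs
  set s' := Real.sqrt (cub p h') with hs'
  have hs0 : 0 ≤ s := Real.sqrt_nonneg _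
  have hs0' : 0 ≤ s' := Real.sqrt_nonneg _
  have hs2 : s ^ 2 = cub p h := Real.sq_sqrt hh
  have hs2' : s' ^ 2 = cub p h' := Real.sq_sqrt hh'
  have hd : h - h' ≠ 0 := sub_ne_zero.mpr hne
  have hdsq : 0 < (h - h') ^ 2 := by positivity
  have k2 : (s + s') ^ 2 ≤ C₁ * (h - h') ^ 2 := by
    rw [div_pow, div_le_iff₀ hdsq] at h1
    exact h1
  have habs : |h - h'| ^ 2 = (h - h') ^ 2 := sq_abs _
  have habs0 : 0 < |h - h'| := abs_pos.mpr hd
  have hc0 : 0 < c := lt_trans habs0 hclose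
  have k3 : (h - h') ^ 2 ≤ c := by
    rw [← habs]
    calc |h - h'| ^ 2 = |h - h'| * |h - h'| := by ring
      _ ≤ c * 1 := mul_le_mul hclose.le (hclose.le.trans hc1) habs0.le hc0.le
      _ = c := by ring
  have k4 : |cub p h| ≤ C₁ * c := by
    rw [abs_of_nonneg hh, ← hs2]
    have e1 : s ^ 2 ≤ (s + s') ^ 2 := pow_le_pow_left₀ hs0 (by linarith) 2
    have e2 : C₁ * (h - h') ^ 2 ≤ C₁ * c := mul_le_mul_of_nonneg_left k3 hC₁
    linarith
  set g := h ^ 2 + h * h' + h' ^ 2 + p.1 * (h + h') + p.2.1 with hg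
  have k5 : cub p h - cub p h' = (h - h') * g := by
    rw [hg]; unfold cub; ring
  have k6 : |cub p h - cub p h'| ≤ C₁ * |h - h'| ^ 2 := by
    rw [habs, ← hs2, ← hs2', abs_le]
    have := mul_nonneg hs0 hs0'
    constructor
    · have : (s + s') ^ 2 + (s ^ 2 - s' ^ 2) = 2 * s ^ 2 + 2 * (s * s') := by ring
      have := sq_nonneg s
      linarith
    · have : (s + s') ^ 2 - (s ^ 2 - s' ^ 2) = 2 * s' ^ 2 + 2 * (s * s') := by ring
      have := sq_nonneg s'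
      linarith
  rw [k5, abs_mul] at k6
  have k7 : |g| ≤ C₁ * c := by
    have : |h - h'| * |g| ≤ |h - h'| * (C₁ * |h - h'|) := by
      calc _ ≤ C₁ * |h - h'| ^ 2 := k6
        _ = _ := by ring
    have h8 : |g| ≤ C₁ * |h - h'| := le_of_mul_le_mul_left this habs0
    have h9 : C₁ * |h - h'| ≤ C₁ * c := mul_le_mul_of_nonneg_left hclose.le hC₁
    linarith
  have k8 : cubD p h = g - (h' - h) * (h' + 2 * h + p.1) := by
    rw [hg]; unfold cubD; ring
  have k10 : |(h' - h) * (h' + 2 * h + p.1)| ≤ c * C₂ := by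
    rw [abs_mul, abs_sub_comm]
    exact mul_le_mul hclose.le h2 (abs_nonneg _) hc0.le
  have k11 : |cubD p h| ≤ C₁ * c + c * C₂ := by
    rw [k8]
    calc _ ≤ |g| + |(h' - h) * (h' + 2 * h + p.1)| := abs_sub _ _
      _ ≤ _ := by linarith
  calc _ ≤ C₁ * c + (C₁ * c + c * C₂) := add_le_add k4 k11
    _ = _ := by ring

/-- If a set of abscissae closed under the operations has many elements, it has a large one. -/
theorem exists_large {p₀ : ℝ × ℝ × ℝ} (hp₀ : ∀ x, cub p₀ x = 0 → cubD p₀ x ≠ 0) (R : ℝ) :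
    ∃ N : ℕ, ∀ᶠ p in 𝓝 p₀, ∀ K : Set ℝ, Sub p K → (∃ F : Finset ℝ, ↑F ⊆ K ∧ N ≤ F.card) →
      ∃ h ∈ K, R < h := by
  obtain ⟨L, hL, hbd⟩ := eventually_bd p₀
  obtain ⟨ρ, hρ, htube⟩ := tube (p₀ := p₀) (g := fun q => |cub q.1 q.2| + |cubD q.1 q.2|)
    (continuous_cub.abs.add continuous_cubD.abs) (a := -(4 * L)) (b := R) (by
      intro x _
      simp only
      by_cases h : cub p₀ x = 0
      · have := abs_pos.mpr (hp₀ x h)
        have := abs_nonneg (cub p₀ x)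
        linarith
      · have := abs_pos.mpr h
        have := abs_nonneg (cubD p₀ x)
        linarith)
  set M : ℝ := 4 * L + |R| with hM
  set C₁ : ℝ := R + L + 2 * M with hC₁
  set C₂ : ℝ := 3 * M + L with hC₂
  have hRabs := neg_abs_le R
  have hRabs' := le_abs_self R
  have hRabs0 := abs_nonneg R
  have hC₁pos : 0 < C₁ := by rw [hC₁, hM]; linarith
  have hC₂pos : 0 < C₂ := by rw [hC₂, hM]; linarith
  set c : ℝ := min 1 (ρ / (2 * (2 * C₁ + C₂))) with hc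
  have hcpos : 0 < c := lt_min one_pos (by positivity)
  have hc1 : c ≤ 1 := min_le_left _ _
  have hc2 : (2 * C₁ + C₂) * c < ρ := by
    have h1 : c ≤ ρ / (2 * (2 * C₁ + C₂)) := min_le_right _ _
    have h2 : (2 * C₁ + C₂) * c ≤ (2 * C₁ + C₂) * (ρ / (2 * (2 * C₁ + C₂))) :=
      mul_le_mul_of_nonneg_left h1 (by linarith)
    have h3 : (2 * C₁ + C₂) * (ρ / (2 * (2 * C₁ + C₂))) = ρ / 2 := by
      field_simp
    linarith
  refine ⟨⌊(R - -(4 * L)) / c⌋₊ + 2, ?_⟩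
  filter_upwards [hbd, htube] with p hp htb K hK hF
  obtain ⟨F, hFK, hcard⟩ := hF
  by_contra hcon
  push Not at hcon
  obtain ⟨h, hh, h', hh', hne, hclose⟩ := pigeonhole (F := F) (a := -(4 * L)) (b := R) hcpos
    (fun h hh => ⟨lower_bound hL hp (hK.nonneg h (hFK hh)), hcon h (hFK hh)⟩) (by omega)
  have hhK := hFK hh
  have hhK' := hFK hh'
  have hl := lower_bound hL hp (hK.nonneg h hhK)
  have hl' := lower_bound hL hp (hK.nonneg h' hhK')
  have hu := hcon h hhK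
  have hu' := hcon h' hhK'
  have hrp := hcon _ (hK.add h hhK h' hhK' hne)
  unfold rp at hrp
  have ha := abs_le.mp hp.1
  obtain ⟨ha1, ha2⟩ := ha
  have hM1 : h ≤ M := by rw [hM]; linarith
  have hM1' : h' ≤ M := by rw [hM]; linarith
  have hM2 : -M ≤ h := by rw [hM]; linarith
  have hM2' : -M ≤ h' := by rw [hM]; linarith
  have k1 : ((Real.sqrt (cub p h) + Real.sqrt (cub p h')) / (h - h')) ^ 2 ≤ C₁ := by
    rw [hC₁]; linarith
  have k9 : |h' + 2 * h + p.1| ≤ C₂ := by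
    rw [hC₂, abs_le]; constructor <;> linarith
  have k := small_both hne hclose hc1 (hK.nonneg h hhK) (hK.nonneg h' hhK') hC₁pos.le k1 k9
  have k12 := htb h ⟨hl, hu⟩
  linarith

theorem cub_large {p : ℝ × ℝ × ℝ} {L h : ℝ} (hL : 1 ≤ L) (hp : bd p L) (hh : 100 * L ≤ h) :
    h ^ 3 / 2 ≤ cub p h ∧ cub p h ≤ 2 * h ^ 3 := by
  obtain ⟨h1, h2, h3⟩ := hp
  rw [abs_le] at h1 h2 h3
  have hh1 : 1 ≤ h := by linarith
  have hsq : 0 ≤ h ^ 2 := sq_nonneg h
  have e0 : L * h ^ 2 * 100 ≤ h ^ 3 := by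
    have : (100 * L) * h ^ 2 ≤ h * h ^ 2 := mul_le_mul_of_nonneg_right hh hsq
    nlinarith
  have e1 : |p.1 * h ^ 2| ≤ L * h ^ 2 := by
    rw [abs_mul, abs_of_nonneg hsq]
    exact mul_le_mul_of_nonneg_right (abs_le.mpr h1) hsq
  have e2 : |p.2.1 * h| ≤ L * h ^ 2 := by
    rw [abs_mul, abs_of_nonneg (by linarith : (0:ℝ) ≤ h)]
    have : |p.2.1| * h ≤ L * h := mul_le_mul_of_nonneg_right (abs_le.mpr h2) (by linarith)
    have : L * h ≤ L * h ^ 2 := mul_le_mul_of_nonneg_left (by nlinarith) (by linarith)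
    linarith
  have e3 : |p.2.2| ≤ L * h ^ 2 := by
    have : |p.2.2| ≤ L := abs_le.mpr h3
    nlinarith
  rw [abs_le] at e1 e2 e3
  unfold cub
  constructor <;> nlinarith

theorem dbl_bounds {p : ℝ × ℝ × ℝ} {L h : ℝ} (hL : 1 ≤ L) (hp : bd p L) (hh : 100 * L ≤ h) :
    0 < cub p h ∧ h / 5 ≤ dbl p h ∧ dbl p h ≤ h / 3 := by
  have hh1 : 1 ≤ h := by linarith
  have hc := cub_large hL hp hh
  have hpos : 0 < cub p h := by
    have : 0 < h ^ 3 := by positivity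
    linarith
  obtain ⟨h1, h2, h3⟩ := hp
  have key : dbl p h = (h ^ 4 - 2 * p.2.1 * h ^ 2 - 8 * p.2.2 * h + p.2.1 ^ 2 -
      4 * p.1 * p.2.2) / (4 * cub p h) := by
    unfold dbl
    rw [eq_div_iff (by positivity), sub_mul, sub_mul, div_mul_cancel₀ _ (by positivity)]
    unfold cubD cub; ring
  have hsq : 0 ≤ h ^ 2 := sq_nonneg h
  have e0 : L * h ^ 3 * 100 ≤ h ^ 4 := by
    have : (100 * L) * h ^ 3 ≤ h * h ^ 3 := mul_le_mul_of_nonneg_right hh (by positivity)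
    nlinarith
  have p2 : h ^ 2 ≤ h ^ 3 := pow_le_pow_right₀ hh1 (by norm_num)
  have p1 : h ≤ h ^ 3 := le_self_pow₀ hh1 (by norm_num)
  have p0 : 1 ≤ h ^ 3 := one_le_pow₀ hh1
  have e1 : |p.1 * h ^ 3| ≤ L * h ^ 3 := by
    rw [abs_mul, abs_of_nonneg (by positivity : (0:ℝ) ≤ h ^ 3)]
    exact mul_le_mul_of_nonneg_right h1 (by positivity)
  have e2 : |p.2.1 * h ^ 2| ≤ L * h ^ 3 := by
    rw [abs_mul, abs_of_nonneg hsq]
    exact mul_le_mul h2 p2 hsq (by linarith)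
  have e3 : |p.2.2 * h| ≤ L * h ^ 3 := by
    rw [abs_mul, abs_of_nonneg (by linarith : (0:ℝ) ≤ h)]
    exact mul_le_mul h3 p1 (by linarith) (by linarith)
  have hL3 : L ≤ h ^ 3 := by
    have : L ≤ h := by linarith
    linarith
  have e4 : |p.2.1 ^ 2| ≤ L * h ^ 3 := by
    rw [pow_two, abs_mul]
    exact mul_le_mul h2 (h2.trans hL3) (abs_nonneg _) (by linarith)
  have e5 : |p.1 * p.2.2| ≤ L * h ^ 3 := by
    rw [abs_mul]
    exact mul_le_mul h1 (h3.trans hL3) (abs_nonneg _) (by linarith)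
  rw [abs_le] at e1 e2 e3 e4 e5
  refine ⟨hpos, ?_, ?_⟩
  · rw [key, le_div_iff₀ (by positivity)]
    unfold cub
    nlinarith
  · rw [key, div_le_iff₀ (by positivity)]
    unfold cub
    nlinarith

theorem exists_mid {p : ℝ × ℝ × ℝ} {L R : ℝ} (hL : 1 ≤ L) (hp : bd p L) (hR : 100 * L ≤ R)
    {K : Set ℝ} (hK : Sub p K) (h : ℝ) (hh : h ∈ K) (hlarge : R < h) :
    ∃ h' ∈ K, R < h' ∧ h' ≤ 5 * R := by
  have key : ∀ n : ℕ, ∀ h ∈ K, R < h → h ≤ 5 * R * 3 ^ n → ∃ h' ∈ K, R < h' ∧ h' ≤ 5 * R := by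
    intro n
    induction n with
    | zero => intro h hh h1 h2; exact ⟨h, hh, h1, by simpa using h2⟩
    | succ n ih =>
      intro h hh h1 h2
      by_cases h3 : h ≤ 5 * R
      · exact ⟨h, hh, h1, h3⟩
      · push Not at h3
        obtain ⟨k1, k2, k3⟩ := dbl_bounds hL hp (by linarith : 100 * L ≤ h)
        refine ih _ (hK.dbl h hh k1.ne') (by linarith) ?_
        rw [pow_succ] at h2
        linarith
  obtain ⟨n, hn⟩ := pow_unbounded_of_one_lt h (by norm_num : (1 : ℝ) < 3)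
  refine key n h hh hlarge ?_
  have : (1 : ℝ) ≤ 5 * R := by linarith
  have h3 : (0 : ℝ) < 3 ^ n := by positivity
  nlinarith

/-- bounds for one step -/
theorem step_bound {p : ℝ × ℝ × ℝ} {L ρ ε h β : ℝ} (hL : 1 ≤ L) (hp : bd p L) (hh : 100 * L ≤ h)
    (hβ : |β| ≤ L) (hρ : 0 < ρ) (hρβ : ρ ≤ cub p β) (hε : 0 < ε)
    (hh1 : 100 * L ^ 6 / ρ < h) (hh2 : 5000 * L ^ 3 / ε ^ 2 < h) (hh3 : 100 * L ^ 3 / ε < h) :
    β - ε < rm p β h ∧ rm p β h < β := by
  have hh0 : 1 ≤ h := by linarith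
  obtain ⟨f1, f2⟩ := cub_large hL hp hh
  have hf0 : 0 < cub p h := by
    have : 0 < h ^ 3 := by positivity
    linarith
  obtain ⟨p1, p2, p3⟩ := hp
  set s := Real.sqrt (cub p β) with hs
  set S := Real.sqrt (cub p h) with hS
  have hs0 : 0 < s := Real.sqrt_pos.mpr (by linarith)
  have hS0 : 0 < S := Real.sqrt_pos.mpr hf0
  have hs2 : s ^ 2 = cub p β := Real.sq_sqrt (by linarith)
  have hS2 : S ^ 2 = cub p h := Real.sq_sqrt hf0.le
  have hβh : β ≤ L := (abs_le.mp hβ).2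
  have hβl : -L ≤ β := (abs_le.mp hβ).1
  have hd : β - h < 0 := by linarith
  have hdsq : 0 < (h - β) ^ 2 := by
    have : 0 < h - β := by linarith
    positivity
  set E := cubD p β * h - β ^ 3 + p.2.1 * β + 2 * p.2.2 with hE
  have key : rm p β h = β - (2 * (s * S) - E) / (h - β) ^ 2 := by
    unfold rm
    rw [← hs, ← hS, div_pow, show (β - h) ^ 2 = (h - β) ^ 2 by ring]
    have e1 : (s - S) ^ 2 = cub p β + cub p h - 2 * (s * S) := by
      rw [← hs2, ← hS2]; ring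
    have e2 : cub p β + cub p h = (p.1 + 2 * β + h) * (h - β) ^ 2 + E := by
      rw [hE]; unfold cubD cub; ring
    rw [e1, e2, add_sub_assoc, add_div, mul_div_cancel_right₀ _ hdsq.ne']
    ring
  -- bound on E
  have b2 : β ^ 2 ≤ L ^ 2 := by rw [← sq_abs β]; exact pow_le_pow_left₀ (abs_nonneg _) hβ 2
  have b3 : |β ^ 3| ≤ L ^ 3 := by rw [abs_pow]; exact pow_le_pow_left₀ (abs_nonneg _) hβ 3
  have L1 : L ≤ L ^ 3 := le_self_pow₀ hL (by norm_num)
  have L2 : L ^ 2 ≤ L ^ 3 := pow_le_pow_right₀ hL (by norm_num)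
  have hD : |cubD p β| ≤ 6 * L ^ 3 := by
    have a1 : |p.1 * β| ≤ L * L := by
      rw [abs_mul]; exact mul_le_mul p1 hβ (abs_nonneg _) (by linarith)
    rw [abs_le] at a1 p2
    unfold cubD
    have : L * L = L ^ 2 := by ring
    have := sq_nonneg β
    rw [abs_le]; constructor <;> nlinarith
  have hE1 : |E| ≤ 10 * L ^ 3 * h := by
    have a1 : |cubD p β * h| ≤ 6 * L ^ 3 * h := by
      rw [abs_mul, abs_of_nonneg (by linarith : (0:ℝ) ≤ h)]
      exact mul_le_mul_of_nonneg_right hD (by linarith)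
    have a2 : |p.2.1 * β| ≤ L ^ 3 := by
      rw [abs_mul]
      calc _ ≤ L * L := mul_le_mul p2 hβ (abs_nonneg _) (by linarith)
        _ = L ^ 2 := by ring
        _ ≤ _ := L2
    have a3 : 4 * L ^ 3 ≤ 4 * L ^ 3 * h := le_mul_of_one_le_right (by positivity) hh0
    rw [abs_le] at a1 a2 b3 p3 ⊢
    rw [hE]
    constructor <;> linarith
  have hE2 := (abs_le.mp hE1).2
  have hE3 := (abs_le.mp hE1).1
  -- positivity
  have hpos : E < 2 * (s * S) := by
    have h1 : (10 * L ^ 3 * h) ^ 2 < (2 * (s * S)) ^ 2 := by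
      have e1 : (2 * (s * S)) ^ 2 = 4 * (cub p β * cub p h) := by
        rw [← hs2, ← hS2]; ring
      have e2 : ρ * (h ^ 3 / 2) ≤ cub p β * cub p h := mul_le_mul hρβ f1 (by positivity)
        (by linarith)
      have e3 : 100 * L ^ 6 < ρ * h := by
        rw [div_lt_iff₀ hρ] at hh1; linarith
      have e4 : 100 * L ^ 6 * h ^ 2 < ρ * h * h ^ 2 := mul_lt_mul_of_pos_right e3 (by positivity)
      rw [e1]
      have e5 : (10 * L ^ 3 * h) ^ 2 = 100 * L ^ 6 * h ^ 2 := by ring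
      have e6 : ρ * h * h ^ 2 = 2 * (ρ * (h ^ 3 / 2)) := by ring
      have e7 : 0 ≤ ρ * (h ^ 3 / 2) := by positivity
      linarith
    have h2 : 10 * L ^ 3 * h < 2 * (s * S) := lt_of_pow_lt_pow_left₀ 2 (by positivity) h1
    linarith
  -- smallness
  have hL3 : cub p β ≤ 4 * L ^ 3 := by
    have a1 : |p.1 * β ^ 2| ≤ L ^ 3 := by
      rw [abs_mul, abs_of_nonneg (sq_nonneg β)]
      calc _ ≤ L * L ^ 2 := mul_le_mul p1 b2 (sq_nonneg _) (by linarith)
        _ = _ := by ring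
    have a2 : |p.2.1 * β| ≤ L ^ 3 := by
      rw [abs_mul]
      calc _ ≤ L * L := mul_le_mul p2 hβ (abs_nonneg _) (by linarith)
        _ = L ^ 2 := by ring
        _ ≤ _ := L2
    rw [abs_le] at a1 a2 b3 p3
    unfold cub
    linarith
  have hsmall : 2 * (s * S) - E < ε * (h - β) ^ 2 := by
    have h1 : (2 * (s * S)) ^ 2 < (ε * h ^ 2 / 8) ^ 2 := by
      have e1 : (2 * (s * S)) ^ 2 = 4 * (cub p β * cub p h) := by
        rw [← hs2, ← hS2]; ring
      have e2 : cub p β * cub p h ≤ 4 * L ^ 3 * (2 * h ^ 3) := mul_le_mul hL3 f2 hf0.le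
        (by positivity)
      have e3 : 5000 * L ^ 3 < ε ^ 2 * h := by
        rw [div_lt_iff₀ (by positivity)] at hh2; linarith
      have e4 : 5000 * L ^ 3 * h ^ 3 < ε ^ 2 * h * h ^ 3 :=
        mul_lt_mul_of_pos_right e3 (by positivity)
      rw [e1]
      have e5 : (ε * h ^ 2 / 8) ^ 2 = ε ^ 2 * h * h ^ 3 / 64 := by ring
      have e7 : 0 ≤ L ^ 3 * h ^ 3 := by positivity
      rw [e5]
      linarith
    have h2 : 2 * (s * S) < ε * h ^ 2 / 8 := lt_of_pow_lt_pow_left₀ 2 (by positivity) h1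
    have h3 : 10 * L ^ 3 * h < ε * h ^ 2 / 8 := by
      have e3 : 100 * L ^ 3 < ε * h := by
        rw [div_lt_iff₀ hε] at hh3; linarith
      have e4 : 100 * L ^ 3 * h < ε * h * h := mul_lt_mul_of_pos_right e3 (by linarith)
      have e5 : ε * h ^ 2 / 8 = ε * h * h / 8 := by ring
      rw [e5]; linarith
    have h4 : h ^ 2 / 4 ≤ (h - β) ^ 2 := by
      have : h / 2 ≤ h - β := by linarith
      calc h ^ 2 / 4 = (h / 2) ^ 2 := by ring
        _ ≤ _ := pow_le_pow_left₀ (by linarith) this 2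
    have h5 : ε * (h ^ 2 / 4) ≤ ε * (h - β) ^ 2 := mul_le_mul_of_nonneg_left h4 hε.le
    have h6 : ε * (h ^ 2 / 4) = ε * h ^ 2 / 8 + ε * h ^ 2 / 8 := by ring
    linarith
  rw [key]
  constructor
  · have : (2 * (s * S) - E) / (h - β) ^ 2 < ε := by
      rw [div_lt_iff₀ hdsq]; exact hsmall
    linarith
  · have : 0 < (2 * (s * S) - E) / (h - β) ^ 2 := div_pos (by linarith) hdsq
    linarith

theorem small_step {p₀ : ℝ × ℝ × ℝ} {X M ε : ℝ} (hpos : ∀ x ∈ Icc X M, 0 < cub p₀ x)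
    (hε : 0 < ε) : ∃ R' : ℝ, ∀ᶠ p in 𝓝 p₀, ∀ h, R' < h → ∀ β ∈ Icc X M,
      β - ε < rm p β h ∧ rm p β h < β := by
  obtain ⟨L₀, hL₀, hbd⟩ := eventually_bd p₀
  set L := max L₀ (max |X| |M|) with hL
  have hL1 : 1 ≤ L := le_trans hL₀ (le_max_left _ _)
  obtain ⟨ρ, hρ, htube⟩ := tube (p₀ := p₀) (g := fun q => cub q.1 q.2) continuous_cub hpos
  refine ⟨max (100 * L) (max (100 * L ^ 6 / ρ) (max (5000 * L ^ 3 / ε ^ 2) (100 * L ^ 3 / ε))),
    ?_⟩
  filter_upwards [hbd, htube] with p hp htb h hh β hβ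
  simp only [max_lt_iff] at hh
  obtain ⟨h1, h2, h3, h4⟩ := hh
  have hp' : bd p L := ⟨hp.1.trans (le_max_left _ _), hp.2.1.trans (le_max_left _ _),
    hp.2.2.trans (le_max_left _ _)⟩
  have hβL : |β| ≤ L := by
    have hX : |X| ≤ L := (le_max_left _ _).trans (le_max_right _ _)
    have hM : |M| ≤ L := (le_max_right _ _).trans (le_max_right _ _)
    rw [abs_le] at hX hM ⊢
    exact ⟨by linarith [hβ.1], by linarith [hβ.2]⟩
  exact step_bound hL1 hp' h1.le hβL hρ (htb β hβ) hε h2 h3 h4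

/-- A closed set of abscissae with many elements has elements near every point to the right of
which the cubic is positive. -/
theorem dense_large {p₀ : ℝ × ℝ × ℝ} (hp₀ : ∀ x, cub p₀ x = 0 → cubD p₀ x ≠ 0) {X ε : ℝ}
    (hX : ∀ x, X ≤ x → 0 < cub p₀ x) (hε : 0 < ε) :
    ∃ N : ℕ, ∀ᶠ p in 𝓝 p₀, ∀ K : Set ℝ, Sub p K → (∃ F : Finset ℝ, ↑F ⊆ K ∧ N ≤ F.card) →
      ∃ h ∈ K, X ≤ h ∧ h < X + ε := by
  obtain ⟨L, hL, hbd⟩ := eventually_bd p₀
  set R := max (100 * L) |X| with hR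
  have hR1 : 100 * L ≤ R := le_max_left _ _
  have hR2 : X ≤ R := (le_abs_self X).trans (le_max_right _ _)
  obtain ⟨R₁, hstep⟩ := small_step (p₀ := p₀) (X := X) (M := 5 * R) (ε := ε)
    (fun x hx => hX x hx.1) hε
  set R' := max (max R₁ (5 * R)) (100 * L) with hR'
  have hR'1 : R₁ ≤ R' := (le_max_left _ _).trans (le_max_left _ _)
  have hR'2 : 5 * R ≤ R' := (le_max_right _ _).trans (le_max_left _ _)
  obtain ⟨N, hN⟩ := exists_large hp₀ R'
  refine ⟨N, ?_⟩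
  have htb : ∀ᶠ p in 𝓝 p₀, ∀ x ∈ Icc X (5 * R), 0 < cub p x := by
    obtain ⟨ρ, hρ, htube⟩ := tube (p₀ := p₀) (g := fun q => cub q.1 q.2) (a := X) (b := 5 * R)
      continuous_cub (fun x hx => hX x hx.1)
    filter_upwards [htube] with p hp x hx
    exact lt_of_lt_of_le hρ (hp x hx)
  filter_upwards [hbd, hstep, hN] with p hp hst hlg K hK hF
  obtain ⟨h, hh, hhR⟩ := hlg K hK hF
  obtain ⟨β₀, hβ₀, hb1, hb2⟩ := exists_mid hL hp hR1 hK h hh (by linarith)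
  by_contra hcon
  push Not at hcon
  -- infimum
  set T := K ∩ Icc X (5 * R) with hT
  have hTne : T.Nonempty := ⟨β₀, hβ₀, by linarith, hb2⟩
  have hTbd : BddBelow T := ⟨X, fun t ht => ht.2.1⟩
  set m := sInf T with hm
  have hTX : ∀ t ∈ T, X + ε ≤ t := fun t ht => hcon t ht.1 ht.2.1
  have hmX : X + ε ≤ m := le_csInf hTne hTX
  have hmM : m ≤ 5 * R := csInf_le_of_le hTbd ⟨hβ₀, by linarith, hb2⟩ hb2
  have hmI : m ∈ Icc X (5 * R) := ⟨by linarith, hmM⟩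
  have hrm := (hst h (by linarith) m hmI).2
  have hcont : ContinuousAt (fun β => rm p β h) m := by
    unfold rm
    have hne : m - h ≠ 0 := by
      have : m - h < 0 := by linarith
      exact this.ne
    have hc := (continuous_cub' p)
    refine ((((hc.continuousAt.sqrt.sub continuousAt_const).div
      (continuousAt_id.sub continuousAt_const) hne).pow 2).sub continuousAt_const).sub
      continuousAt_id |>.sub continuousAt_const
  have hev : ∀ᶠ β in 𝓝 m, rm p β h < m := hcont.eventually_lt continuousAt_const hrm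
  rw [Metric.eventually_nhds_iff] at hev
  obtain ⟨δ, hδ, hev⟩ := hev
  obtain ⟨β, hβT, hβm⟩ := exists_lt_of_csInf_lt hTne (show sInf T < m + δ by rw [← hm]; linarith)
  have hmβ : m ≤ β := csInf_le hTbd hβT
  have h1 := hev (y := β) (by rw [Real.dist_eq, abs_lt]; constructor <;> linarith)
  have h2 := (hst h (by linarith) β hβT.2).1
  have h3 := hTX β hβT
  have h4 : rm p β h ∈ T := by
    refine ⟨hK.sub β hβT.1 h hh ?_, by linarith, by linarith⟩
    have := hβT.2.2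
    intro h; linarith
  have h5 := csInf_le hTbd h4
  linarith

end Pool.Agent.Lib.MP42
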