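import Mathlib

set_option autoImplicit false

namespace Pool.Agent.Lib.MP42

/-- A subset of `ℝⁿ` is semialgebraic over `ℚ` when it is a finite union of sets of the form
`{p = 0, q₁ > 0, …, q_k > 0}` with `p` and the `qᵢ` polynomials with rational coefficients. -/
def Semialgebraic {n : ℕ} (S : Set (Fin n → ℝ)) : Prop :=
  ∃ (m : ℕ) (P : Fin m → MvPolynomial (Fin n) ℚ) (G : Fin m → Finset (MvPolynomial (Fin n) ℚ)),
    S = {x : Fin n → ℝ | ∃ j : Fin m, (MvPolynomial.aeval x (P j) : ℝ) = 0 ∧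
      ∀ g ∈ G j, (0 : ℝ) < MvPolynomial.aeval x g}

/-- The closure in `ℝⁿ` of the set of common rational zeros of a set `F` of polynomials with
rational coefficients. -/
def ratClosure {n : ℕ} (F : Set (MvPolynomial (Fin n) ℚ)) : Set (Fin n → ℝ) :=
  closure {x : Fin n → ℝ | ∃ q : Fin n → ℚ,
    (∀ f ∈ F, MvPolynomial.eval q f = 0) ∧ ∀ i, x i = (q i : ℝ)}

/-- The polynomial `x₀² - D(x₁, …, x_m)`, whose zero set is the double cover `x₀² = D` of affine
`m`-space. -/
noncomputable def doubleCover {m : ℕ} (D : MvPolynomial (Fin m) ℚ) :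
    MvPolynomial (Fin (m + 1)) ℚ :=
  MvPolynomial.X 0 ^ 2 - MvPolynomial.rename Fin.succ D

/-- The real points of the hypersurface `P = 0` at which some partial derivative of `P` does not
vanish. -/
def smoothRealPoints {n : ℕ} (P : MvPolynomial (Fin n) ℚ) : Set (Fin n → ℝ) :=
  {x | (MvPolynomial.aeval x P : ℝ) = 0 ∧ ∃ i, (MvPolynomial.aeval x (MvPolynomial.pderiv i P) : ℝ) ≠ 0}

end Pool.Agent.Lib.MP42
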