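import Pool.Agent.Lib.MP_42de19_nt.Taylor

set_option autoImplicit false

namespace Pool.Agent.Lib.MP42

open WeierstrassCurve

/-- The Jacobian of the genus one curve `Y² = c₀ + c₁ T + c₂ T² + c₃ T³ + c₄ T⁴`: the curve
`Y² = X³ + c₂ X² + (c₁ c₃ - 4 c₀ c₄) X + (c₀ c₃² + c₁² c₄ - 4 c₀ c₂ c₄)`. -/
def quarticJac (c : Fin 5 → ℚ) : WeierstrassCurve ℚ where
  a₁ := 0
  a₂ := c 2
  a₃ := 0
  a₄ := c 1 * c 3 - 4 * c 0 * c 4
  a₆ := c 0 * c 3 ^ 2 + c 1 ^ 2 * c 4 - 4 * c 0 * c 2 * c 4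

theorem quarticJac_Δ (c : Fin 5 → ℚ) : (quarticJac c).Δ = 16 * disc4 c := by
  simp only [quarticJac, WeierstrassCurve.Δ, WeierstrassCurve.b₂, WeierstrassCurve.b₄,
    WeierstrassCurve.b₆, WeierstrassCurve.b₈, disc4, rB, rC]
  ring

theorem quarticJac_equation (c : Fin 5 → ℚ) (x y : ℚ) :
    (quarticJac c).toAffine.Equation x y ↔
      y ^ 2 = x ^ 3 + c 2 * x ^ 2 + rB c * x + rC c := by
  rw [Affine.equation_iff]
  simp only [quarticJac, rB, rC]
  constructor
  · intro h; linarith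
  · intro h; linarith

theorem two_pow_smul {c : Fin 5 → ℚ} (hc0 : c 0 ≠ 0) {x y : ℚ}
    (h : (quarticJac c).toAffine.Nonsingular x y)
    (hx : x = (c 1 ^ 2 - 4 * c 0 * c 2) / (4 * c 0))
    (hP : ¬ IsOfFinAddOrder (Affine.Point.some x y h)) (k : ℕ) :
    (dseq c k).2 ≠ 0 ∧ ∃ (x' y' : ℚ) (h' : (quarticJac c).toAffine.Nonsingular x' y'),
      2 ^ k • Affine.Point.some x y h = Affine.Point.some x' y' h' ∧
      x' = (dseq c k).1 / (c 0 * (dseq c k).2) := by
  induction k with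
  | zero =>
    refine ⟨by simp [dseq], x, y, h, by simp, ?_⟩
    rw [hx]
    simp only [dseq]
    rw [mul_comm (c 0) 4]
  | succ k ih =>
    obtain ⟨hb, x', y', h', hk, hx'⟩ := ih
    have hne : y' ≠ (quarticJac c).toAffine.negY x' y' := by
      intro hy
      apply hP
      have h2 := Affine.Point.add_self_of_Y_eq (h₁ := h') hy
      rw [← hk, ← add_smul] at h2
      rw [isOfFinAddOrder_iff_nsmul_eq_zero]
      exact ⟨2 ^ k + 2 ^ k, by positivity, h2⟩
    have hadd := Affine.Point.add_self_of_Y_ne (h₁ := h') hne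
    have hy0 : y' ≠ 0 := by
      intro hy
      apply hne
      rw [hy]
      simp [Affine.negY, quarticJac]
    have heq := (quarticJac_equation c x' y').mp h'.1
    have hsl : (quarticJac c).toAffine.slope x' x' y' y' =
        (3 * x' ^ 2 + 2 * c 2 * x' + rB c) / (2 * y') := by
      rw [Affine.slope_of_Y_ne rfl hne]
      simp only [Affine.negY, quarticJac, rB]
      congr 1 <;> ring
    have hbk : c 0 * (dseq c k).2 ≠ 0 := mul_ne_zero hc0 hb
    have hax : (dseq c k).1 = x' * (c 0 * (dseq c k).2) := by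
      rw [hx']; field_simp
    have hden : (dseq c (k + 1)).2 = 4 * (dseq c k).2 * (c 0 * (dseq c k).2) ^ 3 * y' ^ 2 := by
      simp only [dseq]
      rw [hax, heq]
      ring
    have hnum : (dseq c (k + 1)).1 = (c 0 * (dseq c k).2) ^ 4 *
        (x' ^ 4 - 2 * rB c * x' ^ 2 - 8 * rC c * x' + (rB c ^ 2 - 4 * c 2 * rC c)) := by
      simp only [dseq]
      rw [hax]
      ring
    refine ⟨?_, ?_⟩
    · rw [hden]
      exact mul_ne_zero (mul_ne_zero (mul_ne_zero (by norm_num) hb) (pow_ne_zero _ hbk))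
        (pow_ne_zero _ hy0)
    · have h2k : 2 ^ (k + 1) • Affine.Point.some x y h =
          Affine.Point.some x' y' h' + Affine.Point.some x' y' h' := by
        rw [pow_succ, mul_two, add_nsmul, hk]
      refine ⟨_, _, _, h2k.trans hadd, ?_⟩
      · rw [hsl, hden, hnum]
        simp only [Affine.addX, quarticJac]
        have e1 : c 0 * (4 * (dseq c k).2 * (c 0 * (dseq c k).2) ^ 3 * y' ^ 2) =
            (c 0 * (dseq c k).2) ^ 4 * (4 * y' ^ 2) := by ring
        rw [e1, mul_div_mul_left _ _ (pow_ne_zero 4 hbk)]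
        have hy2 : (4 : ℚ) * y' ^ 2 ≠ 0 := by positivity
        rw [eq_div_iff hy2]
        have e2 : ((3 * x' ^ 2 + 2 * c 2 * x' + rB c) / (2 * y')) ^ 2 * (4 * y' ^ 2) =
            (3 * x' ^ 2 + 2 * c 2 * x' + rB c) ^ 2 := by
          field_simp
          ring
        have e3 : (((3 * x' ^ 2 + 2 * c 2 * x' + rB c) / (2 * y')) ^ 2 +
            0 * ((3 * x' ^ 2 + 2 * c 2 * x' + rB c) / (2 * y')) - c 2 - x' - x') * (4 * y' ^ 2) =
            (3 * x' ^ 2 + 2 * c 2 * x' + rB c) ^ 2 - (c 2 + 2 * x') * (4 * y' ^ 2) := by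
          rw [← e2]; ring
        rw [e3, heq]
        ring

theorem dseq_cross_ne {c : Fin 5 → ℚ} (hc0 : c 0 ≠ 0) {x y : ℚ}
    (h : (quarticJac c).toAffine.Nonsingular x y)
    (hx : x = (c 1 ^ 2 - 4 * c 0 * c 2) / (4 * c 0))
    (hP : ¬ IsOfFinAddOrder (Affine.Point.some x y h)) {j k : ℕ} (hjk : k < j) :
    (dseq c j).1 * (dseq c k).2 - (dseq c k).1 * (dseq c j).2 ≠ 0 := by
  intro h0
  obtain ⟨hbj, xj, yj, hj', hj, hxj⟩ := two_pow_smul hc0 h hx hP j
  obtain ⟨hbk, xk, yk, hk', hk, hxk⟩ := two_pow_smul hc0 h hx hP k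
  have hxx : xj = xk := by
    rw [hxj, hxk, div_eq_div_iff (mul_ne_zero hc0 hbj) (mul_ne_zero hc0 hbk)]
    linear_combination c 0 * h0
  have hlt : 2 ^ k < 2 ^ j := Nat.pow_lt_pow_right (by norm_num) hjk
  rcases (Affine.Point.X_eq_iff (h₁ := hj') (h₂ := hk')).mp hxx with h1 | h1
  · rw [← hj, ← hk] at h1
    apply hP
    rw [isOfFinAddOrder_iff_nsmul_eq_zero]
    refine ⟨2 ^ j - 2 ^ k, by omega, ?_⟩
    have h2 : (2 ^ j - 2 ^ k) • Affine.Point.some x y h + 2 ^ k • Affine.Point.some x y h =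
        2 ^ j • Affine.Point.some x y h := by
      rw [← add_smul, Nat.sub_add_cancel hlt.le]
    rw [h1] at h2
    exact add_eq_right.mp h2
  · rw [← hj, ← hk] at h1
    apply hP
    rw [isOfFinAddOrder_iff_nsmul_eq_zero]
    refine ⟨2 ^ j + 2 ^ k, by positivity, ?_⟩
    rw [add_smul, h1]
    exact neg_add_cancel _

end Pool.Agent.Lib.MP42
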