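import Pool.Agent.Lib.MP_42de19_nt.Quartic

set_option autoImplicit false

namespace Pool.Agent.Lib.MP42

open Height

/-- The invariants of the quartic with coefficients `c`. -/
def qI {R : Type*} [CommRing R] (c : Fin 5 → R) : R := c 2 ^ 2 - 3 * rB c

def qJ {R : Type*} [CommRing R] (c : Fin 5 → R) : R :=
  -2 * c 2 ^ 3 + 9 * c 2 * rB c - 27 * rC c

theorem disc4_eq_IJ {R : Type*} [CommRing R] (c : Fin 5 → R) :
    27 * disc4 c = 4 * qI c ^ 3 - qJ c ^ 2 := by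
  unfold disc4 qI qJ; ring

open MvPolynomial in
/-- numerator and denominator of the doubling map for `Y² = ζ³ - 3 I ζ - J` -/
noncomputable def lat (I J : ℚ) : Fin 2 → MvPolynomial (Fin 2) ℚ :=
  ![X 0 ^ 4 + C (6 * I) * X 0 ^ 2 * X 1 ^ 2 + C (8 * J) * X 0 * X 1 ^ 3 + C (9 * I ^ 2) * X 1 ^ 4,
    C 4 * X 0 ^ 3 * X 1 - C (12 * I) * X 0 * X 1 ^ 3 - C (4 * J) * X 1 ^ 4]

open MvPolynomial in
/-- Bezout coefficients -/
noncomputable def latq (I J : ℚ) : Fin 2 × Fin 2 → MvPolynomial (Fin 2) ℚ := fun k =>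
  C (4 * (4 * (-3 * I) ^ 3 + 27 * (-J) ^ 2))⁻¹ *
  (![![C (4 * (4 * (-3 * I) ^ 3 + 27 * (-J) ^ 2)) * X 0 ^ 3 -
        C (4 * (-3 * I) ^ 2 * (-J)) * X 0 ^ 2 * X 1 +
        C (4 * (-3 * I) * (3 * (-3 * I) ^ 3 + 22 * (-J) ^ 2)) * X 0 * X 1 ^ 2 +
        C (12 * (-J) * ((-3 * I) ^ 3 + 8 * (-J) ^ 2)) * X 1 ^ 3,
      C ((-3 * I) ^ 2 * (-J)) * X 0 ^ 3 +
        C ((-3 * I) * (5 * (-3 * I) ^ 3 + 32 * (-J) ^ 2)) * X 0 ^ 2 * X 1 +
        C (2 * (-J) * (13 * (-3 * I) ^ 3 + 96 * (-J) ^ 2)) * X 0 * X 1 ^ 2 -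
        C (3 * (-3 * I) ^ 2 * ((-3 * I) ^ 3 + 8 * (-J) ^ 2)) * X 1 ^ 3],
    ![C 12 * X 0 ^ 2 * X 1 + C (16 * (-3 * I)) * X 1 ^ 3,
      C (-3) * X 0 ^ 3 + C (5 * (-3 * I)) * X 0 * X 1 ^ 2 + C (27 * (-J)) * X 1 ^ 3]] :
    Fin 2 → Fin 2 → MvPolynomial (Fin 2) ℚ) k.1 k.2

open MvPolynomial in
theorem latq_hom (I J : ℚ) (a : Fin 2 × Fin 2) : (latq I J a).IsHomogeneous 3 := by
  have hX0 : ∀ n, (X 0 ^ n : MvPolynomial (Fin 2) ℚ).IsHomogeneous n := fun n => by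
    simpa using (isHomogeneous_X ℚ (0 : Fin 2)).pow n
  have hX1 : ∀ n, (X 1 ^ n : MvPolynomial (Fin 2) ℚ).IsHomogeneous n := fun n => by
    simpa using (isHomogeneous_X ℚ (1 : Fin 2)).pow n
  have h0 : (X 0 : MvPolynomial (Fin 2) ℚ).IsHomogeneous 1 := isHomogeneous_X ℚ _
  have h1 : (X 1 : MvPolynomial (Fin 2) ℚ).IsHomogeneous 1 := isHomogeneous_X ℚ _
  have hC : ∀ r : ℚ, (C r : MvPolynomial (Fin 2) ℚ).IsHomogeneous 0 := fun r =>
    isHomogeneous_C _ r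
  have m30 : ∀ r : ℚ, (C r * X 0 ^ 3 : MvPolynomial (Fin 2) ℚ).IsHomogeneous 3 := fun r => by
    simpa using (hC r).mul (hX0 3)
  have m21 : ∀ r : ℚ, (C r * X 0 ^ 2 * X 1 : MvPolynomial (Fin 2) ℚ).IsHomogeneous 3 := fun r => by
    simpa using ((hC r).mul (hX0 2)).mul h1
  have m12 : ∀ r : ℚ, (C r * X 0 * X 1 ^ 2 : MvPolynomial (Fin 2) ℚ).IsHomogeneous 3 := fun r => by
    simpa using ((hC r).mul h0).mul (hX1 2)
  have m03 : ∀ r : ℚ, (C r * X 1 ^ 3 : MvPolynomial (Fin 2) ℚ).IsHomogeneous 3 := fun r => by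
    simpa using (hC r).mul (hX1 3)
  have key : ∀ (r : ℚ) (p : MvPolynomial (Fin 2) ℚ), p.IsHomogeneous 3 →
      (C r * p).IsHomogeneous 3 := fun r p hp => by simpa using (hC r).mul hp
  obtain ⟨i, j⟩ := a
  unfold latq
  apply key
  fin_cases i <;> fin_cases j
  · exact (((m30 _).sub (m21 _)).add (m12 _)).add (m03 _)
  · exact (((m30 _).add (m21 _)).add (m12 _)).sub (m03 _)
  · exact (m21 _).add (m03 _)
  · exact ((m30 _).add (m12 _)).add (m03 _)

open MvPolynomial in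
theorem latq_rel (I J : ℚ) (hΔ : 4 * I ^ 3 - J ^ 2 ≠ 0) (x : Fin 2 → ℚ) (k : Fin 2) :
    ∑ j, (latq I J (k, j)).eval x * (lat I J j).eval x = x k ^ (3 + 4) := by
  have hΔ' : (4 : ℚ) * (4 * (-3 * I) ^ 3 + 27 * (-J) ^ 2) ≠ 0 := by
    have : (4 : ℚ) * (4 * (-3 * I) ^ 3 + 27 * (-J) ^ 2) = -108 * (4 * I ^ 3 - J ^ 2) := by ring
    rw [this]
    exact mul_ne_zero (by norm_num) hΔ
  obtain ⟨e, he⟩ : ∃ e, e = ((4 : ℚ) * (4 * (-3 * I) ^ 3 + 27 * (-J) ^ 2))⁻¹ := ⟨_, rfl⟩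
  have he1 : e * ((4 : ℚ) * (4 * (-3 * I) ^ 3 + 27 * (-J) ^ 2)) = 1 := by
    rw [he, inv_mul_cancel₀ hΔ']
  rw [Fin.sum_univ_two]
  fin_cases k
  · simp only [latq, lat, Fin.zero_eta, Matrix.cons_val_zero, Matrix.cons_val_one,
      Matrix.cons_val_fin_one, map_mul, map_add, map_sub, map_pow, eval_C, eval_X]
    rw [← he]
    linear_combination (x 0) ^ 7 * he1
  · simp only [latq, lat, Fin.mk_one, Matrix.cons_val_zero, Matrix.cons_val_one,
      Matrix.cons_val_fin_one, map_mul, map_add, map_sub, map_pow, eval_C, eval_X]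
    rw [← he]
    linear_combination (x 1) ^ 7 * he1

/-- The coordinates of the point `2 ^ k S₀` on the normalised curve. -/
def wseq (c : Fin 5 → ℚ) (k : ℕ) : Fin 2 → ℚ :=
  ![3 * (dseq c k).1 + c 2 * (c 0 * (dseq c k).2), c 0 * (dseq c k).2]

open MvPolynomial in
theorem wseq_succ (c : Fin 5 → ℚ) (k : ℕ) :
    (fun j => (lat (qI c) (qJ c) j).eval (wseq c k)) = (27 : ℚ) • wseq c (k + 1) := by
  funext j
  fin_cases j
  · simp only [lat, wseq, dseq, qI, qJ, Fin.zero_eta, Matrix.cons_val_zero, Matrix.cons_val_one,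
      Pi.smul_apply, smul_eq_mul, map_mul, map_add, map_pow, eval_C, eval_X]
    ring
  · simp only [lat, wseq, dseq, qI, qJ, Fin.mk_one, Matrix.cons_val_zero, Matrix.cons_val_one,
      Pi.smul_apply, smul_eq_mul, map_mul, map_sub, map_pow, eval_C, eval_X]
    ring

/-- A bound, depending only on the invariants, beyond which heights grow. -/
theorem exists_height_bound (I J : ℚ) (hΔ : 4 * I ^ 3 - J ^ 2 ≠ 0) :
    ∃ B : ℝ, 0 ≤ B ∧ ∀ c : Fin 5 → ℚ, qI c = I → qJ c = J → B < logHeight (wseq c 0) →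
      StrictMono (fun k => logHeight (wseq c k)) ∧ ∀ k, 0 < logHeight (wseq c k) := by
  obtain ⟨C₀, hC₀⟩ := logHeight_eval_ge' (K := ℚ) (ι := Fin 2) (ι' := Fin 2) (M := 3) (N := 4)
    (latq_hom I J)
  refine ⟨|C₀|, abs_nonneg _, ?_⟩
  intro c hI hJ h0
  have step : ∀ k, C₀ + 4 * logHeight (wseq c k) ≤ logHeight (wseq c (k + 1)) := by
    intro k
    have h1 := hC₀ (lat I J) (x := wseq c k) (latq_rel I J hΔ (wseq c k))
    have h2 := wseq_succ c k
    rw [hI, hJ] at h2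
    rw [h2, logHeight_smul_eq_logHeight _ (by norm_num : (27 : ℚ) ≠ 0)] at h1
    simpa using h1
  have hb : ∀ k, |C₀| < logHeight (wseq c k) := by
    intro k
    induction k with
    | zero => exact h0
    | succ k ih =>
      have := step k
      have := neg_abs_le C₀
      linarith [abs_nonneg C₀]
  refine ⟨strictMono_nat_of_lt_succ fun k => ?_, fun k => lt_of_le_of_lt (abs_nonneg _) (hb k)⟩
  have := step k
  have := hb k
  have := neg_abs_le C₀
  have := abs_nonneg C₀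
  linarith

theorem dseq_ne {c : Fin 5 → ℚ} (hc0 : c 0 ≠ 0)
    (hmono : StrictMono (fun k => logHeight (wseq c k)))
    (hpos : ∀ k, 0 < logHeight (wseq c k)) :
    (∀ k, (dseq c k).2 ≠ 0) ∧
      ∀ j k, k < j → (dseq c j).1 * (dseq c k).2 ≠ (dseq c k).1 * (dseq c j).2 := by
  have hb : ∀ k, (dseq c k).2 ≠ 0 := by
    intro k h
    set u := (dseq c k).1 with hu
    have hw : wseq c k = ![3 * u, 0] := by
      unfold wseq
      rw [h, ← hu]; simp
    have hw1 : wseq c (k + 1) = u ^ 3 • wseq c k := by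
      rw [hw]
      unfold wseq
      simp only [dseq, h, ← hu]
      funext j
      fin_cases j
      · simp; ring
      · simp
    have hu0 : u ≠ 0 := by
      intro hu0
      have := hpos k
      rw [hw, hu0] at this
      have e : (![3 * (0 : ℚ), 0] : Fin 2 → ℚ) = 0 := by
        funext j; fin_cases j <;> simp
      rw [e, logHeight_zero] at this
      exact lt_irrefl _ this
    have h1 := hmono (Nat.lt_succ_self k)
    simp only [Nat.succ_eq_add_one] at h1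
    rw [hw1, logHeight_smul_eq_logHeight _ (pow_ne_zero 3 hu0)] at h1
    exact lt_irrefl _ h1
  refine ⟨hb, fun j k hkj h => ?_⟩
  have hprop : wseq c j = ((dseq c j).2 / (dseq c k).2) • wseq c k := by
    unfold wseq
    have hk := hb k
    funext i
    fin_cases i
    · simp only [Fin.zero_eta, Matrix.cons_val_zero, Pi.smul_apply, smul_eq_mul]
      field_simp
      linear_combination 3 * h
    · simp only [Fin.mk_one, Matrix.cons_val_one, Matrix.cons_val_fin_one, Pi.smul_apply,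
        smul_eq_mul]
      field_simp
  have h1 := hmono hkj
  simp only at h1
  rw [hprop, logHeight_smul_eq_logHeight _ (div_ne_zero (hb j) (hb k))] at h1
  exact lt_irrefl _ h1

/-- scaling of the quartic -/
theorem dseq_smul {R : Type*} [CommRing R] (c : Fin 5 → R) (l : R) (k : ℕ) :
    dseq (fun i => l * c i) k =
      (l ^ (2 * 4 ^ k) * (dseq c k).1, l ^ (2 * 4 ^ k - 2) * (dseq c k).2) := by
  have hB : rB (fun i => l * c i) = l ^ 2 * rB c := by unfold rB; ring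
  have hC : rC (fun i => l * c i) = l ^ 3 * rC c := by unfold rC; ring
  induction k with
  | zero =>
    simp only [dseq, pow_zero, mul_one, Nat.sub_self, one_mul]
    refine Prod.ext ?_ rfl
    simp only; ring
  | succ k ih =>
    have h1 : 1 ≤ 4 ^ k := Nat.one_le_pow _ _ (by norm_num)
    simp only [dseq, ih, hB, hC]
    set n := 2 * 4 ^ k - 2 with hn
    have e1 : 2 * 4 ^ k = n + 2 := by omega
    have e2 : 2 * 4 ^ (k + 1) = 4 * n + 8 := by rw [pow_succ]; omega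
    have e3 : 2 * 4 ^ (k + 1) - 2 = 4 * n + 6 := by omega
    rw [e1, e2]
    have e4 : 4 * n + 8 - 2 = 4 * n + 6 := by omega
    rw [e4]
    refine Prod.ext ?_ ?_
    · simp only; ring
    · simp only; ring

theorem many_points_twist {c : Fin 5 → ℚ} (hc0 : c 0 ≠ 0)
    (hmono : StrictMono (fun k => logHeight (wseq c k)))
    (hpos : ∀ k, 0 < logHeight (wseq c k)) (N : ℕ) :
    ∃ F : Finset ℝ, ↑F ⊆ ratX ((fun i => c 0 * c i : Fin 5 → ℚ) 2)
      (rB fun i => c 0 * c i) (rC fun i => c 0 * c i) ∧ N ≤ F.card := by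
  obtain ⟨h1, h2⟩ := dseq_ne hc0 hmono hpos
  refine many_points (q := fun i => c 0 * c i) (y := c 0) (by ring) hc0 ?_ ?_
  · intro k _
    rw [dseq_smul]
    exact mul_ne_zero (pow_ne_zero _ hc0) (h1 k)
  · intro j _ k hkj h
    rw [dseq_smul, dseq_smul] at h
    simp only at h
    apply h2 j k hkj
    have e1 : 1 ≤ 4 ^ k := Nat.one_le_pow _ _ (by norm_num)
    have e2 : 1 ≤ 4 ^ j := Nat.one_le_pow _ _ (by norm_num)
    obtain ⟨n, hn⟩ : ∃ n, 2 * 4 ^ k = n + 2 := ⟨2 * 4 ^ k - 2, by omega⟩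
    obtain ⟨n', hn'⟩ : ∃ n, 2 * 4 ^ j = n + 2 := ⟨2 * 4 ^ j - 2, by omega⟩
    rw [hn, hn'] at h
    simp only [Nat.add_sub_cancel] at h
    have h3 : c 0 ^ (n + n' + 2) ≠ 0 := pow_ne_zero _ hc0
    apply mul_left_cancel₀ h3
    linear_combination h

end Pool.Agent.Lib.MP42
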