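import Pool.Agent.Lib.MP_42de19_nt.ZLocal

set_option autoImplicit false

namespace Pool.Agent.Lib.MP42

open Polynomial

theorem exists_root4 {L : Type*} [Field L] [IsAlgClosed L] (c : Fin 5 → L)
    (hc : c 1 ≠ 0 ∨ c 2 ≠ 0 ∨ c 3 ≠ 0 ∨ c 4 ≠ 0) : ∃ x, ev4 c x = 0 := by
  let p : Polynomial L := C (c 0) + C (c 1) * X + C (c 2) * X ^ 2 + C (c 3) * X ^ 3 +
    C (c 4) * X ^ 4
  have hp : p.degree ≠ 0 := by
    intro hcon
    have hpC := Polynomial.eq_C_of_degree_le_zero hcon.le
    have e1 : c 1 = 0 := by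
      have := congrArg (fun q => Polynomial.coeff q 1) hpC
      simpa [p, Polynomial.coeff_X, Polynomial.coeff_C] using this
    have e2 : c 2 = 0 := by
      have := congrArg (fun q => Polynomial.coeff q 2) hpC
      simpa [p, Polynomial.coeff_X, Polynomial.coeff_C] using this
    have e3 : c 3 = 0 := by
      have := congrArg (fun q => Polynomial.coeff q 3) hpC
      simpa [p, Polynomial.coeff_X, Polynomial.coeff_C] using this
    have e4 : c 4 = 0 := by
      have := congrArg (fun q => Polynomial.coeff q 4) hpC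
      simpa [p, Polynomial.coeff_X, Polynomial.coeff_C] using this
    rcases hc with h | h | h | h
    · exact h e1
    · exact h e2
    · exact h e3
    · exact h e4
  obtain ⟨x, hx⟩ := IsAlgClosed.exists_root p hp
  refine ⟨x, ?_⟩
  have : p.eval x = 0 := hx
  simpa [p, ev4] using this

theorem exists_double_quartic {L : Type*} [Field L] [IsAlgClosed L] (c : Fin 5 → L)
    (hc : c 4 ≠ 0) (hd : disc4 c = 0) :
    ∃ x, ev4 c x = 0 ∧ c 1 + 2 * c 2 * x + 3 * c 3 * x ^ 2 + 4 * c 4 * x ^ 3 = 0 := by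
  obtain ⟨r, hr⟩ := exists_root4 c (Or.inr (Or.inr (Or.inr hc)))
  obtain ⟨s, hs⟩ := exists_root4 ![c 1 + c 2 * r + c 3 * r ^ 2 + c 4 * r ^ 3,
    c 2 + c 3 * r + c 4 * r ^ 2, c 3 + c 4 * r, c 4, 0] (Or.inr (Or.inr (Or.inl (by simpa using hc))))
  simp only [ev4, Matrix.cons_val_zero, Matrix.cons_val_one, Matrix.cons_val, zero_mul,
    add_zero] at hs
  obtain ⟨t, ht⟩ := exists_root4 ![(c 2 + c 3 * r + c 4 * r ^ 2) + (c 3 + c 4 * r) * s + c 4 * s ^ 2,
    (c 3 + c 4 * r) + c 4 * s, c 4, 0, 0] (Or.inr (Or.inl (by simpa using hc)))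
  simp only [ev4, Matrix.cons_val_zero, Matrix.cons_val_one, Matrix.cons_val, zero_mul,
    add_zero] at ht
  obtain ⟨u, hu⟩ : ∃ u, c 3 + c 4 * r + c 4 * s + c 4 * t + c 4 * u = 0 :=
    ⟨-(c 3 + c 4 * r + c 4 * s + c 4 * t) / c 4, by field_simp; ring⟩
  have e3 : c 3 = -c 4 * (r + s + t + u) := by linear_combination hu
  have e2 : c 2 = c 4 * (r * s + r * t + r * u + s * t + s * u + t * u) := by
    rw [e3] at ht
    linear_combination ht
  have e1 : c 1 = -c 4 * (r * s * t + r * s * u + r * t * u + s * t * u) := by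
    rw [e3, e2] at hs
    linear_combination hs
  have e0 : c 0 = c 4 * (r * s * t * u) := by
    unfold ev4 at hr
    rw [e3, e2, e1] at hr
    linear_combination hr
  have hdisc : disc4 c = c 4 ^ 6 * ((r - s) * (r - t) * (r - u) * (s - t) * (s - u) *
      (t - u)) ^ 2 := by
    unfold disc4 rB rC
    rw [e3, e2, e1, e0]
    ring
  rw [hdisc] at hd
  have hd2 := (mul_eq_zero.mp hd).resolve_left (pow_ne_zero _ hc)
  have hd3 : (r - s) * (r - t) * (r - u) * (s - t) * (s - u) * (t - u) = 0 := by
    exact pow_eq_zero_iff (two_ne_zero) |>.mp hd2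
  have hev : ∀ x, ev4 c x = c 4 * ((x - r) * (x - s) * (x - t) * (x - u)) := by
    intro x; unfold ev4; rw [e3, e2, e1, e0]; ring
  have hder : ∀ x, c 1 + 2 * c 2 * x + 3 * c 3 * x ^ 2 + 4 * c 4 * x ^ 3 =
      c 4 * ((x - s) * (x - t) * (x - u) + (x - r) * (x - t) * (x - u) +
        (x - r) * (x - s) * (x - u) + (x - r) * (x - s) * (x - t)) := by
    intro x; rw [e3, e2, e1]; ring
  rcases mul_eq_zero.mp hd3 with h | h
  · rcases mul_eq_zero.mp h with h | h
    · rcases mul_eq_zero.mp h with h | h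
      · rcases mul_eq_zero.mp h with h | h
        · rcases mul_eq_zero.mp h with h | h
          · refine ⟨r, ?_, ?_⟩
            · rw [hev]; ring
            · rw [hder, h]; ring
          · refine ⟨r, ?_, ?_⟩
            · rw [hev]; ring
            · rw [hder, h]; ring
        · refine ⟨r, ?_, ?_⟩
          · rw [hev]; ring
          · rw [hder, h]; ring
      · refine ⟨s, ?_, ?_⟩
        · rw [hev]; ring
        · rw [hder, h]; ring
    · refine ⟨s, ?_, ?_⟩
      · rw [hev]; ring
      · rw [hder, h]; ring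
  · refine ⟨t, ?_, ?_⟩
    · rw [hev]; ring
    · rw [hder, h]; ring

theorem exists_double_cubic {L : Type*} [Field L] [IsAlgClosed L] (c : Fin 5 → L)
    (hc4 : c 4 = 0) (hc : c 3 ≠ 0) (hd : disc4 c = 0) :
    ∃ x, ev4 c x = 0 ∧ c 1 + 2 * c 2 * x + 3 * c 3 * x ^ 2 + 4 * c 4 * x ^ 3 = 0 := by
  obtain ⟨s, hs⟩ := exists_root4 c (Or.inr (Or.inr (Or.inl hc)))
  obtain ⟨t, ht⟩ := exists_root4 ![c 1 + c 2 * s + c 3 * s ^ 2, c 2 + c 3 * s, c 3, 0, 0]
    (Or.inr (Or.inl (by simpa using hc)))
  simp only [ev4, Matrix.cons_val_zero, Matrix.cons_val_one, Matrix.cons_val, zero_mul,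
    add_zero] at ht
  obtain ⟨u, hu⟩ : ∃ u, c 2 + c 3 * s + c 3 * t + c 3 * u = 0 :=
    ⟨-(c 2 + c 3 * s + c 3 * t) / c 3, by field_simp; ring⟩
  have e2 : c 2 = -c 3 * (s + t + u) := by linear_combination hu
  have e1 : c 1 = c 3 * (s * t + s * u + t * u) := by
    rw [e2] at ht
    linear_combination ht
  have e0 : c 0 = -c 3 * (s * t * u) := by
    unfold ev4 at hs
    rw [hc4, e2, e1] at hs
    linear_combination hs
  have hdisc : disc4 c = c 3 ^ 6 * ((s - t) * (s - u) * (t - u)) ^ 2 := by
    unfold disc4 rB rC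
    rw [hc4, e2, e1, e0]
    ring
  rw [hdisc] at hd
  have hd2 := (mul_eq_zero.mp hd).resolve_left (pow_ne_zero _ hc)
  have hd3 : (s - t) * (s - u) * (t - u) = 0 := by
    exact pow_eq_zero_iff (two_ne_zero) |>.mp hd2
  have hev : ∀ x, ev4 c x = c 3 * ((x - s) * (x - t) * (x - u)) := by
    intro x; unfold ev4; rw [hc4, e2, e1, e0]; ring
  have hder : ∀ x, c 1 + 2 * c 2 * x + 3 * c 3 * x ^ 2 + 4 * c 4 * x ^ 3 =
      c 3 * ((x - t) * (x - u) + (x - s) * (x - u) + (x - s) * (x - t)) := by
    intro x; rw [hc4, e2, e1]; ring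
  rcases mul_eq_zero.mp hd3 with h | h
  · rcases mul_eq_zero.mp h with h | h
    · refine ⟨s, ?_, ?_⟩
      · rw [hev]; ring
      · rw [hder, h]; ring
    · refine ⟨s, ?_, ?_⟩
      · rw [hev]; ring
      · rw [hder, h]; ring
  · refine ⟨t, ?_, ?_⟩
    · rw [hev]; ring
    · rw [hder, h]; ring

theorem disc4_ne_zero_of_separable {K : Type*} [Field K] {P : K[X]} (hP : P.Separable)
    (h3 : 3 ≤ P.natDegree) (h4 : P.natDegree ≤ 4) :
    disc4 (fun k : Fin 5 => P.coeff k) ≠ 0 := by
  intro hd
  let L := AlgebraicClosure K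
  set c : Fin 5 → L := fun k => algebraMap K L (P.coeff k) with hc
  have hdc : disc4 c = 0 := by
    have := disc4_map (algebraMap K L) (fun k : Fin 5 => P.coeff k)
    rw [hd, map_zero] at this
    exact this
  have hsum : P = C (P.coeff 0) + C (P.coeff 1) * X + C (P.coeff 2) * X ^ 2 +
      C (P.coeff 3) * X ^ 3 + C (P.coeff 4) * X ^ 4 := by
    conv_lhs => rw [Polynomial.as_sum_range' P 5 (by omega)]
    simp only [Finset.sum_range_succ, Finset.sum_range_zero, ← C_mul_X_pow_eq_monomial]
    simp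
  obtain ⟨x, hx0, hx1⟩ : ∃ x, ev4 c x = 0 ∧
      c 1 + 2 * c 2 * x + 3 * c 3 * x ^ 2 + 4 * c 4 * x ^ 3 = 0 := by
    by_cases hc4 : c 4 = 0
    · apply exists_double_cubic c hc4 ?_ hdc
      have hP4 : P.coeff 4 = 0 := by
        have : algebraMap K L (P.coeff 4) = 0 := hc4
        exact (map_eq_zero _).mp this
      have hdeg : P.natDegree = 3 := by
        rcases h4.lt_or_eq with h | h
        · omega
        · exfalso
          have : P.leadingCoeff = 0 := by rw [leadingCoeff, h]; exact hP4
          rw [leadingCoeff_eq_zero] at this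
          rw [this] at h3
          simp at h3
      have : P.coeff 3 ≠ 0 := by
        rw [← hdeg]
        intro h
        have : P.leadingCoeff = 0 := h
        rw [leadingCoeff_eq_zero] at this
        rw [this] at h3
        simp at h3
      exact (_root_.map_ne_zero _).mpr this
    · exact exists_double_quartic c hc4 hdc
  obtain ⟨a, b, hab⟩ := hP
  have h1 := congrArg (Polynomial.aeval x) hab
  rw [map_add, map_mul, map_mul, map_one] at h1
  have hP0 : Polynomial.aeval x P = 0 := by
    rw [hsum]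
    simp only [map_add, map_mul, map_pow, aeval_C, aeval_X]
    exact hx0
  have hP1 : Polynomial.aeval x (derivative P) = 0 := by
    rw [hsum]
    simp only [derivative_C, derivative_C_mul, derivative_X, derivative_X_pow,
      map_add, map_mul, map_pow, aeval_C, aeval_X, map_zero, map_one, map_natCast]
    have : (0 : L) + algebraMap K L (P.coeff 1) * 1 +
        algebraMap K L (P.coeff 2) * (((2 : ℕ) : L) * x ^ (2 - 1)) +
        algebraMap K L (P.coeff 3) * (((3 : ℕ) : L) * x ^ (3 - 1)) +
        algebraMap K L (P.coeff 4) * (((4 : ℕ) : L) * x ^ (4 - 1)) =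
        c 1 + 2 * c 2 * x + 3 * c 3 * x ^ 2 + 4 * c 4 * x ^ 3 := by
      simp only [hc]
      push_cast
      norm_num
      ring
    rw [this]
    exact hx1
  rw [hP0, hP1] at h1
  simp at h1

/-- Gauss: squarefree polynomials over a GCD domain stay squarefree over the fraction field. -/
theorem squarefree_map {R K : Type*} [CommRing R] [IsDomain R] [IsGCDMonoid R] [Field K]
    [Algebra R K] [IsFractionRing R K] {P : R[X]} (hP : Squarefree P) :
    Squarefree (P.map (algebraMap R K)) := by
  classical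
  have := Classical.arbitrary (NormalizedGCDMonoid R)
  intro a ha
  have hP0 : P ≠ 0 := hP.ne_zero
  have hmap0 : P.map (algebraMap R K) ≠ 0 :=
    (Polynomial.map_ne_zero_iff (IsFractionRing.injective R K)).mpr hP0
  have ha0 : a ≠ 0 := by
    rintro rfl
    apply hmap0
    rw [mul_zero] at ha
    exact zero_dvd_iff.mp ha
  obtain ⟨b, hb, hab⟩ := IsLocalization.integerNormalization_spec (nonZeroDivisors R) a
  set a₀ := IsLocalization.integerNormalization (nonZeroDivisors R) a with ha₀
  rw [Algebra.smul_def, Polynomial.algebraMap_apply] at hab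
  have hb0 : b ≠ 0 := nonZeroDivisors.ne_zero hb
  have ha₀0 : a₀ ≠ 0 := by
    intro h
    rw [h, Polynomial.map_zero] at hab
    have : C (algebraMap R K b) * a ≠ 0 := by
      refine mul_ne_zero ?_ ha0
      rw [Ne, C_eq_zero, map_eq_zero_iff _ (IsFractionRing.injective R K)]
      exact hb0
    exact this hab.symm
  have hcont : a₀.content ≠ 0 := fun h => ha₀0 (content_eq_zero_iff.mp h)
  -- the primitive part divides
  have hu1 : IsUnit (C (algebraMap R K a₀.content) : K[X]) := by
    rw [isUnit_C, isUnit_iff_ne_zero, Ne, map_eq_zero_iff _ (IsFractionRing.injective R K)]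
    exact hcont
  have hu2 : IsUnit (C (algebraMap R K b) : K[X]) := by
    rw [isUnit_C, isUnit_iff_ne_zero, Ne, map_eq_zero_iff _ (IsFractionRing.injective R K)]
    exact hb0
  have hassoc : Associated (a₀.primPart.map (algebraMap R K)) a := by
    have h1 : a₀.map (algebraMap R K) =
        C (algebraMap R K a₀.content) * a₀.primPart.map (algebraMap R K) := by
      conv_lhs => rw [a₀.eq_C_content_mul_primPart]
      rw [Polynomial.map_mul, map_C]
    have h2 : Associated (a₀.map (algebraMap R K)) (a₀.primPart.map (algebraMap R K)) := by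
      rw [h1]
      exact associated_unit_mul_left _ _ hu1
    have h3 : Associated (a₀.map (algebraMap R K)) a := by
      rw [hab]
      exact associated_unit_mul_left _ _ hu2
    exact h2.symm.trans h3
  have hdvd : (a₀.primPart * a₀.primPart).map (algebraMap R K) ∣ P.map (algebraMap R K) := by
    rw [Polynomial.map_mul]
    exact (hassoc.mul_mul hassoc).dvd.trans ha
  have hdvd2 : a₀.primPart * a₀.primPart ∣ P :=
    ((isPrimitive_primPart a₀).mul (isPrimitive_primPart a₀)).dvd_of_fraction_map_dvd_fraction_map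
      hdvd
  have hunit := hP _ hdvd2
  have : IsUnit (a₀.primPart.map (algebraMap R K)) := hunit.map (mapRingHom (algebraMap R K))
  exact hassoc.isUnit this

theorem ev4_inj {K : Type*} [Field K] [CharZero K] {c c' : Fin 5 → K}
    (h : ∀ x, ev4 c x = ev4 c' x) : c = c' := by
  have k0 := h 0
  have k1 := h 1
  have k2 := h (-1)
  have k3 := h 2
  have k4 := h (-2)
  unfold ev4 at k0 k1 k2 k3 k4
  have e0 : c 0 = c' 0 := by linear_combination k0
  have e1 : c 1 = c' 1 := by linear_combination (8 * (k1 - k2) - (k3 - k4)) / 12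
  have e3 : c 3 = c' 3 := by linear_combination ((k3 - k4) - 2 * (k1 - k2)) / 12
  have e4 : c 4 = c' 4 := by
    linear_combination ((k3 + k4 - 2 * k0) - 4 * (k1 + k2 - 2 * k0)) / 24
  have e2 : c 2 = c' 2 := by
    linear_combination (16 * (k1 + k2 - 2 * k0) - (k3 + k4 - 2 * k0)) / 24
  funext i
  fin_cases i
  · exact e0
  · exact e1
  · exact e2
  · exact e3
  · exact e4

theorem eval_eq_ev4 {K : Type*} [CommRing K] {P : K[X]} (h4 : P.natDegree ≤ 4) (x : K) :
    P.eval x = ev4 (fun k : Fin 5 => P.coeff k) x := by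
  rw [Polynomial.eval_eq_sum_range' (lt_of_le_of_lt h4 (by norm_num : 4 < 5))]
  simp only [Finset.sum_range_succ, Finset.sum_range_zero, ev4]
  simp

theorem disc_tcf_ne_zero {m : ℕ} {D : MvPolynomial (Fin m) ℚ} (hD : Squarefree D) (i : Fin m)
    (h3 : 3 ≤ D.degreeOf i) (h4 : D.degreeOf i ≤ 4) : disc4 (tcf D i) ≠ 0 := by
  classical
  let e := (Equiv.optionSubtypeNe i).symm
  let Φ : MvPolynomial (Fin m) ℚ ≃ₐ[ℚ] Polynomial (MvPolynomial {b // b ≠ i} ℚ) :=
    (MvPolynomial.renameEquiv ℚ e).trans (MvPolynomial.optionEquivLeft ℚ {b // b ≠ i})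
  have hdeg : (Φ D).natDegree = D.degreeOf i := by
    rw [MvPolynomial.degreeOf_eq_natDegree]
    rfl
  have hsq : Squarefree (Φ D) := by
    intro a ha
    have h1 : Φ.symm a * Φ.symm a ∣ D := by
      rw [← map_mul]
      have := map_dvd Φ.symm ha
      rwa [AlgEquiv.symm_apply_apply] at this
    have h2 := hD _ h1
    have h3 := h2.map Φ
    rwa [AlgEquiv.apply_symm_apply] at h3
  let B := MvPolynomial {b // b ≠ i} ℚ
  let K := FractionRing B
  have hsqK : Squarefree ((Φ D).map (algebraMap B K)) := squarefree_map hsq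
  have hsep : ((Φ D).map (algebraMap B K)).Separable :=
    PerfectField.separable_iff_squarefree.mpr hsqK
  have hdegK : ((Φ D).map (algebraMap B K)).natDegree = D.degreeOf i := by
    rw [Polynomial.natDegree_map_eq_of_injective (IsFractionRing.injective B K), hdeg]
  have hdK := disc4_ne_zero_of_separable hsep (by omega) (by omega)
  have hdB : disc4 (fun k : Fin 5 => (Φ D).coeff k) ≠ 0 := by
    intro h
    apply hdK
    have := disc4_map (algebraMap B K) (fun k : Fin 5 => (Φ D).coeff k)
    rw [h, map_zero] at this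
    simpa only [Polynomial.coeff_map] using this
  obtain ⟨s, hs⟩ : ∃ s : {b // b ≠ i} → ℚ,
      MvPolynomial.eval s (disc4 (fun k : Fin 5 => (Φ D).coeff k)) ≠ 0 := by
    by_contra hcon
    push Not at hcon
    exact hdB (MvPolynomial.funext fun z => by rw [hcon z, map_zero])
  intro hzero
  apply hs
  let z : Fin m → ℚ := fun j => if h : j = i then 0 else s ⟨j, h⟩
  have hz : ∀ y : ℚ, Function.update z i y = fun j => Option.elim (e j) y s := by
    intro y
    funext j
    by_cases hj : j = i
    · subst hj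
      simp [e]
    · rw [Function.update_of_ne hj]
      simp [e, z, hj]
  have hev : ∀ y : ℚ, ev4 (fun k => MvPolynomial.eval z (tcf D i k)) y =
      ev4 (fun k : Fin 5 => MvPolynomial.eval s ((Φ D).coeff k)) y := by
    intro y
    rw [ev4_tcf_rat D i h4]
    have hzi : z i = 0 := by simp [z]
    rw [hzi, zero_add, hz y]
    have h1 : MvPolynomial.eval (fun j => Option.elim (e j) y s) D =
        MvPolynomial.eval (fun x => Option.elim x y s) (MvPolynomial.rename e D) := by
      rw [MvPolynomial.eval_rename]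
      rfl
    rw [h1, MvPolynomial.optionEquivLeft_elim_eval]
    have h2 : (MvPolynomial.optionEquivLeft ℚ {b // b ≠ i}) (MvPolynomial.rename e D) = Φ D := rfl
    rw [h2, eval_eq_ev4 (by
      refine (Polynomial.natDegree_map_le).trans ?_
      rw [hdeg]; exact h4)]
    simp only [Polynomial.coeff_map]
  have heq := ev4_inj hev
  have h5 := disc4_map (MvPolynomial.eval s) (fun k : Fin 5 => (Φ D).coeff k)
  have h6 := disc4_map (MvPolynomial.eval z) (tcf D i)
  rw [hzero, map_zero] at h6
  rw [← h5, ← h6]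
  exact congrArg disc4 heq.symm

theorem exists_sq_mul_squarefree {m : ℕ} (D : MvPolynomial (Fin m) ℚ) (hD : D ≠ 0) :
    ∃ s D₀ : MvPolynomial (Fin m) ℚ, D = s ^ 2 * D₀ ∧ Squarefree D₀ := by
  have key : ∀ n : ℕ, ∀ D : MvPolynomial (Fin m) ℚ, D ≠ 0 → D.totalDegree ≤ n →
      ∃ s D₀ : MvPolynomial (Fin m) ℚ, D = s ^ 2 * D₀ ∧ Squarefree D₀ := by
    intro n
    induction n using Nat.strong_induction_on with
    | _ n ih =>
      intro D hD hn
      by_cases hsq : Squarefree D
      · exact ⟨1, D, by ring, hsq⟩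
      · unfold Squarefree at hsq
        push Not at hsq
        obtain ⟨a, ⟨E, hE⟩, hunit⟩ := hsq
        have ha0 : a ≠ 0 := by
          rintro rfl; apply hD; rw [hE]; ring
        have hE0 : E ≠ 0 := by
          rintro rfl; apply hD; rw [hE]; ring
        have hdeg : a.totalDegree ≠ 0 := by
          intro h
          rw [MvPolynomial.totalDegree_eq_zero_iff_eq_C] at h
          apply hunit
          rw [h]
          refine (isUnit_iff_ne_zero.mpr ?_).map MvPolynomial.C
          intro h0
          rw [h0, map_zero] at h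
          exact ha0 h
        have htot : D.totalDegree = a.totalDegree + a.totalDegree + E.totalDegree := by
          rw [hE, MvPolynomial.totalDegree_mul_of_isDomain (mul_ne_zero ha0 ha0) hE0,
            MvPolynomial.totalDegree_mul_of_isDomain ha0 ha0]
        obtain ⟨s, D₀, h1, h2⟩ := ih E.totalDegree (by omega) E hE0 le_rfl
        exact ⟨a * s, D₀, by rw [hE, h1]; ring, h2⟩
  exact key _ D hD le_rfl

/-- Reduction to the good case. -/
theorem exists_good {m : ℕ} (D : MvPolynomial (Fin m) ℚ) (hD : D ≠ 0)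
    (h4 : ∀ i, D.degreeOf i ≤ 4) :
    ∃ s D₀ : MvPolynomial (Fin m) ℚ, D = s ^ 2 * D₀ ∧ Good D₀ := by
  obtain ⟨s, D₀, h1, h2⟩ := exists_sq_mul_squarefree D hD
  refine ⟨s, D₀, h1, fun i => ?_⟩
  have hs0 : s ≠ 0 := by rintro rfl; apply hD; rw [h1]; ring
  have hD0 : D₀ ≠ 0 := by rintro rfl; apply hD; rw [h1]; ring
  have hle : D₀.degreeOf i ≤ 4 := by
    have := h4 i
    rw [h1, MvPolynomial.degreeOf_mul_eq (pow_ne_zero 2 hs0) hD0] at this
    omega
  by_cases h : D₀.degreeOf i ≤ 2
  · exact Or.inl h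
  · exact Or.inr ⟨hle, disc_tcf_ne_zero h2 i (by omega) hle⟩

end Pool.Agent.Lib.MP42
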