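import Pool.Agent.Lib.MP_42de19_nt.Sqfree
import Pool.Agent.Lib.MP_42de19_nt.Cover

set_option autoImplicit false

namespace Pool.Agent.Lib.MP42

open Set Topology Filter

variable {m : ℕ}

/-- A relatively clopen set contains, with one point, every preconnected set through it. -/
theorem clopen_preconnected {E : Type*} [TopologicalSpace E] {P T O Z C : Set E} (hO : IsOpen O)
    (hZ : IsClosed Z) (hTO : T = O ∩ P) (hTZ : T = Z ∩ P) (hC : IsPreconnected C) (hCP : C ⊆ P)
    {u v : E} (hu : u ∈ C) (huT : u ∈ T) (hv : v ∈ C) : v ∈ T := by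
  rw [isPreconnected_iff_subset_of_disjoint] at hC
  have h1 := hC O Zᶜ hO hZ.isOpen_compl (by
    intro c hc
    by_cases h : c ∈ Z
    · left
      have : c ∈ T := by rw [hTZ]; exact ⟨h, hCP hc⟩
      rw [hTO] at this
      exact this.1
    · right; exact h) (by
    ext c
    simp only [mem_inter_iff, mem_compl_iff, mem_empty_iff_false, iff_false]
    rintro ⟨hc, hcO, hcZ⟩
    have : c ∈ T := by rw [hTO]; exact ⟨hcO, hCP hc⟩
    rw [hTZ] at this
    exact hcZ this.1)
  rcases h1 with h1 | h1
  · rw [hTO]; exact ⟨h1 hv, hCP hv⟩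
  · exfalso
    have := h1 hu
    rw [hTZ] at huT
    exact this huT.1

theorem clopen_segment {D : MvPolynomial (Fin m) ℚ} {T O Z : Set (Fin m → ℝ)} (hO : IsOpen O)
    (hZ : IsClosed Z) (hTO : T = O ∩ {x | 0 < (MvPolynomial.aeval x D : ℝ)})
    (hTZ : T = Z ∩ {x | 0 < (MvPolynomial.aeval x D : ℝ)}) {u v : Fin m → ℝ}
    (hseg : ∀ w ∈ segment ℝ u v, 0 < (MvPolynomial.aeval w D : ℝ)) (hu : u ∈ T) : v ∈ T :=
  clopen_preconnected hO hZ hTO hTZ (convex_segment u v).isPreconnected hseg
    (left_mem_segment ℝ u v) hu (right_mem_segment ℝ u v)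

/-- Near a simple zero of `D` the region `D > 0` is connected. -/
theorem near_zero {D : MvPolynomial (Fin m) ℚ} {T O Z : Set (Fin m → ℝ)} (hO : IsOpen O)
    (hZ : IsClosed Z) (hTO : T = O ∩ {x | 0 < (MvPolynomial.aeval x D : ℝ)})
    (hTZ : T = Z ∩ {x | 0 < (MvPolynomial.aeval x D : ℝ)}) {x : Fin m → ℝ}
    (hx : x ∈ closure T) (h0 : (MvPolynomial.aeval x D : ℝ) = 0) {i : Fin m}
    (hi : (MvPolynomial.aeval x (MvPolynomial.pderiv i D) : ℝ) ≠ 0) :
    ∃ δ > 0, ∀ x' : Fin m → ℝ, (∀ j, |x' j - x j| < δ) → 0 ≤ (MvPolynomial.aeval x' D : ℝ) →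
      x' ∈ closure T := by
  classical
  -- sign
  obtain ⟨σ, hσ, hσi⟩ : ∃ σ : ℝ, (σ = 1 ∨ σ = -1) ∧
      0 < σ * (MvPolynomial.aeval x (MvPolynomial.pderiv i D) : ℝ) := by
    rcases lt_or_gt_of_ne hi with h | h
    · exact ⟨-1, Or.inr rfl, by linarith⟩
    · exact ⟨1, Or.inl rfl, by linarith⟩
  have hσ2 : σ * σ = 1 := by rcases hσ with h | h <;> rw [h] <;> norm_num
  have hσa : |σ| = 1 := by rcases hσ with h | h <;> rw [h] <;> simp
  -- the derivative keeps its sign
  have e1 : ∀ᶠ w in 𝓝 x, 0 < σ * (MvPolynomial.aeval w (MvPolynomial.pderiv i D) : ℝ) :=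
    continuousAt_const.eventually_lt
      (continuous_const.mul (continuous_aeval (MvPolynomial.pderiv i D))).continuousAt hσi
  rw [Metric.eventually_nhds_iff] at e1
  obtain ⟨r, hr, e1⟩ := e1
  have hder : ∀ w : Fin m → ℝ, (∀ j, |w j - x j| < r) →
      0 < σ * (MvPolynomial.aeval w (MvPolynomial.pderiv i D) : ℝ) := by
    intro w hw
    apply e1
    rw [dist_pi_lt_iff hr]
    intro j; rw [Real.dist_eq]; exact hw j
  -- monotonicity
  have hmono : ∀ w : Fin m → ℝ, (∀ j, |w j - x j| < r) → ∀ u : ℝ, 0 ≤ u →
      (∀ v ∈ Icc 0 u, |w i + σ * v - x i| < r) →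
      (MvPolynomial.aeval w D : ℝ) ≤
        MvPolynomial.aeval (Function.update w i (w i + σ * u)) D ∧
      (0 < u → (MvPolynomial.aeval w D : ℝ) <
        MvPolynomial.aeval (Function.update w i (w i + σ * u)) D) := by
    intro w hw u hu hv
    let g : ℝ → ℝ := fun v => MvPolynomial.aeval (Function.update w i (w i + σ * v)) D
    have hg : ∀ v, HasDerivAt g ((MvPolynomial.aeval (Function.update w i (w i + σ * v))
        (MvPolynomial.pderiv i D) : ℝ) * σ) v := by
      intro v
      have h1 := hasDerivAt_update D w i (w i + σ * v)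
      have h2 : HasDerivAt (fun v : ℝ => w i + σ * v) σ v := by
        simpa using ((hasDerivAt_id v).const_mul σ).const_add (w i)
      exact h1.comp v h2
    have hgm : StrictMonoOn g (Icc 0 u) := by
      apply strictMonoOn_of_deriv_pos (convex_Icc 0 u)
      · exact fun v _ => (hg v).continuousAt.continuousWithinAt
      · intro v hv'
        rw [interior_Icc] at hv'
        rw [(hg v).deriv, mul_comm]
        apply hder
        intro j
        by_cases hj : j = i
        · subst hj
          rw [Function.update_self]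
          exact hv v ⟨hv'.1.le, hv'.2.le⟩
        · rw [Function.update_of_ne hj]; exact hw j
    have hg0 : g 0 = MvPolynomial.aeval w D := by
      simp only [g, mul_zero, add_zero, Function.update_eq_self]
    constructor
    · rw [← hg0]
      exact hgm.monotoneOn ⟨le_rfl, hu⟩ ⟨hu, le_rfl⟩ hu
    · intro hu'
      rw [← hg0]
      exact hgm ⟨le_rfl, hu⟩ ⟨hu, le_rfl⟩ hu'
  set a := x i + σ * (r / 2) with ha
  -- the value at the top is positive
  have htop : 0 < (MvPolynomial.aeval (Function.update x i a) D : ℝ) := by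
    have := (hmono x (fun j => by simpa using hr) (r / 2) (by linarith) (by
      intro v hv
      rw [show x i + σ * v - x i = σ * v by ring, abs_mul, hσa, one_mul, abs_of_nonneg hv.1]
      linarith [hv.2])).2 (by linarith)
    rw [h0] at this
    exact this
  have hcu : ContinuousAt (fun w : Fin m → ℝ =>
      (MvPolynomial.aeval (Function.update w i a) D : ℝ)) x := by
    have h1 : Continuous (fun w : Fin m → ℝ => Function.update w i a) := by fun_prop
    exact ((continuous_aeval D).comp h1).continuousAt
  have e2 : ∀ᶠ w : Fin m → ℝ in 𝓝 x, 0 < (MvPolynomial.aeval (Function.update w i a) D : ℝ) :=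
    continuousAt_const.eventually_lt hcu htop
  rw [Metric.eventually_nhds_iff] at e2
  obtain ⟨r', hr', e2⟩ := e2
  set δ := min (r / 4) r' with hδ
  have hδ0 : 0 < δ := lt_min (by linarith) hr'
  have hδ1 : δ ≤ r / 4 := min_le_left _ _
  have hδ2 : δ ≤ r' := min_le_right _ _
  have htop' : ∀ w : Fin m → ℝ, (∀ j, |w j - x j| < δ) →
      0 < (MvPolynomial.aeval (Function.update w i a) D : ℝ) := by
    intro w hw
    apply e2
    rw [dist_pi_lt_iff hr']
    intro j; rw [Real.dist_eq]; exact lt_of_lt_of_le (hw j) hδ2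
  -- vertical segments
  have hvert : ∀ w : Fin m → ℝ, (∀ j, |w j - x j| < δ) → 0 < (MvPolynomial.aeval w D : ℝ) →
      ∀ v ∈ segment ℝ w (Function.update w i a), 0 < (MvPolynomial.aeval v D : ℝ) := by
    intro w hw hpos v hv
    rw [segment_eq_image] at hv
    obtain ⟨τ, hτ, rfl⟩ := hv
    -- write a = w i + σ * u
    set u := σ * (a - w i) with hu
    have hau : a = w i + σ * u := by
      rw [hu, ← mul_assoc, hσ2]; ring
    have hwi := abs_lt.mp (hw i)
    have hu0 : 0 ≤ u := by
      have : u = r / 2 - σ * (w i - x i) := by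
        rw [hu, ha]
        linear_combination (r / 2) * hσ2
      rw [this]
      have : |σ * (w i - x i)| < δ := by rw [abs_mul, hσa, one_mul]; exact hw i
      have := (abs_lt.mp this).2
      linarith
    have hveq : (1 - τ) • w + τ • Function.update w i a =
        Function.update w i (w i + σ * (τ * u)) := by
      funext j
      by_cases hj : j = i
      · subst hj
        simp only [Pi.add_apply, Pi.smul_apply, smul_eq_mul, Function.update_self]
        rw [hau]; ring
      · simp only [Pi.add_apply, Pi.smul_apply, smul_eq_mul, Function.update_of_ne hj]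
        ring
    change 0 < (MvPolynomial.aeval ((1 - τ) • w + τ • Function.update w i a) D : ℝ)
    rw [hveq]
    refine lt_of_lt_of_le hpos (hmono w (fun j => lt_of_lt_of_le (hw j) (by linarith))
      (τ * u) (mul_nonneg hτ.1 hu0) ?_).1
    intro v hv
    have hvu : v ≤ u := hv.2.trans (mul_le_of_le_one_left hu0 hτ.2)
    -- w i + σ v lies between w i and a
    have e3 : w i + σ * v - x i = (w i - x i) + σ * v := by ring
    have hσw : |σ * (w i - x i)| < δ := by rw [abs_mul, hσa, one_mul]; exact hw i
    have hu' : u = r / 2 - σ * (w i - x i) := by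
      rw [hu, ha]
      linear_combination (r / 2) * hσ2
    have h5 := abs_lt.mp hσw
    have e4 : |w i + σ * v - x i| = |σ * (w i - x i) + v| := by
      have : σ * (w i - x i) + v = σ * (w i + σ * v - x i) := by
        linear_combination (-v) * hσ2
      rw [this, abs_mul, hσa, one_mul]
    rw [e4, abs_lt]
    constructor
    · linarith [hv.1]
    · linarith
  -- horizontal segments
  have hhor : ∀ w w' : Fin m → ℝ, (∀ j, |w j - x j| < δ) → (∀ j, |w' j - x j| < δ) →
      ∀ v ∈ segment ℝ (Function.update w i a) (Function.update w' i a),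
        0 < (MvPolynomial.aeval v D : ℝ) := by
    intro w w' hw hw' v hv
    rw [segment_eq_image] at hv
    obtain ⟨τ, hτ, rfl⟩ := hv
    have hveq : (1 - τ) • Function.update w i a + τ • Function.update w' i a =
        Function.update ((1 - τ) • w + τ • w') i a := by
      funext j
      by_cases hj : j = i
      · subst hj
        simp only [Pi.add_apply, Pi.smul_apply, smul_eq_mul, Function.update_self]
        ring
      · simp only [Pi.add_apply, Pi.smul_apply, smul_eq_mul, Function.update_of_ne hj]
    change 0 < (MvPolynomial.aeval ((1 - τ) • Function.update w i a +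
      τ • Function.update w' i a) D : ℝ)
    rw [hveq]
    apply htop'
    intro j
    simp only [Pi.add_apply, Pi.smul_apply, smul_eq_mul]
    have e : (1 - τ) * w j + τ * w' j - x j = (1 - τ) * (w j - x j) + τ * (w' j - x j) := by ring
    rw [e]
    have a1 := abs_lt.mp (hw j)
    have a2 := abs_lt.mp (hw' j)
    have t1 : 0 ≤ 1 - τ := by linarith [hτ.2]
    have t0 := hτ.1
    rw [abs_lt]
    rcases t0.eq_or_lt with h | h
    · rw [← h]; constructor <;> linarith
    · constructor <;> nlinarith
  -- a point of T nearby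
  obtain ⟨w₁, hw₁T, hw₁⟩ := Metric.mem_closure_iff.mp hx δ hδ0
  have hw₁' : ∀ j, |w₁ j - x j| < δ := by
    intro j
    rw [dist_comm, dist_pi_lt_iff hδ0] at hw₁
    have := hw₁ j
    rwa [Real.dist_eq] at this
  have hmain : ∀ w : Fin m → ℝ, (∀ j, |w j - x j| < δ) → 0 < (MvPolynomial.aeval w D : ℝ) →
      w ∈ T := by
    intro w hw hpos
    have hp₁ : 0 < (MvPolynomial.aeval w₁ D : ℝ) := by
      rw [hTO] at hw₁T; exact hw₁T.2
    have s1 := clopen_segment hO hZ hTO hTZ (hvert w₁ hw₁' hp₁) hw₁T
    have s2 := clopen_segment hO hZ hTO hTZ (hhor w₁ w hw₁' hw) s1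
    refine clopen_segment hO hZ hTO hTZ ?_ s2
    intro v hv
    rw [segment_symm] at hv
    exact hvert w hw hpos v hv
  refine ⟨δ, hδ0, fun x' hx' hnn => ?_⟩
  rcases hnn.lt_or_eq with hpos | hzero
  · exact subset_closure (hmain x' hx' hpos)
  · rw [Metric.mem_closure_iff]
    intro ε hε
    have hd' : (MvPolynomial.aeval x' (MvPolynomial.pderiv i D) : ℝ) ≠ 0 := by
      have := hder x' (fun j => lt_of_lt_of_le (hx' j) (by linarith))
      intro h
      rw [h, mul_zero] at this
      exact lt_irrefl _ this
    have hdv := hasDerivAt_update D x' i (x' i)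
    rw [Function.update_eq_self] at hdv
    have hr2 : 0 < min ε (δ - |x' i - x i|) := lt_min hε (by linarith [hx' i])
    obtain ⟨s', t', hs', ht', hs'', ht''⟩ := exists_sides hdv (by
      rw [Function.update_eq_self]; exact hzero.symm) hd' _ hr2
    refine ⟨Function.update x' i t', hmain _ ?_ ht'', ?_⟩
    · intro j
      by_cases hj : j = i
      · subst hj
        simp only [Function.update_self]
        have h5 : |t' - x' j| < δ - |x' j - x j| := lt_of_lt_of_le ht' (min_le_right _ _)
        calc |t' - x j| = |(t' - x' j) + (x' j - x j)| := by ring_nf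
          _ ≤ |t' - x' j| + |x' j - x j| := abs_add_le _ _
          _ < δ := by linarith
      · rw [Function.update_of_ne hj]; exact hx' j
    · rw [dist_comm, dist_pi_lt_iff hε]
      intro j
      by_cases hj : j = i
      · subst hj
        rw [Function.update_self, Real.dist_eq]
        exact lt_of_lt_of_le ht' (min_le_left _ _)
      · rw [Function.update_of_ne hj, dist_self]; exact hε

end Pool.Agent.Lib.MP42
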