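import Pool.Agent.Lib.MP_42de19_nt.ZLocal
import Pool.Agent.Lib.MP_42de19_nt.GroupLaw

set_option autoImplicit false

namespace Pool.Agent.Lib.MP42

open Set Topology Filter

variable {m : ℕ}

/-- Like `Movable`, with an exceptional polynomial not vanishing at `z₀`. -/
def PMov (D : MvPolynomial (Fin m) ℚ) (z₀ : Fin m → ℚ) (i : Fin m) (x : Fin m → ℝ) (t : ℝ) :
    Prop :=
  ∀ ε > 0, ∃ H : MvPolynomial (Fin m) ℚ, MvPolynomial.eval z₀ H ≠ 0 ∧
    ∀ᶠ x' : Fin m → ℝ in 𝓝 x, ∀ z : Fin m → ℚ,
    (∀ j, x' j = (z j : ℝ)) → MvPolynomial.eval z H ≠ 0 → (∃ y : ℚ, y ^ 2 = MvPolynomial.eval z D) →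
    ∃ s : ℚ, |(s : ℝ) - t| < ε ∧ ∃ y : ℚ, y ^ 2 = MvPolynomial.eval (Function.update z i s) D

/-- `D` takes square values at points near `x` outside every hypersurface not containing `z₀`. -/
def PZL (D : MvPolynomial (Fin m) ℚ) (z₀ : Fin m → ℚ) (x : Fin m → ℝ) : Prop :=
  ∀ V ∈ 𝓝 x, ∀ G : MvPolynomial (Fin m) ℚ, MvPolynomial.eval z₀ G ≠ 0 → ∃ z : Fin m → ℚ,
    (fun j => (z j : ℝ)) ∈ V ∧ MvPolynomial.eval z G ≠ 0 ∧ ∃ y : ℚ, y ^ 2 = MvPolynomial.eval z D

theorem pzl_self {D : MvPolynomial (Fin m) ℚ} {z₀ : Fin m → ℚ} {y : ℚ}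
    (hy : y ^ 2 = MvPolynomial.eval z₀ D) : PZL D z₀ (fun j => (z₀ j : ℝ)) :=
  fun _ hV _ hG => ⟨z₀, mem_of_mem_nhds hV, hG, y, hy⟩

theorem pmov_quartic {D : MvPolynomial (Fin m) ℚ} {z₀ : Fin m → ℚ} {i : Fin m}
    (hd : D.degreeOf i ≤ 4) (hg : ∀ N, MvPolynomial.eval z₀ (gpoly D i N) ≠ 0)
    {x : Fin m → ℝ} {t : ℝ}
    (hpos : ∀ τ ∈ Icc (0 : ℝ) 1,
      0 < (MvPolynomial.aeval (Function.update x i (x i + τ * (t - x i))) D : ℝ))
    (hdisc : (MvPolynomial.aeval x (disc4 (tcf D i)) : ℝ) ≠ 0) : PMov D z₀ i x t := by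
  intro ε hε
  let C : (Fin m → ℝ) → (Fin 5 → ℝ) := fun x k => MvPolynomial.aeval x (tcf D i k)
  have hC : Continuous C := continuous_pi fun k => continuous_aeval (tcf D i k)
  obtain ⟨N, hN⟩ := slice_move (c₀ := C x) (h₀ := t - x i) (by
      intro τ hτ
      have := hpos τ hτ
      rw [← ev4_tcf D i hd] at this
      exact this) (by
      have e := disc4_map (MvPolynomial.aeval x : MvPolynomial (Fin m) ℚ →ₐ[ℚ] ℝ).toRingHom
        (tcf D i)
      have e' : disc4 (C x) = (MvPolynomial.aeval x (disc4 (tcf D i)) : ℝ) := e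
      rw [e']; exact hdisc) (ε := ε / 2) (by linarith)
  refine ⟨gpoly D i N, hg N, ?_⟩
  have ev1 := hC.continuousAt.eventually hN
  have ev2 : ∀ᶠ x' : Fin m → ℝ in 𝓝 x, |x' i - x i| < ε / 2 := by
    have hc : Continuous (fun x' : Fin m → ℝ => |x' i - x i|) :=
      ((continuous_apply i).sub continuous_const).abs
    exact hc.continuousAt.eventually_lt continuousAt_const
      (by simpa using (by linarith : 0 < ε / 2))
  filter_upwards [ev1, ev2] with x' h1 h2 z hz hH hy
  obtain ⟨y, hy⟩ := hy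
  obtain ⟨hy0, hF⟩ := many_of_gpoly hd hH hy
  have hx' : x' = fun j => (z j : ℝ) := funext hz
  obtain ⟨h, hh1, v, hv⟩ := h1 (fun k => MvPolynomial.eval z (tcf D i k)) (by
    intro k
    simp only [C]
    rw [hx', aeval_ratCast]) y (by rw [tcf_zero D i hd]; exact hy) hy0 hF
  refine ⟨z i + h, ?_, v, ?_⟩
  · rw [hz i] at h2
    push_cast
    calc |(z i : ℝ) + h - t| = |((h : ℝ) - (t - x i)) + ((z i : ℝ) - x i)| := by ring_nf
      _ ≤ |(h : ℝ) - (t - x i)| + |(z i : ℝ) - x i| := abs_add_le _ _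
      _ < ε := by linarith
  · rw [hv, ev4_tcf_rat D i hd]

theorem pmov_conic {D : MvPolynomial (Fin m) ℚ} {z₀ : Fin m → ℚ} {i : Fin m}
    (hD : MvPolynomial.eval z₀ D ≠ 0) (hd : D.degreeOf i ≤ 2) {x : Fin m → ℝ} {t : ℝ}
    (hpos : 0 < (MvPolynomial.aeval (Function.update x i t) D : ℝ)) : PMov D z₀ i x t := by
  intro ε hε
  refine ⟨D, hD, ?_⟩
  have hc : ContinuousAt (fun x' : Fin m → ℝ =>
      (MvPolynomial.aeval (Function.update x' i t) D : ℝ)) x := by
    have h1 : Continuous (fun x' : Fin m → ℝ => Function.update x' i t) := by fun_prop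
    exact ((continuous_aeval D).comp h1).continuousAt
  have ev1 : ∀ᶠ x' : Fin m → ℝ in 𝓝 x,
      0 < (MvPolynomial.aeval (Function.update x' i t) D : ℝ) :=
    continuousAt_const.eventually_lt hc hpos
  filter_upwards [ev1] with x' h1 z hz hH hy
  have hx' : x' = fun j => (z j : ℝ) := funext hz
  rw [hx'] at h1
  exact move_one i hd z hy (Or.inl hH) t h1.le ε hε

theorem PZL.move {D : MvPolynomial (Fin m) ℚ} {z₀ : Fin m → ℚ} {i : Fin m} {x : Fin m → ℝ}
    {t : ℝ} (hx : PZL D z₀ x)
    (hmov : ∀ θ ∈ Icc (0 : ℝ) 1, PMov D z₀ i x (t + θ * (x i - t))) :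
    PZL D z₀ (Function.update x i t) := by
  by_cases hxt : x i = t
  · rw [← hxt, Function.update_eq_self]; exact hx
  intro V hV G hG
  rw [Metric.mem_nhds_iff] at hV
  obtain ⟨η, hη, hVη⟩ := hV
  set n := G.degreeOf i with hn
  set a := |x i - t| with ha
  have ha0 : 0 < a := abs_pos.mpr (sub_ne_zero.mpr hxt)
  set κ : ℝ := min (1 / (n + 1)) (η / (2 * (n + 1) * a)) with hκ
  have hn1 : (0 : ℝ) < n + 1 := by positivity
  have hκ0 : 0 < κ := lt_min (by positivity) (by positivity)
  have hκ1 : (n + 1) * κ ≤ 1 := by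
    calc (n + 1) * κ ≤ (n + 1) * (1 / (n + 1)) :=
        mul_le_mul_of_nonneg_left (min_le_left _ _) hn1.le
      _ = 1 := by field_simp
  have hκ2 : (n + 1) * κ * a ≤ η / 2 := by
    calc (n + 1) * κ * a ≤ (n + 1) * (η / (2 * (n + 1) * a)) * a := by
          refine mul_le_mul_of_nonneg_right (mul_le_mul_of_nonneg_left (min_le_right _ _) hn1.le)
            ha0.le
      _ = η / 2 := by field_simp
  set ρ := min (κ * a / 2) (η / 2) with hρ
  have hρ0 : 0 < ρ := lt_min (by positivity) (by linarith)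
  let θ : Fin (n + 1) → ℝ := fun k => (k + 1) * κ
  have hkle : ∀ k : Fin (n + 1), ((k : ℕ) : ℝ) + 1 ≤ n + 1 := by
    intro k
    have : (k : ℕ) + 1 ≤ n + 1 := k.isLt
    exact_mod_cast this
  have hθ : ∀ k, θ k ∈ Icc (0 : ℝ) 1 := by
    intro k
    refine ⟨by simp only [θ]; positivity, ?_⟩
    calc θ k ≤ (n + 1) * κ := mul_le_mul_of_nonneg_right (hkle k) hκ0.le
      _ ≤ 1 := hκ1
  have hM := fun k => hmov (θ k) (hθ k) ρ hρ0
  choose H hH0 hHev using hM
  have hall := Filter.eventually_all.mpr hHev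
  have hnear : ∀ᶠ x' : Fin m → ℝ in 𝓝 x, dist x' x < η := by
    have := Metric.ball_mem_nhds x hη
    exact this
  obtain ⟨z, hz1, hz2, hz3⟩ := hx _ (hall.and hnear) (G * ∏ k, H k) (by
    rw [map_mul, map_prod]
    exact mul_ne_zero hG (Finset.prod_ne_zero_iff.mpr fun k _ => hH0 k))
  obtain ⟨hz1a, hz1b⟩ := hz1
  rw [map_mul, map_prod] at hz2
  have hzG := left_ne_zero_of_mul hz2
  have hzH := Finset.prod_ne_zero_iff.mp (right_ne_zero_of_mul hz2)
  have hs := fun k => hz1a k z (fun j => rfl) (hzH k (Finset.mem_univ k)) hz3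
  choose s hs1 hs2 using hs
  have hinj : Function.Injective s := by
    intro k l hkl
    by_contra hne
    have h1 := hs1 k
    have h2 := hs1 l
    rw [← hkl] at h2
    have h3 : |(θ k - θ l) * (x i - t)| < 2 * ρ := by
      calc |(θ k - θ l) * (x i - t)| = |((s k : ℝ) - (t + θ l * (x i - t))) -
            ((s k : ℝ) - (t + θ k * (x i - t)))| := by ring_nf
        _ ≤ |(s k : ℝ) - (t + θ l * (x i - t))| + |(s k : ℝ) - (t + θ k * (x i - t))| := abs_sub _ _
        _ < 2 * ρ := by linarith
    rw [abs_mul, ← ha] at h3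
    have h4 : κ ≤ |θ k - θ l| := by
      have e1 : θ k - θ l = (((k : ℕ) : ℝ) - ((l : ℕ) : ℝ)) * κ := by simp only [θ]; ring
      rw [e1, abs_mul, abs_of_pos hκ0]
      have h5 : (1 : ℝ) ≤ |((k : ℕ) : ℝ) - ((l : ℕ) : ℝ)| := by
        have hkl' : ((k : ℕ) : ℤ) - ((l : ℕ) : ℤ) ≠ 0 := by
          intro h
          apply hne
          apply Fin.ext
          omega
        have h6 := Int.one_le_abs hkl'
        have h7 : ((1 : ℤ) : ℝ) ≤ ((|((k : ℕ) : ℤ) - ((l : ℕ) : ℤ)| : ℤ) : ℝ) := by
          exact_mod_cast h6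
        push_cast at h7
        exact h7
      calc κ = 1 * κ := (one_mul _).symm
        _ ≤ _ := mul_le_mul_of_nonneg_right h5 hκ0.le
    have h5 : κ * a ≤ |θ k - θ l| * a := mul_le_mul_of_nonneg_right h4 ha0.le
    have h6 : 2 * ρ ≤ κ * a := by
      have := min_le_left (κ * a / 2) (η / 2)
      rw [← hρ] at this
      linarith
    linarith
  obtain ⟨k, hk⟩ := exists_slice_ne hzG (le_refl _) s hinj
  refine ⟨Function.update z i (s k), ?_, hk, hs2 k⟩
  apply hVη
  rw [Metric.mem_ball, dist_pi_lt_iff hη]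
  intro j
  by_cases hj : j = i
  · subst hj
    rw [Function.update_self, Function.update_self, Real.dist_eq]
    have h1 := hs1 k
    have h2 : |θ k * (x j - t)| ≤ η / 2 := by
      rw [abs_mul, abs_of_nonneg (hθ k).1, ← ha]
      calc θ k * a ≤ (n + 1) * κ * a :=
            mul_le_mul_of_nonneg_right (mul_le_mul_of_nonneg_right (hkle k) hκ0.le) ha0.le
        _ ≤ η / 2 := hκ2
    calc |(s k : ℝ) - t| = |((s k : ℝ) - (t + θ k * (x j - t))) + θ k * (x j - t)| := by ring_nf
      _ ≤ |(s k : ℝ) - (t + θ k * (x j - t))| + |θ k * (x j - t)| := abs_add_le _ _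
      _ < η := by
        have := min_le_right (κ * a / 2) (η / 2)
        rw [← hρ] at this
        linarith
  · rw [Function.update_of_ne hj, Function.update_of_ne hj]
    exact lt_of_le_of_lt (dist_le_pi_dist (fun j => (z j : ℝ)) x j) hz1b

/-- The condition on `D` and `z₀` needed for the moves. -/
def PGood (D : MvPolynomial (Fin m) ℚ) (z₀ : Fin m → ℚ) : Prop :=
  MvPolynomial.eval z₀ D ≠ 0 ∧ ∀ i, D.degreeOf i ≤ 2 ∨ (D.degreeOf i ≤ 4 ∧
    MvPolynomial.eval z₀ (disc4 (tcf D i)) ≠ 0 ∧ ∀ N, MvPolynomial.eval z₀ (gpoly D i N) ≠ 0)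

theorem PGood.bigDisc_ne {D : MvPolynomial (Fin m) ℚ} {z₀ : Fin m → ℚ} (hD : PGood D z₀) :
    MvPolynomial.eval z₀ (bigDisc D) ≠ 0 := by
  classical
  unfold bigDisc
  rw [map_prod, Finset.prod_ne_zero_iff]
  intro i _
  by_cases h : D.degreeOf i ≤ 2
  · simp [h]
  · simp only [h, if_false]
    exact ((hD.2 i).resolve_left h).2.1

theorem PZL.move_pos {D : MvPolynomial (Fin m) ℚ} {z₀ : Fin m → ℚ} (hD : PGood D z₀) {i : Fin m}
    {x : Fin m → ℝ} {t : ℝ} (hx : PZL D z₀ x)
    (hpos : ∀ τ ∈ Icc (0 : ℝ) 1,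
      0 < (MvPolynomial.aeval (Function.update x i (x i + τ * (t - x i))) D : ℝ))
    (hdisc : (MvPolynomial.aeval x (bigDisc D) : ℝ) ≠ 0) :
    PZL D z₀ (Function.update x i t) := by
  classical
  apply hx.move
  intro θ hθ
  have hseg : ∀ τ ∈ Icc (0 : ℝ) 1, 0 < (MvPolynomial.aeval (Function.update x i
      (x i + τ * (t + θ * (x i - t) - x i))) D : ℝ) := by
    intro τ hτ
    have := hpos (τ * (1 - θ)) ⟨mul_nonneg hτ.1 (by linarith [hθ.2]),
      mul_le_one₀ hτ.2 (by linarith [hθ.2]) (by linarith [hθ.1])⟩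
    convert this using 4
    ring
  by_cases h2 : D.degreeOf i ≤ 2
  · apply pmov_conic hD.1 h2
    have := hseg 1 ⟨zero_le_one, le_refl _⟩
    convert this using 4
    ring
  · obtain ⟨h4, -, hg⟩ := (hD.2 i).resolve_left h2
    refine pmov_quartic h4 hg hseg ?_
    intro h
    apply hdisc
    unfold bigDisc
    rw [map_prod]
    apply Finset.prod_eq_zero (Finset.mem_univ i)
    simp only [h2, if_false]
    exact h

theorem PZL.sqLim {D : MvPolynomial (Fin m) ℚ} {z₀ : Fin m → ℚ} {x : Fin m → ℝ}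
    (hx : PZL D z₀ x) : SqLim D x := by
  intro ε hε
  obtain ⟨z, hz, -, hy⟩ := hx (Metric.ball x ε) (Metric.ball_mem_nhds x hε) 1 (by simp)
  rw [Metric.mem_ball, dist_pi_lt_iff hε] at hz
  exact ⟨z, fun j => by have := hz j; rwa [Real.dist_eq] at this, hy⟩

theorem isClosed_pzl (D : MvPolynomial (Fin m) ℚ) (z₀ : Fin m → ℚ) :
    IsClosed {x | PZL D z₀ x} := by
  rw [← closure_subset_iff_isClosed]
  intro x hx V hV G hG
  obtain ⟨x', hx', hd⟩ := mem_closure_iff_nhds.mp hx (interior V) (interior_mem_nhds.mpr hV)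
  obtain ⟨z, hz, h1, h2⟩ := hd (interior V) (isOpen_interior.mem_nhds hx') G hG
  exact ⟨z, interior_subset hz, h1, h2⟩

theorem PZL.of_near {D : MvPolynomial (Fin m) ℚ} {z₀ : Fin m → ℚ} {x : Fin m → ℝ}
    (h : ∀ ε > 0, ∃ x' : Fin m → ℝ, (∀ j, |x' j - x j| < ε) ∧ PZL D z₀ x') : PZL D z₀ x := by
  have := (isClosed_pzl D z₀).closure_subset_iff.mpr (le_refl _)
  apply this
  rw [Metric.mem_closure_iff]
  intro ε hε
  obtain ⟨x', h1, h2⟩ := h ε hε
  refine ⟨x', h2, ?_⟩
  rw [dist_comm, dist_pi_lt_iff hε]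
  intro j
  rw [Real.dist_eq]; exact h1 j

theorem PZL.mem_interior_of_closure {D : MvPolynomial (Fin m) ℚ} {z₀ : Fin m → ℚ}
    (hD : PGood D z₀) {x : Fin m → ℝ}
    (hx : 0 < (MvPolynomial.aeval x D : ℝ)) (hxc : x ∈ closure (interior {x | PZL D z₀ x})) :
    x ∈ interior {x | PZL D z₀ x} := by
  classical
  have hbd : bigDisc D ≠ 0 := by
    intro h
    have := hD.bigDisc_ne
    rw [h, map_zero] at this
    exact this rfl
  have h1 : ∀ᶠ w in 𝓝 x, 0 < (MvPolynomial.aeval w D : ℝ) :=
    continuousAt_const.eventually_lt (continuous_aeval D).continuousAt hx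
  rw [Metric.eventually_nhds_iff] at h1
  obtain ⟨r, hr, hpos⟩ := h1
  have hposb : ∀ w : Fin m → ℝ, (∀ j, |w j - x j| < r) → 0 < (MvPolynomial.aeval w D : ℝ) := by
    intro w hw
    apply hpos
    rw [dist_pi_lt_iff hr]
    intro j; rw [Real.dist_eq]; exact hw j
  obtain ⟨x₁, hx₁, hd₁⟩ := Metric.mem_closure_iff.mp hxc r hr
  rw [dist_comm] at hd₁
  obtain ⟨r', hr', hball⟩ := Metric.isOpen_iff.mp isOpen_interior x₁ hx₁
  set r₁ := min r' (r - dist x₁ x) with hr₁
  have hr₁0 : 0 < r₁ := lt_min hr' (by linarith)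
  have hr₁1 : r₁ ≤ r' := min_le_left _ _
  have hr₁2 : r₁ ≤ r - dist x₁ x := min_le_right _ _
  have hsub : ∀ (j : Fin m) (u : ℝ), |u - x₁ j| < r₁ → |u - x j| < r := by
    intro j u hu
    have h2 : |x₁ j - x j| ≤ dist x₁ x := by
      have := dist_le_pi_dist x₁ x j
      rwa [Real.dist_eq] at this
    calc |u - x j| = |(u - x₁ j) + (x₁ j - x j)| := by ring_nf
      _ ≤ |u - x₁ j| + |x₁ j - x j| := abs_add_le _ _
      _ < r := by linarith
  have key : ∀ s : Finset (Fin m), ∀ w : Fin m → ℝ, (∀ j ∈ s, |w j - x j| < r) →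
      (∀ j ∉ s, |w j - x₁ j| < r₁) → PZL D z₀ w := by
    intro s
    induction s using Finset.induction_on with
    | empty =>
      intro w _ hw
      have : w ∈ interior {x | PZL D z₀ x} := by
        apply hball
        rw [Metric.mem_ball, dist_pi_lt_iff hr']
        intro j
        rw [Real.dist_eq]
        exact lt_of_lt_of_le (hw j (by simp)) hr₁1
      exact interior_subset this
    | insert i s hi ih =>
      intro w hw1 hw2
      set U : Set (Fin m → ℝ) := {w | (∀ j ∈ s, |w j - x j| < r) ∧ ∀ j ∉ s, |w j - x₁ j| < r₁}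
        with hU
      have hUopen : IsOpen U := by
        have : U = (⋂ j ∈ s, {w : Fin m → ℝ | |w j - x j| < r}) ∩
            ⋂ j ∈ (sᶜ : Finset (Fin m)), {w : Fin m → ℝ | |w j - x₁ j| < r₁} := by
          ext w; simp [hU]
        rw [this]
        refine IsOpen.inter ?_ ?_
        · refine isOpen_biInter_finset fun j _ => isOpen_lt ?_ continuous_const
          exact ((continuous_apply j).sub continuous_const).abs
        · refine isOpen_biInter_finset fun j _ => isOpen_lt ?_ continuous_const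
          exact ((continuous_apply j).sub continuous_const).abs
      set w' := Function.update w i (x₁ i) with hw'
      have hw'U : w' ∈ U := by
        constructor
        · intro j hj
          have hji : j ≠ i := fun h => hi (h ▸ hj)
          rw [hw', Function.update_of_ne hji]
          exact hw1 j (Finset.mem_insert_of_mem hj)
        · intro j hj
          by_cases hji : j = i
          · subst hji
            rw [hw', Function.update_self, sub_self, abs_zero]; exact hr₁0
          · rw [hw', Function.update_of_ne hji]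
            exact hw2 j (by simp [hji, hj])
      refine PZL.of_near fun ε hε => ?_
      obtain ⟨z, hz, hzd⟩ := exists_rat_ne_zero hbd (x := w')
        (V := U ∩ Metric.ball w' ε) (Filter.inter_mem (hUopen.mem_nhds hw'U)
          (Metric.ball_mem_nhds w' hε))
      set w'' : Fin m → ℝ := fun j => (z j : ℝ) with hw''
      have hzl : PZL D z₀ w'' := ih w'' hz.1.1 hz.1.2
      have hall : ∀ j, |w'' j - x j| < r := by
        intro j
        by_cases hj : j ∈ s
        · exact hz.1.1 j hj
        · exact hsub j _ (hz.1.2 j hj)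
      have hwi : |w i - x i| < r := hw1 i (Finset.mem_insert_self i s)
      have hmove := hzl.move_pos hD (i := i) (t := w i) (by
        intro τ hτ
        apply hposb
        intro j
        by_cases hj : j = i
        · subst hj
          rw [Function.update_self]
          have e : w'' j + τ * (w j - w'' j) - x j =
              (1 - τ) * (w'' j - x j) + τ * (w j - x j) := by ring
          rw [e]
          have a1 := abs_lt.mp (hall j)
          have a2 := abs_lt.mp hwi
          have t1 : 0 ≤ 1 - τ := by linarith [hτ.2]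
          have t0 := hτ.1
          rw [abs_lt]
          rcases t0.eq_or_lt with h | h
          · rw [← h]; constructor <;> linarith
          · constructor <;> nlinarith
        · rw [Function.update_of_ne hj]; exact hall j) (by
        rw [hw'', aeval_ratCast]; exact_mod_cast hzd)
      refine ⟨_, ?_, hmove⟩
      intro j
      by_cases hj : j = i
      · subst hj
        rw [Function.update_self, sub_self, abs_zero]; exact hε
      · rw [Function.update_of_ne hj]
        have := hz.2
        rw [Metric.mem_ball, dist_pi_lt_iff hε] at this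
        have h2 := this j
        rw [hw', Function.update_of_ne hj, Real.dist_eq] at h2
        exact h2
  rw [mem_interior_iff_mem_nhds, Metric.mem_nhds_iff]
  refine ⟨r, hr, fun w hw => ?_⟩
  rw [Metric.mem_ball, dist_pi_lt_iff hr] at hw
  exact key Finset.univ w (fun j _ => by have := hw j; rwa [Real.dist_eq] at this)
    (fun j hj => absurd (Finset.mem_univ j) hj)

theorem PZL.mem_interior {D : MvPolynomial (Fin m) ℚ} {z₀ : Fin m → ℚ} (hD : PGood D z₀)
    {x : Fin m → ℝ} (hx : 0 < (MvPolynomial.aeval x D : ℝ))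
    (hdisc : (MvPolynomial.aeval x (bigDisc D) : ℝ) ≠ 0)
    (hzl : PZL D z₀ x) : x ∈ interior {x | PZL D z₀ x} := by
  classical
  have h1 : ∀ᶠ w in 𝓝 x, 0 < (MvPolynomial.aeval w D : ℝ) :=
    continuousAt_const.eventually_lt (continuous_aeval D).continuousAt hx
  have h2 : ∀ᶠ w in 𝓝 x, (MvPolynomial.aeval w (bigDisc D) : ℝ) ≠ 0 :=
    (continuous_aeval (bigDisc D)).continuousAt.eventually_ne hdisc
  have h3 := h1.and h2
  rw [Metric.eventually_nhds_iff] at h3
  obtain ⟨r, hr, hpos⟩ := h3
  have hposb : ∀ w : Fin m → ℝ, (∀ j, |w j - x j| < r) → 0 < (MvPolynomial.aeval w D : ℝ) ∧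
      (MvPolynomial.aeval w (bigDisc D) : ℝ) ≠ 0 := by
    intro w hw
    apply hpos
    rw [dist_pi_lt_iff hr]
    intro j; rw [Real.dist_eq]; exact hw j
  have key : ∀ s : Finset (Fin m), ∀ w : Fin m → ℝ, (∀ j, |w j - x j| < r) →
      (∀ j ∉ s, w j = x j) → PZL D z₀ w := by
    intro s
    induction s using Finset.induction_on with
    | empty =>
      intro w _ hw
      have : w = x := funext fun j => hw j (by simp)
      rw [this]; exact hzl
    | insert i s hi ih =>
      intro w hw1 hw2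
      have hz := ih (Function.update w i (x i)) (by
        intro j
        by_cases hj : j = i
        · subst hj; rw [Function.update_self, sub_self, abs_zero]; exact hr
        · rw [Function.update_of_ne hj]; exact hw1 j) (by
        intro j hj
        by_cases hji : j = i
        · subst hji; rw [Function.update_self]
        · rw [Function.update_of_ne hji]
          exact hw2 j (by simp [hji, hj]))
      have := hz.move_pos hD (i := i) (t := w i) (by
        intro τ hτ
        refine (hposb _ ?_).1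
        intro j
        by_cases hj : j = i
        · subst hj
          rw [Function.update_self, Function.update_self]
          have a2 := hw1 j
          have e : x j + τ * (w j - x j) - x j = τ * (w j - x j) := by ring
          rw [e, abs_mul, abs_of_nonneg hτ.1]
          calc τ * |w j - x j| ≤ 1 * |w j - x j| :=
                mul_le_mul_of_nonneg_right hτ.2 (abs_nonneg _)
            _ < r := by rw [one_mul]; exact a2
        · rw [Function.update_of_ne hj, Function.update_of_ne hj]; exact hw1 j) (by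
        refine (hposb _ ?_).2
        intro j
        by_cases hj : j = i
        · subst hj; rw [Function.update_self, sub_self, abs_zero]; exact hr
        · rw [Function.update_of_ne hj]; exact hw1 j)
      rw [Function.update_idem, Function.update_eq_self] at this
      exact this
  rw [mem_interior_iff_mem_nhds, Metric.mem_nhds_iff]
  refine ⟨r, hr, fun w hw => ?_⟩
  rw [Metric.mem_ball, dist_pi_lt_iff hr] at hw
  exact (key Finset.univ w (fun j => by have := hw j; rwa [Real.dist_eq] at this)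
    (fun j hj => absurd (Finset.mem_univ j) hj))

/-- The Taylor coefficients of `D` at `z₀` in the direction `i`. -/
noncomputable def slicePoly (D : MvPolynomial (Fin m) ℚ) (z₀ : Fin m → ℚ) (i : Fin m) :
    Polynomial ℚ :=
  MvPolynomial.aeval (Function.update (fun j => Polynomial.C (z₀ j)) i
    (Polynomial.X + Polynomial.C (z₀ i))) D

theorem slicePoly_coeff (D : MvPolynomial (Fin m) ℚ) (z₀ : Fin m → ℚ) (i : Fin m) (k : Fin 5) :
    (slicePoly D z₀ i).coeff k = MvPolynomial.eval z₀ (tcf D i k) := by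
  have h : slicePoly D z₀ i = (tay D i).map (MvPolynomial.eval z₀) := by
    unfold slicePoly tay
    induction D using MvPolynomial.induction_on with
    | C a =>
      rw [MvPolynomial.aeval_C, MvPolynomial.aeval_C,
        IsScalarTower.algebraMap_apply ℚ (MvPolynomial (Fin m) ℚ)
          (Polynomial (MvPolynomial (Fin m) ℚ)), Polynomial.algebraMap_apply,
        Polynomial.algebraMap_apply, Algebra.algebraMap_self, RingHom.id_apply,
        Algebra.algebraMap_self, RingHom.id_apply, Polynomial.map_C]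
      simp
    | add p q hp hq => rw [map_add, map_add, Polynomial.map_add, hp, hq]
    | mul_X p j hp =>
      rw [map_mul, map_mul, Polynomial.map_mul, hp, MvPolynomial.aeval_X, MvPolynomial.aeval_X]
      congr 1
      by_cases hj : j = i
      · subst hj
        simp
      · simp [hj]
  rw [h, Polynomial.coeff_map]
  rfl

theorem eval_gpoly_ne {D : MvPolynomial (Fin m) ℚ} {z₀ : Fin m → ℚ} {i : Fin m}
    (hd : D.degreeOf i ≤ 4) (hD : MvPolynomial.eval z₀ D ≠ 0) {x y : ℚ}
    (h : (quarticJac fun k => MvPolynomial.eval z₀ (tcf D i k)).toAffine.Nonsingular x y)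
    (hx : x = (MvPolynomial.eval z₀ (tcf D i 1) ^ 2 -
      4 * MvPolynomial.eval z₀ (tcf D i 0) * MvPolynomial.eval z₀ (tcf D i 2)) /
      (4 * MvPolynomial.eval z₀ (tcf D i 0)))
    (hP : ¬ IsOfFinAddOrder (WeierstrassCurve.Affine.Point.some x y h)) (N : ℕ) :
    MvPolynomial.eval z₀ (gpoly D i N) ≠ 0 := by
  have hmap : ∀ k, dseq (fun l => MvPolynomial.eval z₀ (tcf D i l)) k =
      (MvPolynomial.eval z₀ (dseq (tcf D i) k).1, MvPolynomial.eval z₀ (dseq (tcf D i) k).2) :=
    fun k => dseq_map (MvPolynomial.eval z₀) (tcf D i) k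
  have hc0 : (fun l => MvPolynomial.eval z₀ (tcf D i l)) 0 ≠ 0 := by
    show MvPolynomial.eval z₀ (tcf D i 0) ≠ 0
    rw [tcf_zero D i hd]; exact hD
  unfold gpoly
  rw [map_mul, map_mul, map_prod, map_prod]
  refine mul_ne_zero hD (mul_ne_zero ?_ ?_)
  · rw [Finset.prod_ne_zero_iff]
    intro k _
    have := (two_pow_smul hc0 h hx hP k).1
    rw [hmap] at this
    exact this
  · rw [Finset.prod_ne_zero_iff]
    intro j _
    rw [map_prod, Finset.prod_ne_zero_iff]
    intro k hk
    have := dseq_cross_ne hc0 h hx hP (Finset.mem_range.mp hk)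
    rw [hmap, hmap] at this
    rw [map_sub, map_mul, map_mul]
    exact this

end Pool.Agent.Lib.MP42
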