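import Pool.Agent.Lib.MP_42de19_nt.Lattes
import Pool.Agent.Lib.MP_42de19_nt.Sqfree

set_option autoImplicit false

namespace Pool.Agent.Lib.MP42

open Polynomial Height Topology Filter

/-- `f z` and `f s` have the same class modulo nonzero squares. -/
def Eqv (f : ℚ[X]) (z s : ℚ) : Prop := ∃ l : ℚ, l ≠ 0 ∧ f.eval s = l ^ 2 * f.eval z

/-- Taylor coefficients of a one variable polynomial. -/
noncomputable def tc (f : ℚ[X]) (z : ℚ) : Fin 5 → ℚ := fun k => (taylor z f).coeff k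

theorem ev4_tc {f : ℚ[X]} (h4 : f.natDegree ≤ 4) (z h : ℚ) :
    ev4 (tc f z) h = f.eval (z + h) := by
  unfold tc
  rw [← eval_eq_ev4 (by rw [natDegree_taylor]; exact h4), taylor_eval, add_comm]

theorem tc_zero (f : ℚ[X]) (z : ℚ) : tc f z 0 = f.eval z := taylor_coeff_zero ..

theorem disc4_tc {f : ℚ[X]} (hf : Squarefree f) (h3 : 3 ≤ f.natDegree) (h4 : f.natDegree ≤ 4)
    (z : ℚ) : disc4 (tc f z) ≠ 0 := by
  have hsq : Squarefree (taylor z f) := by
    intro a ha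
    have h1 : (taylorEquiv z).symm a * (taylorEquiv z).symm a ∣ f := by
      rw [← map_mul]
      have h0 : (taylorEquiv z).symm (taylor z f) = f := (taylorEquiv z).symm_apply_apply f
      have := map_dvd (taylorEquiv z).symm ha
      rwa [h0] at this
    have h2 := (hf _ h1).map (taylorEquiv z)
    rwa [AlgEquiv.apply_symm_apply] at h2
  exact disc4_ne_zero_of_separable (PerfectField.separable_iff_squarefree.mpr hsq)
    (by rw [natDegree_taylor]; exact h3) (by rw [natDegree_taylor]; exact h4)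

theorem tc_shift {f : ℚ[X]} (h4 : f.natDegree ≤ 4) (z : ℚ) :
    tc f z = ![ev4 (tc f 0) z, tc f 0 1 + 2 * tc f 0 2 * z + 3 * tc f 0 3 * z ^ 2 +
      4 * tc f 0 4 * z ^ 3, tc f 0 2 + 3 * tc f 0 3 * z + 6 * tc f 0 4 * z ^ 2,
      tc f 0 3 + 4 * tc f 0 4 * z, tc f 0 4] := by
  apply ev4_inj
  intro h
  rw [ev4_tc h4, ← zero_add (z + h), ← ev4_tc h4]
  simp only [ev4, Matrix.cons_val_zero, Matrix.cons_val_one, Matrix.cons_val]
  ring

theorem qI_tc {f : ℚ[X]} (h4 : f.natDegree ≤ 4) (z : ℚ) : qI (tc f z) = qI (tc f 0) := by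
  rw [tc_shift h4 z]
  simp only [qI, rB, ev4, Matrix.cons_val_zero, Matrix.cons_val_one, Matrix.cons_val]
  ring

theorem qJ_tc {f : ℚ[X]} (h4 : f.natDegree ≤ 4) (z : ℚ) : qJ (tc f z) = qJ (tc f 0) := by
  rw [tc_shift h4 z]
  simp only [qJ, rB, rC, ev4, Matrix.cons_val_zero, Matrix.cons_val_one, Matrix.cons_val]
  ring

theorem pos_segment {f : ℚ[X]} {z : ℚ} {t : ℝ}
    (hu : ∀ u ∈ Set.uIcc (z : ℝ) t, (aeval u f : ℝ) ≠ 0) :
    ∀ u ∈ Set.uIcc (z : ℝ) t, 0 < (aeval (z : ℝ) f : ℝ) * aeval u f := by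
  intro u hu'
  by_contra hcon
  push Not at hcon
  have hc : ContinuousOn (fun u : ℝ => (aeval (z : ℝ) f : ℝ) * aeval u f) (Set.uIcc (z : ℝ) u) :=
    (continuous_const.mul (Polynomial.continuous_aeval f)).continuousOn
  have hz : (aeval (z : ℝ) f : ℝ) ≠ 0 := hu _ Set.left_mem_uIcc
  have hpos : 0 < (aeval (z : ℝ) f : ℝ) * aeval (z : ℝ) f := mul_self_pos.mpr hz
  have h0 : (0 : ℝ) ∈ Set.uIcc ((aeval (z : ℝ) f : ℝ) * aeval (z : ℝ) f)
      ((aeval (z : ℝ) f : ℝ) * aeval u f) := Set.mem_uIcc.mpr (Or.inr ⟨hcon, hpos.le⟩)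
  obtain ⟨v, hv, hv0⟩ := intermediate_value_uIcc hc h0
  have hv' : v ∈ Set.uIcc (z : ℝ) t := Set.uIcc_subset_uIcc_left hu' hv
  exact hu v hv' ((mul_eq_zero.mp hv0).resolve_left hz)

theorem eqv_of_sq {f : ℚ[X]} {z s v : ℚ} (hz : f.eval z ≠ 0) (hs : f.eval s ≠ 0)
    (hv : v ^ 2 = f.eval z * f.eval s) : Eqv f z s := by
  have hv0 : v ≠ 0 := by
    rintro rfl
    have : f.eval z * f.eval s = 0 := by rw [← hv]; ring
    exact (mul_ne_zero hz hs) this
  refine ⟨v / f.eval z, div_ne_zero hv0 hz, ?_⟩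
  rw [div_pow, hv]
  field_simp

theorem aeval_ratCast' (f : ℚ[X]) (z : ℚ) : (aeval (z : ℝ) f : ℝ) = (f.eval z : ℚ) := by
  have := Polynomial.aeval_algebraMap_apply ℝ z f
  rw [Polynomial.coe_aeval_eq_eval] at this
  exact this

/-- avoid the zeros of `f` near a point where `f` does not vanish -/
theorem exists_radius {f : ℚ[X]} {t : ℝ} (ht : (aeval t f : ℝ) ≠ 0) {ε : ℝ} (hε : 0 < ε) :
    ∃ η, 0 < η ∧ η ≤ ε ∧ ∀ s : ℚ, |(s : ℝ) - t| < η → f.eval s ≠ 0 := by
  have h1 : ∀ᶠ u in 𝓝 t, (aeval u f : ℝ) ≠ 0 :=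
    (Polynomial.continuous_aeval f).continuousAt.eventually_ne ht
  rw [Metric.eventually_nhds_iff] at h1
  obtain ⟨η, hη, h1⟩ := h1
  refine ⟨min η ε, lt_min hη hε, min_le_right _ _, fun s hs => ?_⟩
  have h2 := h1 (y := (s : ℝ)) (by rw [Real.dist_eq]; exact lt_of_lt_of_le hs (min_le_left _ _))
  rw [aeval_ratCast'] at h2
  intro h
  rw [h] at h2
  simp at h2

theorem key_quartic {f : ℚ[X]} (hf : Squarefree f) (h3 : 3 ≤ f.natDegree)
    (h4 : f.natDegree ≤ 4) : ∃ T : Set ℚ, T.Finite ∧ ∀ z ∉ T, f.eval z ≠ 0 ∧ ∀ t : ℝ,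
      (∀ u ∈ Set.uIcc (z : ℝ) t, (aeval u f : ℝ) ≠ 0) → ∀ ε > 0, ∃ s : ℚ, |(s : ℝ) - t| < ε ∧
        Eqv f z s := by
  have hf0 : f ≠ 0 := hf.ne_zero
  have hΔ : 4 * qI (tc f 0) ^ 3 - qJ (tc f 0) ^ 2 ≠ 0 := by
    rw [← disc4_eq_IJ]
    exact mul_ne_zero (by norm_num) (disc4_tc hf h3 h4 0)
  obtain ⟨B, hB, hbound⟩ := exists_height_bound _ _ hΔ
  -- the polynomial with finite fibres
  let P : ℚ → ℚ[X] := fun x => 3 * derivative f ^ 2 - f * (8 * hasseDeriv 2 f + 4 * C x)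
  have hP : ∀ x, P x ≠ 0 := by
    intro x hx
    have h1 : f ∣ 3 * derivative f ^ 2 := ⟨8 * hasseDeriv 2 f + 4 * C x, by
      simp only [P] at hx; linear_combination hx⟩
    have hsep : IsCoprime f (derivative f) := PerfectField.separable_iff_squarefree.mpr hf
    have hsep2 : IsCoprime f (derivative f ^ 2) := hsep.pow_right
    have h2 : f ∣ 3 := hsep2.dvd_of_dvd_mul_right h1
    have h3' : (3 : ℚ[X]) = C 3 := rfl
    rw [h3'] at h2
    have h4' := natDegree_le_of_dvd h2 (by simp)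
    rw [natDegree_C] at h4'
    omega
  have hF : {x : ℚ | logHeight₁ x ≤ B}.Finite := NumberField.finite_setOfPred_logHeight₁_le ℚ B
  refine ⟨{z | f.eval z = 0} ∪ ⋃ x ∈ {x : ℚ | logHeight₁ x ≤ B}, {z | (P x).eval z = 0}, ?_, ?_⟩
  · refine Set.Finite.union ?_ (hF.biUnion fun x _ => ?_)
    · exact Polynomial.finite_setOfPred_isRoot hf0
    · exact Polynomial.finite_setOfPred_isRoot (hP x)
  intro z hz
  rw [Set.mem_union, not_or] at hz
  obtain ⟨hz1, hz2⟩ := hz
  have hz1 : f.eval z ≠ 0 := hz1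
  refine ⟨hz1, ?_⟩
  have hc0 : tc f z 0 ≠ 0 := by rw [tc_zero]; exact hz1
  have hlarge : B < logHeight (wseq (tc f z) 0) := by
    by_contra hcon
    push Not at hcon
    apply hz2
    have hw : wseq (tc f z) 0 = ![3 * tc f z 1 ^ 2 - 8 * tc f z 0 * tc f z 2, 4 * tc f z 0] := by
      unfold wseq
      simp only [dseq]
      funext j
      fin_cases j
      · simp; ring
      · simp; ring
    rw [hw, ← logHeight₁_div_eq_logHeight] at hcon
    refine Set.mem_biUnion (x := (3 * tc f z 1 ^ 2 - 8 * tc f z 0 * tc f z 2) / (4 * tc f z 0))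
      hcon ?_
    show (P _).eval z = 0
    simp only [P, eval_sub, eval_mul, eval_add, eval_pow, eval_C, eval_ofNat]
    have e0 : tc f z 0 = f.eval z := tc_zero f z
    have e1 : tc f z 1 = (derivative f).eval z := by
      unfold tc; exact taylor_coeff_one ..
    have e2 : tc f z 2 = (hasseDeriv 2 f).eval z := by
      unfold tc; exact taylor_coeff ..
    rw [e0, e1, e2]
    field_simp
    ring
  obtain ⟨hmono, hpos⟩ := hbound (tc f z) (qI_tc h4 z) (qJ_tc h4 z) hlarge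
  intro t ht ε hε
  obtain ⟨η, hη, hηε, hne⟩ := exists_radius (ht t Set.right_mem_uIcc) hε
  -- the slice
  let q : Fin 5 → ℚ := fun k => tc f z 0 * tc f z k
  have hev : ∀ x : ℝ, ev4 (fun k => ((q k : ℚ) : ℝ)) x =
      (aeval (z : ℝ) f : ℝ) * aeval ((z : ℝ) + x) f := by
    intro x
    have h1 : (aeval ((z : ℝ) + x) f : ℝ) = ev4 (fun k => ((tc f z k : ℚ) : ℝ)) x := by
      have e1 : (aeval ((z : ℝ) + x) f : ℝ) = aeval x (taylor z f) := by
        rw [taylor_apply, aeval_comp]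
        congr 2
        simp [add_comm]
      rw [e1, aeval_def, eval₂_eq_eval_map, eval_eq_ev4 (by
        refine natDegree_map_le.trans ?_
        rw [natDegree_taylor]; exact h4)]
      simp only [coeff_map, tc]
      rfl
    rw [h1, aeval_ratCast', ← tc_zero]
    simp only [q, ev4]
    push_cast
    ring
  have hpos' := pos_segment ht
  obtain ⟨N, hN⟩ := slice_move (c₀ := fun k => ((q k : ℚ) : ℝ)) (h₀ := t - z) (by
      intro τ hτ
      rw [hev]
      apply hpos'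
      rw [Set.mem_uIcc]
      rcases le_total (z : ℝ) t with h | h
      · left
        constructor
        · nlinarith [hτ.1, mul_nonneg hτ.1 (sub_nonneg.mpr h)]
        · have := mul_le_of_le_one_left (sub_nonneg.mpr h) hτ.2
          linarith
      · right
        have h' : 0 ≤ (z : ℝ) - t := sub_nonneg.mpr h
        have e : τ * (t - z) = -(τ * (z - t)) := by ring
        rw [e]
        constructor
        · have := mul_le_of_le_one_left h' hτ.2
          linarith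
        · have := mul_nonneg hτ.1 h'
          linarith) (by
      have e := disc4_map (algebraMap ℚ ℝ) q
      have e2 : disc4 q = tc f z 0 ^ 6 * disc4 (tc f z) := by
        simp only [q, disc4, rB, rC]; ring
      have e3 : disc4 (fun k => ((q k : ℚ) : ℝ)) = ((disc4 q : ℚ) : ℝ) := e
      rw [e3, e2]
      have : tc f z 0 ^ 6 * disc4 (tc f z) ≠ 0 :=
        mul_ne_zero (pow_ne_zero _ hc0) (disc4_tc hf h3 h4 z)
      exact_mod_cast this) hη
  obtain ⟨h, hh1, v, hv⟩ := hN.self_of_nhds q (fun k => rfl) (tc f z 0) (by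
    simp only [q]; ring) hc0 (many_points_twist hc0 hmono hpos N)
  refine ⟨z + h, ?_, ?_⟩
  · push_cast
    have e : (z : ℝ) + h - t = h - (t - z) := by ring
    rw [e]; linarith
  · have hsn : f.eval (z + h) ≠ 0 := by
      apply hne
      push_cast
      have e : (z : ℝ) + h - t = h - (t - z) := by ring
      rw [e]; exact hh1
    refine eqv_of_sq hz1 hsn (v := v) ?_
    rw [hv, ← ev4_tc h4, ← tc_zero]
    simp only [q, ev4]
    ring

theorem key_conic {f : ℚ[X]} (h2 : f.natDegree ≤ 2) {z : ℚ} (hz : f.eval z ≠ 0) {t : ℝ}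
    (hu : ∀ u ∈ Set.uIcc (z : ℝ) t, (aeval u f : ℝ) ≠ 0) {ε : ℝ} (hε : 0 < ε) :
    ∃ s : ℚ, |(s : ℝ) - t| < ε ∧ Eqv f z s := by
  obtain ⟨η, hη, hηε, hne⟩ := exists_radius (hu t Set.right_mem_uIcc) hε
  have hpos := pos_segment hu t Set.right_mem_uIcc
  have hquad := Polynomial.eq_quadratic_of_degree_le_two (degree_le_of_natDegree_le h2)
  set a := f.coeff 2
  set b := f.coeff 1
  set c := f.coeff 0
  have hev : ∀ s : ℚ, f.eval s = a * s ^ 2 + b * s + c := by
    intro s; conv_lhs => rw [hquad]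
    simp
  have hevR : ∀ s : ℝ, (aeval s f : ℝ) = a * s ^ 2 + b * s + c := by
    intro s; conv_lhs => rw [hquad]
    simp
  obtain ⟨s, hs, y, hy⟩ := conic_dense (f.eval z * a) (f.eval z * b) (f.eval z * c) z (f.eval z)
    (by rw [hev z]; ring) (Or.inl hz) t (by
      rw [aeval_ratCast', hevR] at hpos
      push_cast
      nlinarith) η hη
  refine ⟨s, lt_of_lt_of_le hs hηε, eqv_of_sq hz (hne s hs) (v := y) ?_⟩
  rw [hy, hev s]; ring

theorem exists_sq_mul_squarefree_one (f : ℚ[X]) (hf : f ≠ 0) :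
    ∃ g f₀ : ℚ[X], f = g ^ 2 * f₀ ∧ Squarefree f₀ := by
  have key : ∀ n : ℕ, ∀ f : ℚ[X], f ≠ 0 → f.natDegree ≤ n →
      ∃ g f₀ : ℚ[X], f = g ^ 2 * f₀ ∧ Squarefree f₀ := by
    intro n
    induction n using Nat.strong_induction_on with
    | _ n ih =>
      intro D hD hn
      by_cases hsq : Squarefree D
      · exact ⟨1, D, by ring, hsq⟩
      · unfold Squarefree at hsq
        push Not at hsq
        obtain ⟨a, ⟨E, hE⟩, hunit⟩ := hsq
        have ha0 : a ≠ 0 := by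
          rintro rfl; apply hD; rw [hE]; ring
        have hE0 : E ≠ 0 := by
          rintro rfl; apply hD; rw [hE]; ring
        have hdeg : a.natDegree ≠ 0 := by
          intro h
          apply hunit
          rw [eq_C_of_natDegree_eq_zero h] at ha0 ⊢
          rw [isUnit_C, isUnit_iff_ne_zero]
          intro h0
          rw [h0, C_0] at ha0
          exact ha0 rfl
        have htot : D.natDegree = a.natDegree + a.natDegree + E.natDegree := by
          rw [hE, natDegree_mul (mul_ne_zero ha0 ha0) hE0, natDegree_mul ha0 ha0]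
        obtain ⟨s, D₀, h1, h2⟩ := ih E.natDegree (by omega) E hE0 le_rfl
        exact ⟨a * s, D₀, by rw [hE, h1]; ring, h2⟩
  exact key _ f hf le_rfl

/-- The moves in one variable. -/
theorem key_one (f : ℚ[X]) (h4 : f.natDegree ≤ 4) : ∃ T : Set ℚ, T.Finite ∧
    ∀ z ∉ T, (f ≠ 0 → f.eval z ≠ 0) ∧ ∀ t : ℝ,
      (f ≠ 0 → ∀ u ∈ Set.uIcc (z : ℝ) t, (aeval u f : ℝ) ≠ 0) → ∀ ε > 0, ∃ s : ℚ,
        |(s : ℝ) - t| < ε ∧ Eqv f z s := by
  by_cases hf : f = 0
  · refine ⟨∅, Set.finite_empty, fun z _ => ⟨fun h => absurd hf h, fun t _ ε hε => ?_⟩⟩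
    obtain ⟨s, hs1, hs2⟩ := exists_rat_btwn (show t - ε < t + ε by linarith)
    refine ⟨s, by rw [abs_lt]; constructor <;> linarith, 1, one_ne_zero, ?_⟩
    rw [hf]; simp
  obtain ⟨g, f₀, hfg, hsq⟩ := exists_sq_mul_squarefree_one f hf
  have hg0 : g ≠ 0 := by rintro rfl; apply hf; rw [hfg]; ring
  have hf₀0 : f₀ ≠ 0 := hsq.ne_zero
  have hdeg : f₀.natDegree ≤ 4 := by
    have := natDegree_mul (pow_ne_zero 2 hg0) hf₀0
    rw [← hfg] at this
    omega
  have hne : ∀ u : ℝ, (aeval u f : ℝ) ≠ 0 → (aeval u f₀ : ℝ) ≠ 0 := by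
    intro u hu h
    apply hu
    rw [hfg, map_mul, h, mul_zero]
  have htrans : ∀ z s : ℚ, f.eval z ≠ 0 → f.eval s ≠ 0 → Eqv f₀ z s → Eqv f z s := by
    rintro z s hz hs ⟨l, hl, h⟩
    rw [hfg, eval_mul, eval_pow] at hz hs
    have hgz : g.eval z ≠ 0 := fun h => hz (by rw [h]; ring)
    have hgs : g.eval s ≠ 0 := fun h => hs (by rw [h]; ring)
    refine ⟨g.eval s * l / g.eval z, div_ne_zero (mul_ne_zero hgs hl) hgz, ?_⟩
    rw [hfg, eval_mul, eval_pow, eval_mul, eval_pow, h]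
    field_simp
  by_cases h2 : f₀.natDegree ≤ 2
  · refine ⟨{z | f.eval z = 0}, Polynomial.finite_setOfPred_isRoot hf, fun z hz => ?_⟩
    have hz : f.eval z ≠ 0 := hz
    refine ⟨fun _ => hz, fun t ht ε hε => ?_⟩
    have ht' := ht hf
    obtain ⟨η, hη, hηε, hns⟩ := exists_radius (ht' t Set.right_mem_uIcc) hε
    have hz₀ : f₀.eval z ≠ 0 := by
      intro h; apply hz; rw [hfg, eval_mul, h, mul_zero]
    obtain ⟨s, hs, hs2⟩ := key_conic h2 hz₀ (fun u hu => hne u (ht' u hu)) hη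
    exact ⟨s, lt_of_lt_of_le hs hηε, htrans z s hz (hns s hs) hs2⟩
  · obtain ⟨T, hT, hkey⟩ := key_quartic hsq (by omega) hdeg
    refine ⟨T ∪ {z | f.eval z = 0}, hT.union (Polynomial.finite_setOfPred_isRoot hf), fun z hz => ?_⟩
    rw [Set.mem_union, not_or] at hz
    obtain ⟨hz1, hz⟩ := hz
    have hz : f.eval z ≠ 0 := hz
    refine ⟨fun _ => hz, fun t ht ε hε => ?_⟩
    have ht' := ht hf
    obtain ⟨η, hη, hηε, hns⟩ := exists_radius (ht' t Set.right_mem_uIcc) hε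
    obtain ⟨s, hs, hs2⟩ := (hkey z hz1).2 t (fun u hu => hne u (ht' u hu)) η hη
    exact ⟨s, lt_of_lt_of_le hs hηε, htrans z s hz (hns s hs) hs2⟩

end Pool.Agent.Lib.MP42
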