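import Pool.Agent.Lib.MP_42de19_nt.Cubic

set_option autoImplicit false

namespace Pool.Agent.Lib.MP42

open Set Topology Filter

section ring

variable {R : Type*} [CommRing R]

/-- The quartic polynomial with coefficients `c`. -/
def ev4 (c : Fin 5 → R) (h : R) : R :=
  c 0 + c 1 * h + c 2 * h ^ 2 + c 3 * h ^ 3 + c 4 * h ^ 4

def rB (c : Fin 5 → R) : R := c 1 * c 3 - 4 * c 0 * c 4

def rC (c : Fin 5 → R) : R := c 0 * c 3 ^ 2 + c 1 ^ 2 * c 4 - 4 * c 0 * c 2 * c 4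

/-- The discriminant of the quartic polynomial with coefficients `c` (equal to that of its
resolvent cubic). -/
def disc4 (c : Fin 5 → R) : R :=
  c 2 ^ 2 * rB c ^ 2 - 4 * rB c ^ 3 - 4 * c 2 ^ 3 * rC c + 18 * c 2 * rB c * rC c - 27 * rC c ^ 2

/-- numerators and (reduced) denominators of the abscissae of the points `2 ^ k S₀` -/
def dseq (c : Fin 5 → R) : ℕ → R × R
  | 0 => (c 1 ^ 2 - 4 * c 0 * c 2, 4)
  | k + 1 =>
    let a := (dseq c k).1
    let b' := (dseq c k).2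
    let b := c 0 * b'
    (a ^ 4 - 2 * rB c * a ^ 2 * b ^ 2 - 8 * rC c * a * b ^ 3 + (rB c ^ 2 - 4 * c 2 * rC c) * b ^ 4,
      4 * b' * (a ^ 3 + c 2 * a ^ 2 * b + rB c * a * b ^ 2 + rC c * b ^ 3))

theorem dseq_map {S : Type*} [CommRing S] (φ : R →+* S) (c : Fin 5 → R) (k : ℕ) :
    dseq (fun i => φ (c i)) k = (φ (dseq c k).1, φ (dseq c k).2) := by
  induction k with
  | zero => simp only [dseq, map_sub, map_mul, map_pow, map_ofNat]
  | succ k ih =>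
    simp only [dseq, ih, rB, rC]
    simp only [map_sub, map_add, map_mul, map_pow, map_ofNat]

theorem rB_map {S : Type*} [CommRing S] (φ : R →+* S) (c : Fin 5 → R) :
    rB (fun i => φ (c i)) = φ (rB c) := by
  simp only [rB, map_sub, map_mul, map_ofNat]

theorem rC_map {S : Type*} [CommRing S] (φ : R →+* S) (c : Fin 5 → R) :
    rC (fun i => φ (c i)) = φ (rC c) := by
  simp only [rC, map_sub, map_add, map_mul, map_pow, map_ofNat]

theorem disc4_map {S : Type*} [CommRing S] (φ : R →+* S) (c : Fin 5 → R) :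
    disc4 (fun i => φ (c i)) = φ (disc4 c) := by
  unfold disc4
  rw [rB_map, rC_map]
  simp only [map_sub, map_add, map_mul, map_pow, map_ofNat]

theorem ev4_map {S : Type*} [CommRing S] (φ : R →+* S) (c : Fin 5 → R) (h : R) :
    ev4 (fun i => φ (c i)) (φ h) = φ (ev4 c h) := by
  simp only [ev4, map_add, map_mul, map_pow]

theorem dseq_zero (c : Fin 5 → R) (h0 : c 0 = 0) (k : ℕ) :
    dseq c k = (c 1 ^ (2 * 4 ^ k), 4 ^ (k + 1) * c 1 ^ (2 * 4 ^ k - 2)) := by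
  induction k with
  | zero => simp [dseq, h0]
  | succ k ih =>
    simp only [dseq, ih, h0]
    have h1 : 1 ≤ 4 ^ k := Nat.one_le_pow _ _ (by norm_num)
    refine Prod.ext ?_ ?_
    · simp only
      rw [show 2 * 4 ^ (k + 1) = (2 * 4 ^ k) * 4 by ring, pow_mul]
      ring
    · simp only
      have e : 2 * 4 ^ (k + 1) - 2 = (2 * 4 ^ k - 2) + 3 * (2 * 4 ^ k) := by
        rw [pow_succ]; omega
      rw [e, pow_add (c 1), pow_mul' (c 1) 3]
      ring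

/-- a double zero kills the discriminant -/
theorem disc4_eq_zero_of_double (c : Fin 5 → R) (h : R) (h0 : ev4 c h = 0)
    (h1 : c 1 + 2 * c 2 * h + 3 * c 3 * h ^ 2 + 4 * c 4 * h ^ 3 = 0) : disc4 c = 0 := by
  have e1 : c 1 = -(2 * c 2 * h + 3 * c 3 * h ^ 2 + 4 * c 4 * h ^ 3) := by
    linear_combination h1
  have e0 : c 0 = c 2 * h ^ 2 + 2 * c 3 * h ^ 3 + 3 * c 4 * h ^ 4 := by
    unfold ev4 at h0
    linear_combination h0 - h * h1
  unfold disc4 rB rC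
  rw [e0, e1]
  ring

end ring

/-- a multiple real zero of the resolvent cubic kills the discriminant -/
theorem cubD_ne_zero {c : Fin 5 → ℝ} (hc : disc4 c ≠ 0) (x : ℝ)
    (hx : cub (c 2, rB c, rC c) x = 0) : cubD (c 2, rB c, rC c) x ≠ 0 := by
  intro h
  apply hc
  unfold cub at hx
  unfold cubD at h
  simp only at hx h
  have e1 : rB c = -(3 * x ^ 2 + 2 * c 2 * x) := by linear_combination h
  have e2 : rC c = 2 * x ^ 3 + c 2 * x ^ 2 := by linear_combination hx - x * h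
  unfold disc4
  rw [e2, e1]
  ring

section rat

/-- Abscissae of the rational points of `Y² = X³ + A X² + B X + C`. -/
def ratX (A B C : ℚ) : Set ℝ :=
  {x | ∃ X Y : ℚ, Y ^ 2 = X ^ 3 + A * X ^ 2 + B * X + C ∧ x = (X : ℝ)}

theorem chord {A B C X₁ Y₁ X₂ Y₂ l : ℚ} (h1 : Y₁ ^ 2 = X₁ ^ 3 + A * X₁ ^ 2 + B * X₁ + C)
    (h2 : Y₂ ^ 2 = X₂ ^ 3 + A * X₂ ^ 2 + B * X₂ + C) (hne : X₁ ≠ X₂)
    (hl : l * (X₁ - X₂) = Y₁ - Y₂) :
    (Y₁ + l * (l ^ 2 - A - X₁ - X₂ - X₁)) ^ 2 = (l ^ 2 - A - X₁ - X₂) ^ 3 +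
      A * (l ^ 2 - A - X₁ - X₂) ^ 2 + B * (l ^ 2 - A - X₁ - X₂) + C := by
  have hd : X₁ - X₂ ≠ 0 := sub_ne_zero.mpr hne
  have hY : Y₂ = Y₁ + l * (X₂ - X₁) := by linear_combination hl
  rw [hY] at h2
  apply mul_left_cancel₀ hd
  linear_combination (l ^ 2 - A - X₁ - X₂ - X₂) * h1 - (l ^ 2 - A - X₁ - X₂ - X₁) * h2

theorem tangent {A B C X₁ Y₁ l : ℚ} (h1 : Y₁ ^ 2 = X₁ ^ 3 + A * X₁ ^ 2 + B * X₁ + C)
    (hl : l * (2 * Y₁) = 3 * X₁ ^ 2 + 2 * A * X₁ + B) :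
    (Y₁ + l * (l ^ 2 - A - 2 * X₁ - X₁)) ^ 2 = (l ^ 2 - A - 2 * X₁) ^ 3 +
      A * (l ^ 2 - A - 2 * X₁) ^ 2 + B * (l ^ 2 - A - 2 * X₁) + C := by
  linear_combination h1 + (l ^ 2 - A - 2 * X₁ - X₁) * hl

theorem cub_cast (A B C X : ℚ) : cub ((A : ℝ), (B : ℝ), (C : ℝ)) (X : ℝ) =
    ((X ^ 3 + A * X ^ 2 + B * X + C : ℚ) : ℝ) := by
  unfold cub; push_cast; ring

theorem sqrt_cub {A B C X Y : ℚ} (h : Y ^ 2 = X ^ 3 + A * X ^ 2 + B * X + C) :
    Real.sqrt (cub ((A : ℝ), (B : ℝ), (C : ℝ)) (X : ℝ)) = ((|Y| : ℚ) : ℝ) := by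
  rw [cub_cast, ← h]
  push_cast
  exact Real.sqrt_sq_eq_abs _

theorem sub_ratX (A B C : ℚ) : Sub ((A : ℝ), (B : ℝ), (C : ℝ)) (ratX A B C) where
  nonneg := by
    rintro _ ⟨X, Y, h, rfl⟩
    rw [cub_cast, ← h]
    push_cast
    positivity
  add := by
    rintro _ ⟨X₁, Y₁, h1, rfl⟩ _ ⟨X₂, Y₂, h2, rfl⟩ hne
    have hne' : X₁ ≠ X₂ := fun h => hne (by rw [h])
    have hd : X₁ - X₂ ≠ 0 := sub_ne_zero.mpr hne'
    unfold rp
    rw [sqrt_cub h1, sqrt_cub h2]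
    set l : ℚ := (|Y₁| + |Y₂|) / (X₁ - X₂) with hl
    have hl' : l * (X₁ - X₂) = |Y₁| - -|Y₂| := by
      rw [hl, div_mul_cancel₀ _ hd]; ring
    refine ⟨l ^ 2 - A - X₁ - X₂, _, chord (by rw [sq_abs]; exact h1)
      (by rw [neg_sq, sq_abs]; exact h2) hne' hl', ?_⟩
    rw [hl]; push_cast; ring
  sub := by
    rintro _ ⟨X₁, Y₁, h1, rfl⟩ _ ⟨X₂, Y₂, h2, rfl⟩ hne
    have hne' : X₁ ≠ X₂ := fun h => hne (by rw [h])
    have hd : X₁ - X₂ ≠ 0 := sub_ne_zero.mpr hne'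
    unfold rm
    rw [sqrt_cub h1, sqrt_cub h2]
    set l : ℚ := (|Y₁| - |Y₂|) / (X₁ - X₂) with hl
    have hl' : l * (X₁ - X₂) = |Y₁| - |Y₂| := by
      rw [hl, div_mul_cancel₀ _ hd]
    refine ⟨l ^ 2 - A - X₁ - X₂, _, chord (by rw [sq_abs]; exact h1)
      (by rw [sq_abs]; exact h2) hne' hl', ?_⟩
    rw [hl]; push_cast; ring
  dbl := by
    rintro _ ⟨X₁, Y₁, h1, rfl⟩ hne
    rw [cub_cast, ← h1] at hne
    have hY : Y₁ ≠ 0 := by
      rintro rfl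
      apply hne; norm_num
    unfold dbl
    rw [cub_cast, ← h1]
    set l : ℚ := (3 * X₁ ^ 2 + 2 * A * X₁ + B) / (2 * Y₁) with hl
    have hl' : l * (2 * Y₁) = 3 * X₁ ^ 2 + 2 * A * X₁ + B := by
      rw [hl, div_mul_cancel₀]; exact mul_ne_zero two_ne_zero hY
    refine ⟨l ^ 2 - A - 2 * X₁, _, tangent h1 hl', ?_⟩
    rw [hl]
    unfold cubD
    push_cast
    rw [div_pow]
    ring

/-- Enough distinct points among the `2 ^ k S₀`. -/
theorem many_points {q : Fin 5 → ℚ} {y : ℚ} (hy : y ^ 2 = q 0) (hy0 : y ≠ 0) {N : ℕ}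
    (hb : ∀ k < N, (dseq q k).2 ≠ 0)
    (hab : ∀ j < N, ∀ k < j, (dseq q j).1 * (dseq q k).2 ≠ (dseq q k).1 * (dseq q j).2) :
    ∃ F : Finset ℝ, ↑F ⊆ ratX (q 2) (rB q) (rC q) ∧ N ≤ F.card := by
  have hq0 : q 0 ≠ 0 := by rw [← hy]; positivity
  let x : ℕ → ℚ := fun k => (dseq q k).1 / (q 0 * (dseq q k).2)
  have hx : ∀ k < N, ∃ Y : ℚ, Y ^ 2 = x k ^ 3 + q 2 * x k ^ 2 + rB q * x k + rC q := by
    intro k
    induction k with
    | zero =>
      intro _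
      refine ⟨(q 1 * x 0 + 2 * q 0 * q 3) / (2 * y), ?_⟩
      simp only [x, dseq, rB, rC]
      rw [← hy] at hq0 ⊢
      field_simp
      ring
    | succ k ih =>
      intro hk
      obtain ⟨Y, hY⟩ := ih (by omega)
      have hbk := hb k (by omega)
      have hbk1 := hb (k + 1) hk
      simp only [dseq] at hbk1
      set a := (dseq q k).1 with ha
      set b' := (dseq q k).2 with hb'
      have hb0 : q 0 * b' ≠ 0 := mul_ne_zero hq0 hbk
      have hxk : x k = a / (q 0 * b') := rfl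
      have hf : a ^ 3 + q 2 * a ^ 2 * (q 0 * b') + rB q * a * (q 0 * b') ^ 2 +
          rC q * (q 0 * b') ^ 3 = Y ^ 2 * (q 0 * b') ^ 3 := by
        rw [hY, hxk]; field_simp
      have hY0 : Y ≠ 0 := by
        rintro rfl
        apply hbk1
        rw [hf]; ring
      set l : ℚ := (3 * x k ^ 2 + 2 * q 2 * x k + rB q) / (2 * Y) with hl
      have hl' : l * (2 * Y) = 3 * x k ^ 2 + 2 * q 2 * x k + rB q := by
        rw [hl, div_mul_cancel₀]; exact mul_ne_zero two_ne_zero hY0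
      have hX : x (k + 1) = l ^ 2 - q 2 - 2 * x k := by
        have e1 : x (k + 1) = (a ^ 4 - 2 * rB q * a ^ 2 * (q 0 * b') ^ 2 -
            8 * rC q * a * (q 0 * b') ^ 3 + (rB q ^ 2 - 4 * q 2 * rC q) * (q 0 * b') ^ 4) /
            (4 * (q 0 * b') * (Y ^ 2 * (q 0 * b') ^ 3)) := by
          simp only [x, dseq]
          rw [← ha, ← hb', hf]
          congr 1
          ring
        have e2 : l ^ 2 = (3 * x k ^ 2 + 2 * q 2 * x k + rB q) ^ 2 / (4 * Y ^ 2) := by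
          rw [hl, div_pow]; ring
        rw [e1, e2, div_eq_iff (by positivity)]
        rw [hxk] at hY ⊢
        have e3 : (4 * (q 0 * b') * (Y ^ 2 * (q 0 * b') ^ 3)) = 4 * Y ^ 2 * (q 0 * b') ^ 4 := by
          ring
        have e7 : ∀ u v w D : ℚ, (u - v - w) * D = u * D - v * D - w * D := by intros; ring
        rw [e3, e7]
        have e4 : (3 * (a / (q 0 * b')) ^ 2 + 2 * q 2 * (a / (q 0 * b')) + rB q) ^ 2 /
            (4 * Y ^ 2) * (4 * Y ^ 2 * (q 0 * b') ^ 4) =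
            (3 * a ^ 2 + 2 * q 2 * a * (q 0 * b') + rB q * (q 0 * b') ^ 2) ^ 2 := by
          field_simp
        rw [e4]
        have e5 : q 2 * (4 * Y ^ 2 * (q 0 * b') ^ 4) =
            4 * q 2 * (q 0 * b') * (Y ^ 2 * (q 0 * b') ^ 3) := by ring
        have e6 : 2 * (a / (q 0 * b')) * (4 * Y ^ 2 * (q 0 * b') ^ 4) =
            8 * a * (Y ^ 2 * (q 0 * b') ^ 3) := by
          field_simp; ring
        rw [e5, e6, ← hf]
        ring
      exact ⟨_, by rw [hX]; exact tangent hY hl'⟩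
  classical
  refine ⟨(Finset.range N).image (fun k => ((x k : ℚ) : ℝ)), ?_, ?_⟩
  · intro r hr
    simp only [Finset.coe_image, Set.mem_image, Finset.coe_range, mem_Iio] at hr
    obtain ⟨k, hk, rfl⟩ := hr
    obtain ⟨Y, hY⟩ := hx k hk
    exact ⟨x k, Y, hY, rfl⟩
  · rw [Finset.card_image_of_injOn, Finset.card_range]
    have key : ∀ j < N, ∀ k < j, x j ≠ x k := by
      intro j hj k hk h
      apply hab j hj k hk
      have hbj := hb j hj
      have hbk := hb k (by omega)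
      have h2 : (dseq q j).1 / (q 0 * (dseq q j).2) = (dseq q k).1 / (q 0 * (dseq q k).2) := h
      rw [div_eq_div_iff (mul_ne_zero hq0 hbj) (mul_ne_zero hq0 hbk)] at h2
      apply mul_left_cancel₀ hq0
      linear_combination h2
    intro j hj k hk h
    simp only [Finset.coe_range, mem_Iio] at hj hk
    have h' : x j = x k := by
      have h3 : ((x j : ℚ) : ℝ) = ((x k : ℚ) : ℝ) := h
      exact_mod_cast h3
    rcases lt_trichotomy j k with h1 | h1 | h1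
    · exact absurd h'.symm (key k hk j h1)
    · exact h1
    · exact absurd h' (key j hj k h1)

/-- From a point of the resolvent cubic back to the quartic. -/
theorem back {q : Fin 5 → ℚ} {y X Y : ℚ} (hy : y ^ 2 = q 0) (hy0 : y ≠ 0)
    (hY : Y ^ 2 = X ^ 3 + q 2 * X ^ 2 + rB q * X + rC q)
    (hden : q 1 * X + 2 * q 0 * q 3 + 2 * y * Y ≠ 0) :
    ∃ v : ℚ, v ^ 2 = ev4 q ((q 1 ^ 2 - 4 * q 0 * q 2 - 4 * q 0 * X) /
      (q 1 * X + 2 * q 0 * q 3 + 2 * y * Y)) := by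
  set den := q 1 * X + 2 * q 0 * q 3 + 2 * y * Y with hdd
  set h := (q 1 ^ 2 - 4 * q 0 * q 2 - 4 * q 0 * X) / den with hh
  have h1 : h * den = q 1 ^ 2 - 4 * q 0 * q 2 - 4 * q 0 * X := by
    rw [hh, div_mul_cancel₀ _ hden]
  -- the quadratic relation
  have h2 : den * ((q 1 ^ 2 - 4 * q 0 * q 2 - 4 * q 0 * X) - 2 * (q 1 * X + 2 * q 0 * q 3) * h +
      (X ^ 2 - 4 * q 0 * q 4) * h ^ 2) = 0 := by
    have h3 : den * ((q 1 ^ 2 - 4 * q 0 * q 2 - 4 * q 0 * X) - 2 * (q 1 * X + 2 * q 0 * q 3) * h +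
        (X ^ 2 - 4 * q 0 * q 4) * h ^ 2) * den = 0 := by
      have e1 : den * ((q 1 ^ 2 - 4 * q 0 * q 2 - 4 * q 0 * X) -
          2 * (q 1 * X + 2 * q 0 * q 3) * h + (X ^ 2 - 4 * q 0 * q 4) * h ^ 2) * den =
          (q 1 ^ 2 - 4 * q 0 * q 2 - 4 * q 0 * X) * den ^ 2 -
          2 * (q 1 * X + 2 * q 0 * q 3) * den * (h * den) +
          (X ^ 2 - 4 * q 0 * q 4) * (h * den) ^ 2 := by ring
      rw [e1, h1, hdd]
      unfold rB rC at hY
      linear_combination (q 1 ^ 2 - 4 * q 0 * q 2 - 4 * q 0 * X) * (4 * y ^ 2 * hY +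
        4 * (X ^ 3 + q 2 * X ^ 2 + (q 1 * q 3 - 4 * q 0 * q 4) * X +
        (q 0 * q 3 ^ 2 + q 1 ^ 2 * q 4 - 4 * q 0 * q 2 * q 4)) * hy)
    exact (mul_eq_zero.mp h3).resolve_right hden
  have h4 := (mul_eq_zero.mp h2).resolve_left hden
  refine ⟨(2 * q 0 + q 1 * h - X * h ^ 2) / (2 * y), ?_⟩
  rw [div_pow, div_eq_iff (by positivity)]
  unfold ev4
  linear_combination h ^ 2 * h4 - 4 * (q 0 + q 1 * h + q 2 * h ^ 2 + q 3 * h ^ 3 + q 4 * h ^ 4) * hy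

end rat

end Pool.Agent.Lib.MP42
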