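import Mathlib

set_option autoImplicit false

namespace Pool.Agent.Lib.MP42

open Set

/-- Sets in the Boolean algebra generated by the sets `{x | 0 < ev a x}`, where `ev` evaluates the
elements of a ring `A` as real functions on `X`. -/
inductive SA {A X : Type*} [CommRing A] (ev : A →+* (X → ℝ)) : Set X → Prop
  | pos (a : A) : SA ev {x | 0 < ev a x}
  | compl {S : Set X} : SA ev S → SA ev Sᶜ
  | inter {S T : Set X} : SA ev S → SA ev T → SA ev (S ∩ T)

namespace SA

variable {A X : Type*} [CommRing A] {ev : A →+* (X → ℝ)}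

theorem univ : SA ev (Set.univ : Set X) := by
  have h := SA.pos (ev := ev) (1 : A)
  have : {x | 0 < ev (1 : A) x} = Set.univ := by
    ext x; simp
  rwa [this] at h

theorem empty : SA ev (∅ : Set X) := by
  have h := (SA.univ (ev := ev)).compl
  simpa using h

theorem union {S T : Set X} (hS : SA ev S) (hT : SA ev T) : SA ev (S ∪ T) := by
  have h := (hS.compl.inter hT.compl).compl
  rwa [← Set.compl_union, compl_compl] at h

theorem diff {S T : Set X} (hS : SA ev S) (hT : SA ev T) : SA ev (S \ T) := by
  rw [Set.sdiff_eq]; exact hS.inter hT.compl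

theorem biInter_finset {κ : Type*} (s : Finset κ) (f : κ → Set X) (h : ∀ i ∈ s, SA ev (f i)) :
    SA ev (⋂ i ∈ s, f i) := by
  classical
  induction s using Finset.induction_on with
  | empty => simpa using SA.univ
  | insert a s ha ih =>
    rw [Finset.set_biInter_insert]
    exact (h a (by simp)).inter (ih fun i hi => h i (by simp [hi]))

theorem biUnion_finset {κ : Type*} (s : Finset κ) (f : κ → Set X) (h : ∀ i ∈ s, SA ev (f i)) :
    SA ev (⋃ i ∈ s, f i) := by
  classical
  induction s using Finset.induction_on with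
  | empty => simpa using SA.empty
  | insert a s ha ih =>
    rw [Finset.set_biUnion_insert]
    exact (h a (by simp)).union (ih fun i hi => h i (by simp [hi]))

theorem biUnion_finite {κ : Type*} {s : Set κ} (hs : s.Finite) (f : κ → Set X)
    (h : ∀ i ∈ s, SA ev (f i)) : SA ev (⋃ i ∈ s, f i) := by
  have := SA.biUnion_finset (ev := ev) hs.toFinset f (fun i hi => h i (by simpa using hi))
  simpa using this

theorem iUnion_finite {κ : Type*} [Finite κ] (f : κ → Set X)
    (h : ∀ i, SA ev (f i)) : SA ev (⋃ i, f i) := by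
  have := SA.biUnion_finite (ev := ev) (Set.finite_univ (α := κ)) f (fun i _ => h i)
  simpa using this

theorem iInter_finite {κ : Type*} [Finite κ] (f : κ → Set X)
    (h : ∀ i, SA ev (f i)) : SA ev (⋂ i, f i) := by
  have := (SA.iUnion_finite (ev := ev) (fun i => (f i)ᶜ) (fun i => (h i).compl)).compl
  simpa using this

theorem sUnion_finite {s : Set (Set X)} (hs : s.Finite) (h : ∀ S ∈ s, SA ev S) :
    SA ev (⋃₀ s) := by
  rw [Set.sUnion_eq_biUnion]
  exact SA.biUnion_finite hs _ h

theorem neg (a : A) : SA ev {x | ev a x < 0} := by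
  have h := SA.pos (ev := ev) (-a)
  have : {x | 0 < ev (-a) x} = {x | ev a x < 0} := by
    ext x; simp
  rwa [this] at h

theorem eq_zero (a : A) : SA ev {x | ev a x = 0} := by
  have h := ((SA.pos (ev := ev) a).union (SA.neg a)).compl
  have : ({x | 0 < ev a x} ∪ {x | ev a x < 0})ᶜ = {x | ev a x = 0} := by
    ext x
    simp only [mem_compl_iff, mem_union, mem_ofPred_eq, not_or, not_lt]
    constructor
    · rintro ⟨h1, h2⟩; exact le_antisymm h1 h2
    · intro h1; rw [h1]; simp
  rwa [this] at h

theorem ne_zero (a : A) : SA ev {x | ev a x ≠ 0} := (SA.eq_zero a).compl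

theorem nonneg (a : A) : SA ev {x | 0 ≤ ev a x} := by
  have h := (SA.neg (ev := ev) a).compl
  have : {x | ev a x < 0}ᶜ = {x | 0 ≤ ev a x} := by
    ext x; simp
  rwa [this] at h

theorem sign (a : A) (s : SignType) : SA ev {x | SignType.sign (ev a x) = s} := by
  cases s with
  | zero =>
    have : {x | SignType.sign (ev a x) = SignType.zero} = {x | ev a x = 0} := by
      ext x
      have : (SignType.zero : SignType) = 0 := rfl
      simp only [mem_ofPred_eq, this, sign_eq_zero_iff]
    rw [this]; exact SA.eq_zero a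
  | neg =>
    have : {x | SignType.sign (ev a x) = SignType.neg} = {x | ev a x < 0} := by
      ext x
      have : (SignType.neg : SignType) = -1 := rfl
      simp only [mem_ofPred_eq, this, sign_eq_neg_one_iff]
    rw [this]; exact SA.neg a
  | pos =>
    have : {x | SignType.sign (ev a x) = SignType.pos} = {x | 0 < ev a x} := by
      ext x
      have : (SignType.pos : SignType) = 1 := rfl
      simp only [mem_ofPred_eq, this, sign_eq_one_iff]
    rw [this]; exact SA.pos a

theorem const (P : Prop) : SA ev {_x : X | P} := by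
  by_cases h : P
  · simpa [h] using SA.univ
  · simpa [h] using SA.empty

/-- Pull back along a map given by ring elements. -/
theorem comap {B Y : Type*} [CommRing B] {ev' : B →+* (Y → ℝ)} (ψ : A → B) (φ : Y → X)
    (h : ∀ a y, ev' (ψ a) y = ev a (φ y)) {S : Set X} (hS : SA ev S) : SA ev' (φ ⁻¹' S) := by
  induction hS with
  | pos a =>
    have : φ ⁻¹' {x | 0 < ev a x} = {y | 0 < ev' (ψ a) y} := by
      ext y; simp [h]
    rw [this]; exact SA.pos _
  | compl _ ih => rw [Set.preimage_compl]; exact ih.compl
  | inter _ _ ih1 ih2 => rw [Set.preimage_inter]; exact ih1.inter ih2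

/-- Every `SA` set is determined by the signs of finitely many ring elements. -/
theorem exists_finset {S : Set X} (hS : SA ev S) : ∃ F : Finset A, ∀ p q : X,
    (∀ f ∈ F, SignType.sign (ev f p) = SignType.sign (ev f q)) → (p ∈ S → q ∈ S) := by
  classical
  induction hS with
  | pos a =>
    refine ⟨{a}, fun p q h hp => ?_⟩
    have h1 := h a (by simp)
    have h2 : SignType.sign (ev a p) = 1 := sign_pos hp
    rw [h2] at h1
    exact sign_eq_one_iff.mp h1.symm
  | compl _ ih =>
    obtain ⟨F, hF⟩ := ih
    refine ⟨F, fun p q h hp hq => hp (hF q p (fun f hf => (h f hf).symm) hq)⟩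
  | inter _ _ ih1 ih2 =>
    obtain ⟨F, hF⟩ := ih1
    obtain ⟨G, hG⟩ := ih2
    refine ⟨F ∪ G, fun p q h hp => ⟨hF p q (fun f hf => h f (by simp [hf])) hp.1,
      hG p q (fun f hf => h f (by simp [hf])) hp.2⟩⟩

end SA

end Pool.Agent.Lib.MP42
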