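import Pool.Agent.Lib.MP_42de19_nt.Quartic

set_option autoImplicit false

namespace Pool.Agent.Lib.MP42

open Set Topology Filter

/-- coefficients of the resolvent cubic -/
def res (c : Fin 5 → ℝ) : ℝ × ℝ × ℝ := (c 2, rB c, rC c)

theorem continuous_res : Continuous res := by
  unfold res rB rC; fun_prop

/-- the largest abscissa lying over `h` -/
noncomputable def Fx (c : Fin 5 → ℝ) (h : ℝ) : ℝ :=
  (2 * c 0 + c 1 * h + 2 * Real.sqrt (c 0) * Real.sqrt (ev4 c h)) / h ^ 2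

theorem quad_rel {c : Fin 5 → ℝ} {h : ℝ} (hc0 : 0 < c 0) (hh : h ≠ 0) (hw : 0 ≤ ev4 c h) :
    (c 1 ^ 2 - 4 * c 0 * c 2 - 4 * c 0 * Fx c h) - 2 * (c 1 * Fx c h + 2 * c 0 * c 3) * h +
      (Fx c h ^ 2 - 4 * c 0 * c 4) * h ^ 2 = 0 := by
  set X := Fx c h with hX
  have h1 : X * h ^ 2 = 2 * c 0 + c 1 * h + 2 * Real.sqrt (c 0) * Real.sqrt (ev4 c h) := by
    rw [hX, Fx, div_mul_cancel₀]; positivity
  have h2 : (X * h ^ 2 - 2 * c 0 - c 1 * h) ^ 2 = 4 * c 0 * ev4 c h := by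
    rw [h1]
    have e1 : Real.sqrt (c 0) ^ 2 = c 0 := Real.sq_sqrt hc0.le
    have e2 : Real.sqrt (ev4 c h) ^ 2 = ev4 c h := Real.sq_sqrt hw
    have e3 : (2 * c 0 + c 1 * h + 2 * Real.sqrt (c 0) * Real.sqrt (ev4 c h) - 2 * c 0 -
        c 1 * h) ^ 2 = 4 * (Real.sqrt (c 0) ^ 2) * (Real.sqrt (ev4 c h) ^ 2) := by ring
    rw [e3, e1, e2]
  have h3 : h ^ 2 * ((c 1 ^ 2 - 4 * c 0 * c 2 - 4 * c 0 * X) - 2 * (c 1 * X + 2 * c 0 * c 3) * h +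
      (X ^ 2 - 4 * c 0 * c 4) * h ^ 2) = 0 := by
    unfold ev4 at h2
    linear_combination h2
  exact (mul_eq_zero.mp h3).resolve_left (by positivity)

/-- the ordinate (over the root) -/
noncomputable def Fy (c : Fin 5 → ℝ) (h : ℝ) : ℝ :=
  ((c 1 ^ 2 - 4 * c 0 * c 2 - 4 * c 0 * Fx c h) / h - c 1 * Fx c h - 2 * c 0 * c 3) /
    (2 * Real.sqrt (c 0))

theorem forward {c : Fin 5 → ℝ} {h : ℝ} (hc0 : 0 < c 0) (hh : h ≠ 0) (hw : 0 ≤ ev4 c h) :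
    Fy c h ^ 2 = cub (res c) (Fx c h) := by
  have h1 := quad_rel hc0 hh hw
  unfold Fy
  set X := Fx c h with hX
  have e1 : Real.sqrt (c 0) ^ 2 = c 0 := Real.sq_sqrt hc0.le
  rw [div_pow, mul_pow, e1, div_eq_iff (by positivity)]
  set S := c 1 ^ 2 - 4 * c 0 * c 2 - 4 * c 0 * X with hS
  have h2 : S / h = 2 * (c 1 * X + 2 * c 0 * c 3) - (X ^ 2 - 4 * c 0 * c 4) * h := by
    rw [div_eq_iff hh]; linear_combination h1
  have h3 : (S / h - c 1 * X - 2 * c 0 * c 3) ^ 2 = (c 1 * X + 2 * c 0 * c 3) ^ 2 -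
      S * (X ^ 2 - 4 * c 0 * c 4) := by
    rw [h2]
    linear_combination (-(X ^ 2 - 4 * c 0 * c 4)) * (- h1)
  rw [h3, hS]
  unfold cub res rB rC
  simp only
  ring

theorem cub_nonneg_right {c : Fin 5 → ℝ} {h : ℝ} (hc0 : 0 < c 0) (hh : h ≠ 0)
    (hpos : ∀ τ ∈ Icc (0 : ℝ) 1, 0 ≤ ev4 c (τ * h)) {X : ℝ} (hX : Fx c h < X) :
    0 ≤ cub (res c) X := by
  let G : ℝ → ℝ := fun τ => 2 * c 0 + c 1 * (τ * h) + 2 * Real.sqrt (c 0) *
    Real.sqrt (ev4 c (τ * h)) - X * (τ * h) ^ 2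
  have hG : ContinuousOn G (Icc 0 1) := by
    apply Continuous.continuousOn
    simp only [G, ev4]
    fun_prop
  have hsq : 0 < Real.sqrt (c 0) := Real.sqrt_pos.mpr hc0
  have hG0 : 0 < G 0 := by
    simp only [G, zero_mul, mul_zero, add_zero]
    have : ev4 c 0 = c 0 := by simp [ev4]
    rw [this]
    have := mul_pos hsq hsq
    nlinarith
  have hG1 : G 1 < 0 := by
    have hh2 : 0 < h ^ 2 := by positivity
    have : Fx c h * h ^ 2 < X * h ^ 2 := mul_lt_mul_of_pos_right hX hh2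
    unfold Fx at this
    rw [div_mul_cancel₀ _ hh2.ne'] at this
    simp only [G, one_mul]
    linarith
  obtain ⟨τ, hτ, hGτ⟩ := intermediate_value_Icc' (zero_le_one' ℝ) hG ⟨hG1.le, hG0.le⟩
  have hτ0 : τ ≠ 0 := by
    rintro rfl; rw [hGτ] at hG0; exact lt_irrefl _ hG0
  have hτh : τ * h ≠ 0 := mul_ne_zero hτ0 hh
  have hXe : X = Fx c (τ * h) := by
    unfold Fx
    rw [eq_div_iff (by positivity)]
    simp only [G] at hGτ
    linarith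
  rw [hXe, ← forward hc0 hτh (hpos τ hτ)]
  positivity

theorem cub_pos_right {c : Fin 5 → ℝ} {h : ℝ} (hc0 : 0 < c 0) (hh : h ≠ 0)
    (hpos : ∀ τ ∈ Icc (0 : ℝ) 1, 0 ≤ ev4 c (τ * h)) (hdisc : disc4 c ≠ 0) {X : ℝ}
    (hX : Fx c h < X) : 0 < cub (res c) X := by
  refine lt_of_le_of_ne (cub_nonneg_right hc0 hh hpos hX) (fun h0 => ?_)
  refine cubD_ne_zero hdisc X h0.symm ?_
  have hd : HasDerivAt (cub (res c)) (cubD (res c) X) X := by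
    unfold cub cubD
    have h1 : HasDerivAt (fun x : ℝ => x ^ 3 + (res c).1 * x ^ 2 + (res c).2.1 * x + (res c).2.2)
        ((3 : ℕ) * X ^ 2 + (res c).1 * ((2 : ℕ) * X ^ 1) + (res c).2.1 * 1) X := by
      exact (((hasDerivAt_pow 3 X).add ((hasDerivAt_pow 2 X).const_mul _)).add
        ((hasDerivAt_id X).const_mul _)).add_const _
    convert h1 using 1
    push_cast; ring
  have hmin : IsLocalMin (cub (res c)) X := by
    have : ∀ᶠ x in 𝓝 X, Fx c h < x := lt_mem_nhds hX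
    filter_upwards [this] with x hx
    rw [← h0]
    exact cub_nonneg_right hc0 hh hpos hx
  exact hmin.hasDerivAt_eq_zero hd

theorem Fx_ne {c : Fin 5 → ℝ} {h h' : ℝ} (hc0 : 0 < c 0) (hh : h ≠ 0) (hh' : h' ≠ 0)
    (hne : h ≠ h') (hw : 0 ≤ ev4 c h) (hw' : 0 ≤ ev4 c h') (hdisc : disc4 c ≠ 0)
    (h1 : c 1 ^ 2 - 4 * c 0 * c 2 - 4 * c 0 * Fx c h = 0) :
    c 1 ^ 2 - 4 * c 0 * c 2 - 4 * c 0 * Fx c h' ≠ 0 := by
  intro h2
  apply hdisc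
  have hXX : Fx c h' = Fx c h := by
    have : 4 * c 0 * (Fx c h' - Fx c h) = 0 := by linear_combination h1 - h2
    rcases mul_eq_zero.mp this with h3 | h3
    · exact absurd h3 (by positivity)
    · linarith
  have q1 := quad_rel hc0 hh hw
  have q2 := quad_rel hc0 hh' hw'
  rw [hXX] at q2 h2
  set X := Fx c h with hX
  rw [h1] at q1
  rw [h1] at q2
  have r1 : (X ^ 2 - 4 * c 0 * c 4) * h = 2 * (c 1 * X + 2 * c 0 * c 3) := by
    apply mul_left_cancel₀ hh; linear_combination q1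
  have r2 : (X ^ 2 - 4 * c 0 * c 4) * h' = 2 * (c 1 * X + 2 * c 0 * c 3) := by
    apply mul_left_cancel₀ hh'; linear_combination q2
  have r3 : X ^ 2 - 4 * c 0 * c 4 = 0 := by
    have : (X ^ 2 - 4 * c 0 * c 4) * (h - h') = 0 := by linear_combination r1 - r2
    exact (mul_eq_zero.mp this).resolve_right (sub_ne_zero.mpr hne)
  have r4 : c 1 * X + 2 * c 0 * c 3 = 0 := by
    rw [r3] at r1; linarith
  have s2 : c 2 = (c 1 ^ 2 - 4 * c 0 * X) / (4 * c 0) := by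
    rw [eq_div_iff (by positivity)]; linarith
  have s3 : c 3 = -(c 1 * X) / (2 * c 0) := by
    rw [eq_div_iff (by positivity)]; linarith
  have s4 : c 4 = X ^ 2 / (4 * c 0) := by
    rw [eq_div_iff (by positivity)]; linarith
  unfold disc4 rB rC
  rw [s2, s3, s4]
  field_simp
  ring

/-- The base point of the segment has rational points over every target nearby. -/
theorem slice_move_aux {c₀ : Fin 5 → ℝ} {h₁ : ℝ} (hc0 : 0 < c₀ 0) (hh : h₁ ≠ 0)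
    (hpos : ∀ τ ∈ Icc (0 : ℝ) 1, 0 ≤ ev4 c₀ (τ * h₁)) (hdisc : disc4 c₀ ≠ 0)
    (hX0 : c₀ 1 ^ 2 - 4 * c₀ 0 * c₀ 2 - 4 * c₀ 0 * Fx c₀ h₁ ≠ 0) {ε : ℝ} (hε : 0 < ε) :
    ∃ N : ℕ, ∀ᶠ c : Fin 5 → ℝ in 𝓝 c₀, ∀ q : Fin 5 → ℚ, (∀ i, c i = (q i : ℝ)) → ∀ y : ℚ, y ^ 2 = q 0 → y ≠ 0 →
      (∃ F : Finset ℝ, ↑F ⊆ ratX (q 2) (rB q) (rC q) ∧ N ≤ F.card) →
      ∃ h : ℚ, |(h : ℝ) - h₁| < ε ∧ ∃ v : ℚ, v ^ 2 = ev4 q h := by
  set X₁ := Fx c₀ h₁ with hX₁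
  set Y₁ := Fy c₀ h₁ with hY₁
  have hev1 : 0 ≤ ev4 c₀ h₁ := by simpa using hpos 1 ⟨zero_le_one, le_refl _⟩
  have hY1 : Y₁ ^ 2 = cub (res c₀) X₁ := forward hc0 hh hev1
  have hsq : 0 < Real.sqrt (c₀ 0) := Real.sqrt_pos.mpr hc0
  obtain ⟨σ, hσ, hσY⟩ : ∃ σ : ℚ, (σ = 1 ∨ σ = -1) ∧
      Y₁ = (σ : ℝ) * Real.sqrt (cub (res c₀) X₁) := by
    rcases le_total 0 Y₁ with h | h
    · refine ⟨1, Or.inl rfl, ?_⟩
      rw [← hY1, Real.sqrt_sq h]; simp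
    · refine ⟨-1, Or.inr rfl, ?_⟩
      rw [← hY1, ← neg_sq, Real.sqrt_sq (by linarith)]; simp
  -- the inverse map
  let num : (Fin 5 → ℝ) × ℝ → ℝ := fun z => z.1 1 ^ 2 - 4 * z.1 0 * z.1 2 - 4 * z.1 0 * z.2
  let den : (Fin 5 → ℝ) × ℝ → ℝ := fun z => z.1 1 * z.2 + 2 * z.1 0 * z.1 3 +
    2 * Real.sqrt (z.1 0) * (σ * Real.sqrt (cub (res z.1) z.2))
  have hcn : Continuous num := by simp only [num]; fun_prop
  have hcc : Continuous (fun z : (Fin 5 → ℝ) × ℝ => cub (res z.1) z.2) :=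
    continuous_cub.comp ((continuous_res.comp continuous_fst).prodMk continuous_snd)
  have hcd : Continuous den := by
    simp only [den]
    fun_prop
  have hdenv : den (c₀, X₁) * h₁ = num (c₀, X₁) := by
    simp only [den, num]
    rw [← hσY, hY₁]
    unfold Fy
    rw [← hX₁]
    have : 2 * Real.sqrt (c₀ 0) * (((c₀ 1 ^ 2 - 4 * c₀ 0 * c₀ 2 - 4 * c₀ 0 * X₁) / h₁ -
        c₀ 1 * X₁ - 2 * c₀ 0 * c₀ 3) / (2 * Real.sqrt (c₀ 0))) =
        (c₀ 1 ^ 2 - 4 * c₀ 0 * c₀ 2 - 4 * c₀ 0 * X₁) / h₁ - c₀ 1 * X₁ - 2 * c₀ 0 * c₀ 3 := by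
      field_simp
    rw [this]
    field_simp
    ring
  have hden0 : den (c₀, X₁) ≠ 0 := by
    intro h
    rw [h, zero_mul] at hdenv
    exact hX0 hdenv.symm
  have hval : num (c₀, X₁) / den (c₀, X₁) = h₁ := by
    rw [← hdenv, mul_comm, mul_div_assoc, div_self hden0, mul_one]
  have hcont : ContinuousAt (fun z => num z / den z) (c₀, X₁) :=
    hcn.continuousAt.div hcd.continuousAt hden0
  have ev1 : ∀ᶠ z in 𝓝 (c₀, X₁), |num z / den z - h₁| < ε := by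
    have := Metric.tendsto_nhds.mp hcont.tendsto ε hε
    simpa only [hval, Real.dist_eq] using this
  have ev2 : ∀ᶠ z in 𝓝 (c₀, X₁), den z ≠ 0 := hcd.continuousAt.eventually_ne hden0
  have ev3 := ev1.and ev2
  rw [nhds_prod_eq, Filter.eventually_prod_iff] at ev3
  obtain ⟨pa, hpa, pb, hpb, hab⟩ := ev3
  rw [Metric.eventually_nhds_iff] at hpb
  obtain ⟨δ, hδ, hpb⟩ := hpb
  obtain ⟨N, hN⟩ := dense_large (p₀ := res c₀) (fun x hx => cubD_ne_zero hdisc x hx)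
    (X := X₁ + δ / 3) (ε := δ / 3) (fun x hx => by
      refine cub_pos_right hc0 hh hpos hdisc ?_
      rw [← hX₁]; linarith) (by linarith)
  refine ⟨N, ?_⟩
  have ev4' : ∀ᶠ c in 𝓝 c₀, ∀ K : Set ℝ, Sub (res c) K →
      (∃ F : Finset ℝ, ↑F ⊆ K ∧ N ≤ F.card) →
      ∃ h ∈ K, X₁ + δ / 3 ≤ h ∧ h < X₁ + δ / 3 + δ / 3 :=
    continuous_res.continuousAt.eventually hN
  filter_upwards [hpa, ev4'] with c hc1 hc2 q hq y hy hy0 hF
  have hres : res c = ((q 2 : ℝ), ((rB q : ℚ) : ℝ), ((rC q : ℚ) : ℝ)) := by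
    have hcq : c = fun i => (Rat.castHom ℝ) (q i) := by
      funext i; rw [hq]; rfl
    unfold res
    rw [hcq, rB_map, rC_map]
    rfl
  obtain ⟨X, hX, hX1, hX2⟩ := hc2 _ (by rw [hres]; exact sub_ratX _ _ _) hF
  obtain ⟨X, Y, hXY, rfl⟩ := hX
  obtain ⟨k1, k2⟩ := hab hc1 (hpb (y := (X : ℝ)) (by
    rw [Real.dist_eq, abs_lt]; constructor <;> linarith))
  have hsc : Real.sqrt (c 0) = ((|y| : ℚ) : ℝ) := by
    rw [hq, ← hy]; push_cast; exact Real.sqrt_sq_eq_abs _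
  have hsY : Real.sqrt (cub (res c) (X : ℝ)) = ((|Y| : ℚ) : ℝ) := by
    rw [hres]; exact sqrt_cub hXY
  have hdenq : den (c, (X : ℝ)) = ((q 1 * X + 2 * q 0 * q 3 + 2 * |y| * (σ * |Y|) : ℚ) : ℝ) := by
    simp only [den]
    rw [hsc, hsY, hq, hq, hq]
    push_cast; ring
  have hnumq : num (c, (X : ℝ)) = ((q 1 ^ 2 - 4 * q 0 * q 2 - 4 * q 0 * X : ℚ) : ℝ) := by
    simp only [num]
    rw [hq, hq, hq]
    push_cast; ring
  have hdq : q 1 * X + 2 * q 0 * q 3 + 2 * |y| * (σ * |Y|) ≠ 0 := by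
    intro h
    rw [hdenq, h] at k2
    simp at k2
  have hσ2 : σ ^ 2 = 1 := by rcases hσ with h | h <;> rw [h] <;> norm_num
  obtain ⟨v, hv⟩ := back (q := q) (y := |y|) (X := X) (Y := σ * |Y|) (by rw [sq_abs]; exact hy)
    (abs_ne_zero.mpr hy0) (by rw [mul_pow, hσ2, one_mul, sq_abs]; exact hXY) hdq
  refine ⟨_, ?_, v, hv⟩
  push_cast at k1 ⊢
  rw [hdenq, hnumq] at k1
  push_cast at k1
  exact k1

theorem slice_move {c₀ : Fin 5 → ℝ} {h₀ : ℝ}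
    (hpos : ∀ τ ∈ Icc (0 : ℝ) 1, 0 < ev4 c₀ (τ * h₀)) (hdisc : disc4 c₀ ≠ 0)
    {ε : ℝ} (hε : 0 < ε) :
    ∃ N : ℕ, ∀ᶠ c : Fin 5 → ℝ in 𝓝 c₀, ∀ q : Fin 5 → ℚ, (∀ i, c i = (q i : ℝ)) → ∀ y : ℚ, y ^ 2 = q 0 → y ≠ 0 →
      (∃ F : Finset ℝ, ↑F ⊆ ratX (q 2) (rB q) (rC q) ∧ N ≤ F.card) →
      ∃ h : ℚ, |(h : ℝ) - h₀| < ε ∧ ∃ v : ℚ, v ^ 2 = ev4 q h := by
  have hc0 : 0 < c₀ 0 := by
    have := hpos 0 ⟨le_refl _, zero_le_one⟩
    simpa [ev4] using this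
  by_cases hh : h₀ = 0
  · refine ⟨0, Filter.Eventually.of_forall fun c q hq y hy hy0 hF => ⟨0, ?_, y, ?_⟩⟩
    · rw [hh]; simpa using hε
    · rw [hy]; simp [ev4]
  -- choose a good multiple
  obtain ⟨τ, hτ0, hτ1, hτε, hτX⟩ : ∃ τ : ℝ, 0 < τ ∧ τ ≤ 1 ∧ |τ * h₀ - h₀| < ε / 2 ∧
      c₀ 1 ^ 2 - 4 * c₀ 0 * c₀ 2 - 4 * c₀ 0 * Fx c₀ (τ * h₀) ≠ 0 := by
    by_cases hb : c₀ 1 ^ 2 - 4 * c₀ 0 * c₀ 2 - 4 * c₀ 0 * Fx c₀ h₀ = 0
    · set η := min (1 / 2) (ε / (4 * |h₀|)) with hη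
      have habs : 0 < |h₀| := abs_pos.mpr hh
      have hη0 : 0 < η := lt_min (by norm_num) (by positivity)
      have hη1 : η ≤ 1 / 2 := min_le_left _ _
      have hη2 : η * |h₀| ≤ ε / 4 := by
        have : η ≤ ε / (4 * |h₀|) := min_le_right _ _
        calc η * |h₀| ≤ ε / (4 * |h₀|) * |h₀| := mul_le_mul_of_nonneg_right this habs.le
          _ = ε / 4 := by field_simp
      refine ⟨1 - η, by linarith, by linarith, ?_, ?_⟩
      · rw [show (1 - η) * h₀ - h₀ = -(η * h₀) by ring, abs_neg, abs_mul, abs_of_pos hη0]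
        linarith
      · refine Fx_ne hc0 hh (mul_ne_zero (by linarith) hh) ?_ ?_ ?_ hdisc hb
        · intro h
          have : η * h₀ = 0 := by linear_combination h
          rcases mul_eq_zero.mp this with h1 | h1
          · linarith
          · exact hh h1
        · have := hpos 1 ⟨zero_le_one, le_refl _⟩
          rw [one_mul] at this; exact this.le
        · exact (hpos (1 - η) ⟨by linarith, by linarith⟩).le
    · exact ⟨1, one_pos, le_refl _, by simpa using (by linarith : (0:ℝ) < ε / 2), by simpa using hb⟩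
  obtain ⟨N, hN⟩ := slice_move_aux (c₀ := c₀) (h₁ := τ * h₀) hc0 (mul_ne_zero hτ0.ne' hh) (by
      intro s hs
      rw [← mul_assoc]
      exact (hpos (s * τ) ⟨mul_nonneg hs.1 hτ0.le, mul_le_one₀ hs.2 hτ0.le hτ1⟩).le) hdisc hτX
    (ε := ε / 2) (by linarith)
  refine ⟨N, ?_⟩
  filter_upwards [hN] with c hc q hq y hy hy0 hF
  obtain ⟨h, h1, h2⟩ := hc q hq y hy hy0 hF
  refine ⟨h, ?_, h2⟩
  calc |(h : ℝ) - h₀| = |((h : ℝ) - τ * h₀) + (τ * h₀ - h₀)| := by ring_nf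
    _ ≤ |(h : ℝ) - τ * h₀| + |τ * h₀ - h₀| := abs_add_le _ _
    _ < ε := by linarith

end Pool.Agent.Lib.MP42
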