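import Pool.Agent.Lib.MP_42de19_nt.Cell

set_option autoImplicit false
set_option linter.unusedSectionVars false

namespace Pool.Agent.Lib.MP42

open Set Topology Polynomial

variable {X : Type*} [TopologicalSpace X] {A : Type*} [CommRing A] {ev : A →+* (X → ℝ)}

/-- Zero constancy of a polynomial on the cells of a family. -/
def ZC {ι : Type*} (ev : A →+* (X → ℝ)) (C : Set X) (ξ : ι → X → ℝ) (f : A[X]) : Prop :=
  ∀ p q : X × ℝ, p.1 ∈ C → q.1 ∈ C → code ξ p = code ξ q → evP ev f p = 0 → evP ev f q = 0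

/-- `ξ` is a family of root functions adapted to the polynomials of `F` over `C`. -/
structure IsTable {ι : Type*} (ev : A →+* (X → ℝ)) (C : Set X) (ξ : ι → X → ℝ)
    (F : Finset A[X]) : Prop where
  roots : Roots C ξ
  sa : ∀ c, SA (evP ev) {p | p.1 ∈ C ∧ code ξ p = c}
  zc : ∀ f ∈ F, ZC ev C ξ f

def HasTable (ev : A →+* (X → ℝ)) (C : Set X) (F : Finset A[X]) : Prop :=
  ∃ (ι : Type) (_ : Finite ι) (ξ : ι → X → ℝ), IsTable ev C ξ F

theorem HasTable.mono {C : Set X} {F G : Finset A[X]} (h : HasTable ev C F) (hG : G ⊆ F) :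
    HasTable ev C G := by
  obtain ⟨ι, hι, ξ, hT⟩ := h
  exact ⟨ι, hι, ξ, hT.roots, hT.sa, fun f hf => hT.zc f (hG hf)⟩

theorem hasDerivAt_evP (f : A[X]) (x : X) (t : ℝ) :
    HasDerivAt (fun t => evP ev f (x, t)) (evP ev (derivative f) (x, t)) t := by
  have h := Polynomial.hasDerivAt (f.map (evAt ev x)) t
  rw [Polynomial.derivative_map] at h
  exact h

theorem continuous_evP_snd (f : A[X]) (x : X) : Continuous (fun t => evP ev f (x, t)) := by
  exact (f.map (evAt ev x)).continuous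

/-- A polynomial with zero constancy on cells which is not identically zero over `C` is a nonzero
polynomial in each fibre. -/
theorem map_ne_zero_of_zc {ι : Type*} [Finite ι] {C : Set X} {ξ : ι → X → ℝ} (hR : Roots C ξ)
    (hC : IsPreconnected C) {g : A[X]} (hg : ZC ev C ξ g)
    (h0 : ∃ p : X × ℝ, p.1 ∈ C ∧ evP ev g p ≠ 0) {x : X} (hx : x ∈ C) :
    g.map (evAt ev x) ≠ 0 := by
  intro h
  obtain ⟨p, hp, hp0⟩ := h0
  obtain ⟨m, -, hm⟩ := hR.exists_section hC hp p.2
  have h1 : evP ev g (x, m x) = 0 := by rw [evP_apply, h]; simp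
  exact hp0 (hg (x, m x) p hx hp (hm x hx) h1)

theorem code_eventually {ι : Type*} [Finite ι] (ξ : ι → X → ℝ) (x : X) (t : ℝ)
    (h : ∀ i, code ξ (x, t) i ≠ 0) : ∀ᶠ s in 𝓝 t, code ξ (x, s) = code ξ (x, t) := by
  have : ∀ i, ∀ᶠ s in 𝓝 t, code ξ (x, s) i = code ξ (x, t) i := by
    intro i
    have hi := h i
    simp only [code, ne_eq, sign_eq_zero_iff] at hi ⊢
    rcases lt_or_gt_of_ne hi with h1 | h1
    · have : ∀ᶠ s in 𝓝 t, s - ξ i x < 0 := by
        have hc : ContinuousAt (fun s : ℝ => s - ξ i x) t := by fun_prop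
        exact hc.eventually_lt continuousAt_const h1
      filter_upwards [this] with s hs
      rw [sign_neg hs, sign_neg h1]
    · have : ∀ᶠ s in 𝓝 t, 0 < s - ξ i x := by
        have hc : ContinuousAt (fun s : ℝ => s - ξ i x) t := by fun_prop
        exact continuousAt_const.eventually_lt hc h1
      filter_upwards [this] with s hs
      rw [sign_pos hs, sign_pos h1]
  have h2 := Filter.eventually_all.mpr this
  filter_upwards [h2] with s hs
  funext i; exact hs i

theorem exists_root_of_zero {ι : Type*} [Finite ι] {C : Set X} {ξ : ι → X → ℝ} (hR : Roots C ξ)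
    (hC : IsPreconnected C) {g : A[X]} (hg : ZC ev C ξ g)
    (h0 : ∃ p : X × ℝ, p.1 ∈ C ∧ evP ev g p ≠ 0) {p : X × ℝ} (hp : p.1 ∈ C)
    (hp0 : evP ev g p = 0) : ∃ i, p.2 = ξ i p.1 := by
  by_contra hcon
  push Not at hcon
  have h1 : ∀ i, code ξ (p.1, p.2) i ≠ 0 := by
    intro i hi
    simp only [code, sign_eq_zero_iff] at hi
    exact hcon i (sub_eq_zero.mp hi)
  have h2 := code_eventually ξ p.1 p.2 h1
  have h3 : {s : ℝ | code ξ (p.1, s) = code ξ (p.1, p.2)}.Infinite :=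
    infinite_of_mem_nhds p.2 h2
  have h4 : {s : ℝ | code ξ (p.1, s) = code ξ (p.1, p.2)} ⊆
      {s : ℝ | (g.map (evAt ev p.1)).IsRoot s} := by
    intro s hs
    exact hg p (p.1, s) hp hp hs.symm hp0
  exact map_ne_zero_of_zc hR hC hg h0 hp
    (Polynomial.eq_zero_of_infinite_isRoot _ (h3.mono h4))

theorem code_root_eq {ι : Type*} {C : Set X} {ξ : ι → X → ℝ} (hR : Roots C ξ)
    (hC : IsPreconnected C) {x y : X} (hx : x ∈ C) (hy : y ∈ C) (i : ι) :
    code ξ (x, ξ i x) = code ξ (y, ξ i y) := by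
  funext j
  exact hR.order_const hC hx hy i j

/-- Restrict a table to the roots of the polynomials of `G`. -/
theorem IsTable.restrict {ι : Type*} [Finite ι] {C : Set X} {ξ : ι → X → ℝ} {F G : Finset A[X]}
    (hC : IsPreconnected C) (hT : IsTable ev C ξ F) (hG : G ⊆ F) :
    IsTable ev C (fun i : {i : ι // ∃ g ∈ G, (∃ p : X × ℝ, p.1 ∈ C ∧ evP ev g p ≠ 0) ∧
      ∃ x ∈ C, evP ev g (x, ξ i x) = 0} => ξ i.1) G ∧
    ∀ g ∈ G, (∃ p : X × ℝ, p.1 ∈ C ∧ evP ev g p ≠ 0) → ∀ p : X × ℝ, p.1 ∈ C →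
      evP ev g p = 0 → ∃ i : {i : ι // ∃ g ∈ G, (∃ p : X × ℝ, p.1 ∈ C ∧ evP ev g p ≠ 0) ∧
      ∃ x ∈ C, evP ev g (x, ξ i x) = 0}, p.2 = ξ i.1 p.1 := by
  have hR := hT.roots
  have key : ∀ g ∈ G, (∃ p : X × ℝ, p.1 ∈ C ∧ evP ev g p ≠ 0) → ∀ p : X × ℝ, p.1 ∈ C →
      evP ev g p = 0 → ∃ i : {i : ι // ∃ g ∈ G, (∃ p : X × ℝ, p.1 ∈ C ∧ evP ev g p ≠ 0) ∧
      ∃ x ∈ C, evP ev g (x, ξ i x) = 0}, p.2 = ξ i.1 p.1 := by
    intro g hg h0 p hp hp0
    obtain ⟨i, hi⟩ := exists_root_of_zero hR hC (hT.zc g (hG hg)) h0 hp hp0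
    refine ⟨⟨i, g, hg, h0, p.1, hp, ?_⟩, hi⟩
    rw [← hi]; exact hp0
  refine ⟨⟨⟨fun i => hR.cont i.1, fun x hx i j h => Subtype.ext (hR.inj x hx _ _ h)⟩, ?_, ?_⟩,
    key⟩
  · intro c
    have : {p : X × ℝ | p.1 ∈ C ∧ code (fun i : {i : ι // ∃ g ∈ G,
        (∃ p : X × ℝ, p.1 ∈ C ∧ evP ev g p ≠ 0) ∧ ∃ x ∈ C, evP ev g (x, ξ i x) = 0} => ξ i.1) p = c}
        = ⋃ d : {d : ι → SignType // (fun i : {i : ι // ∃ g ∈ G,
        (∃ p : X × ℝ, p.1 ∈ C ∧ evP ev g p ≠ 0) ∧ ∃ x ∈ C, evP ev g (x, ξ i x) = 0} => d i.1) = c},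
        {p : X × ℝ | p.1 ∈ C ∧ code ξ p = d.1} := by
      ext p
      simp only [mem_iUnion, Subtype.exists]
      constructor
      · rintro ⟨hp, hc⟩
        exact ⟨code ξ p, hc, hp, rfl⟩
      · rintro ⟨d, hd, hp, hc⟩
        refine ⟨hp, ?_⟩
        rw [← hd, ← hc]; rfl
    rw [this]
    exact SA.iUnion_finite _ fun d => hT.sa d.1
  · intro g hg p q hp hq hcode hgp
    by_cases h0 : ∃ p : X × ℝ, p.1 ∈ C ∧ evP ev g p ≠ 0
    · obtain ⟨i, hi⟩ := key g hg h0 p hp hgp
      have h1 := congrFun hcode i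
      have h2 : SignType.sign (p.2 - ξ i.1 p.1) = 0 := by rw [hi]; simp
      have h3 : q.2 = ξ i.1 q.1 := by
        have h4 : SignType.sign (q.2 - ξ i.1 q.1) = 0 := by
          rw [← h2]; exact h1.symm
        exact sub_eq_zero.mp (sign_eq_zero_iff.mp h4)
      have h5 : code ξ (p.1, ξ i.1 p.1) = code ξ (q.1, ξ i.1 q.1) := code_root_eq hR hC hp hq i.1
      refine hT.zc g (hG hg) p q hp hq ?_ hgp
      rw [← hi, ← h3] at h5
      exact h5
    · push Not at h0
      exact h0 q hq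

section add

variable {ι : Type*} [Finite ι] {C : Set X} {ξ : ι → X → ℝ}

/-- In a band with a zero of `f` over some point, over every point of `C` there is a point of the
band beyond the (possible) zero of `f`. -/
theorem exists_upper (hev : ∀ a, Continuous (ev a)) (hR : Roots C ξ) (hC : IsPreconnected C)
    {f : A[X]} (hdeg : ∀ x ∈ C, 0 < (f.map (evAt ev x)).degree)
    (hroots : ∀ i, ∀ x ∈ C, ∀ y ∈ C, evP ev f (x, ξ i x) = 0 → evP ev f (y, ξ i y) = 0)
    (hder : ∀ p : X × ℝ, p.1 ∈ C → (∀ i, code ξ p i ≠ 0) → evP ev (derivative f) p ≠ 0)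
    {p₀ : X × ℝ} (hp₀ : p₀.1 ∈ C) (hcode : ∀ i, code ξ p₀ i ≠ 0) (hf0 : evP ev f p₀ = 0)
    {x : X} (hx : x ∈ C) :
    ∃ t, code ξ (x, t) = code ξ p₀ ∧ 0 < evP ev f (x, t) * evP ev (derivative f) (x, t) := by
  classical
  have := Fintype.ofFinite ι
  obtain ⟨m, -, hm⟩ := hR.exists_section hC hp₀ p₀.2
  have hm' : ∀ x ∈ C, code ξ (x, m x) = code ξ p₀ := hm
  set s := SignType.sign (evP ev (derivative f) p₀) with hs
  -- sign of derivative constant on the cell
  have hsd : ∀ q : X × ℝ, q.1 ∈ C → code ξ q = code ξ p₀ →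
      SignType.sign (evP ev (derivative f) q) = s := by
    intro q hq hqc
    refine sign_const_of_ne (hR.cell_preconnected hC (code ξ p₀))
      (continuous_evP hev _).continuousOn ?_ ⟨hq, hqc⟩ ⟨hp₀, rfl⟩
    rintro r ⟨hr, hrc⟩
    exact hder r hr (by rw [hrc]; exact hcode)
  have hσpos : ∀ q : X × ℝ, q.1 ∈ C → code ξ q = code ξ p₀ →
      0 < (s : ℝ) * evP ev (derivative f) q := by
    intro q hq hqc
    rw [← hsd q hq hqc, sign_mul_self]
    exact abs_pos.mpr (hder q hq (by rw [hqc]; exact hcode))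
  have hs2 : (s : ℝ) * (s : ℝ) = 1 := by
    have : s ≠ 0 := by
      rw [hs]; simp only [ne_eq, sign_eq_zero_iff]
      exact hder p₀ hp₀ hcode
    rcases s with _ | _ | _
    · exact absurd rfl this
    · show ((-1 : SignType) : ℝ) * ((-1 : SignType) : ℝ) = 1
      simp
    · show ((1 : SignType) : ℝ) * ((1 : SignType) : ℝ) = 1
      simp
  have hfin : ∀ t, code ξ (x, t) = code ξ p₀ → 0 < (s : ℝ) * evP ev f (x, t) →
      0 < evP ev f (x, t) * evP ev (derivative f) (x, t) := by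
    intro t ht h1
    have h2 := hσpos (x, t) hx ht
    have h3 := mul_pos h1 h2
    have h4 : (s : ℝ) * evP ev f (x, t) * ((s : ℝ) * evP ev (derivative f) (x, t)) =
        ((s : ℝ) * (s : ℝ)) * (evP ev f (x, t) * evP ev (derivative f) (x, t)) := by ring
    rw [h4, hs2, one_mul] at h3
    exact h3
  have hderh : ∀ y : X, ∀ t : ℝ, HasDerivAt (fun t => (s : ℝ) * evP ev f (y, t))
      ((s : ℝ) * evP ev (derivative f) (y, t)) t := by
    intro y t
    exact (hasDerivAt_evP f y t).const_mul _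
  have hconth : ∀ y : X, Continuous (fun t => (s : ℝ) * evP ev f (y, t)) := by
    intro y
    exact continuous_const.mul (continuous_evP_snd f y)
  by_cases hU : ∃ i, code ξ p₀ i = -1
  · -- bounded above
    have hUne : (Finset.univ.filter (fun i => code ξ p₀ i = -1)).Nonempty := by
      obtain ⟨i, hi⟩ := hU
      exact ⟨i, by simpa using hi⟩
    obtain ⟨i₀, hi₀, hmin⟩ := Finset.exists_min_image _ (fun i => ξ i p₀.1) hUne
    simp only [Finset.mem_filter, Finset.mem_univ, true_and] at hi₀ hmin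
    have hmin' : ∀ y ∈ C, ∀ i, code ξ p₀ i = -1 → ξ i₀ y ≤ ξ i y := by
      intro y hy i hi
      by_cases hii : i = i₀
      · rw [hii]
      · have h1 := hmin i hi
        have h2 : ξ i₀ p₀.1 ≠ ξ i p₀.1 := fun h => hii (hR.inj _ hp₀ _ _ h).symm
        have h3 : SignType.sign (ξ i₀ p₀.1 - ξ i p₀.1) = -1 := by
          rw [sign_eq_neg_one_iff]
          have := lt_of_le_of_ne h1 h2
          linarith
        have h4 := hR.order_const hC hy hp₀ i₀ i
        rw [h3, sign_eq_neg_one_iff] at h4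
        linarith
    -- points between the section and the root are in the cell
    have hbet : ∀ y ∈ C, ∀ a, code ξ (y, a) = code ξ p₀ → ∀ t, a ≤ t → t < ξ i₀ y →
        code ξ (y, t) = code ξ p₀ := by
      intro y hy a ha t hat ht
      funext i
      rcases hci : code ξ p₀ i with _ | _ | _
      · exact absurd hci (hcode i)
      · have h1 := hmin' y hy i hci
        show SignType.sign (t - ξ i y) = -1
        rw [sign_eq_neg_one_iff]; linarith
      · have h1 := congrFun ha i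
        rw [hci] at h1
        have h2 : SignType.sign (a - ξ i y) = 1 := h1
        rw [sign_eq_one_iff] at h2
        show SignType.sign (t - ξ i y) = 1
        rw [sign_eq_one_iff]; linarith
    have hlt : ∀ y ∈ C, ∀ a, code ξ (y, a) = code ξ p₀ → a < ξ i₀ y := by
      intro y hy a ha
      have h1 := congrFun ha i₀
      rw [hi₀] at h1
      have h2 : SignType.sign (a - ξ i₀ y) = -1 := h1
      rw [sign_eq_neg_one_iff] at h2
      linarith
    -- sign at the root over p₀.1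
    have hmono : StrictMonoOn (fun t => (s : ℝ) * evP ev f (p₀.1, t))
        (Icc p₀.2 (ξ i₀ p₀.1)) := by
      refine strictMonoOn_of_deriv_pos (convex_Icc _ _) (hconth _).continuousOn ?_
      intro t ht
      rw [interior_Icc] at ht
      rw [(hderh p₀.1 t).deriv]
      exact hσpos (p₀.1, t) hp₀ (hbet p₀.1 hp₀ p₀.2 rfl t ht.1.le ht.2)
    have hp₀lt : p₀.2 < ξ i₀ p₀.1 := hlt p₀.1 hp₀ p₀.2 rfl
    have h1 : 0 < (s : ℝ) * evP ev f (p₀.1, ξ i₀ p₀.1) := by
      have := hmono (left_mem_Icc.mpr hp₀lt.le) (right_mem_Icc.mpr hp₀lt.le) hp₀lt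
      have h2 : evP ev f (p₀.1, p₀.2) = 0 := hf0
      simp only [h2, mul_zero] at this
      exact this
    have h2 : SignType.sign (evP ev f (x, ξ i₀ x)) =
        SignType.sign (evP ev f (p₀.1, ξ i₀ p₀.1)) := by
      refine sign_const_of_zc hC (f := fun y => evP ev f (y, ξ i₀ y)) ?_
        (fun y hy z hz => hroots i₀ y hy z hz) hx hp₀
      exact (continuous_evP hev f).comp_continuousOn (continuousOn_id.prodMk (hR.cont i₀))
    have h3 : 0 < (s : ℝ) * evP ev f (x, ξ i₀ x) := by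
      have h4 : SignType.sign ((s : ℝ) * evP ev f (x, ξ i₀ x)) = 1 := by
        rw [sign_mul, h2, ← sign_mul, sign_eq_one_iff]; exact h1
      exact sign_eq_one_iff.mp h4
    have h4 : ∀ᶠ t in 𝓝[<] (ξ i₀ x), 0 < (s : ℝ) * evP ev f (x, t) := by
      have : ∀ᶠ t in 𝓝 (ξ i₀ x), 0 < (s : ℝ) * evP ev f (x, t) :=
        continuousAt_const.eventually_lt (hconth x).continuousAt h3
      exact this.filter_mono nhdsWithin_le_nhds
    have h5 : ∀ᶠ t in 𝓝[<] (ξ i₀ x), t ∈ Ioo (m x) (ξ i₀ x) :=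
      Ioo_mem_nhdsLT (hlt x hx (m x) (hm' x hx))
    obtain ⟨t, ht1, ht2⟩ := (h4.and h5).exists
    have ht3 := hbet x hx (m x) (hm' x hx) t ht2.1.le ht2.2
    exact ⟨t, ht3, hfin t ht3 ht1⟩
  · -- unbounded above
    push Not at hU
    have hc1 : ∀ i, code ξ p₀ i = 1 := by
      intro i
      rcases hci : code ξ p₀ i with _ | _ | _
      · exact absurd hci (hcode i)
      · exact absurd hci (hU i)
      · rfl
    have hbet : ∀ t, m x ≤ t → code ξ (x, t) = code ξ p₀ := by
      intro t ht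
      funext i
      rw [hc1 i]
      have h1 := congrFun (hm' x hx) i
      rw [hc1 i] at h1
      have h2 : SignType.sign (m x - ξ i x) = 1 := h1
      rw [sign_eq_one_iff] at h2
      show SignType.sign (t - ξ i x) = 1
      rw [sign_eq_one_iff]; linarith
    have hmono : StrictMonoOn (fun t => (s : ℝ) * evP ev f (x, t)) (Ici (m x)) := by
      refine strictMonoOn_of_deriv_pos (convex_Ici _) (hconth _).continuousOn ?_
      intro t ht
      rw [interior_Ici] at ht
      rw [(hderh x t).deriv]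
      exact hσpos (x, t) hx (hbet t (le_of_lt ht))
    by_contra hcon
    push Not at hcon
    have hle : ∀ t, m x ≤ t → (s : ℝ) * evP ev f (x, t) ≤ 0 := by
      intro t ht
      by_contra hlt
      push Not at hlt
      exact absurd (hfin t (hbet t ht) hlt) (not_lt.mpr (hcon t (hbet t ht)))
    have habs := Polynomial.abs_tendsto_atTop (f.map (evAt ev x)) (hdeg x hx)
    have hb : ∀ᶠ t in Filter.atTop,
        |(f.map (evAt ev x)).eval t| ≤ |(s : ℝ) * evP ev f (x, m x)| := by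
      filter_upwards [Filter.eventually_ge_atTop (m x)] with t ht
      have h1 : (s : ℝ) * evP ev f (x, m x) ≤ (s : ℝ) * evP ev f (x, t) :=
        hmono.monotoneOn (mem_Ici.mpr le_rfl) (mem_Ici.mpr ht) ht
      have h2 := hle t ht
      have h3 : |(s : ℝ) * evP ev f (x, t)| ≤ |(s : ℝ) * evP ev f (x, m x)| := by
        rw [abs_of_nonpos h2, abs_of_nonpos (h1.trans h2)]
        linarith
      have h4 : |(s : ℝ) * evP ev f (x, t)| = |evP ev f (x, t)| := by
        rw [abs_mul]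
        have : |(s : ℝ)| = 1 := by
          have h5 : |(s : ℝ)| * |(s : ℝ)| = 1 := by rw [← abs_mul, hs2, abs_one]
          nlinarith [abs_nonneg (s : ℝ)]
        rw [this, one_mul]
      rw [h4] at h3
      exact h3
    have hgt := habs.eventually_gt_atTop (|(s : ℝ) * evP ev f (x, m x)|)
    obtain ⟨t, ht1, ht2⟩ := (hb.and hgt).exists
    exact absurd ht2 (not_lt.mpr ht1)

end add

end Pool.Agent.Lib.MP42
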