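import Pool.Agent.Lib.MP_42de19_nt.SliceMove
import Pool.Agent.Lib.MP_42de19_nt.Moves

set_option autoImplicit false

namespace Pool.Agent.Lib.MP42

open Set Topology Filter

variable {m : ℕ}

/-- The expansion of `D` around the generic point in the direction `i`. -/
noncomputable def tay (D : MvPolynomial (Fin m) ℚ) (i : Fin m) :
    Polynomial (MvPolynomial (Fin m) ℚ) :=
  MvPolynomial.aeval (fun j => if j = i then Polynomial.X + Polynomial.C (MvPolynomial.X j)
    else Polynomial.C (MvPolynomial.X j)) D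

theorem tay_eval {R : Type*} [CommRing R] [Algebra ℚ R] (D : MvPolynomial (Fin m) ℚ) (i : Fin m)
    (z : Fin m → R) (h : R) :
    (tay D i).eval₂ (MvPolynomial.aeval z : MvPolynomial (Fin m) ℚ →ₐ[ℚ] R).toRingHom h =
      MvPolynomial.aeval (Function.update z i (z i + h)) D := by
  unfold tay
  induction D using MvPolynomial.induction_on with
  | C a =>
    rw [MvPolynomial.aeval_C, MvPolynomial.aeval_C, IsScalarTower.algebraMap_apply ℚ
      (MvPolynomial (Fin m) ℚ) (Polynomial (MvPolynomial (Fin m) ℚ)), Polynomial.algebraMap_apply,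
      Algebra.algebraMap_self, RingHom.id_apply, Polynomial.eval₂_C]
    simp
  | add p q hp hq => rw [map_add, map_add, Polynomial.eval₂_add, hp, hq]
  | mul_X p j hp =>
    rw [map_mul, map_mul, Polynomial.eval₂_mul, hp, MvPolynomial.aeval_X, MvPolynomial.aeval_X]
    congr 1
    by_cases hj : j = i
    · subst hj
      simp [add_comm]
    · simp [hj]

theorem tay_natDegree (D : MvPolynomial (Fin m) ℚ) (i : Fin m) (d : ℕ)
    (hd : D.degreeOf i ≤ d) : (tay D i).natDegree ≤ d := by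
  unfold tay
  rw [MvPolynomial.aeval_def, MvPolynomial.eval₂_eq']
  refine Polynomial.natDegree_sum_le_of_forall_le _ _ fun e he => ?_
  have hC : algebraMap ℚ (Polynomial (MvPolynomial (Fin m) ℚ)) (MvPolynomial.coeff e D) =
      Polynomial.C (MvPolynomial.C (MvPolynomial.coeff e D)) := by
    rw [IsScalarTower.algebraMap_apply ℚ (MvPolynomial (Fin m) ℚ)
      (Polynomial (MvPolynomial (Fin m) ℚ)), Polynomial.algebraMap_apply,
      Algebra.algebraMap_self, RingHom.id_apply]
    rfl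
  rw [hC]
  refine (Polynomial.natDegree_C_mul_le _ _).trans ?_
  refine (Polynomial.natDegree_prod_le _ _).trans ?_
  have h1 : ∀ j ∈ (Finset.univ : Finset (Fin m)),
      (((if j = i then Polynomial.X + Polynomial.C (MvPolynomial.X j)
        else Polynomial.C (MvPolynomial.X j)) : Polynomial (MvPolynomial (Fin m) ℚ)) ^
        e j).natDegree ≤ if j = i then e i else 0 := by
    intro j _
    by_cases hij : j = i
    · subst hij
      simp only [if_true]
      refine Polynomial.natDegree_pow_le.trans ?_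
      rw [Polynomial.natDegree_X_add_C, mul_one]
    · simp only [hij, if_false]
      rw [← Polynomial.C_pow]; simp
  refine (Finset.sum_le_sum h1).trans ?_
  rw [Finset.sum_ite_eq' Finset.univ i (fun _ => e i)]
  simp only [Finset.mem_univ, if_true]
  exact (MvPolynomial.degreeOf_le_iff.mp hd) e he

/-- The Taylor coefficients of `D` in the direction `i`. -/
noncomputable def tcf (D : MvPolynomial (Fin m) ℚ) (i : Fin m) : Fin 5 → MvPolynomial (Fin m) ℚ :=
  fun k => (tay D i).coeff k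

theorem ev4_tcf {R : Type*} [CommRing R] [Algebra ℚ R] (D : MvPolynomial (Fin m) ℚ) (i : Fin m)
    (hd : D.degreeOf i ≤ 4) (z : Fin m → R) (h : R) :
    ev4 (fun k => MvPolynomial.aeval z (tcf D i k)) h =
      MvPolynomial.aeval (Function.update z i (z i + h)) D := by
  rw [← tay_eval, Polynomial.eval₂_eq_sum_range' _
    (lt_of_le_of_lt (tay_natDegree D i 4 hd) (by norm_num : 4 < 5))]
  simp only [Finset.sum_range_succ, Finset.sum_range_zero, ev4, tcf]
  simp

theorem ev4_tcf_rat (D : MvPolynomial (Fin m) ℚ) (i : Fin m)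
    (hd : D.degreeOf i ≤ 4) (z : Fin m → ℚ) (h : ℚ) :
    ev4 (fun k => MvPolynomial.eval z (tcf D i k)) h =
      MvPolynomial.eval (Function.update z i (z i + h)) D := by
  have := ev4_tcf D i hd z h
  simpa only [MvPolynomial.aeval_eq_eval] using this

theorem tcf_zero (D : MvPolynomial (Fin m) ℚ) (i : Fin m) (hd : D.degreeOf i ≤ 4) :
    tcf D i 0 = D := by
  apply MvPolynomial.funext
  intro z
  have := ev4_tcf_rat D i hd z 0
  rw [add_zero, Function.update_eq_self] at this
  simpa [ev4] using this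

/-- A quartic with nonzero discriminant has a simple complex zero. -/
theorem exists_simple_root {c : Fin 5 → ℂ} (hc : disc4 c ≠ 0) : ∃ h : ℂ, ev4 c h = 0 ∧
    c 1 + 2 * c 2 * h + 3 * c 3 * h ^ 2 + 4 * c 4 * h ^ 3 ≠ 0 := by
  let p : Polynomial ℂ := Polynomial.C (c 0) + Polynomial.C (c 1) * Polynomial.X +
    Polynomial.C (c 2) * Polynomial.X ^ 2 + Polynomial.C (c 3) * Polynomial.X ^ 3 +
    Polynomial.C (c 4) * Polynomial.X ^ 4
  have hp : 0 < p.degree := by
    by_contra hcon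
    push Not at hcon
    have hpC := Polynomial.eq_C_of_degree_le_zero hcon
    have e1 : c 1 = 0 := by
      have := congrArg (fun q => Polynomial.coeff q 1) hpC
      simpa [p, Polynomial.coeff_X, Polynomial.coeff_C] using this
    have e2 : c 2 = 0 := by
      have := congrArg (fun q => Polynomial.coeff q 2) hpC
      simpa [p, Polynomial.coeff_X, Polynomial.coeff_C] using this
    have e3 : c 3 = 0 := by
      have := congrArg (fun q => Polynomial.coeff q 3) hpC
      simpa [p, Polynomial.coeff_X, Polynomial.coeff_C] using this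
    have e4 : c 4 = 0 := by
      have := congrArg (fun q => Polynomial.coeff q 4) hpC
      simpa [p, Polynomial.coeff_X, Polynomial.coeff_C] using this
    apply hc
    unfold disc4 rB rC
    rw [e1, e2, e3, e4]
    ring
  obtain ⟨h, hh⟩ := Complex.exists_root hp
  have h0 : ev4 c h = 0 := by
    have : p.eval h = 0 := hh
    simpa [p, ev4] using this
  exact ⟨h, h0, fun h1 => hc (disc4_eq_zero_of_double c h h0 h1)⟩

/-- A point where `D` vanishes simply in the direction `i`. -/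
theorem exists_simple_point (D : MvPolynomial (Fin m) ℚ) (i : Fin m) (hd : D.degreeOf i ≤ 4)
    (hdisc : disc4 (tcf D i) ≠ 0) : ∃ w : Fin m → ℂ,
      (MvPolynomial.aeval w (tcf D i 0) : ℂ) = 0 ∧ (MvPolynomial.aeval w (tcf D i 1) : ℂ) ≠ 0 := by
  obtain ⟨z₀, hz₀⟩ : ∃ z₀ : Fin m → ℚ, MvPolynomial.eval z₀ (disc4 (tcf D i)) ≠ 0 := by
    by_contra hcon
    push Not at hcon
    exact hdisc (MvPolynomial.funext fun z => by rw [hcon z, map_zero])
  set z : Fin m → ℂ := fun j => algebraMap ℚ ℂ (z₀ j) with hz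
  have h1 : disc4 (fun k => (MvPolynomial.aeval z (tcf D i k) : ℂ)) ≠ 0 := by
    have e := disc4_map (MvPolynomial.aeval z : MvPolynomial (Fin m) ℚ →ₐ[ℚ] ℂ).toRingHom (tcf D i)
    have e2 : (MvPolynomial.aeval z : MvPolynomial (Fin m) ℚ →ₐ[ℚ] ℂ).toRingHom
        (disc4 (tcf D i)) = algebraMap ℚ ℂ (MvPolynomial.eval z₀ (disc4 (tcf D i))) := by
      have := MvPolynomial.aeval_algebraMap_apply ℂ z₀ (disc4 (tcf D i))
      rw [MvPolynomial.aeval_eq_eval] at this
      exact this
    rw [e2] at e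
    have e3 : disc4 (fun k => (MvPolynomial.aeval z (tcf D i k) : ℂ)) =
      algebraMap ℚ ℂ (MvPolynomial.eval z₀ (disc4 (tcf D i))) := e
    rw [e3]
    simpa using hz₀
  obtain ⟨h₀, hr, hs⟩ := exists_simple_root h1
  set c : Fin 5 → ℂ := fun k => (MvPolynomial.aeval z (tcf D i k) : ℂ) with hc
  refine ⟨Function.update z i (z i + h₀), ?_, ?_⟩
  · rw [tcf_zero D i hd, ← ev4_tcf D i hd]
    exact hr
  · set w := Function.update z i (z i + h₀) with hw
    set e : Fin 5 → ℂ := fun k => (MvPolynomial.aeval w (tcf D i k) : ℂ) with he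
    have key : ∀ h : ℂ, ev4 e h = ev4 c (h₀ + h) := by
      intro h
      rw [he, hc, ev4_tcf D i hd, ev4_tcf D i hd]
      congr 2
      rw [hw, Function.update_self, Function.update_idem, add_assoc]
    have k1 := key 1
    have k2 := key (-1)
    have k3 := key 2
    have k4 := key (-2)
    unfold ev4 at k1 k2 k3 k4
    have : e 1 = c 1 + 2 * c 2 * h₀ + 3 * c 3 * h₀ ^ 2 + 4 * c 4 * h₀ ^ 3 := by
      linear_combination (8 * (k1 - k2) - (k3 - k4)) / 12
    show e 1 ≠ 0
    rw [this]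
    exact hs

/-- The polynomial whose nonvanishing at `z` guarantees many points. -/
noncomputable def gpoly (D : MvPolynomial (Fin m) ℚ) (i : Fin m) (N : ℕ) :
    MvPolynomial (Fin m) ℚ :=
  D * ((∏ k ∈ Finset.range N, (dseq (tcf D i) k).2) *
    ∏ j ∈ Finset.range N, ∏ k ∈ Finset.range j,
      ((dseq (tcf D i) j).1 * (dseq (tcf D i) k).2 -
        (dseq (tcf D i) k).1 * (dseq (tcf D i) j).2))

theorem gpoly_ne_zero (D : MvPolynomial (Fin m) ℚ) (i : Fin m) (hd : D.degreeOf i ≤ 4)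
    (hdisc : disc4 (tcf D i) ≠ 0) (N : ℕ) : gpoly D i N ≠ 0 := by
  obtain ⟨w, hw0, hw1⟩ := exists_simple_point D i hd hdisc
  have hD : D ≠ 0 := by
    rintro rfl
    apply hdisc
    have : tcf (0 : MvPolynomial (Fin m) ℚ) i = 0 := by
      funext k; simp [tcf, tay]
    rw [this]
    simp [disc4, rB, rC]
  let φ := (MvPolynomial.aeval w : MvPolynomial (Fin m) ℚ →ₐ[ℚ] ℂ).toRingHom
  have hmap : ∀ k, (φ (dseq (tcf D i) k).1, φ (dseq (tcf D i) k).2) =
      (((MvPolynomial.aeval w (tcf D i 1) : ℂ)) ^ (2 * 4 ^ k),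
        4 ^ (k + 1) * (MvPolynomial.aeval w (tcf D i 1) : ℂ) ^ (2 * 4 ^ k - 2)) := by
    intro k
    rw [← dseq_map φ (tcf D i) k]
    exact dseq_zero _ hw0 k
  have h1 : ∀ k, φ (dseq (tcf D i) k).1 = ((MvPolynomial.aeval w (tcf D i 1) : ℂ)) ^ (2 * 4 ^ k) :=
    fun k => congrArg Prod.fst (hmap k)
  have h2 : ∀ k, φ (dseq (tcf D i) k).2 =
      4 ^ (k + 1) * (MvPolynomial.aeval w (tcf D i 1) : ℂ) ^ (2 * 4 ^ k - 2) :=
    fun k => congrArg Prod.snd (hmap k)
  unfold gpoly
  refine mul_ne_zero hD (mul_ne_zero ?_ ?_)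
  · rw [Finset.prod_ne_zero_iff]
    intro k _ h
    have := h2 k
    rw [h, map_zero] at this
    have h3 : (4 : ℂ) ^ (k + 1) * (MvPolynomial.aeval w (tcf D i 1) : ℂ) ^ (2 * 4 ^ k - 2) ≠ 0 :=
      mul_ne_zero (pow_ne_zero _ (by norm_num)) (pow_ne_zero _ hw1)
    exact h3 this.symm
  · rw [Finset.prod_ne_zero_iff]
    intro j _
    rw [Finset.prod_ne_zero_iff]
    intro k hk h
    rw [Finset.mem_range] at hk
    have h3 := congrArg φ h
    rw [map_sub, map_mul, map_mul, h1, h1, h2, h2, map_zero] at h3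
    set b := (MvPolynomial.aeval w (tcf D i 1) : ℂ) with hb
    have p1 : 1 ≤ 4 ^ k := Nat.one_le_pow _ _ (by norm_num)
    have p2 : 1 ≤ 4 ^ j := Nat.one_le_pow _ _ (by norm_num)
    have e1 : b ^ (2 * 4 ^ j) = b ^ 2 * b ^ (2 * 4 ^ j - 2) := by
      rw [← pow_add]; congr 1; omega
    have e2 : b ^ (2 * 4 ^ k) = b ^ 2 * b ^ (2 * 4 ^ k - 2) := by
      rw [← pow_add]; congr 1; omega
    rw [e1, e2] at h3
    have e3 : b ^ 2 * b ^ (2 * 4 ^ j - 2) * (4 ^ (k + 1) * b ^ (2 * 4 ^ k - 2)) -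
        b ^ 2 * b ^ (2 * 4 ^ k - 2) * (4 ^ (j + 1) * b ^ (2 * 4 ^ j - 2)) =
        (b ^ 2 * b ^ (2 * 4 ^ j - 2) * b ^ (2 * 4 ^ k - 2)) * (4 ^ (k + 1) - 4 ^ (j + 1)) := by
      ring
    rw [e3] at h3
    have h4 : b ^ 2 * b ^ (2 * 4 ^ j - 2) * b ^ (2 * 4 ^ k - 2) ≠ 0 :=
      mul_ne_zero (mul_ne_zero (pow_ne_zero _ hw1) (pow_ne_zero _ hw1)) (pow_ne_zero _ hw1)
    have h5 := (mul_eq_zero.mp h3).resolve_left h4
    have h6 : (4 : ℂ) ^ (k + 1) = 4 ^ (j + 1) := sub_eq_zero.mp h5
    have h7 : (4 : ℕ) ^ (k + 1) = 4 ^ (j + 1) := by exact_mod_cast h6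
    have := Nat.pow_right_injective (le_refl 4 |>.trans' (by norm_num : 2 ≤ 4)) h7
    omega

theorem many_of_gpoly {D : MvPolynomial (Fin m) ℚ} {i : Fin m} (hd : D.degreeOf i ≤ 4) {N : ℕ}
    {z : Fin m → ℚ} (hz : MvPolynomial.eval z (gpoly D i N) ≠ 0) {y : ℚ}
    (hy : y ^ 2 = MvPolynomial.eval z D) :
    y ≠ 0 ∧ ∃ F : Finset ℝ, ↑F ⊆ ratX (MvPolynomial.eval z (tcf D i 2))
      (rB fun k => MvPolynomial.eval z (tcf D i k)) (rC fun k => MvPolynomial.eval z (tcf D i k)) ∧
      N ≤ F.card := by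
  unfold gpoly at hz
  rw [map_mul, map_mul, map_prod, map_prod] at hz
  have hD : MvPolynomial.eval z D ≠ 0 := left_ne_zero_of_mul hz
  have hrest := right_ne_zero_of_mul hz
  have hb := left_ne_zero_of_mul hrest
  have hab := right_ne_zero_of_mul hrest
  rw [Finset.prod_ne_zero_iff] at hb hab
  have hy0 : y ≠ 0 := by
    rintro rfl; apply hD; rw [← hy]; norm_num
  refine ⟨hy0, ?_⟩
  have hmap : ∀ k, dseq (fun l => MvPolynomial.eval z (tcf D i l)) k =
      (MvPolynomial.eval z (dseq (tcf D i) k).1, MvPolynomial.eval z (dseq (tcf D i) k).2) :=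
    fun k => dseq_map (MvPolynomial.eval z) (tcf D i) k
  refine many_points (q := fun l => MvPolynomial.eval z (tcf D i l)) (y := y) ?_ hy0 ?_ ?_
  · rw [tcf_zero D i hd]; exact hy
  · intro k hk
    rw [hmap]
    exact hb k (Finset.mem_range.mpr hk)
  · intro j hj k hk h
    rw [hmap, hmap] at h
    have h1 := hab j (Finset.mem_range.mpr hj)
    rw [map_prod, Finset.prod_ne_zero_iff] at h1
    apply h1 k (Finset.mem_range.mpr hk)
    rw [map_sub, map_mul, map_mul]
    exact sub_eq_zero.mpr h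

end Pool.Agent.Lib.MP42
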