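import Pool.Agent.Lib.MP_42de19_nt.Taylor

set_option autoImplicit false

namespace Pool.Agent.Lib.MP42

open Set Topology Filter

variable {m : ℕ}

/-- The `i`-th coordinate of rational points near `x` can be moved close to `t`. -/
def Movable (D : MvPolynomial (Fin m) ℚ) (i : Fin m) (x : Fin m → ℝ) (t : ℝ) : Prop :=
  ∀ ε > 0, ∃ H : MvPolynomial (Fin m) ℚ, H ≠ 0 ∧ ∀ᶠ x' : Fin m → ℝ in 𝓝 x, ∀ z : Fin m → ℚ,
    (∀ j, x' j = (z j : ℝ)) → MvPolynomial.eval z H ≠ 0 → (∃ y : ℚ, y ^ 2 = MvPolynomial.eval z D) →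
    ∃ s : ℚ, |(s : ℝ) - t| < ε ∧ ∃ y : ℚ, y ^ 2 = MvPolynomial.eval (Function.update z i s) D

/-- `D` takes square values on Zariski dense sets of rational points near `x`. -/
def ZL (D : MvPolynomial (Fin m) ℚ) (x : Fin m → ℝ) : Prop :=
  ∀ V ∈ 𝓝 x, ∀ G : MvPolynomial (Fin m) ℚ, G ≠ 0 → ∃ z : Fin m → ℚ,
    (fun j => (z j : ℝ)) ∈ V ∧ MvPolynomial.eval z G ≠ 0 ∧ ∃ y : ℚ, y ^ 2 = MvPolynomial.eval z D

theorem movable_quartic {D : MvPolynomial (Fin m) ℚ} {i : Fin m} (hd : D.degreeOf i ≤ 4)
    {x : Fin m → ℝ} {t : ℝ}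
    (hpos : ∀ τ ∈ Icc (0 : ℝ) 1,
      0 < (MvPolynomial.aeval (Function.update x i (x i + τ * (t - x i))) D : ℝ))
    (hdisc : (MvPolynomial.aeval x (disc4 (tcf D i)) : ℝ) ≠ 0) : Movable D i x t := by
  intro ε hε
  have hdisc0 : disc4 (tcf D i) ≠ 0 := by
    intro h; rw [h, map_zero] at hdisc; exact hdisc rfl
  let C : (Fin m → ℝ) → (Fin 5 → ℝ) := fun x k => MvPolynomial.aeval x (tcf D i k)
  have hC : Continuous C := continuous_pi fun k => continuous_aeval (tcf D i k)
  obtain ⟨N, hN⟩ := slice_move (c₀ := C x) (h₀ := t - x i) (by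
      intro τ hτ
      have := hpos τ hτ
      rw [← ev4_tcf D i hd] at this
      exact this) (by
      have e := disc4_map (MvPolynomial.aeval x : MvPolynomial (Fin m) ℚ →ₐ[ℚ] ℝ).toRingHom
        (tcf D i)
      have e' : disc4 (C x) = (MvPolynomial.aeval x (disc4 (tcf D i)) : ℝ) := e
      rw [e']; exact hdisc) (ε := ε / 2) (by linarith)
  refine ⟨gpoly D i N, gpoly_ne_zero D i hd hdisc0 N, ?_⟩
  have ev1 := hC.continuousAt.eventually hN
  have ev2 : ∀ᶠ x' : Fin m → ℝ in 𝓝 x, |x' i - x i| < ε / 2 := by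
    have hc : Continuous (fun x' : Fin m → ℝ => |x' i - x i|) :=
      ((continuous_apply i).sub continuous_const).abs
    exact hc.continuousAt.eventually_lt continuousAt_const
      (by simpa using (by linarith : 0 < ε / 2))
  filter_upwards [ev1, ev2] with x' h1 h2 z hz hH hy
  obtain ⟨y, hy⟩ := hy
  obtain ⟨hy0, hF⟩ := many_of_gpoly hd hH hy
  have hx' : x' = fun j => (z j : ℝ) := funext hz
  obtain ⟨h, hh1, v, hv⟩ := h1 (fun k => MvPolynomial.eval z (tcf D i k)) (by
    intro k
    simp only [C]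
    rw [hx', aeval_ratCast]) y (by rw [tcf_zero D i hd]; exact hy) hy0 hF
  refine ⟨z i + h, ?_, v, ?_⟩
  · rw [hz i] at h2
    push_cast
    calc |(z i : ℝ) + h - t| = |((h : ℝ) - (t - x i)) + ((z i : ℝ) - x i)| := by ring_nf
      _ ≤ |(h : ℝ) - (t - x i)| + |(z i : ℝ) - x i| := abs_add_le _ _
      _ < ε := by linarith
  · rw [hv, ev4_tcf_rat D i hd]

theorem movable_conic {D : MvPolynomial (Fin m) ℚ} {i : Fin m} (hd : D.degreeOf i ≤ 2)
    {x : Fin m → ℝ} {t : ℝ}
    (hpos : 0 < (MvPolynomial.aeval (Function.update x i t) D : ℝ)) : Movable D i x t := by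
  intro ε hε
  have hD : D ≠ 0 := by
    rintro rfl; rw [map_zero] at hpos; exact lt_irrefl _ hpos
  refine ⟨D, hD, ?_⟩
  have hc : ContinuousAt (fun x' : Fin m → ℝ =>
      (MvPolynomial.aeval (Function.update x' i t) D : ℝ)) x := by
    have h1 : Continuous (fun x' : Fin m → ℝ => Function.update x' i t) := by fun_prop
    exact ((continuous_aeval D).comp h1).continuousAt
  have ev1 : ∀ᶠ x' : Fin m → ℝ in 𝓝 x,
      0 < (MvPolynomial.aeval (Function.update x' i t) D : ℝ) :=
    continuousAt_const.eventually_lt hc hpos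
  filter_upwards [ev1] with x' h1 z hz hH hy
  have hx' : x' = fun j => (z j : ℝ) := funext hz
  rw [hx'] at h1
  exact move_one i hd z hy (Or.inl hH) t h1.le ε hε

/-- a nonzero value forces a nonzero value at one of many points of the slice -/
theorem exists_slice_ne {G : MvPolynomial (Fin m) ℚ} {i : Fin m} {z : Fin m → ℚ}
    (hG : MvPolynomial.eval z G ≠ 0) {n : ℕ} (hn : G.degreeOf i ≤ n) (s : Fin (n + 1) → ℚ)
    (hs : Function.Injective s) : ∃ k, MvPolynomial.eval (Function.update z i (s k)) G ≠ 0 := by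
  by_contra hcon
  push Not at hcon
  have h1 : slice G z i = 0 := by
    apply Polynomial.eq_zero_of_natDegree_lt_card_of_eval_eq_zero (slice G z i) hs
    · intro k
      rw [slice_eval]; exact hcon k
    · rw [Fintype.card_fin]
      exact Nat.lt_succ_of_le (slice_natDegree G z i n hn)
  have h2 := slice_eval G z i (z i)
  rw [h1, Function.update_eq_self] at h2
  apply hG
  rw [← h2]; simp

theorem ZL.move {D : MvPolynomial (Fin m) ℚ} {i : Fin m} {x : Fin m → ℝ} {t : ℝ} (hx : ZL D x)
    (hmov : ∀ θ ∈ Icc (0 : ℝ) 1, Movable D i x (t + θ * (x i - t))) :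
    ZL D (Function.update x i t) := by
  by_cases hxt : x i = t
  · rw [← hxt, Function.update_eq_self]; exact hx
  intro V hV G hG
  rw [Metric.mem_nhds_iff] at hV
  obtain ⟨η, hη, hVη⟩ := hV
  set n := G.degreeOf i with hn
  set a := |x i - t| with ha
  have ha0 : 0 < a := abs_pos.mpr (sub_ne_zero.mpr hxt)
  set κ : ℝ := min (1 / (n + 1)) (η / (2 * (n + 1) * a)) with hκ
  have hn1 : (0 : ℝ) < n + 1 := by positivity
  have hκ0 : 0 < κ := lt_min (by positivity) (by positivity)
  have hκ1 : (n + 1) * κ ≤ 1 := by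
    calc (n + 1) * κ ≤ (n + 1) * (1 / (n + 1)) :=
        mul_le_mul_of_nonneg_left (min_le_left _ _) hn1.le
      _ = 1 := by field_simp
  have hκ2 : (n + 1) * κ * a ≤ η / 2 := by
    calc (n + 1) * κ * a ≤ (n + 1) * (η / (2 * (n + 1) * a)) * a := by
          refine mul_le_mul_of_nonneg_right (mul_le_mul_of_nonneg_left (min_le_right _ _) hn1.le)
            ha0.le
      _ = η / 2 := by field_simp
  set ρ := min (κ * a / 2) (η / 2) with hρ
  have hρ0 : 0 < ρ := lt_min (by positivity) (by linarith)
  let θ : Fin (n + 1) → ℝ := fun k => (k + 1) * κ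
  have hkle : ∀ k : Fin (n + 1), ((k : ℕ) : ℝ) + 1 ≤ n + 1 := by
    intro k
    have : (k : ℕ) + 1 ≤ n + 1 := k.isLt
    exact_mod_cast this
  have hθ : ∀ k, θ k ∈ Icc (0 : ℝ) 1 := by
    intro k
    refine ⟨by simp only [θ]; positivity, ?_⟩
    calc θ k ≤ (n + 1) * κ := mul_le_mul_of_nonneg_right (hkle k) hκ0.le
      _ ≤ 1 := hκ1
  have hM := fun k => hmov (θ k) (hθ k) ρ hρ0
  choose H hH0 hHev using hM
  have hall := Filter.eventually_all.mpr hHev
  have hnear : ∀ᶠ x' : Fin m → ℝ in 𝓝 x, dist x' x < η := by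
    have := Metric.ball_mem_nhds x hη
    exact this
  obtain ⟨z, hz1, hz2, hz3⟩ := hx _ (hall.and hnear) (G * ∏ k, H k)
    (mul_ne_zero hG (Finset.prod_ne_zero_iff.mpr fun k _ => hH0 k))
  obtain ⟨hz1a, hz1b⟩ := hz1
  rw [map_mul, map_prod] at hz2
  have hzG := left_ne_zero_of_mul hz2
  have hzH := Finset.prod_ne_zero_iff.mp (right_ne_zero_of_mul hz2)
  have hs := fun k => hz1a k z (fun j => rfl) (hzH k (Finset.mem_univ k)) hz3
  choose s hs1 hs2 using hs
  have hinj : Function.Injective s := by
    intro k l hkl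
    by_contra hne
    have h1 := hs1 k
    have h2 := hs1 l
    rw [← hkl] at h2
    have h3 : |(θ k - θ l) * (x i - t)| < 2 * ρ := by
      calc |(θ k - θ l) * (x i - t)| = |((s k : ℝ) - (t + θ l * (x i - t))) -
            ((s k : ℝ) - (t + θ k * (x i - t)))| := by ring_nf
        _ ≤ |(s k : ℝ) - (t + θ l * (x i - t))| + |(s k : ℝ) - (t + θ k * (x i - t))| := abs_sub _ _
        _ < 2 * ρ := by linarith
    rw [abs_mul, ← ha] at h3
    have h4 : κ ≤ |θ k - θ l| := by
      have e1 : θ k - θ l = (((k : ℕ) : ℝ) - ((l : ℕ) : ℝ)) * κ := by simp only [θ]; ring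
      rw [e1, abs_mul, abs_of_pos hκ0]
      have h5 : (1 : ℝ) ≤ |((k : ℕ) : ℝ) - ((l : ℕ) : ℝ)| := by
        have hkl' : ((k : ℕ) : ℤ) - ((l : ℕ) : ℤ) ≠ 0 := by
          intro h
          apply hne
          apply Fin.ext
          omega
        have h6 := Int.one_le_abs hkl'
        have h7 : ((1 : ℤ) : ℝ) ≤ ((|((k : ℕ) : ℤ) - ((l : ℕ) : ℤ)| : ℤ) : ℝ) := by
          exact_mod_cast h6
        push_cast at h7
        exact h7
      calc κ = 1 * κ := (one_mul _).symm
        _ ≤ _ := mul_le_mul_of_nonneg_right h5 hκ0.le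
    have h5 : κ * a ≤ |θ k - θ l| * a := mul_le_mul_of_nonneg_right h4 ha0.le
    have h6 : 2 * ρ ≤ κ * a := by
      have := min_le_left (κ * a / 2) (η / 2)
      rw [← hρ] at this
      linarith
    linarith
  obtain ⟨k, hk⟩ := exists_slice_ne hzG (le_refl _) s hinj
  refine ⟨Function.update z i (s k), ?_, hk, hs2 k⟩
  apply hVη
  rw [Metric.mem_ball, dist_pi_lt_iff hη]
  intro j
  by_cases hj : j = i
  · subst hj
    rw [Function.update_self, Function.update_self, Real.dist_eq]
    have h1 := hs1 k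
    have h2 : |θ k * (x j - t)| ≤ η / 2 := by
      rw [abs_mul, abs_of_nonneg (hθ k).1, ← ha]
      calc θ k * a ≤ (n + 1) * κ * a :=
            mul_le_mul_of_nonneg_right (mul_le_mul_of_nonneg_right (hkle k) hκ0.le) ha0.le
        _ ≤ η / 2 := hκ2
    calc |(s k : ℝ) - t| = |((s k : ℝ) - (t + θ k * (x j - t))) + θ k * (x j - t)| := by ring_nf
      _ ≤ |(s k : ℝ) - (t + θ k * (x j - t))| + |θ k * (x j - t)| := abs_add_le _ _
      _ < η := by
        have := min_le_right (κ * a / 2) (η / 2)
        rw [← hρ] at this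
        linarith
  · rw [Function.update_of_ne hj, Function.update_of_ne hj]
    exact lt_of_le_of_lt (dist_le_pi_dist (fun j => (z j : ℝ)) x j) hz1b

/-- The condition on `D` needed for the moves. -/
def Good (D : MvPolynomial (Fin m) ℚ) : Prop :=
  ∀ i, D.degreeOf i ≤ 2 ∨ (D.degreeOf i ≤ 4 ∧ disc4 (tcf D i) ≠ 0)

open Classical in
/-- The product of the discriminants of `D` in all directions. -/
noncomputable def bigDisc (D : MvPolynomial (Fin m) ℚ) : MvPolynomial (Fin m) ℚ :=
  ∏ i, if D.degreeOf i ≤ 2 then 1 else disc4 (tcf D i)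

theorem bigDisc_ne_zero {D : MvPolynomial (Fin m) ℚ} (hD : Good D) : bigDisc D ≠ 0 := by
  classical
  unfold bigDisc
  rw [Finset.prod_ne_zero_iff]
  intro i _
  by_cases h : D.degreeOf i ≤ 2
  · simp [h]
  · simp only [h, if_false]
    exact ((hD i).resolve_left h).2

theorem ZL.move_pos {D : MvPolynomial (Fin m) ℚ} (hD : Good D) {i : Fin m} {x : Fin m → ℝ} {t : ℝ}
    (hx : ZL D x)
    (hpos : ∀ τ ∈ Icc (0 : ℝ) 1,
      0 < (MvPolynomial.aeval (Function.update x i (x i + τ * (t - x i))) D : ℝ))
    (hdisc : (MvPolynomial.aeval x (bigDisc D) : ℝ) ≠ 0) :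
    ZL D (Function.update x i t) := by
  classical
  apply hx.move
  intro θ hθ
  have hseg : ∀ τ ∈ Icc (0 : ℝ) 1, 0 < (MvPolynomial.aeval (Function.update x i
      (x i + τ * (t + θ * (x i - t) - x i))) D : ℝ) := by
    intro τ hτ
    have := hpos (τ * (1 - θ)) ⟨mul_nonneg hτ.1 (by linarith [hθ.2]),
      mul_le_one₀ hτ.2 (by linarith [hθ.2]) (by linarith [hθ.1])⟩
    convert this using 4
    ring
  rcases hD i with h2 | ⟨h4, hd0⟩
  · apply movable_conic h2
    have := hseg 1 ⟨zero_le_one, le_refl _⟩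
    convert this using 4
    ring
  · by_cases h2 : D.degreeOf i ≤ 2
    · apply movable_conic h2
      have := hseg 1 ⟨zero_le_one, le_refl _⟩
      convert this using 4
      ring
    · refine movable_quartic h4 hseg ?_
      intro h
      apply hdisc
      unfold bigDisc
      rw [map_prod]
      apply Finset.prod_eq_zero (Finset.mem_univ i)
      simp only [h2, if_false]
      exact h

theorem ZL.sqLim {D : MvPolynomial (Fin m) ℚ} {x : Fin m → ℝ} (hx : ZL D x) : SqLim D x := by
  intro ε hε
  obtain ⟨z, hz, -, hy⟩ := hx (Metric.ball x ε) (Metric.ball_mem_nhds x hε) 1 one_ne_zero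
  rw [Metric.mem_ball, dist_pi_lt_iff hε] at hz
  exact ⟨z, fun j => by have := hz j; rwa [Real.dist_eq] at this, hy⟩

theorem isClosed_sqLim (D : MvPolynomial (Fin m) ℚ) : IsClosed {x | SqLim D x} := by
  rw [← closure_subset_iff_isClosed]
  intro x hx
  refine SqLim.of_near fun ε hε => ?_
  obtain ⟨x', hx', hd⟩ := Metric.mem_closure_iff.mp hx ε hε
  refine ⟨x', fun j => ?_, hx'⟩
  rw [dist_pi_lt_iff hε] at hd
  have := hd j
  rw [Real.dist_eq, abs_sub_comm] at this
  exact this

/-- nonvanishing of a nonzero polynomial is dense -/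
theorem exists_rat_ne_zero {G : MvPolynomial (Fin m) ℚ} (hG : G ≠ 0) {x : Fin m → ℝ}
    {V : Set (Fin m → ℝ)} (hV : V ∈ 𝓝 x) :
    ∃ z : Fin m → ℚ, (fun j => (z j : ℝ)) ∈ V ∧ MvPolynomial.eval z G ≠ 0 := by
  rw [Metric.mem_nhds_iff] at hV
  obtain ⟨r, hr, hrV⟩ := hV
  by_contra hcon
  push Not at hcon
  apply hG
  refine MvPolynomial.funext_set (fun j => {q : ℚ | |(q : ℝ) - x j| < r}) (fun j => ?_) ?_
  · intro hfin
    obtain ⟨q₀, hq₀, hmax⟩ := hfin.exists_maximal (by
      obtain ⟨q, h1, h2⟩ := exists_rat_btwn (show x j - r < x j + r by linarith)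
      exact ⟨q, by rw [mem_ofPred_eq, abs_lt]; constructor <;> linarith⟩)
    rw [mem_ofPred_eq, abs_lt] at hq₀
    obtain ⟨q, h1, h2⟩ := exists_rat_btwn (show (q₀ : ℝ) < x j + r by linarith [hq₀.2])
    have h3 : q₀ < q := by exact_mod_cast h1
    have h4 : q ≤ q₀ := hmax (by
      show |(q : ℝ) - x j| < r
      rw [abs_lt]; constructor <;> linarith [hq₀.1]) h3.le
    exact absurd h3 (not_lt.mpr h4)
  · intro z hz
    rw [map_zero]
    apply hcon
    apply hrV
    rw [Metric.mem_ball, dist_pi_lt_iff hr]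
    intro j
    have := hz j (Set.mem_univ j)
    rw [Real.dist_eq]; exact this

theorem zl_of_interior {D : MvPolynomial (Fin m) ℚ} {x : Fin m → ℝ}
    (hx : x ∈ interior {x | SqLim D x}) : ZL D x := by
  intro V hV G hG
  obtain ⟨z₀, hz₀, hG0⟩ := exists_rat_ne_zero hG (x := x)
    (V := interior {x | SqLim D x} ∩ interior V)
    (Filter.inter_mem (isOpen_interior.mem_nhds hx) (interior_mem_nhds.mpr hV))
  have hlim : SqLim D (fun j => (z₀ j : ℝ)) := interior_subset hz₀.1
  have h1 : ∀ᶠ w in 𝓝 (fun j => (z₀ j : ℝ)), (MvPolynomial.aeval w G : ℝ) ≠ 0 := by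
    apply (continuous_aeval G).continuousAt.eventually_ne
    rw [aeval_ratCast]
    exact_mod_cast hG0
  have h2 : ∀ᶠ w in 𝓝 (fun j => (z₀ j : ℝ)), w ∈ V := by
    have := isOpen_interior.mem_nhds hz₀.2
    exact Filter.mem_of_superset this interior_subset
  have h3 := h1.and h2
  rw [Metric.eventually_nhds_iff] at h3
  obtain ⟨ε, hε, h3⟩ := h3
  obtain ⟨z, hz, hy⟩ := hlim ε hε
  obtain ⟨h4, h5⟩ := h3 (y := fun j => (z j : ℝ)) (by
    rw [dist_pi_lt_iff hε]; intro j; rw [Real.dist_eq]; exact hz j)
  refine ⟨z, h5, ?_, hy⟩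
  intro h
  rw [aeval_ratCast, h] at h4
  simp at h4

theorem mem_interior_of_closure {D : MvPolynomial (Fin m) ℚ} (hD : Good D) {x : Fin m → ℝ}
    (hx : 0 < (MvPolynomial.aeval x D : ℝ)) (hxc : x ∈ closure (interior {x | SqLim D x})) :
    x ∈ interior {x | SqLim D x} := by
  classical
  have h1 : ∀ᶠ w in 𝓝 x, 0 < (MvPolynomial.aeval w D : ℝ) :=
    continuousAt_const.eventually_lt (continuous_aeval D).continuousAt hx
  rw [Metric.eventually_nhds_iff] at h1
  obtain ⟨r, hr, hpos⟩ := h1
  have hposb : ∀ w : Fin m → ℝ, (∀ j, |w j - x j| < r) → 0 < (MvPolynomial.aeval w D : ℝ) := by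
    intro w hw
    apply hpos
    rw [dist_pi_lt_iff hr]
    intro j; rw [Real.dist_eq]; exact hw j
  obtain ⟨x₁, hx₁, hd₁⟩ := Metric.mem_closure_iff.mp hxc r hr
  rw [dist_comm] at hd₁
  obtain ⟨r', hr', hball⟩ := Metric.isOpen_iff.mp isOpen_interior x₁ hx₁
  set r₁ := min r' (r - dist x₁ x) with hr₁
  have hr₁0 : 0 < r₁ := lt_min hr' (by linarith)
  have hr₁1 : r₁ ≤ r' := min_le_left _ _
  have hr₁2 : r₁ ≤ r - dist x₁ x := min_le_right _ _
  have hsub : ∀ (j : Fin m) (u : ℝ), |u - x₁ j| < r₁ → |u - x j| < r := by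
    intro j u hu
    have h2 : |x₁ j - x j| ≤ dist x₁ x := by
      have := dist_le_pi_dist x₁ x j
      rwa [Real.dist_eq] at this
    calc |u - x j| = |(u - x₁ j) + (x₁ j - x j)| := by ring_nf
      _ ≤ |u - x₁ j| + |x₁ j - x j| := abs_add_le _ _
      _ < r := by linarith
  have key : ∀ s : Finset (Fin m), ∀ w : Fin m → ℝ, (∀ j ∈ s, |w j - x j| < r) →
      (∀ j ∉ s, |w j - x₁ j| < r₁) → SqLim D w := by
    intro s
    induction s using Finset.induction_on with
    | empty =>
      intro w _ hw
      have : w ∈ interior {x | SqLim D x} := by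
        apply hball
        rw [Metric.mem_ball, dist_pi_lt_iff hr']
        intro j
        rw [Real.dist_eq]
        exact lt_of_lt_of_le (hw j (by simp)) hr₁1
      exact interior_subset this
    | insert i s hi ih =>
      intro w hw1 hw2
      set U : Set (Fin m → ℝ) := {w | (∀ j ∈ s, |w j - x j| < r) ∧ ∀ j ∉ s, |w j - x₁ j| < r₁}
        with hU
      have hUopen : IsOpen U := by
        have : U = (⋂ j ∈ s, {w : Fin m → ℝ | |w j - x j| < r}) ∩
            ⋂ j ∈ (sᶜ : Finset (Fin m)), {w : Fin m → ℝ | |w j - x₁ j| < r₁} := by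
          ext w; simp [hU]
        rw [this]
        refine IsOpen.inter ?_ ?_
        · refine isOpen_biInter_finset fun j _ => isOpen_lt ?_ continuous_const
          exact ((continuous_apply j).sub continuous_const).abs
        · refine isOpen_biInter_finset fun j _ => isOpen_lt ?_ continuous_const
          exact ((continuous_apply j).sub continuous_const).abs
      have hUsub : U ⊆ interior {x | SqLim D x} := by
        apply interior_maximal _ hUopen
        intro w hw
        exact ih w hw.1 hw.2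
      set w' := Function.update w i (x₁ i) with hw'
      have hw'U : w' ∈ U := by
        constructor
        · intro j hj
          have hji : j ≠ i := fun h => hi (h ▸ hj)
          rw [hw', Function.update_of_ne hji]
          exact hw1 j (Finset.mem_insert_of_mem hj)
        · intro j hj
          by_cases hji : j = i
          · subst hji
            rw [hw', Function.update_self, sub_self, abs_zero]; exact hr₁0
          · rw [hw', Function.update_of_ne hji]
            exact hw2 j (by simp [hji, hj])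
      refine SqLim.of_near fun ε hε => ?_
      obtain ⟨z, hz, hzd⟩ := exists_rat_ne_zero (bigDisc_ne_zero hD) (x := w')
        (V := U ∩ Metric.ball w' ε) (Filter.inter_mem (hUopen.mem_nhds hw'U)
          (Metric.ball_mem_nhds w' hε))
      set w'' : Fin m → ℝ := fun j => (z j : ℝ) with hw''
      have hzl : ZL D w'' := zl_of_interior (hUsub hz.1)
      have hall : ∀ j, |w'' j - x j| < r := by
        intro j
        by_cases hj : j ∈ s
        · exact hz.1.1 j hj
        · exact hsub j _ (hz.1.2 j hj)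
      have hwi : |w i - x i| < r := hw1 i (Finset.mem_insert_self i s)
      have hmove := hzl.move_pos hD (i := i) (t := w i) (by
        intro τ hτ
        apply hposb
        intro j
        by_cases hj : j = i
        · subst hj
          rw [Function.update_self]
          have e : w'' j + τ * (w j - w'' j) - x j =
              (1 - τ) * (w'' j - x j) + τ * (w j - x j) := by ring
          rw [e]
          have a1 := abs_lt.mp (hall j)
          have a2 := abs_lt.mp hwi
          have t1 : 0 ≤ 1 - τ := by linarith [hτ.2]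
          have t0 := hτ.1
          rw [abs_lt]
          rcases t0.eq_or_lt with h | h
          · rw [← h]; constructor <;> linarith
          · constructor <;> nlinarith
        · rw [Function.update_of_ne hj]; exact hall j) (by
        rw [hw'', aeval_ratCast]; exact_mod_cast hzd)
      refine ⟨_, ?_, hmove.sqLim⟩
      intro j
      by_cases hj : j = i
      · subst hj
        rw [Function.update_self, sub_self, abs_zero]; exact hε
      · rw [Function.update_of_ne hj]
        have := hz.2
        rw [Metric.mem_ball, dist_pi_lt_iff hε] at this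
        have h2 := this j
        rw [hw', Function.update_of_ne hj, Real.dist_eq] at h2
        exact h2
  rw [mem_interior_iff_mem_nhds, Metric.mem_nhds_iff]
  refine ⟨r, hr, fun w hw => ?_⟩
  rw [Metric.mem_ball, dist_pi_lt_iff hr] at hw
  exact key Finset.univ w (fun j _ => by have := hw j; rwa [Real.dist_eq] at this)
    (fun j hj => absurd (Finset.mem_univ j) hj)

theorem mem_interior_of_zl {D : MvPolynomial (Fin m) ℚ} (hD : Good D) {x : Fin m → ℝ}
    (hx : 0 < (MvPolynomial.aeval x D : ℝ)) (hdisc : (MvPolynomial.aeval x (bigDisc D) : ℝ) ≠ 0)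
    (hzl : ZL D x) : x ∈ interior {x | SqLim D x} := by
  classical
  have h1 : ∀ᶠ w in 𝓝 x, 0 < (MvPolynomial.aeval w D : ℝ) :=
    continuousAt_const.eventually_lt (continuous_aeval D).continuousAt hx
  have h2 : ∀ᶠ w in 𝓝 x, (MvPolynomial.aeval w (bigDisc D) : ℝ) ≠ 0 :=
    (continuous_aeval (bigDisc D)).continuousAt.eventually_ne hdisc
  have h3 := h1.and h2
  rw [Metric.eventually_nhds_iff] at h3
  obtain ⟨r, hr, hpos⟩ := h3
  have hposb : ∀ w : Fin m → ℝ, (∀ j, |w j - x j| < r) → 0 < (MvPolynomial.aeval w D : ℝ) ∧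
      (MvPolynomial.aeval w (bigDisc D) : ℝ) ≠ 0 := by
    intro w hw
    apply hpos
    rw [dist_pi_lt_iff hr]
    intro j; rw [Real.dist_eq]; exact hw j
  have key : ∀ s : Finset (Fin m), ∀ w : Fin m → ℝ, (∀ j, |w j - x j| < r) →
      (∀ j ∉ s, w j = x j) → ZL D w := by
    intro s
    induction s using Finset.induction_on with
    | empty =>
      intro w _ hw
      have : w = x := funext fun j => hw j (by simp)
      rw [this]; exact hzl
    | insert i s hi ih =>
      intro w hw1 hw2
      have hz := ih (Function.update w i (x i)) (by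
        intro j
        by_cases hj : j = i
        · subst hj; rw [Function.update_self, sub_self, abs_zero]; exact hr
        · rw [Function.update_of_ne hj]; exact hw1 j) (by
        intro j hj
        by_cases hji : j = i
        · subst hji; rw [Function.update_self]
        · rw [Function.update_of_ne hji]
          exact hw2 j (by simp [hji, hj]))
      have := hz.move_pos hD (i := i) (t := w i) (by
        intro τ hτ
        refine (hposb _ ?_).1
        intro j
        by_cases hj : j = i
        · subst hj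
          rw [Function.update_self, Function.update_self]
          have a2 := hw1 j
          have e : x j + τ * (w j - x j) - x j = τ * (w j - x j) := by ring
          rw [e, abs_mul, abs_of_nonneg hτ.1]
          calc τ * |w j - x j| ≤ 1 * |w j - x j| :=
                mul_le_mul_of_nonneg_right hτ.2 (abs_nonneg _)
            _ < r := by rw [one_mul]; exact a2
        · rw [Function.update_of_ne hj, Function.update_of_ne hj]; exact hw1 j) (by
        refine (hposb _ ?_).2
        intro j
        by_cases hj : j = i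
        · subst hj; rw [Function.update_self, sub_self, abs_zero]; exact hr
        · rw [Function.update_of_ne hj]; exact hw1 j)
      rw [Function.update_idem, Function.update_eq_self] at this
      exact this
  rw [mem_interior_iff_mem_nhds, Metric.mem_nhds_iff]
  refine ⟨r, hr, fun w hw => ?_⟩
  rw [Metric.mem_ball, dist_pi_lt_iff hr] at hw
  exact (key Finset.univ w (fun j => by have := hw j; rwa [Real.dist_eq] at this)
    (fun j hj => absurd (Finset.mem_univ j) hj)).sqLim

end Pool.Agent.Lib.MP42
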